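import Pool.Agent.ETA.StA

/-!
# ETA: orders of the values of the action (ACO)
-/

set_option autoImplicit false
set_option linter.unusedVariables false
set_option linter.unusedSectionVars false

namespace ETA

open PowerSeries ETD

theorem thm_ACO (h : St_OPB) (h' : St_ACT) : St_ACO := by
  intro k _ p _ _ B
  have hp : p.Prime := Fact.out
  obtain ⟨-, -, o3, o4, o5, -⟩ := h k p B
  obtain ⟨a1, -, -, a4, a5, -, a7, -⟩ := h' k p B
  have b1 : ∀ (m : ℕ) (w : k⟦X⟧), X ∣ w → act p B (X ^ m) w = (B.f p)^[m] w := by
    intro m w hw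
    induction m generalizing w with
    | zero =>
      rw [pow_zero, (a4 w hw).1]
      rfl
    | succ m ih =>
      have h1 : X ∣ B.f p w := by
        rw [← (a4 w hw).2]
        exact a7 X w hw
      rw [pow_succ, a5 _ _ w hw, (a4 w hw).2, ih _ h1, Function.iterate_succ_apply]
  have b2 : ∀ (m : ℕ) (φ : (ZMod p)⟦X⟧) (w : k⟦X⟧), X ∣ w →
      act p B (X ^ m * φ) w = (B.f p)^[m] (act p B φ w) := by
    intro m φ w hw
    rw [a5 _ _ w hw, b1 m _ (a7 φ w hw)]
  have b3 : ∀ (m : ℕ) (η : (ZMod p)⟦X⟧) (w : k⟦X⟧) (d : ℕ), IsUnit η → 0 < d → Od w d →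
      Od (act p B (X ^ m * η) w) (d * p ^ (B.u * m)) := by
    intro m η w d hη hd hw
    have hX : X ∣ w := (dvd_pow_self X hd.ne').trans hw.dvd
    rw [b2 m η w hX]
    have h1 : Od (act p B η w) d := by
      have h2 := a1 η w (d + 1) hX
      obtain ⟨v, hv⟩ := h2
      have h3 : act p B η w = sc k p (coeff 0 η) * w + ((∑ i ∈ Finset.range d,
          sc k p (coeff (i + 1) η) * (B.f p)^[i + 1] w) + X ^ (d + 1) * v) := by
        rw [← hv, Finset.sum_range_succ', Function.iterate_zero_apply]
        ring
      rw [h3]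
      refine Od.add ?_ (dvd_add (Finset.dvd_sum fun i _ => Dvd.dvd.mul_left ?_ _)
        (dvd_mul_right _ _))
      · obtain ⟨η', hη', h4⟩ := hw
        refine ⟨sc k p (coeff 0 η) * η', ?_, ?_⟩
        · refine IsUnit.mul ?_ hη'
          have h5 : IsUnit (coeff 0 η) := by
            rw [coeff_zero_eq_constantCoeff_apply]
            exact hη.map (constantCoeff (R := ZMod p))
          have h6 : sc k p (coeff 0 η) = ((C : k →+* k⟦X⟧).comp
            (ZMod.castHom (dvd_refl p) k)) (coeff 0 η) := rfl
          rw [h6]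
          exact h5.map _
        · rw [h4]
          ring
      · have h4 : ∀ j : ℕ, X ^ (d * p ^ j) ∣ (B.f p)^[j] w := by
          intro j
          induction j with
          | zero =>
            rw [pow_zero, mul_one]
            exact hw.dvd
          | succ j ih =>
            rw [Function.iterate_succ_apply', pow_succ, ← mul_assoc]
            exact o3 _ _ ih
        refine (pow_dvd_pow _ ?_).trans (h4 (i + 1))
        have h5 : 2 ≤ p ^ (i + 1) := by
          calc 2 ≤ p := hp.two_le
            _ = p ^ 1 := (pow_one p).symm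
            _ ≤ p ^ (i + 1) := Nat.pow_le_pow_right hp.pos (by omega)
        nlinarith
    clear hw
    induction m with
    | zero =>
      rw [mul_zero, pow_zero, mul_one]
      exact h1
    | succ m ih =>
      rw [Function.iterate_succ_apply', Nat.mul_succ, pow_add, ← mul_assoc]
      exact o5 _ _ (Nat.mul_pos hd (pow_pos hp.pos _)) ih
  refine ⟨b1, ?_, b3, ?_⟩
  · intro m φ w hw
    rw [b2 m φ w hw]
    have h1 : Ex 1 (act p B φ w) := ex_one (a7 φ w hw)
    induction m with
    | zero =>
      rw [mul_zero, pow_zero]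
      exact h1
    | succ m ih =>
      rw [Function.iterate_succ_apply', Nat.mul_succ, pow_add]
      exact o4 _ _ ih
  · intro φ w hφ hw hw0
    obtain ⟨m, η, hη, rfl⟩ := exists_Od (k := ZMod p) hφ
    obtain ⟨d, hd⟩ := exists_Od hw0
    exact (b3 m η w d hη (hd.pos hw) hd).ne_zero

end ETA
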