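import Pool.Agent.ETA.StA

/-!
# ETA, [ACS]: the action is given by power series over `k`
-/

set_option autoImplicit false
set_option linter.unusedVariables false

namespace ETA

open PowerSeries ETD

section

variable {k : Type} [Field k]

private theorem ACS_eq_of_dvd {f g : k⟦X⟧} (h : ∀ N : ℕ, (X : k⟦X⟧) ^ N ∣ f - g) : f = g := by
  refine PowerSeries.ext fun j => ?_
  have h1 := X_pow_dvd_iff.1 (h (j + 1)) j (Nat.lt_succ_self j)
  rw [map_sub, sub_eq_zero] at h1
  exact h1

private theorem ACS_hs {y : k⟦X⟧} (hy : X ∣ y) : PowerSeries.HasSubst y :=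
  PowerSeries.HasSubst.of_constantCoeff_zero (X_dvd_iff.1 hy)

private theorem ACS_subst_C {y : k⟦X⟧} (hy : X ∣ y) (c : k) :
    PowerSeries.subst y (C c) = (C c : k⟦X⟧) := by
  have h1 : (C c : k⟦X⟧) = algebraMap k k⟦X⟧ c := rfl
  rw [← PowerSeries.coe_substAlgHom (ACS_hs hy), h1, AlgHom.commutes]

private theorem ACS_iter (hB : St_OPB) (p : ℕ) [Fact p.Prime] [CharP k p] (B : Op k) {y : k⟦X⟧}
    (hy : X ∣ y) (i : ℕ) : PowerSeries.subst y ((B.f p)^[i] X) = (B.f p)^[i] y := by
  induction i with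
  | zero => exact PowerSeries.subst_X (ACS_hs hy)
  | succ i ih =>
    rw [Function.iterate_succ_apply', Function.iterate_succ_apply', ← ih]
    exact ((hB k p B).2.2.2.2.2 _ y hy).symm

private theorem ACS_subst_act (hB : St_OPB) (hA : St_ACT) (p : ℕ) [Fact p.Prime] [CharP k p]
    (B : Op k) (φ : (ZMod p)⟦X⟧) {y : k⟦X⟧} (hy : X ∣ y) :
    PowerSeries.subst y (act p B φ X) = act p B φ y := by
  refine ACS_eq_of_dvd fun N => ?_
  obtain ⟨v, hv⟩ := (hA k p B).1 φ X N dvd_rfl
  have h2 := (hA k p B).1 φ y N hy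
  have h3 : act p B φ X = (∑ i ∈ Finset.range N, sc k p (coeff i φ) * (B.f p)^[i] X) +
      X ^ N * v := by
    rw [← hv]
    ring
  have h4 : PowerSeries.subst y (act p B φ X) =
      (∑ i ∈ Finset.range N, sc k p (coeff i φ) * (B.f p)^[i] y) +
        y ^ N * PowerSeries.subst y v := by
    rw [h3, ← PowerSeries.coe_substAlgHom (ACS_hs hy), map_add, map_sum, map_mul, map_pow,
      PowerSeries.coe_substAlgHom (ACS_hs hy), PowerSeries.subst_X (ACS_hs hy)]
    congr 1
    refine Finset.sum_congr rfl fun i _ => ?_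
    rw [PowerSeries.subst_mul (ACS_hs hy), ACS_iter hB p B hy i, sc, ACS_subst_C hy]
  rw [h4]
  have h5 : (X : k⟦X⟧) ^ N ∣ y ^ N * PowerSeries.subst y v :=
    (pow_dvd_pow_of_dvd hy N).mul_right _
  have h6 : (∑ i ∈ Finset.range N, sc k p (coeff i φ) * (B.f p)^[i] y) +
        y ^ N * PowerSeries.subst y v - act p B φ y =
      y ^ N * PowerSeries.subst y v -
        (act p B φ y - ∑ i ∈ Finset.range N, sc k p (coeff i φ) * (B.f p)^[i] y) := by
    ring
  rw [h6]
  exact dvd_sub h5 h2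

end

theorem thm_ACS (hB : St_OPB) (hA : St_ACT) : St_ACS := by
  intro k _ p _ _ B φ
  have hX : ∀ i : Fin 2, PowerSeries.HasSubst (MvPowerSeries.X i : MvPowerSeries (Fin 2) k) :=
    fun i => PowerSeries.HasSubst.of_constantCoeff_zero (MvPowerSeries.constantCoeff_X i)
  refine ⟨fun i => PowerSeries.subst (MvPowerSeries.X i : MvPowerSeries (Fin 2) k)
    (act p (B i) (φ i) (X : k⟦X⟧)), fun i => ?_, fun z hz i => ?_⟩
  · obtain ⟨v, hv⟩ := (hA k p (B i)).2.2.2.2.2.2.1 (φ i) X dvd_rfl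
    show MvPowerSeries.constantCoeff (PowerSeries.subst _ _) = 0
    rw [hv, PowerSeries.subst_mul (hX i), PowerSeries.subst_X (hX i), map_mul,
      MvPowerSeries.constantCoeff_X, zero_mul]
  · show e z (PowerSeries.subst _ _) = _
    rw [← ACS_subst_act hB hA p (B i) (φ i) (hz i)]
    unfold e PowerSeries.subst
    have h1 : MvPowerSeries.HasSubst (fun _ : Unit => (MvPowerSeries.X i : MvPowerSeries (Fin 2) k)) :=
      (hX i).const
    rw [MvPowerSeries.subst_comp_subst_apply h1 hz.hs, MvPowerSeries.subst_X hz.hs]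

end ETA
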