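import Pool.Agent.ETA.StA

/-!
# ETA: properties of the action of the power series (ACT)
-/

set_option autoImplicit false
set_option linter.unusedVariables false
set_option linter.unusedSectionVars false

namespace ETA

open PowerSeries ETD

variable {k : Type} [Field k]

/-- `sc` as a homomorphism -/
private noncomputable def ACT_sc (k : Type) [Field k] (p : ℕ) [CharP k p] : ZMod p →+* k⟦X⟧ :=
  (C : k →+* k⟦X⟧).comp (ZMod.castHom (dvd_refl p) k)

private theorem ACT_sc_eq (p : ℕ) [CharP k p] (c : ZMod p) : sc k p c = ACT_sc k p c := rfl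

private theorem ACT_eq {a b : k⟦X⟧} (h : ∀ N : ℕ, X ^ N ∣ a - b) : a = b := by
  refine PowerSeries.ext fun m => ?_
  have h1 := (X_pow_dvd_iff.1 (h (m + 1))) m (Nat.lt_succ_self m)
  rw [map_sub, sub_eq_zero] at h1
  exact h1

private theorem ACT_coeff (p : ℕ) [CharP k p] (B : Op k) (φ : (ZMod p)⟦X⟧) (w : k⟦X⟧) (m : ℕ) :
    coeff m (act p B φ w) = coeff m (∑ i ∈ Finset.range (m + 1),
      sc k p (coeff i φ) * (B.f p)^[i] w) := by
  unfold act
  rw [coeff_mk]

theorem thm_ACT (h : St_OPB) : St_ACT := by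
  intro k _ p _ _ B
  have hp : p.Prime := Fact.out
  obtain ⟨o1, o2, o3, -, -, -⟩ := h k p B
  -- iterates
  have o0 : B.f p 0 = 0 := by
    have := o1 0 0
    rw [add_zero] at this
    exact left_eq_add.1 this
  have i0 : ∀ i : ℕ, (B.f p)^[i] 0 = 0 := by
    intro i
    induction i with
    | zero => rfl
    | succ i ih => rw [Function.iterate_succ_apply', ih, o0]
  have i1 : ∀ (i : ℕ) (w w' : k⟦X⟧), (B.f p)^[i] (w + w') = (B.f p)^[i] w + (B.f p)^[i] w' := by
    intro i w w'
    induction i with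
    | zero => rfl
    | succ i ih =>
      rw [Function.iterate_succ_apply', Function.iterate_succ_apply',
        Function.iterate_succ_apply', ih, o1]
  have i2 : ∀ (i : ℕ) (c : ZMod p) (w : k⟦X⟧),
      (B.f p)^[i] (sc k p c * w) = sc k p c * (B.f p)^[i] w := by
    intro i c w
    induction i with
    | zero => rfl
    | succ i ih => rw [Function.iterate_succ_apply', Function.iterate_succ_apply', ih, o2]
  have i3 : ∀ (i d : ℕ) (w : k⟦X⟧), X ^ d ∣ w → X ^ (d * p ^ i) ∣ (B.f p)^[i] w := by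
    intro i d w hw
    induction i with
    | zero => rwa [pow_zero, mul_one]
    | succ i ih =>
      rw [Function.iterate_succ_apply', pow_succ, ← mul_assoc]
      exact o3 _ _ ih
  have i4 : ∀ (i N : ℕ) (w : k⟦X⟧), X ^ N ∣ w → X ^ N ∣ (B.f p)^[i] w := fun i N w hw =>
    (pow_dvd_pow _ (Nat.le_mul_of_pos_right N (pow_pos hp.pos i))).trans (i3 i N w hw)
  have i5 : ∀ (i N : ℕ) (w : k⟦X⟧), X ∣ w → N ≤ i + 1 → X ^ N ∣ (B.f p)^[i] w := by
    intro i N w hw hN
    have h1 := i3 i 1 w (by rwa [pow_one])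
    rw [one_mul] at h1
    exact (pow_dvd_pow _ (hN.trans (Nat.lt_pow_self hp.one_lt))).trans h1
  have i6 : ∀ (i N : ℕ) (w w' : k⟦X⟧), X ^ N ∣ w - w' →
      X ^ N ∣ (B.f p)^[i] w - (B.f p)^[i] w' := by
    intro i N w w' hw
    have h1 := i1 i (w - w') w'
    rw [sub_add_cancel] at h1
    rw [h1, add_sub_cancel_right]
    exact i4 i N _ hw
  have i7 : ∀ (i : ℕ) (s : Finset ℕ) (g : ℕ → k⟦X⟧), (B.f p)^[i] (∑ j ∈ s, g j) =
      ∑ j ∈ s, (B.f p)^[i] (g j) := by
    intro i s g
    classical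
    induction s using Finset.induction_on with
    | empty => rw [Finset.sum_empty, Finset.sum_empty, i0]
    | insert j s hj ih => rw [Finset.sum_insert hj, Finset.sum_insert hj, i1, ih]
  -- (1)
  have a1 : ∀ (φ : (ZMod p)⟦X⟧) (w : k⟦X⟧) (N : ℕ), X ∣ w →
      X ^ N ∣ act p B φ w - ∑ i ∈ Finset.range N, sc k p (coeff i φ) * (B.f p)^[i] w := by
    intro φ w N hw
    rw [X_pow_dvd_iff]
    intro m hm
    rw [map_sub, ACT_coeff, sub_eq_zero]
    have h1 : ∑ i ∈ Finset.range N, sc k p (coeff i φ) * (B.f p)^[i] w =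
        ∑ i ∈ Finset.range (m + 1), sc k p (coeff i φ) * (B.f p)^[i] w +
          ∑ i ∈ Finset.Ico (m + 1) N, sc k p (coeff i φ) * (B.f p)^[i] w :=
      (Finset.sum_range_add_sum_Ico _ hm).symm
    rw [h1, map_add]
    have h2 : X ^ (m + 1) ∣ ∑ i ∈ Finset.Ico (m + 1) N, sc k p (coeff i φ) * (B.f p)^[i] w := by
      refine Finset.dvd_sum fun i hi => Dvd.dvd.mul_left (i5 i (m + 1) w hw ?_) _
      have := (Finset.mem_Ico.1 hi).1
      omega
    rw [(X_pow_dvd_iff.1 h2) m (Nat.lt_succ_self m), add_zero]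
  -- (2)
  have a2 : ∀ (φ φ' : (ZMod p)⟦X⟧) (w : k⟦X⟧),
      act p B (φ + φ') w = act p B φ w + act p B φ' w := by
    intro φ φ' w
    refine PowerSeries.ext fun m => ?_
    rw [map_add, ACT_coeff, ACT_coeff, ACT_coeff, ← map_add, ← Finset.sum_add_distrib]
    congr 1
    refine Finset.sum_congr rfl fun i _ => ?_
    rw [map_add, ACT_sc_eq, ACT_sc_eq, ACT_sc_eq, map_add, add_mul]
  -- (3)
  have a3 : ∀ (φ : (ZMod p)⟦X⟧) (w w' : k⟦X⟧),
      act p B φ (w + w') = act p B φ w + act p B φ w' := by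
    intro φ w w'
    refine PowerSeries.ext fun m => ?_
    rw [map_add, ACT_coeff, ACT_coeff, ACT_coeff, ← map_add, ← Finset.sum_add_distrib]
    congr 1
    refine Finset.sum_congr rfl fun i _ => ?_
    rw [i1, mul_add]
  have sc1 : sc k p 1 = 1 := by rw [ACT_sc_eq, map_one]
  have sc0 : sc k p 0 = 0 := by rw [ACT_sc_eq, map_zero]
  -- (4)
  have a4 : ∀ w : k⟦X⟧, X ∣ w → act p B 1 w = w ∧ act p B X w = B.f p w := by
    intro w hw
    constructor
    · refine PowerSeries.ext fun m => ?_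
      rw [ACT_coeff, Finset.sum_eq_single 0]
      · rw [coeff_zero_eq_constantCoeff_apply, map_one, sc1, one_mul]
        rfl
      · intro i _ hi
        rw [PowerSeries.coeff_one, if_neg hi, sc0, zero_mul]
      · intro h0
        exact absurd (Finset.mem_range.2 (Nat.succ_pos m)) h0
    · refine PowerSeries.ext fun m => ?_
      rw [ACT_coeff]
      have hne : ∀ i, i ≠ 1 → sc k p (coeff i (X : (ZMod p)⟦X⟧)) * (B.f p)^[i] w = 0 := by
        intro i hi
        rw [PowerSeries.coeff_X, if_neg hi, sc0, zero_mul]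
      rcases Nat.eq_zero_or_pos m with hm | hm
      · subst hm
        have h1 := i5 1 1 w hw (by omega)
        rw [Finset.sum_range_one, hne 0 (by omega), map_zero]
        exact ((X_pow_dvd_iff.1 h1) 0 (by omega)).symm
      · rw [Finset.sum_eq_single 1]
        · rw [PowerSeries.coeff_one_X, sc1, one_mul]
          rfl
        · intro i _ hi
          exact hne i hi
        · intro h0
          exact absurd (Finset.mem_range.2 (by omega)) h0
  have div : ∀ (φ : (ZMod p)⟦X⟧) (v : k⟦X⟧) (N : ℕ), X ^ N ∣ v → X ^ N ∣ act p B φ v := by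
    intro φ v N hv
    rw [X_pow_dvd_iff]
    intro m hm
    rw [ACT_coeff]
    have h1 : X ^ N ∣ ∑ i ∈ Finset.range (m + 1), sc k p (coeff i φ) * (B.f p)^[i] v :=
      Finset.dvd_sum fun i _ => Dvd.dvd.mul_left (i4 i N v hv) _
    exact (X_pow_dvd_iff.1 h1) m hm
  have a7 : ∀ (φ : (ZMod p)⟦X⟧) (w : k⟦X⟧), X ∣ w → X ∣ act p B φ w := by
    intro φ w hw
    have h1 := div φ w 1 (by rwa [pow_one])
    rwa [pow_one] at h1
  -- (5)
  have a5 : ∀ (φ φ' : (ZMod p)⟦X⟧) (w : k⟦X⟧), X ∣ w →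
      act p B (φ * φ') w = act p B φ (act p B φ' w) := by
    intro φ φ' w hw
    refine ACT_eq fun N => ?_
    obtain ⟨T, hT⟩ : ∃ T : ℕ → ℕ → k⟦X⟧, ∀ i j, T i j =
      sc k p (coeff i φ) * (sc k p (coeff j φ') * (B.f p)^[i + j] w) := ⟨_, fun _ _ => rfl⟩
    have b1 : X ^ N ∣ act p B (φ * φ') w -
        ∑ i ∈ Finset.range N, ∑ j ∈ Finset.range (N - i), T i j := by
      have h1 := a1 (φ * φ') w N hw
      have h2 : ∑ i ∈ Finset.range N, sc k p (coeff i (φ * φ')) * (B.f p)^[i] w =
          ∑ i ∈ Finset.range N, ∑ j ∈ Finset.range (N - i), T i j := by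
        rw [← Finset.sum_range_diag_flip]
        refine Finset.sum_congr rfl fun l _ => ?_
        rw [PowerSeries.coeff_mul, Finset.Nat.sum_antidiagonal_eq_sum_range_succ
          (fun i j => coeff i φ * coeff j φ'), ACT_sc_eq, map_sum, Finset.sum_mul]
        refine Finset.sum_congr rfl fun i hi => ?_
        have h3 : i + (l - i) = l := by
          have := Finset.mem_range.1 hi
          omega
        rw [hT, h3, map_mul, ACT_sc_eq, ACT_sc_eq, mul_assoc]
      rwa [h2] at h1
    have b2 := a1 φ (act p B φ' w) N (a7 φ' w hw)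
    have b3 : ∀ i, X ^ N ∣ sc k p (coeff i φ) * (B.f p)^[i] (act p B φ' w) -
        ∑ j ∈ Finset.range N, T i j := by
      intro i
      have h1 := i6 i N _ _ (a1 φ' w N hw)
      rw [i7] at h1
      have h2 : ∑ j ∈ Finset.range N, T i j = sc k p (coeff i φ) *
          ∑ j ∈ Finset.range N, (B.f p)^[i] (sc k p (coeff j φ') * (B.f p)^[j] w) := by
        rw [Finset.mul_sum]
        refine Finset.sum_congr rfl fun j _ => ?_
        rw [hT, i2, Function.iterate_add_apply]
      rw [h2, ← mul_sub]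
      exact Dvd.dvd.mul_left h1 _
    have b4 : ∀ i ∈ Finset.range N, X ^ N ∣ ∑ j ∈ Finset.range N, T i j -
        ∑ j ∈ Finset.range (N - i), T i j := by
      intro i hi
      rw [← Finset.sum_Ico_eq_sub _ (Nat.sub_le N i)]
      refine Finset.dvd_sum fun j hj => ?_
      rw [hT]
      refine Dvd.dvd.mul_left (Dvd.dvd.mul_left (i5 (i + j) N w hw ?_) _) _
      have := (Finset.mem_Ico.1 hj).1
      omega
    have b5 : X ^ N ∣ ∑ i ∈ Finset.range N, sc k p (coeff i φ) *
        (B.f p)^[i] (act p B φ' w) - ∑ i ∈ Finset.range N, ∑ j ∈ Finset.range (N - i), T i j := by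
      rw [← Finset.sum_sub_distrib]
      refine Finset.dvd_sum fun i hi => ?_
      have h1 := dvd_add (b3 i) (b4 i hi)
      rwa [sub_add_sub_cancel] at h1
    have h1 := dvd_sub b1 (dvd_add b2 b5)
    rwa [sub_add_sub_cancel, sub_sub_sub_cancel_right] at h1
  refine ⟨a1, a2, a3, a4, a5, ?_, a7, ?_⟩
  · intro φ φ' w N hw hN
    have h1 := a2 (φ - φ') φ' w
    rw [sub_add_cancel] at h1
    rw [h1, add_sub_cancel_right, X_pow_dvd_iff]
    intro m hm
    rw [ACT_coeff, Finset.sum_eq_zero, map_zero]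
    intro i hi
    have h2 := (X_pow_dvd_iff.1 hN) i (by
      have := Finset.mem_range.1 hi
      omega)
    rw [h2, sc0, zero_mul]
  · intro φ w w' N hN
    have h1 := a3 φ (w - w') w'
    rw [sub_add_cancel] at h1
    rw [h1, add_sub_cancel_right]
    exact div φ _ N hN

end ETA
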