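import Pool.Agent.ETA.StC

/-!
# ETA, [ADC]: additive closedness at an accumulation point
-/

set_option autoImplicit false
set_option linter.unusedVariables false

namespace ETA

open PowerSeries ETD

theorem thm_ADC (h1 : ETD.St_DIG) (h2 : St_DGC) (h3 : St_ACT) (h4 : St_ACO) (h5 : St_HTS)
    (h6 : St_TRA) : St_ADC := by
  intro k _ p _ _ B z hu hz hz0 φ₀ hφ₀ hF hacc φ hφ hkr hne
  have hp : 1 < p := (Fact.out : p.Prime).one_lt
  have hsm : ∀ φ : (ZMod p)⟦X⟧, Sm (pa p B z φ) := fun φ i =>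
    (h3 k p (B i)).2.2.2.2.2.2.1 φ (z i) (hz i)
  have hnz : ∀ φ : (ZMod p)⟦X⟧, φ ≠ 0 → ∃ i, pa p B z φ i ≠ 0 := fun φ hφ =>
    ⟨0, (h4 k p (B 0)).2.2.2 φ (z 0) hφ (hz 0) (hz0 0)⟩
  have hadd : ∀ φ φ' : (ZMod p)⟦X⟧, pa p B z (φ + φ') = fun i => pa p B z φ i + pa p B z φ' i :=
    fun φ φ' => funext fun i => (h3 k p (B i)).2.1 φ φ' (z i)
  obtain ⟨S, hS⟩ : (ker (hsm φ₀)).FG := IsNoetherian.noetherian _
  have hT := fun F : MvPowerSeries (Fin 2) k => h6 k 2 (pa p B z φ₀) (hsm φ₀) F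
  choose H hH0 hH1 using hT
  have hQ := fun F : MvPowerSeries (Fin 2) k => h2 k 2 0 (H F)
  choose q₀ hq₀ using hQ
  obtain ⟨φ', hne', hdvd, hkr'⟩ := hacc (S.sup q₀)
  have hd0 : φ' - φ₀ ≠ 0 := sub_ne_zero.2 hne'
  obtain ⟨m, hm⟩ := exists_Od hd0
  have hmN : S.sup q₀ ≤ m := hm.le (by rw [← neg_sub]; exact hdvd.neg_right)
  obtain ⟨η, hη, hη'⟩ := hm
  have hφ' : φ' = φ₀ + X ^ m * η := by rw [← hη', add_sub_cancel]
  have hEx : ∀ i, Ex (p ^ ((B 0).u * m)) (pa p B z (X ^ m * η) i) := by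
    intro i
    have h := (h4 k p (B i)).2.1 m η (z i) (hz i)
    have hi : (B i).u = (B 0).u := by
      fin_cases i
      · rfl
      · exact hu.symm
    rw [hi] at h
    exact h
  have hq : S.sup q₀ ≤ p ^ ((B 0).u * m) := by
    refine hmN.trans ?_
    have h7 : m ≤ (B 0).u * m := Nat.le_mul_of_pos_left m (B 0).hu
    exact h7.trans (Nat.lt_pow_self hp).le
  have hA : pa p B z φ' = fun i => pa p B z φ₀ i + pa p B z (X ^ m * η) i := by
    rw [hφ', hadd]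
  have hη0 : X ^ m * η ≠ 0 := by rw [← hη']; exact hd0
  -- the digits vanish at `A`
  have hdig : ∀ F ∈ S, ∀ G ∈ dI 0 (H F), e (pa p B z (X ^ m * η)) G = 0 := by
    intro F hFS
    refine (hq₀ F (p ^ ((B 0).u * m)) ((Finset.le_sup hFS).trans hq) (pa p B z (X ^ m * η))
      (pa p B z (X ^ m * η)) (hsm _) (fun i => by rw [pow_zero, one_mul]) hEx).1 ?_
    rw [hH1 F _ (hsm _), ← hA]
    have h7 : F ∈ kr (pa p B z φ₀) := by
      rw [mem_kr, ← mem_ker (hsm φ₀), ← hS]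
      exact Ideal.subset_span hFS
    rw [← hkr'] at h7
    exact h7
  have hmemS : ∀ F, F ∈ dI 0 (H F) := fun F => Ideal.subset_span ⟨0, hH0 F⟩
  have hsub : kr (pa p B z φ₀) ⊆ kr (pa p B z (X ^ m * η)) := by
    have h7 : ker (hsm φ₀) ≤ ker (hsm (X ^ m * η)) := by
      rw [← hS, Ideal.span_le]
      intro F hFS
      exact (mem_ker (hsm (X ^ m * η)) F).2 (hdig F hFS F (hmemS F))
    intro F hF
    exact (mem_ker (hsm (X ^ m * η)) F).1 (h7 ((mem_ker (hsm φ₀) F).2 hF))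
  have heq := h5 k _ _ (hsm φ₀) (hsm (X ^ m * η)) (hnz _ hη0) hF hsub
  -- the sum
  have hsub2 : kr (pa p B z φ₀) ⊆ kr (pa p B z (φ₀ + φ)) := by
    have h7 : ker (hsm φ₀) ≤ ker (hsm (φ₀ + φ)) := by
      rw [← hS, Ideal.span_le]
      intro F hFS
      refine (mem_ker (hsm (φ₀ + φ)) F).2 ?_
      have h8 := (h1 k 2 0 (H F)).1 1 one_ne_zero one_pos (pa p B z φ) (pa p B z φ) (hsm φ)
        (hsm φ) (fun i => by rw [pow_zero, one_mul, expand_one]; rfl) (by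
          intro G hG
          have h9 : G ∈ kr (pa p B z (X ^ m * η)) := hdig F hFS G hG
          rw [← heq, ← hkr] at h9
          exact h9)
      rw [hH1 F _ (hsm φ), ← hadd] at h8
      exact h8
    intro F hF
    exact (mem_ker (hsm (φ₀ + φ)) F).1 (h7 ((mem_ker (hsm φ₀) F).2 hF))
  exact (h5 k _ _ (hsm φ₀) (hsm (φ₀ + φ)) (hnz _ hne) hF hsub2).symm

end ETA
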