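import Pool.Agent.ETA.StD

/-!
# ETA, module ADM: composition of additive polynomials
-/

set_option autoImplicit false

namespace ETA

open PowerSeries ETD

theorem thm_ADM : St_ADM := by
  classical
  intro R _ p _ _ r r' c c'
  -- truncated coefficients
  set a : ℕ → R := fun i => if i < r then c i else 0 with ha
  set b : ℕ → R := fun j => if j < r' then c' j else 0 with hb
  set d : ℕ → R := fun l => ∑ i ∈ Finset.range (l + 1), a i * b (l - i) ^ p ^ i with hd
  refine ⟨r + r', d, ?_, ?_, ?_⟩
  · intro w
    have h1 : ad p r c (ad p r' c' w) =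
        ∑ i ∈ Finset.range r, ∑ j ∈ Finset.range r', a i * b j ^ p ^ i * w ^ p ^ (i + j) := by
      unfold ad
      refine Finset.sum_congr rfl fun i hi => ?_
      rw [sum_pow_char_pow, Finset.mul_sum]
      refine Finset.sum_congr rfl fun j hj => ?_
      rw [Finset.mem_range] at hi hj
      simp only [ha, hb, if_pos hi, if_pos hj]
      rw [mul_pow, ← pow_mul, ← pow_add, add_comm j i]
      ring
    rw [h1]
    unfold ad
    have h2 : ∀ l ∈ Finset.range (r + r'), d l * w ^ p ^ l =
        ∑ q ∈ (Finset.range r ×ˢ Finset.range r').filter (fun q => q.1 + q.2 = l),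
          a q.1 * b q.2 ^ p ^ q.1 * w ^ p ^ (q.1 + q.2) := by
      intro l hl
      simp only [hd]
      rw [Finset.sum_mul]
      have h3 : ∑ i ∈ Finset.range (l + 1), a i * b (l - i) ^ p ^ i * w ^ p ^ l =
          ∑ i ∈ (Finset.range (l + 1)).filter (fun i => i < r ∧ l - i < r'),
            a i * b (l - i) ^ p ^ i * w ^ p ^ l := by
        rw [Finset.sum_filter]
        refine Finset.sum_congr rfl fun i hi => ?_
        split_ifs with hcond
        · rfl
        · rw [not_and_or] at hcond
          rcases hcond with hcond | hcond
          · simp [ha, if_neg hcond]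
          · have : b (l - i) = 0 := by simp [hb, if_neg hcond]
            rw [this, zero_pow (pow_ne_zero _ (Fact.out : p.Prime).ne_zero)]
            ring
      rw [h3]
      refine Finset.sum_bij' (fun i _ => (i, l - i)) (fun q _ => q.1) ?_ ?_ ?_ ?_ ?_
      · intro i hi
        simp only [Finset.mem_filter, Finset.mem_range, Finset.mem_product] at hi ⊢
        omega
      · intro q hq
        simp only [Finset.mem_filter, Finset.mem_range, Finset.mem_product] at hq ⊢
        obtain ⟨⟨h5, h6⟩, h7⟩ := hq
        refine ⟨by omega, h5, by omega⟩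
      · intro i hi
        rfl
      · intro q hq
        simp only [Finset.mem_filter, Finset.mem_range, Finset.mem_product] at hq
        obtain ⟨⟨h5, h6⟩, h7⟩ := hq
        ext
        · rfl
        · show l - q.1 = q.2
          omega
      · intro i hi
        simp only [Finset.mem_filter, Finset.mem_range] at hi
        show _ = a i * b (l - i) ^ p ^ i * w ^ p ^ (i + (l - i))
        rw [show i + (l - i) = l by omega]
    rw [Finset.sum_congr rfl h2, ← Finset.sum_product']
    rw [← Finset.sum_fiberwise_of_maps_to (s := Finset.range r ×ˢ Finset.range r')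
      (t := Finset.range (r + r')) (g := fun q => q.1 + q.2)]
    intro q hq
    simp only [Finset.mem_product, Finset.mem_range] at hq ⊢
    omega
  · intro hr hr'
    refine ⟨by omega, ?_⟩
    simp [hd, ha, hb, hr, hr']
  · intro u u' hu hu' h0 h0' h1 h1'
    have hpp : ∀ i : ℕ, p ^ i ≠ 0 := fun i => pow_ne_zero _ (Fact.out : p.Prime).ne_zero
    have ha0 : ∀ i < u, a i = 0 := fun i hi => by
      simp only [ha]
      rw [if_pos (by omega), h0 i hi]
    have hb0 : ∀ i < u', b i = 0 := fun i hi => by
      simp only [hb]
      rw [if_pos (by omega), h0' i hi]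
    refine ⟨by omega, ?_, ?_⟩
    · intro l hl
      simp only [hd]
      refine Finset.sum_eq_zero fun i hi => ?_
      rw [Finset.mem_range] at hi
      by_cases h : i < u
      · rw [ha0 i h, zero_mul]
      · rw [hb0 (l - i) (by omega), zero_pow (hpp i), mul_zero]
    · have h2 : d (u + u') = c u * c' u' ^ p ^ u := by
        simp only [hd]
        rw [Finset.sum_eq_single_of_mem u (by rw [Finset.mem_range]; omega)]
        · simp only [ha, hb]
          rw [if_pos hu, show u + u' - u = u' by omega, if_pos hu']
        · intro i hi hne
          rw [Finset.mem_range] at hi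
          by_cases h : i < u
          · rw [ha0 i h, zero_mul]
          · rw [hb0 (u + u' - i) (by omega), zero_pow (hpp i), mul_zero]
      rw [h2]
      exact h1.mul (h1'.pow _)

end ETA
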