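import Pool.Agent.ETA.StB

set_option autoImplicit false
set_option linter.unusedVariables false

namespace ETA

open PowerSeries ETD

private theorem ALA_charP (p : ℕ) [Fact p.Prime] : CharP (ZMod p)⟦X⟧ p :=
  charP_of_injective_algebraMap (algebraMap (ZMod p) (ZMod p)⟦X⟧).injective p

private theorem ALA_Y (hFIP : St_FIP) (p : ℕ) [Fact p.Prime] (l : ℕ) (γ : ℤ_[p]) :
    X * fi p ((p : ℤ_[p]) ^ l * γ) = (X * fi p γ) ^ p ^ l := by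
  obtain ⟨f1, f2, f3, f4, f5, f6, f7⟩ := hFIP p
  have := ALA_charP p
  have h1 : ∀ (n : ℕ) (β : ℤ_[p]), 1 + X * fi p (n * β) = (1 + X * fi p β) ^ n := by
    intro n β
    induction n with
    | zero => rw [Nat.cast_zero, zero_mul, f4, mul_zero, add_zero, pow_zero]
    | succ n ih =>
      rw [pow_succ, ← ih, Nat.cast_succ, add_mul, one_mul, f2]
      have e1 : pw p (1 + X : (ZMod p)⟦X⟧) (n * β) = 1 + X * fi p (n * β) := by
        rw [f1]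
        ring
      rw [e1]
      ring
  have h2 := h1 (p ^ l) γ
  rw [add_pow_char_pow, one_pow] at h2
  push_cast at h2
  exact add_left_cancel h2

private theorem ALA_val (p : ℕ) [Fact p.Prime] (ν : ℤ_[p]) (hν : ν ≠ 0) :
    ∃ (j : ℕ) (γ : ℤ_[p]), IsUnit γ ∧ ν = (p : ℤ_[p]) ^ j * γ :=
  ⟨ν.valuation, PadicInt.unitCoeff hν, Units.isUnit _, by
    have := PadicInt.unitCoeff_spec hν
    rw [mul_comm]
    exact this⟩

private theorem ALA_le (p : ℕ) [Fact p.Prime] (j J : ℕ) (γ : ℤ_[p]) (hγ : IsUnit γ)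
    (h : (p : ℤ_[p]) ^ J ∣ (p : ℤ_[p]) ^ j * γ) : J ≤ j := by
  by_contra hc
  push Not at hc
  obtain ⟨i, rfl⟩ := Nat.exists_eq_add_of_lt hc
  have hp0 : (p : ℤ_[p]) ≠ 0 := by exact_mod_cast (Fact.out : p.Prime).ne_zero
  rw [show j + i + 1 = j + (i + 1) by ring, pow_add] at h
  have h2 := (mul_dvd_mul_iff_left (pow_ne_zero j hp0)).1 h
  have h3 : (p : ℤ_[p]) ∣ γ := (dvd_pow_self _ (Nat.succ_ne_zero i)).trans h2
  exact PadicInt.prime_p.not_unit (isUnit_of_dvd_unit h3 hγ)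

private theorem ALA_dvd (p : ℕ) [Fact p.Prime] (j l : ℕ) (γ γ' : ℤ_[p]) (hγ : IsUnit γ)
    (h : j ≤ l) : ∃ δ : ℤ_[p], (p : ℤ_[p]) ^ l * γ' = (p : ℤ_[p]) ^ j * γ * δ := by
  obtain ⟨i, rfl⟩ := Nat.exists_eq_add_of_le h
  obtain ⟨g, hg⟩ := hγ.exists_right_inv
  refine ⟨(p : ℤ_[p]) ^ i * γ' * g, ?_⟩
  have : (p : ℤ_[p]) ^ (j + i) * γ' = (p : ℤ_[p]) ^ (j + i) * γ' * (γ * g) := by
    rw [hg, mul_one]
  rw [this]
  ring

private theorem ALA_hs {p : ℕ} [Fact p.Prime] {z : (ZMod p)⟦X⟧} (hz : X ∣ z) :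
    PowerSeries.HasSubst (z : MvPowerSeries Unit (ZMod p)) :=
  PowerSeries.HasSubst.of_constantCoeff_zero' (X_dvd_iff.1 hz)

private theorem ALA_ne {p : ℕ} [Fact p.Prime] {z : (ZMod p)⟦X⟧} (hz : X ∣ z) (hz0 : z ≠ 0)
    (f : (ZMod p)⟦X⟧) (h : PowerSeries.subst z f = 0) : f = 0 := by
  by_contra hf
  obtain ⟨o, η, hη, e⟩ := exists_Od hf
  rw [e, PowerSeries.subst_mul (ALA_hs hz), PowerSeries.subst_pow (ALA_hs hz),
    PowerSeries.subst_X (ALA_hs hz)] at h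
  have h1 : IsUnit (PowerSeries.subst (z : MvPowerSeries Unit (ZMod p)) η) := by
    rw [← PowerSeries.coe_substAlgHom (ALA_hs hz)]
    exact hη.map _
  rcases mul_eq_zero.1 h with h2 | h2
  · exact pow_ne_zero o hz0 h2
  · exact h1.ne_zero h2

private theorem ALA_C {p : ℕ} [Fact p.Prime] {z : (ZMod p)⟦X⟧} (hz : X ∣ z) (c : ZMod p) :
    PowerSeries.subst z (C c : (ZMod p)⟦X⟧) = C c := by
  have h1 := PowerSeries.subst_smul (ALA_hs hz) c (1 : (ZMod p)⟦X⟧)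
  have h2 : PowerSeries.subst (z : MvPowerSeries Unit (ZMod p)) (1 : (ZMod p)⟦X⟧) = 1 := by
    rw [← PowerSeries.coe_substAlgHom (ALA_hs hz)]
    exact map_one _
  have h3 : (c • (1 : (ZMod p)⟦X⟧)) = C c := by
    rw [PowerSeries.smul_eq_C_mul, mul_one]
  rw [h3, h2] at h1
  rw [h1]
  exact h3

/-- a quotient which is constant is trivial -/
private theorem ALA_one (hLUC : St_LUC) (hFIP : St_FIP) (hFIM : St_FIM) (p : ℕ) [Fact p.Prime]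
    (μ δ : ℤ_[p]) (hμ : μ ≠ 0) (hδ : δ ≠ 0) (c : ZMod p)
    (h : fi p (μ * δ) = fi p μ * C c) : δ = 1 := by
  obtain ⟨f1, f2, f3, f4, f5, f6, f7⟩ := hFIP p
  have hy : X ∣ X * fi p μ := dvd_mul_right _ _
  have hy0 : X * fi p μ ≠ 0 := mul_ne_zero X_ne_zero (f7 μ hμ)
  have h1 : PowerSeries.subst (X * fi p μ) (fi p δ) = C c := by
    apply mul_left_cancel₀ (f7 μ hμ)
    rw [← h, hFIM p μ δ]
  have h2 : PowerSeries.subst (X * fi p μ) (fi p δ - C c) = 0 := by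
    have h3 := PowerSeries.subst_add (ALA_hs hy) (fi p δ - C c) (C c)
    rw [sub_add_cancel, h1, ALA_C hy] at h3
    have h4 : (0 : (ZMod p)⟦X⟧) + C c = PowerSeries.subst (X * fi p μ) (fi p δ - C c) + C c := by
      rw [zero_add]
      exact h3
    exact (add_right_cancel h4).symm
  have h3 := ALA_ne hy hy0 _ h2
  have h4 : fi p δ = C c := sub_eq_zero.1 h3
  obtain ⟨a, ha, ha'⟩ := hLUC p δ 0 hδ (by norm_num) (by
    intro l hl hl1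
    have h5 : pw p (1 + X : (ZMod p)⟦X⟧) δ = X * C c + 1 := by
      rw [← h4, f1]
      ring
    have h6 : l ≠ 1 := by
      rintro rfl
      exact hl1 rfl
    obtain ⟨l', rfl⟩ := Nat.exists_eq_add_of_le (by omega : 2 ≤ l)
    rw [h5, map_add, show 2 + l' = (l' + 1) + 1 by ring, coeff_succ_X_mul, coeff_C,
      if_neg (Nat.succ_ne_zero l'), coeff_one, if_neg (Nat.succ_ne_zero (l' + 1)), add_zero])
  have h7 : p ^ a = 1 := Nat.modEq_zero_iff.1 ha'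
  rw [ha]
  exact_mod_cast h7

private theorem ALA_pc (p : ℕ) [Fact p.Prime] (w : (ZMod p)⟦X⟧) (l : ℕ) :
    X ^ p ^ l ∣ w ^ p ^ l - C (constantCoeff w ^ p ^ l) := by
  have := ALA_charP p
  obtain ⟨g, hg⟩ : X ∣ w - C (constantCoeff w) := by
    rw [X_dvd_iff, map_sub, constantCoeff_C, sub_self]
  have hw : w = C (constantCoeff w) + X * g := by
    rw [← hg]
    ring
  have h4 : w ^ p ^ l = C (constantCoeff w ^ p ^ l) + X ^ p ^ l * g ^ p ^ l := by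
    rw [map_pow, ← mul_pow, ← add_pow_char_pow, ← hw]
  refine ⟨g ^ p ^ l, ?_⟩
  rw [sub_eq_iff_eq_add', h4]

theorem thm_ALA (hLUC : St_LUC) (hFIP : St_FIP) (hFIM : St_FIM) (hALS : St_ALS) : St_ALA := by
  rintro p _ S hS hU hacc ν hν ν' hν' ⟨δ₀, hδ₀⟩
  classical
  obtain ⟨f1, f2, f3, f4, f5, f6, f7⟩ := hFIP p
  obtain ⟨s1, s2, s3, s4, s5, s6⟩ := hALS p S hS
  have := ALA_charP p
  have hp : p.Prime := Fact.out
  have hp0 : (p : ℤ_[p]) ≠ 0 := by exact_mod_cast hp.ne_zero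
  have hne : S.Nonempty := ⟨_, hν.2⟩
  have h1M : (1 : (ZMod p)⟦X⟧) ∈ Mu S := s5 hne
  have hpow : ∀ χ ∈ Mu S, ∀ m : ℕ, χ ^ m ∈ Mu S := by
    intro χ hχ m
    induction m with
    | zero => rwa [pow_zero]
    | succ m ih =>
      rw [pow_succ]
      exact s2 _ ih _ hχ
  have hquo : ∀ ν ∈ So S, ∀ δ : ℤ_[p], ν * δ ∈ So S →
      ∃ q ∈ Mu S, fi p (ν * δ) = fi p ν * q := by
    intro ν hν δ hδ
    have hδ0 : δ ≠ 0 := by
      rintro rfl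
      exact hδ.1 (mul_zero _)
    exact ⟨_, (s6 ν hν δ hδ0).1 hδ, hFIM p ν δ⟩
  obtain ⟨j, γ, hγ, e₁⟩ := ALA_val p ν hν.1
  obtain ⟨l, γ', hγ', e₂⟩ := ALA_val p ν' hν'.1
  have hδ₀0 : δ₀ ≠ 0 := by
    rintro rfl
    exact hν'.1 (by rw [hδ₀, mul_zero])
  have hjl : j ≤ l := by
    apply ALA_le p l j γ' hγ'
    rw [← e₂, hδ₀, e₁, mul_assoc]
    exact dvd_mul_right _ _
  obtain ⟨q, hq, hq'⟩ := hquo ν hν δ₀ (by rwa [← hδ₀])
  have o1 : Od (fi p ν) (p ^ j - 1) := by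
    rw [e₁]
    exact f6 j γ hγ
  have o2 : Od (fi p ν') (p ^ l - 1) := by
    rw [e₂]
    exact f6 l γ' hγ'
  have hq0 : q ≠ 0 := by
    rintro rfl
    rw [mul_zero, ← hδ₀] at hq'
    exact o2.ne_zero hq'
  obtain ⟨o, ho⟩ := exists_Od hq0
  have ho2 : p ^ j - 1 + o = p ^ l - 1 := by
    have h1 := o1.mul ho
    rw [← hq', ← hδ₀] at h1
    exact h1.unique o2
  have hpj : 0 < p ^ j := pow_pos hp.pos _
  have hpl : 0 < p ^ l := pow_pos hp.pos _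
  rcases hjl.eq_or_lt with hjl | hjl
  · -- equal valuations
    subst hjl
    have h1 : o = 0 := by omega
    rw [h1, od_zero_iff] at ho
    obtain ⟨c, hc⟩ := hU q ho hq
    rw [hc] at hq'
    have h2 := ALA_one hLUC hFIP hFIM p ν δ₀ hν.1 hδ₀0 c hq'
    exact ⟨0, by rw [hδ₀, h2, pow_zero, one_mul, mul_one]⟩
  -- different valuations
  have hlt : p ^ j < p ^ l := Nat.pow_lt_pow_right hp.one_lt hjl
  obtain ⟨g₁, hg₁⟩ : ∃ g₁ : (ZMod p)⟦X⟧, g₁ = fi p γ ^ p ^ j := ⟨_, rfl⟩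
  obtain ⟨g₂, hg₂⟩ : ∃ g₂ : (ZMod p)⟦X⟧, g₂ = fi p γ' ^ p ^ l := ⟨_, rfl⟩
  have hun : ∀ γ : ℤ_[p], IsUnit γ → IsUnit (fi p γ) := by
    intro γ hγ
    have h := f6 0 γ hγ
    rw [pow_zero, one_mul, pow_zero, Nat.sub_self] at h
    exact od_zero_iff.1 h
  have hg₁u : IsUnit g₁ := hg₁ ▸ (hun γ hγ).pow _
  have hg₂u : IsUnit g₂ := hg₂ ▸ (hun γ' hγ').pow _
  have ey₁ : X * fi p ν = X ^ p ^ j * g₁ := by rw [e₁, ALA_Y hFIP, mul_pow, hg₁]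
  have ey₂ : X * fi p ν' = X ^ p ^ l * g₂ := by rw [e₂, ALA_Y hFIP, mul_pow, hg₂]
  have hXq : X ^ p ^ j * g₁ * q = X ^ p ^ l * g₂ := by
    rw [← ey₁, ← ey₂, hδ₀, hq']
    ring
  have key : g₁ ^ p ^ l = C (constantCoeff (g₁ ^ p ^ l) * (constantCoeff (g₂ ^ p ^ j))⁻¹) *
      g₂ ^ p ^ j := by
    rw [← sub_eq_zero]
    refine PowerSeries.ext fun m => ?_
    rw [map_zero]
    obtain ⟨ν₃, hν₃, hd₃⟩ := hacc (m + l + 1)
    obtain ⟨r, γ₃, hγ₃, e₃⟩ := ALA_val p ν₃ hν₃.1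
    have hr : m + l + 1 ≤ r := ALA_le p r _ γ₃ hγ₃ (by rwa [← e₃])
    obtain ⟨δ₃, hδ₃⟩ := ALA_dvd p j r γ γ₃ hγ (by omega)
    rw [← e₁, ← e₃] at hδ₃
    obtain ⟨q₃, hq₃, hq₃'⟩ := hquo ν hν δ₃ (by rwa [← hδ₃])
    rw [← hδ₃] at hq₃'
    have hltr : p ^ j < p ^ r := Nat.pow_lt_pow_right hp.one_lt (by omega)
    have o3 : Od (fi p ν₃) (p ^ r - 1) := by
      rw [e₃]
      exact f6 r γ₃ hγ₃
    have hq₃0 : q₃ ≠ 0 := by
      rintro rfl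
      rw [mul_zero] at hq₃'
      exact o3.ne_zero hq₃'
    obtain ⟨o', ho'⟩ := exists_Od hq₃0
    have ho3 : p ^ j - 1 + o' = p ^ r - 1 := by
      have h1 := o1.mul ho'
      rw [← hq₃'] at h1
      exact h1.unique o3
    -- o = p ^ l - p ^ j, o' = p ^ r - p ^ j
    obtain ⟨a, ha, ea⟩ := ho.pow o'
    obtain ⟨b, hb, eb⟩ := ho'.pow o
    obtain ⟨b', hb'⟩ := hb.exists_right_inv
    have hb'u : IsUnit b' := isUnit_of_dvd_one ⟨b, by rw [mul_comm]; exact hb'.symm⟩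
    have hw : q ^ o' = q₃ ^ o * (a * b') := by
      rw [ea, eb, mul_comm o' o]
      calc (X : (ZMod p)⟦X⟧) ^ (o * o') * a = X ^ (o * o') * a * (b * b') := by
            rw [hb', mul_one]
        _ = _ := by ring
    have hwM : a * b' ∈ Mu S := by
      refine s3 (q₃ ^ o) (hpow _ hq₃ o) _ (pow_ne_zero _ hq₃0) ?_
      rw [← hw]
      exact hpow _ hq o'
    obtain ⟨c, hc⟩ := hU _ (ha.mul hb'u) hwM
    rw [hc] at hw
    obtain ⟨g₃, hg₃⟩ : ∃ g₃ : (ZMod p)⟦X⟧, g₃ = fi p γ₃ ^ p ^ r := ⟨_, rfl⟩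
    have ey₃ : X * fi p ν₃ = X ^ p ^ r * g₃ := by rw [e₃, ALA_Y hFIP, mul_pow, hg₃]
    have hXq₃ : X ^ p ^ j * g₁ * q₃ = X ^ p ^ r * g₃ := by
      rw [← ey₁, ← ey₃, hq₃']
      ring
    -- the relation between the g's
    have hpl' : p ^ l = p ^ j + o := by omega
    have hpr' : p ^ r = p ^ j + o' := by omega
    have hA : g₁ ^ p ^ l * g₂ ^ p ^ r = C c * (g₃ ^ o * g₁ ^ p ^ r * g₂ ^ p ^ j) := by
      have hX0 : (X : (ZMod p)⟦X⟧) ^ (p ^ l * o' + p ^ j * o) ≠ 0 := pow_ne_zero _ X_ne_zero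
      have hexp : p ^ l * o' + p ^ j * o = p ^ r * o + p ^ j * o' := by
        rw [hpl', hpr']
        ring
      have h1 : X ^ (p ^ l * o' + p ^ j * o) * (g₂ ^ o' * g₁ ^ o) =
          X ^ (p ^ l * o' + p ^ j * o) * (C c * (g₃ ^ o * g₁ ^ o')) := by
        calc X ^ (p ^ l * o' + p ^ j * o) * (g₂ ^ o' * g₁ ^ o)
            = (X ^ p ^ l * g₂) ^ o' * (X ^ p ^ j * g₁) ^ o := by
              rw [pow_add, pow_mul, pow_mul, mul_pow, mul_pow]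
              ring
          _ = (X ^ p ^ j * g₁) ^ (o' + o) * q ^ o' := by
              rw [← hXq, mul_pow _ q]
              ring
          _ = (X ^ p ^ j * g₁ * q₃) ^ o * (X ^ p ^ j * g₁) ^ o' * C c := by
              rw [hw, mul_pow _ q₃]
              ring
          _ = X ^ (p ^ l * o' + p ^ j * o) * (C c * (g₃ ^ o * g₁ ^ o')) := by
              rw [hXq₃, hexp, pow_add, pow_mul, pow_mul, mul_pow, mul_pow]
              ring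
      have h2 := mul_left_cancel₀ hX0 h1
      calc g₁ ^ p ^ l * g₂ ^ p ^ r = g₂ ^ o' * g₁ ^ o * (g₁ ^ p ^ j * g₂ ^ p ^ j) := by
            rw [hpl', hpr', pow_add, pow_add]
            ring
        _ = C c * (g₃ ^ o * g₁ ^ o') * (g₁ ^ p ^ j * g₂ ^ p ^ j) := by rw [h2]
        _ = C c * (g₃ ^ o * g₁ ^ p ^ r * g₂ ^ p ^ j) := by
            rw [hpr', pow_add]
            ring
    -- reduction modulo X ^ p ^ r
    obtain ⟨c₂, hc₂⟩ : ∃ c₂ : ZMod p, c₂ = constantCoeff g₂ ^ p ^ r := ⟨_, rfl⟩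
    have hc₂0 : c₂ ≠ 0 := by
      rw [hc₂]
      exact pow_ne_zero _ (isUnit_iff_constantCoeff.1 hg₂u).ne_zero
    have d₂ : X ^ p ^ r ∣ g₂ ^ p ^ r - C c₂ := hc₂ ▸ ALA_pc p g₂ r
    obtain ⟨c₁, hc₁⟩ : ∃ c₁ : ZMod p, c₁ = constantCoeff g₁ ^ p ^ r := ⟨_, rfl⟩
    have d₁ : X ^ p ^ r ∣ g₁ ^ p ^ r - C c₁ := hc₁ ▸ ALA_pc p g₁ r
    obtain ⟨c₃, hc₃⟩ : ∃ c₃ : ZMod p, c₃ = constantCoeff (fi p γ₃) ^ p ^ r := ⟨_, rfl⟩
    have d₃ : X ^ p ^ r ∣ g₃ - C c₃ := by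
      rw [hg₃, hc₃]
      exact ALA_pc p (fi p γ₃) r
    have d₃' : X ^ p ^ r ∣ g₃ ^ o - C (c₃ ^ o) := by
      rw [map_pow]
      exact d₃.trans (sub_dvd_pow_sub_pow _ _ _)
    obtain ⟨t₁, ht₁⟩ := d₁
    obtain ⟨t₂, ht₂⟩ := d₂
    obtain ⟨t₃, ht₃⟩ := d₃'
    have h3 : X ^ p ^ r ∣ C c₂ * g₁ ^ p ^ l - C (c * c₃ ^ o * c₁) * g₂ ^ p ^ j := by
      have e1 : g₂ ^ p ^ r = C c₂ + X ^ p ^ r * t₂ := by rw [← ht₂]; ring
      have e2 : g₁ ^ p ^ r = C c₁ + X ^ p ^ r * t₁ := by rw [← ht₁]; ring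
      have e3 : g₃ ^ o = C (c₃ ^ o) + X ^ p ^ r * t₃ := by rw [← ht₃]; ring
      rw [e1, e2, e3] at hA
      refine ⟨C c * g₂ ^ p ^ j * (t₃ * (C c₁ + X ^ p ^ r * t₁) + C (c₃ ^ o) * t₁) -
        g₁ ^ p ^ l * t₂, ?_⟩
      rw [map_mul, map_mul]
      linear_combination hA
    have h4 : X ^ p ^ r ∣ g₁ ^ p ^ l - C (c₂⁻¹ * (c * c₃ ^ o * c₁)) * g₂ ^ p ^ j := by
      have e1 : g₁ ^ p ^ l - C (c₂⁻¹ * (c * c₃ ^ o * c₁)) * g₂ ^ p ^ j =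
          C c₂⁻¹ * (C c₂ * g₁ ^ p ^ l - C (c * c₃ ^ o * c₁) * g₂ ^ p ^ j) := by
        have e0 : (C c₂⁻¹ * C c₂ : (ZMod p)⟦X⟧) = 1 := by
          rw [← map_mul, inv_mul_cancel₀ hc₂0, map_one]
        rw [map_mul C c₂⁻¹]
        linear_combination (-(g₁ ^ p ^ l)) * e0
      rw [e1]
      exact h3.mul_left _
    have hX : X ∣ (X : (ZMod p)⟦X⟧) ^ p ^ r := dvd_pow_self _ (pow_pos hp.pos _).ne'
    have h5 : constantCoeff (g₁ ^ p ^ l) =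
        c₂⁻¹ * (c * c₃ ^ o * c₁) * constantCoeff (g₂ ^ p ^ j) := by
      have h6 := X_dvd_iff.1 (hX.trans h4)
      rw [map_sub, map_mul, constantCoeff_C, sub_eq_zero] at h6
      exact h6
    have h7 : constantCoeff (g₁ ^ p ^ l) * (constantCoeff (g₂ ^ p ^ j))⁻¹ =
        c₂⁻¹ * (c * c₃ ^ o * c₁) := by
      rw [h5, mul_assoc, mul_inv_cancel₀, mul_one]
      exact (isUnit_iff_constantCoeff.1 (hg₂u.pow _)).ne_zero
    rw [h7]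
    refine X_pow_dvd_iff.1 h4 m ?_
    calc m < r := by omega
      _ < p ^ r := Nat.lt_pow_self hp.one_lt
  set c₀ := constantCoeff (g₁ ^ p ^ l) * (constantCoeff (g₂ ^ p ^ j))⁻¹ with hc₀
  have hc₀0 : c₀ ≠ 0 := mul_ne_zero
    (isUnit_iff_constantCoeff.1 (hg₁u.pow _)).ne_zero
    (inv_ne_zero (isUnit_iff_constantCoeff.1 (hg₂u.pow _)).ne_zero)
  -- μ = p ^ l ν
  obtain ⟨δ, hδ⟩ := ALA_dvd p (l + j) (j + l) γ γ' hγ (by omega)
  have hμ : (p : ℤ_[p]) ^ l * ν = (p : ℤ_[p]) ^ (l + j) * γ := by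
    rw [e₁, pow_add, mul_assoc]
  have hμ' : (p : ℤ_[p]) ^ j * ν' = (p : ℤ_[p]) ^ l * ν * δ := by
    rw [hμ, ← hδ, e₂, pow_add, mul_assoc]
  have hμ0 : (p : ℤ_[p]) ^ l * ν ≠ 0 := mul_ne_zero (pow_ne_zero _ hp0) hν.1
  have hδ0 : δ ≠ 0 := by
    rintro rfl
    rw [mul_zero] at hμ'
    exact mul_ne_zero (pow_ne_zero _ hp0) hν'.1 hμ'
  have h8 : fi p ((p : ℤ_[p]) ^ l * ν * δ) = fi p ((p : ℤ_[p]) ^ l * ν) * C c₀⁻¹ := by
    apply mul_left_cancel₀ (X_ne_zero : (X : (ZMod p)⟦X⟧) ≠ 0)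
    rw [← hμ', ALA_Y hFIP, ← mul_assoc, ALA_Y hFIP, ey₁, ey₂, mul_pow, mul_pow, key]
    have h9 : (C c₀ * C c₀⁻¹ : (ZMod p)⟦X⟧) = 1 := by
      rw [← map_mul, mul_inv_cancel₀ hc₀0, map_one]
    have h10 : ((X : (ZMod p)⟦X⟧) ^ p ^ l) ^ p ^ j = (X ^ p ^ j) ^ p ^ l := by
      rw [← pow_mul, ← pow_mul, mul_comm]
    rw [h10]
    linear_combination (-(X ^ p ^ j) ^ p ^ l * g₂ ^ p ^ j) * h9
  have h11 := ALA_one hLUC hFIP hFIM p _ δ hμ0 hδ0 _ h8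
  rw [h11, mul_one] at hμ'
  refine ⟨l - j, ?_⟩
  apply mul_left_cancel₀ (pow_ne_zero j hp0)
  rw [hμ', ← mul_assoc, ← pow_add, Nat.add_sub_cancel' hjl.le]

end ETA
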