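import Pool.Agent.ETA.StB

set_option autoImplicit false
set_option linter.unusedVariables false

namespace ETA

open PowerSeries ETD

private theorem ALB_hs {p : ℕ} [Fact p.Prime] {z : (ZMod p)⟦X⟧} (hz : X ∣ z) :
    PowerSeries.HasSubst (z : MvPowerSeries Unit (ZMod p)) :=
  PowerSeries.HasSubst.of_constantCoeff_zero' (X_dvd_iff.1 hz)

private theorem ALB_trunc {p : ℕ} [Fact p.Prime] {z : (ZMod p)⟦X⟧} (hz : X ∣ z)
    (f : (ZMod p)⟦X⟧) (N : ℕ) :
    X ^ N ∣ PowerSeries.subst z f - ∑ i ∈ Finset.range N, C (coeff i f) * z ^ i := by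
  have h := eq_X_pow_mul_shift_add_trunc N f
  have h1 : PowerSeries.subst z f = z ^ N * PowerSeries.subst z (mk fun i => coeff (i + N) f) +
      ∑ i ∈ Finset.range N, C (coeff i f) * z ^ i := by
    have h2 := congrArg (PowerSeries.subst (z : MvPowerSeries Unit (ZMod p))) h
    rw [PowerSeries.subst_add (ALB_hs hz), PowerSeries.subst_mul (ALB_hs hz),
      PowerSeries.subst_pow (ALB_hs hz), PowerSeries.subst_X (ALB_hs hz),
      PowerSeries.subst_coe (ALB_hs hz)] at h2
    refine h2.trans ?_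
    congr 1
    rw [trunc_apply, map_sum, Finset.range_eq_Ico]
    refine Finset.sum_congr rfl fun i _ => ?_
    rw [Polynomial.aeval_monomial]
    rfl
  rw [h1, add_sub_cancel_right]
  exact (pow_dvd_pow_of_dvd hz N).mul_right _

private theorem ALB_eq {p : ℕ} [Fact p.Prime] {a b : (ZMod p)⟦X⟧} (h : ∀ N : ℕ, X ^ N ∣ a - b) :
    a = b := by
  rw [← sub_eq_zero]
  refine PowerSeries.ext fun m => ?_
  rw [map_zero]
  exact (X_pow_dvd_iff.1 (h (m + 1))) m (Nat.lt_succ_self m)

private theorem ALB_ne {p : ℕ} [Fact p.Prime] {z : (ZMod p)⟦X⟧} (hz : X ∣ z) (hz0 : z ≠ 0)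
    (f : (ZMod p)⟦X⟧) (h : PowerSeries.subst z f = 0) : f = 0 := by
  by_contra hf
  obtain ⟨o, η, hη, e⟩ := exists_Od hf
  rw [e, PowerSeries.subst_mul (ALB_hs hz), PowerSeries.subst_pow (ALB_hs hz),
    PowerSeries.subst_X (ALB_hs hz)] at h
  have h1 : IsUnit (PowerSeries.subst (z : MvPowerSeries Unit (ZMod p)) η) := by
    rw [← PowerSeries.coe_substAlgHom (ALB_hs hz)]
    exact hη.map _
  rcases mul_eq_zero.1 h with h2 | h2
  · exact pow_ne_zero o hz0 h2
  · exact h1.ne_zero h2

private theorem ALB_sum {M : Type} [AddCommMonoid M] (F : ℕ → M) (D N : ℕ) :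
    ∑ j ∈ Finset.range (D * N), F j =
      ∑ r ∈ Finset.range D, ∑ i ∈ Finset.range N, F (D * i + r) := by
  induction N with
  | zero => simp
  | succ N ih =>
    rw [Nat.mul_succ, Finset.sum_range_add, ih, ← Finset.sum_add_distrib]
    refine Finset.sum_congr rfl fun r _ => ?_
    rw [Finset.sum_range_succ]

theorem thm_ALB (hLUC : St_LUC) (hFIP : St_FIP) (hALS : St_ALS) (hALR : St_ALR) (hALD : St_ALD)
    (hALI : St_ALI) : St_ALB := by
  intro p _ S η hS hη hηM hηc hacc
  classical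
  obtain ⟨f1, f2, f3, f4, f5, f6, f7⟩ := hFIP p
  obtain ⟨s1, s2, s3, s4, s5, s6⟩ := hALS p S hS
  have hne : S.Nonempty := by
    obtain ⟨ν, hν, _⟩ := hacc 0
    exact ⟨_, hν.2⟩
  obtain ⟨r1, r2⟩ := hALR p S η hS hne hη hηM hηc
  have h1M : (1 : (ZMod p)⟦X⟧) ∈ Mu S := s5 hne
  have hpow : ∀ χ ∈ Mu S, ∀ m : ℕ, χ ^ m ∈ Mu S := by
    intro χ hχ m
    induction m with
    | zero => rwa [pow_zero]
    | succ m ih =>
      rw [pow_succ]
      exact s2 _ ih _ hχ
  have hsumM : ∀ (t : Finset ℕ) (g : ℕ → (ZMod p)⟦X⟧), (∀ i ∈ t, g i ∈ Mu S) →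
      ∑ i ∈ t, g i ∈ Mu S := by
    intro t g
    induction t using Finset.induction_on with
    | empty =>
      intro _
      rw [Finset.sum_empty]
      exact Or.inl rfl
    | insert a t ha ih =>
      intro h
      rw [Finset.sum_insert ha]
      exact r1 _ (h a (Finset.mem_insert_self a t)) _
        (ih fun i hi => h i (Finset.mem_insert_of_mem hi))
  obtain ⟨ν₀, hν₀, D, hD0, hDp, hiff⟩ := hALD p S η hS hη hηM hηc hacc
  set y := X * fi p ν₀ with hy
  have hyX : X ∣ y := dvd_mul_right _ _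
  have hy0 : y ≠ 0 := mul_ne_zero X_ne_zero (f7 ν₀ hν₀.1)
  have hyD : y ^ D ∈ Mu S := (hiff D).2 dvd_rfl
  have hyDX : X ∣ y ^ D := hyX.trans (dvd_pow_self y hD0.ne')
  have hsub : ∀ g : (ZMod p)⟦X⟧, PowerSeries.subst (y ^ D) g ∈ Mu S := by
    intro g
    apply s4
    intro N
    refine ⟨_, ?_, ALB_trunc hyDX g N⟩
    exact hsumM _ _ fun i _ => s2 _ (r2 _) _ (hpow _ hyD i)
  refine ⟨ν₀, hν₀, ?_⟩
  by_cases hD1 : D = 1
  · left
    intro δ hδ
    rw [s6 ν₀ hν₀ δ hδ]
    have := hsub (fi p δ)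
    rwa [hD1, pow_one] at this
  · right
    rintro ν hν ⟨δ, rfl⟩
    have hδ : δ ≠ 0 := by
      rintro rfl
      exact hν.1 (mul_zero _)
    have hχ := (s6 ν₀ hν₀ δ hδ).1 hν
    rw [← hy] at hχ
    set f := fi p δ with hf
    set g : ℕ → (ZMod p)⟦X⟧ := fun r => mk fun i => coeff (D * i + r) f with hg
    set a : ℕ → (ZMod p)⟦X⟧ := fun r => PowerSeries.subst (y ^ D) (g r) with ha
    have hdec : PowerSeries.subst y f = ∑ r ∈ Finset.range D, y ^ r * a r := by
      apply ALB_eq
      intro N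
      have h1 := ALB_trunc hyX f (D * N)
      have h2 : X ^ N ∣ (∑ r ∈ Finset.range D, y ^ r * a r) -
          ∑ r ∈ Finset.range D, y ^ r * ∑ i ∈ Finset.range N, C (coeff i (g r)) * (y ^ D) ^ i := by
        rw [← Finset.sum_sub_distrib]
        apply Finset.dvd_sum
        intro r _
        rw [← mul_sub]
        exact (ALB_trunc hyDX (g r) N).mul_left _
      have h3 : ∑ r ∈ Finset.range D, y ^ r * ∑ i ∈ Finset.range N,
          C (coeff i (g r)) * (y ^ D) ^ i = ∑ i ∈ Finset.range (D * N), C (coeff i f) * y ^ i := by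
        rw [ALB_sum]
        refine Finset.sum_congr rfl fun r _ => ?_
        rw [Finset.mul_sum]
        refine Finset.sum_congr rfl fun i _ => ?_
        rw [hg]
        simp only [coeff_mk]
        rw [pow_add, pow_mul]
        ring
      rw [h3] at h2
      have h4 : X ^ N ∣ PowerSeries.subst y f -
          ∑ i ∈ Finset.range (D * N), C (coeff i f) * y ^ i :=
        (pow_dvd_pow X (Nat.le_mul_of_pos_left N hD0)).trans h1
      have h5 := dvd_sub h4 h2
      rwa [sub_sub_sub_cancel_right] at h5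
    set b : ℕ → (ZMod p)⟦X⟧ := fun r =>
      if r = 0 then a 0 + C (-1) * PowerSeries.subst y f else a r with hb
    have hbM : ∀ r < D, b r ∈ Mu S := by
      intro r _
      rw [hb]
      by_cases h0 : r = 0
      · simp only [h0, if_true]
        exact r1 _ (hsub _) _ (s2 _ (r2 _) _ hχ)
      · simp only [h0, if_false]
        exact hsub _
    have hbsum : ∑ r ∈ Finset.range D, y ^ r * b r = 0 := by
      obtain ⟨D', rfl⟩ := Nat.exists_eq_succ_of_ne_zero hD0.ne'
      rw [Finset.sum_range_succ'] at hdec ⊢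
      have h1 : ∑ r ∈ Finset.range D', y ^ (r + 1) * b (r + 1) =
          ∑ r ∈ Finset.range D', y ^ (r + 1) * a (r + 1) := by
        refine Finset.sum_congr rfl fun r _ => ?_
        rw [hb]
        simp only [Nat.succ_ne_zero, if_false]
      rw [h1]
      have h2 : b 0 = a 0 + C (-1) * PowerSeries.subst y f := by
        rw [hb]
        simp only [if_true]
      have h3 : (C (-1) : (ZMod p)⟦X⟧) = -1 := by rw [map_neg, map_one]
      rw [h2, h3, hdec]
      ring
    have hb0 := hALI p (Mu S) y D s2 r2 s3 s4 hyX hy0 hDp hiff b hbM hbsum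
    have hg0 : ∀ r, 0 < r → r < D → g r = 0 := by
      intro r h1 h2
      have h3 := hb0 r h2
      rw [hb] at h3
      simp only [h1.ne', if_false] at h3
      exact ALB_ne hyDX (pow_ne_zero _ hy0) _ h3
    obtain ⟨c, hc, _⟩ := hLUC p δ D hδ hD1 (by
      intro l hl hlD
      have h1 : pw p (1 + X : (ZMod p)⟦X⟧) δ = X * f + 1 := by
        rw [hf, f1]
        ring
      rw [h1]
      obtain ⟨l', rfl⟩ := Nat.exists_eq_succ_of_ne_zero (by omega : l ≠ 0)
      rw [map_add, Nat.succ_eq_add_one, coeff_succ_X_mul]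
      have h2 : coeff (l' + 1) (1 : (ZMod p)⟦X⟧) = 0 := by
        rw [coeff_one, if_neg (Nat.succ_ne_zero l')]
      rw [h2, add_zero]
      have h3 : 0 < l' % D := by
        rcases Nat.eq_zero_or_pos (l' % D) with h | h
        · exfalso
          apply hlD
          have : l' ≡ 0 [MOD D] := h
          exact this.add_right 1
        · exact h
      have h4 := hg0 (l' % D) h3 (Nat.mod_lt _ hD0)
      have h5 := congrArg (coeff (l' / D)) h4
      rw [hg] at h5
      simp only [coeff_mk, map_zero] at h5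
      rwa [Nat.div_add_mod] at h5)
    exact ⟨c, by rw [hc, mul_comm]⟩

end ETA
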