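import Pool.Agent.ETA.StB

set_option autoImplicit false
set_option linter.unusedVariables false

namespace ETA

open PowerSeries ETD

private theorem ALD_charP (p : ℕ) [Fact p.Prime] : CharP (ZMod p)⟦X⟧ p :=
  charP_of_injective_algebraMap (algebraMap (ZMod p) (ZMod p)⟦X⟧).injective p

private theorem ALD_Y (hFIP : St_FIP) (p : ℕ) [Fact p.Prime] (l : ℕ) (γ : ℤ_[p]) :
    X * fi p ((p : ℤ_[p]) ^ l * γ) = (X * fi p γ) ^ p ^ l := by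
  obtain ⟨f1, f2, f3, f4, f5, f6, f7⟩ := hFIP p
  have := ALD_charP p
  have h1 : ∀ (n : ℕ) (β : ℤ_[p]), 1 + X * fi p (n * β) = (1 + X * fi p β) ^ n := by
    intro n β
    induction n with
    | zero => rw [Nat.cast_zero, zero_mul, f4, mul_zero, add_zero, pow_zero]
    | succ n ih =>
      rw [pow_succ, ← ih, Nat.cast_succ, add_mul, one_mul, f2]
      have e1 : pw p (1 + X : (ZMod p)⟦X⟧) (n * β) = 1 + X * fi p (n * β) := by
        rw [f1]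
        ring
      rw [e1]
      ring
  have h2 := h1 (p ^ l) γ
  rw [add_pow_char_pow, one_pow] at h2
  push_cast at h2
  exact add_left_cancel h2

private theorem ALD_val (p : ℕ) [Fact p.Prime] (ν : ℤ_[p]) (hν : ν ≠ 0) :
    ∃ (j : ℕ) (γ : ℤ_[p]), IsUnit γ ∧ ν = (p : ℤ_[p]) ^ j * γ :=
  ⟨ν.valuation, PadicInt.unitCoeff hν, Units.isUnit _, by
    have := PadicInt.unitCoeff_spec hν
    rw [mul_comm]
    exact this⟩

private theorem ALD_le (p : ℕ) [Fact p.Prime] (j J : ℕ) (γ : ℤ_[p]) (hγ : IsUnit γ)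
    (h : (p : ℤ_[p]) ^ J ∣ (p : ℤ_[p]) ^ j * γ) : J ≤ j := by
  by_contra hc
  push Not at hc
  obtain ⟨i, rfl⟩ := Nat.exists_eq_add_of_lt hc
  have hp0 : (p : ℤ_[p]) ≠ 0 := by exact_mod_cast (Fact.out : p.Prime).ne_zero
  rw [show j + i + 1 = j + (i + 1) by ring, pow_add] at h
  have h2 := (mul_dvd_mul_iff_left (pow_ne_zero j hp0)).1 h
  have h3 : (p : ℤ_[p]) ∣ γ := (dvd_pow_self _ (Nat.succ_ne_zero i)).trans h2
  exact PadicInt.prime_p.not_unit (isUnit_of_dvd_unit h3 hγ)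

private theorem ALD_dvd (p : ℕ) [Fact p.Prime] (j l : ℕ) (γ γ' : ℤ_[p]) (hγ : IsUnit γ)
    (h : j ≤ l) : ∃ δ : ℤ_[p], (p : ℤ_[p]) ^ l * γ' = (p : ℤ_[p]) ^ j * γ * δ := by
  obtain ⟨i, rfl⟩ := Nat.exists_eq_add_of_le h
  obtain ⟨g, hg⟩ := hγ.exists_right_inv
  refine ⟨(p : ℤ_[p]) ^ i * γ' * g, ?_⟩
  have : (p : ℤ_[p]) ^ (j + i) * γ' = (p : ℤ_[p]) ^ (j + i) * γ' * (γ * g) := by
    rw [hg, mul_one]
  rw [this]
  ring

private theorem ALD_w (hFIP : St_FIP) (p : ℕ) [Fact p.Prime] (l m D : ℕ) (γ : ℤ_[p])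
    (hγ : IsUnit γ) (hl : m ≤ l) (κ : (ZMod p)⟦X⟧) (hκ : Od κ (p ^ m * D)) :
    ∃ w : (ZMod p)⟦X⟧, IsUnit w ∧ (X * fi p ((p : ℤ_[p]) ^ l * γ)) ^ D =
      κ ^ p ^ (l - m) * w ^ p ^ (l - m) := by
  obtain ⟨f1, f2, f3, f4, f5, f6, f7⟩ := hFIP p
  have hθ : Od (X * fi p γ) 1 := by
    have h0 := f6 0 γ hγ
    rw [pow_zero, one_mul, pow_zero, Nat.sub_self] at h0
    have h1 : Od (X : (ZMod p)⟦X⟧) 1 := ⟨1, isUnit_one, by ring⟩
    exact h1.mul h0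
  obtain ⟨a, ha, ea⟩ := hθ.pow (p ^ m * D)
  obtain ⟨b, hb, eb⟩ := hκ
  obtain ⟨b', hb'⟩ := hb.exists_right_inv
  have hbu : IsUnit b' := isUnit_of_dvd_one ⟨b, by rw [mul_comm]; exact hb'.symm⟩
  refine ⟨a * b', ha.mul hbu, ?_⟩
  have h1 : (X * fi p γ) ^ (p ^ m * D) = κ * (a * b') := by
    rw [ea, eb, one_mul]
    calc (X : (ZMod p)⟦X⟧) ^ (p ^ m * D) * a = X ^ (p ^ m * D) * a * (b * b') := by
          rw [hb', mul_one]
      _ = _ := by ring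
  rw [ALD_Y hFIP, ← mul_pow, ← h1, ← pow_mul, ← pow_mul]
  congr 1
  calc p ^ l * D = p ^ (m + (l - m)) * D := by rw [Nat.add_sub_cancel' hl]
    _ = _ := by rw [pow_add]; ring

theorem thm_ALD (hFIP : St_FIP) (hFIM : St_FIM) (hALS : St_ALS) (hALR : St_ALR) : St_ALD := by
  intro p _ S η hS hη hηM hηc hacc
  classical
  have hF := hFIP p
  obtain ⟨f1, f2, f3, f4, f5, f6, f7⟩ := hF
  obtain ⟨s1, s2, s3, s4, s5, s6⟩ := hALS p S hS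
  have := ALD_charP p
  have hp : p.Prime := Fact.out
  have hne : S.Nonempty := by
    obtain ⟨ν, hν, _⟩ := hacc 0
    exact ⟨_, hν.2⟩
  obtain ⟨r1, r2⟩ := hALR p S η hS hne hη hηM hηc
  have h1M : (1 : (ZMod p)⟦X⟧) ∈ Mu S := s5 hne
  have hpow : ∀ χ ∈ Mu S, ∀ m : ℕ, χ ^ m ∈ Mu S := by
    intro χ hχ m
    induction m with
    | zero => rwa [pow_zero]
    | succ m ih =>
      rw [pow_succ]
      exact s2 _ ih _ hχ
  -- quotients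
  have hquo : ∀ ν ∈ So S, ∀ δ : ℤ_[p], ν * δ ∈ So S →
      ∃ q ∈ Mu S, fi p (ν * δ) = fi p ν * q := by
    intro ν hν δ hδ
    have hδ0 : δ ≠ 0 := by
      rintro rfl
      exact hδ.1 (mul_zero _)
    exact ⟨_, (s6 ν hν δ hδ0).1 hδ, hFIM p ν δ⟩
  -- an element of positive order
  have hex : ∃ e : ℕ, 0 < e ∧ ∃ κ ∈ Mu S, Od κ e := by
    obtain ⟨ν₁, hν₁, _⟩ := hacc 0
    obtain ⟨j₁, γ₁, hγ₁, e₁⟩ := ALD_val p ν₁ hν₁.1
    obtain ⟨ν₂, hν₂, hd⟩ := hacc (j₁ + 1)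
    obtain ⟨j₂, γ₂, hγ₂, e₂⟩ := ALD_val p ν₂ hν₂.1
    have hj : j₁ + 1 ≤ j₂ := ALD_le p j₂ (j₁ + 1) γ₂ hγ₂ (by rwa [← e₂])
    obtain ⟨δ, hδ⟩ := ALD_dvd p j₁ j₂ γ₁ γ₂ hγ₁ (by omega)
    rw [← e₁, ← e₂] at hδ
    obtain ⟨q, hq, hq'⟩ := hquo ν₁ hν₁ δ (by rwa [← hδ])
    rw [← hδ] at hq'
    have o1 : Od (fi p ν₁) (p ^ j₁ - 1) := by
      rw [e₁]
      exact f6 j₁ γ₁ hγ₁
    have o2 : Od (fi p ν₂) (p ^ j₂ - 1) := by
      rw [e₂]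
      exact f6 j₂ γ₂ hγ₂
    have hq0 : q ≠ 0 := by
      rintro rfl
      rw [mul_zero] at hq'
      exact o2.ne_zero hq'
    obtain ⟨o, ho⟩ := exists_Od hq0
    have h1 := o1.mul ho
    rw [← hq'] at h1
    have h2 := h1.unique o2
    have h3 : p ^ j₁ < p ^ j₂ := Nat.pow_lt_pow_right hp.one_lt (by omega)
    have h4 : 0 < p ^ j₁ := pow_pos hp.pos _
    exact ⟨o, by omega, q, hq, ho⟩
  obtain ⟨e, he0, κ, hκM, hκ⟩ := hex
  obtain ⟨m, D', hD', rfl⟩ := Nat.exists_eq_pow_mul_and_not_dvd he0.ne' p hp.ne_one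
  obtain ⟨ν₀, hν₀, hd₀⟩ := hacc m
  obtain ⟨j, γ, hγ, e₀⟩ := ALD_val p ν₀ hν₀.1
  have hmj : m ≤ j := ALD_le p j m γ hγ (by rwa [← e₀])
  obtain ⟨w₀, hw₀, ew₀⟩ := ALD_w hFIP p j m D' γ hγ hmj κ hκ
  rw [← e₀] at ew₀
  obtain ⟨V, hV⟩ := (hw₀.pow (p ^ (j - m))).exists_right_inv
  have hV0 : V ≠ 0 := by
    rintro rfl
    rw [mul_zero] at hV
    exact zero_ne_one hV
  have hVM : V ∈ Mu S := by
    apply s4
    intro N
    obtain ⟨ν₃, hν₃, hd₃⟩ := hacc (j + m + N + 1)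
    obtain ⟨l, γ₃, hγ₃, e₃⟩ := ALD_val p ν₃ hν₃.1
    have hl : j + m + N + 1 ≤ l := ALD_le p l _ γ₃ hγ₃ (by rwa [← e₃])
    obtain ⟨w₃, hw₃, ew₃⟩ := ALD_w hFIP p l m D' γ₃ hγ₃ (by omega) κ hκ
    rw [← e₃] at ew₃
    obtain ⟨δ, hδ⟩ := ALD_dvd p j l γ γ₃ hγ (by omega)
    rw [← e₀, ← e₃] at hδ
    obtain ⟨q, hq, hq'⟩ := hquo ν₀ hν₀ δ (by rwa [← hδ])
    rw [← hδ] at hq'
    have h1 : (X * fi p ν₃) ^ D' = (X * fi p ν₀) ^ D' * q ^ D' := by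
      rw [hq', ← mul_pow]
      congr 1
      ring
    have hAB : p ^ (l - m) = p ^ (j - m) + (p ^ (l - m) - p ^ (j - m)) :=
      (Nat.add_sub_cancel' (Nat.pow_le_pow_right hp.pos (by omega))).symm
    have h2 : κ ^ (p ^ (l - m) - p ^ (j - m)) * (w₃ ^ p ^ (l - m) * V) = q ^ D' := by
      have hκ0 : κ ^ p ^ (j - m) ≠ 0 := pow_ne_zero _ hκ.ne_zero
      apply mul_left_cancel₀ hκ0
      calc κ ^ p ^ (j - m) * (κ ^ (p ^ (l - m) - p ^ (j - m)) * (w₃ ^ p ^ (l - m) * V))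
          = κ ^ (p ^ (j - m) + (p ^ (l - m) - p ^ (j - m))) * w₃ ^ p ^ (l - m) * V := by
            rw [pow_add]
            ring
        _ = (X * fi p ν₃) ^ D' * V := by rw [← hAB, ew₃]
        _ = κ ^ p ^ (j - m) * (w₀ ^ p ^ (j - m) * V) * q ^ D' := by
            rw [h1, ew₀]
            ring
        _ = κ ^ p ^ (j - m) * q ^ D' := by rw [hV, mul_one]
    have h3 : w₃ ^ p ^ (l - m) * V ∈ Mu S := by
      refine s3 _ (hpow κ hκM (p ^ (l - m) - p ^ (j - m))) _ (pow_ne_zero _ hκ.ne_zero) ?_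
      rw [h2]
      exact hpow q hq D'
    -- the constant
    set c := constantCoeff w₃ with hc
    have hc0 : c ≠ 0 := (isUnit_iff_constantCoeff.1 hw₃).ne_zero
    obtain ⟨g, hg⟩ : X ∣ w₃ - C c := by
      rw [X_dvd_iff, map_sub, constantCoeff_C, hc, sub_self]
    have hw₃' : w₃ = C c + X * g := by
      rw [← hg]
      ring
    have h4 : w₃ ^ p ^ (l - m) = C (c ^ p ^ (l - m)) + X ^ p ^ (l - m) * g ^ p ^ (l - m) := by
      rw [hw₃', add_pow_char_pow, mul_pow, map_pow]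
    refine ⟨C ((c ^ p ^ (l - m))⁻¹) * (w₃ ^ p ^ (l - m) * V), s2 _ (r2 _) _ h3, ?_⟩
    have h5 : C ((c ^ p ^ (l - m))⁻¹) * C (c ^ p ^ (l - m)) = (1 : (ZMod p)⟦X⟧) := by
      rw [← map_mul, inv_mul_cancel₀ (pow_ne_zero _ hc0), map_one]
    have h6 : V - C ((c ^ p ^ (l - m))⁻¹) * (w₃ ^ p ^ (l - m) * V) =
        X ^ p ^ (l - m) * (-(C ((c ^ p ^ (l - m))⁻¹) * g ^ p ^ (l - m) * V)) := by
      rw [h4]
      linear_combination (-V) * h5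
    rw [h6]
    refine Dvd.dvd.mul_right (pow_dvd_pow _ ?_) _
    calc N ≤ l - m := by omega
      _ ≤ p ^ (l - m) := (Nat.lt_pow_self hp.one_lt).le
  have hW : w₀ ^ p ^ (j - m) ∈ Mu S := by
    refine s3 V hVM _ hV0 ?_
    rw [mul_comm, hV]
    exact h1M
  have hyD : (X * fi p ν₀) ^ D' ∈ Mu S := by
    rw [ew₀]
    exact s2 _ (hpow κ hκM _) _ hW
  have hD'0 : 0 < D' := by
    rcases Nat.eq_zero_or_pos D' with h | h
    · exact absurd (h ▸ dvd_zero p) hD'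
    · exact h
  have hexD : ∃ D : ℕ, 0 < D ∧ (X * fi p ν₀) ^ D ∈ Mu S := ⟨D', hD'0, hyD⟩
  obtain ⟨hD0, hDM⟩ := Nat.find_spec hexD
  have hmin : ∀ r : ℕ, r < Nat.find hexD → (X * fi p ν₀) ^ r ∈ Mu S → r = 0 := by
    intro r hr hrM
    by_contra h0
    exact Nat.find_min hexD hr ⟨Nat.pos_of_ne_zero h0, hrM⟩
  have hy0 : X * fi p ν₀ ≠ 0 := mul_ne_zero X_ne_zero (f7 ν₀ hν₀.1)
  have hiff : ∀ r : ℕ, (X * fi p ν₀) ^ r ∈ Mu S ↔ Nat.find hexD ∣ r := by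
    intro r
    constructor
    · intro h
      apply Nat.dvd_of_mod_eq_zero
      apply hmin _ (Nat.mod_lt _ hD0)
      refine s3 _ (hpow _ hDM (r / Nat.find hexD)) _ (pow_ne_zero _ (pow_ne_zero _ hy0)) ?_
      rw [← pow_mul, ← pow_add, Nat.div_add_mod]
      exact h
    · rintro ⟨i, rfl⟩
      rw [pow_mul]
      exact hpow _ hDM i
  refine ⟨ν₀, hν₀, Nat.find hexD, hD0, ?_, hiff⟩
  have h1 : Nat.find hexD ∣ D' := (hiff D').1 hyD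
  exact Nat.Coprime.coprime_dvd_left h1 ((Nat.Prime.coprime_iff_not_dvd hp).2 hD').symm

end ETA
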