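import Pool.Agent.ETA.StB

/-!
# ETA, module ALG: the algebraic theorem (helper31)
-/

set_option autoImplicit false
set_option linter.unusedVariables false

namespace ETA

open PowerSeries ETD

theorem thm_ALG (hALT : St_ALT) (hALA : St_ALA) (hALB : St_ALB) (hSUN : ETD.St_SUN)
    (hBLL : St_BLL) (hRMV : St_RMV) : St_ALG := by
  intro p _ S β hS
  have hp : p.Prime := Fact.out
  by_cases hacc : ∀ J : ℕ, ∃ ν ∈ So S, (p : ℤ_[p]) ^ J ∣ ν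
  swap
  · push Not at hacc
    obtain ⟨J₀, hJ₀⟩ := hacc
    refine ⟨J₀, fun J hJ => (hSUN p).1 _ ?_⟩
    have h1 : {n : ℕ | (p : ℤ_[p]) ^ J ∣ (n : ℤ_[p]) - β ∧ (n : ℤ_[p]) - β ∈ So S} = ∅ := by
      refine Set.eq_empty_of_forall_notMem fun n hn => ?_
      exact hJ₀ _ hn.2 ((pow_dvd_pow _ hJ).trans hn.1)
    rw [h1]
    exact Set.finite_empty
  have hν₀ : ∃ ν₀ ∈ So S, (∀ δ : ℤ_[p], δ ≠ 0 → ν₀ * δ ∈ So S) ∨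
      ∀ ν ∈ So S, ν₀ ∣ ν → ∃ a : ℕ, ν = (p : ℤ_[p]) ^ a * ν₀ := by
    by_cases hun : ∀ η : (ZMod p)⟦X⟧, IsUnit η → η ∈ Mu S → ∃ c : ZMod p, η = C c
    · obtain ⟨ν₀, hν₀, -⟩ := hacc 0
      exact ⟨ν₀, hν₀, Or.inr fun ν hν hd => hALA p S hS hun hacc ν₀ hν₀ ν hν hd⟩
    · push Not at hun
      obtain ⟨η, h1, h2, h3⟩ := hun
      exact hALB p S η hS h1 h2 h3 hacc
  obtain ⟨ν₀, hν₀S, hcase⟩ := hν₀
  obtain ⟨J₀, hJ₀⟩ : ∃ J₀ : ℕ, ∀ ν : ℤ_[p], (p : ℤ_[p]) ^ J₀ ∣ ν → ν₀ ∣ ν := by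
    obtain ⟨v, w, hvw⟩ : ∃ (v : ℕ) (w : ℤ_[p]ˣ), ν₀ = w * (p : ℤ_[p]) ^ v :=
      ⟨_, _, PadicInt.unitCoeff_spec hν₀S.1⟩
    refine ⟨v, fun ν hν => ?_⟩
    rw [hvw]
    exact Units.mul_left_dvd.2 hν
  refine ⟨J₀, fun J hJ => ?_⟩
  have hJd : ∀ ν : ℤ_[p], (p : ℤ_[p]) ^ J ∣ ν → ν₀ ∣ ν := fun ν hν =>
    hJ₀ ν ((pow_dvd_pow _ hJ).trans hν)
  rcases hcase with hcase | hcase
  · have h1 : ∀ n : ℕ, n ∈ {n : ℕ | (p : ℤ_[p]) ^ J ∣ (n : ℤ_[p]) - β ∧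
        (n : ℤ_[p]) - β ∈ So S} ↔ (p : ℤ_[p]) ^ J ∣ (n : ℤ_[p]) - β ∧ (n : ℤ_[p]) ≠ β := by
      intro n
      constructor
      · rintro ⟨h2, h3⟩
        exact ⟨h2, sub_ne_zero.1 h3.1⟩
      · rintro ⟨h2, h3⟩
        refine ⟨h2, ?_⟩
        obtain ⟨δ, hδ⟩ := hJd _ h2
        rw [hδ]
        apply hcase
        rintro rfl
        rw [mul_zero] at hδ
        exact h3 (sub_eq_zero.1 hδ)
    by_cases hb : ∃ b : ℕ, (b : ℤ_[p]) = β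
    · obtain ⟨b, hb⟩ := hb
      have h2 : {n : ℕ | (p : ℤ_[p]) ^ J ∣ (n : ℤ_[p]) - β ∧ (n : ℤ_[p]) - β ∈ So S} =
          {n : ℕ | (p : ℤ_[p]) ^ J ∣ (n : ℤ_[p]) - β} \ {b} := by
        ext n
        rw [h1]
        refine and_congr_right fun _ => ?_
        rw [← hb]
        exact not_congr Nat.cast_inj
      rw [h2]
      exact hRMV p _ b (hBLL p β J)
    · have h2 : {n : ℕ | (p : ℤ_[p]) ^ J ∣ (n : ℤ_[p]) - β ∧ (n : ℤ_[p]) - β ∈ So S} =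
          {n : ℕ | (p : ℤ_[p]) ^ J ∣ (n : ℤ_[p]) - β} := by
        ext n
        rw [h1]
        exact ⟨fun h => h.1, fun h => ⟨h, fun h' => hb ⟨n, h'⟩⟩⟩
      rw [h2]
      exact hBLL p β J
  · classical
    have hex : ∃ a : ℕ, (p : ℤ_[p]) ^ J ∣ (p : ℤ_[p]) ^ a * ν₀ ∧ (p : ℤ_[p]) ^ a * ν₀ ∈ So S := by
      obtain ⟨ν, hν, hd⟩ := hacc J
      obtain ⟨a, ha⟩ := hcase ν hν (hJd ν hd)
      exact ⟨a, by rwa [← ha], by rwa [← ha]⟩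
    obtain ⟨a₀, ⟨ha1, ha2⟩, hmin⟩ : ∃ a₀ : ℕ, ((p : ℤ_[p]) ^ J ∣ (p : ℤ_[p]) ^ a₀ * ν₀ ∧
        (p : ℤ_[p]) ^ a₀ * ν₀ ∈ So S) ∧ ∀ a : ℕ, (p : ℤ_[p]) ^ J ∣ (p : ℤ_[p]) ^ a * ν₀ →
        (p : ℤ_[p]) ^ a * ν₀ ∈ So S → a₀ ≤ a :=
      ⟨Nat.find hex, Nat.find_spec hex, fun a h2 h3 => Nat.find_min' hex ⟨h2, h3⟩⟩
    have hkey : ∀ ν ∈ So S, (p : ℤ_[p]) ^ J ∣ ν →
        ∃ a : ℕ, ν = (p : ℤ_[p]) ^ a * ((p : ℤ_[p]) ^ a₀ * ν₀) := by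
      intro ν hν hd
      obtain ⟨b, hb⟩ := hcase ν hν (hJd ν hd)
      have h2 : a₀ ≤ b := hmin b (by rwa [← hb]) (by rwa [← hb])
      refine ⟨b - a₀, ?_⟩
      rw [← mul_assoc, ← pow_add, Nat.sub_add_cancel h2]
      exact hb
    refine hALT p S β ((p : ℤ_[p]) ^ a₀ * ν₀) hS ha2 (fun ν hν hd => ?_) J (fun ν hν hd => ?_) ha1
    · exact hkey ν hν (ha1.trans hd)
    · obtain ⟨a, ha⟩ := hkey ν hν hd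
      rw [ha]
      exact dvd_mul_left _ _

end ETA
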