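import Pool.Agent.ETA.StB

set_option autoImplicit false
set_option linter.unusedVariables false

namespace ETA

open PowerSeries ETD

private theorem ALI_charP (p : ℕ) [Fact p.Prime] : CharP (ZMod p)⟦X⟧ p :=
  charP_of_injective_algebraMap (algebraMap (ZMod p) (ZMod p)⟦X⟧).injective p

private theorem ALI_key (p : ℕ) [Fact p.Prime] (R : Set (ZMod p)⟦X⟧) (y : (ZMod p)⟦X⟧) (D : ℕ)
    (s2 : ∀ χ₁ ∈ R, ∀ χ₂ ∈ R, χ₁ * χ₂ ∈ R) (r2 : ∀ c : ZMod p, C c ∈ R)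
    (s3 : ∀ χ₁ ∈ R, ∀ χ : (ZMod p)⟦X⟧, χ₁ ≠ 0 → χ₁ * χ ∈ R → χ ∈ R)
    (s4 : ∀ χ : (ZMod p)⟦X⟧, (∀ N : ℕ, ∃ χ' ∈ R, X ^ N ∣ χ - χ') → χ ∈ R)
    (hy0 : y ≠ 0) (hD : Nat.Coprime D p) (hiff : ∀ m : ℕ, y ^ m ∈ R ↔ D ∣ m)
    (b : ℕ → (ZMod p)⟦X⟧) (hb : ∀ r < D, b r ∈ R) (r r' N : ℕ) (hr : r < r') (hr' : r' < D)
    (h0 : b r ≠ 0) (h0' : b r' ≠ 0) (h1 : Od (y ^ r * b r) N) (h2 : Od (y ^ r' * b r') N) :
    False := by
  have := ALI_charP p
  have hp : p.Prime := Fact.out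
  have h1R : (1 : (ZMod p)⟦X⟧) ∈ R := by simpa using r2 1
  have hpow : ∀ χ ∈ R, ∀ m : ℕ, χ ^ m ∈ R := by
    intro χ hχ m
    induction m with
    | zero => rwa [pow_zero]
    | succ m ih =>
      rw [pow_succ]
      exact s2 _ ih _ hχ
  obtain ⟨m, rfl⟩ := Nat.exists_eq_add_of_lt hr
  obtain ⟨a₁, ha₁, e₁⟩ := h1
  obtain ⟨a₂, ha₂, e₂⟩ := h2
  obtain ⟨a₃, ha₃⟩ := ha₁.exists_right_inv
  have ha₃u : IsUnit a₃ := isUnit_of_dvd_one ⟨a₁, by rw [mul_comm]; exact ha₃.symm⟩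
  set w := a₂ * a₃ with hw
  have hwu : IsUnit w := ha₂.mul ha₃u
  have h3 : y ^ (m + 1) * b (r + m + 1) = b r * w := by
    apply mul_left_cancel₀ (pow_ne_zero r hy0)
    calc y ^ r * (y ^ (m + 1) * b (r + m + 1)) = y ^ (r + m + 1) * b (r + m + 1) := by ring
      _ = X ^ N * a₂ * (a₁ * a₃) := by rw [e₂, ha₃, mul_one]
      _ = X ^ N * a₁ * w := by rw [hw]; ring
      _ = y ^ r * (b r * w) := by rw [← e₁]; ring
  have hwD : w ^ D ∈ R := by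
    refine s3 _ (hpow _ (hb r (by omega)) D) _ (pow_ne_zero _ h0) ?_
    rw [← mul_pow, ← h3, mul_pow, ← pow_mul]
    exact s2 _ ((hiff _).2 ⟨m + 1, by ring⟩) _ (hpow _ (hb _ hr') D)
  set c := constantCoeff w with hc
  have hc0 : c ≠ 0 := (isUnit_iff_constantCoeff.1 hwu).ne_zero
  set w' := C c⁻¹ * w with hw'
  have hww : w = C c * w' := by
    rw [hw', ← mul_assoc, ← map_mul, mul_inv_cancel₀ hc0, map_one, one_mul]
  have hw'1 : X ∣ w' - 1 := by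
    rw [X_dvd_iff, map_sub, map_one, hw', map_mul, constantCoeff_C, ← hc, inv_mul_cancel₀ hc0,
      sub_self]
  have hw'D : w' ^ D ∈ R := by
    rw [hw', mul_pow]
    exact s2 _ (hpow _ (r2 _) _) _ hwD
  have hw'R : w' ∈ R := by
    apply s4
    intro N'
    rcases Nat.eq_zero_or_pos N' with rfl | hN'
    · exact ⟨1, h1R, by rw [pow_zero]; exact one_dvd _⟩
    have hk : 1 < p ^ N' := Nat.one_lt_pow hN'.ne' hp.one_lt
    obtain ⟨i, -, hi⟩ := Nat.exists_mul_mod_eq_one_of_coprime (hD.pow_right N') hk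
    have hi' : D * i = 1 + p ^ N' * (D * i / p ^ N') := by
      have := Nat.mod_add_div (D * i) (p ^ N')
      rw [hi] at this
      exact this.symm
    refine ⟨(w' ^ D) ^ i, hpow _ hw'D i, ?_⟩
    rw [← pow_mul, hi', pow_add, pow_one, pow_mul]
    have h4 : w' - w' * (w' ^ p ^ N') ^ (D * i / p ^ N') =
        -(w' * ((w' ^ p ^ N') ^ (D * i / p ^ N') - 1 ^ (D * i / p ^ N'))) := by
      rw [one_pow]
      ring
    rw [h4, dvd_neg]
    refine Dvd.dvd.mul_left ?_ _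
    refine Dvd.dvd.trans ?_ (sub_dvd_pow_sub_pow _ _ _)
    have h5 : w' ^ p ^ N' - 1 = (w' - 1) ^ p ^ N' := by
      rw [sub_pow_char_pow, one_pow]
    rw [h5]
    exact (pow_dvd_pow X (Nat.lt_pow_self hp.one_lt).le).trans (pow_dvd_pow_of_dvd hw'1 _)
  have hwR : w ∈ R := by
    rw [hww]
    exact s2 _ (r2 _) _ hw'R
  have h6 : y ^ (m + 1) ∈ R := by
    refine s3 _ (hb _ hr') _ h0' ?_
    rw [mul_comm, h3]
    exact s2 _ (hb r (by omega)) _ hwR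
  have h7 := Nat.le_of_dvd (Nat.succ_pos m) ((hiff _).1 h6)
  omega

theorem thm_ALI : St_ALI := by
  intro p _ R y D s2 r2 s3 s4 hXy hy0 hD hiff b hb hsum
  classical
  by_contra hcon
  push Not at hcon
  obtain ⟨r₁, hr₁, hb₁⟩ := hcon
  have hne : ∀ r, b r ≠ 0 → y ^ r * b r ≠ 0 := fun r h => mul_ne_zero (pow_ne_zero _ hy0) h
  have hex : ∃ N : ℕ, ∃ r < D, b r ≠ 0 ∧ Od (y ^ r * b r) N := by
    obtain ⟨N, hN⟩ := exists_Od (hne r₁ hb₁)
    exact ⟨N, r₁, hr₁, hb₁, hN⟩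
  obtain ⟨r, hr, hbr, hord⟩ := Nat.find_spec hex
  set N := Nat.find hex with hN
  have hmin : ∀ r' < D, b r' ≠ 0 → ∀ N', Od (y ^ r' * b r') N' → N ≤ N' := by
    intro r' h1 h2 N' h3
    exact Nat.find_min' hex ⟨r', h1, h2, h3⟩
  by_cases hother : ∃ r' < D, r' ≠ r ∧ b r' ≠ 0 ∧ Od (y ^ r' * b r') N
  · obtain ⟨r', h1, h2, h3, h4⟩ := hother
    rcases lt_or_gt_of_ne h2 with h | h
    · exact ALI_key p R y D s2 r2 s3 s4 hy0 hD hiff b hb r' r N h hr h3 hbr h4 hord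
    · exact ALI_key p R y D s2 r2 s3 s4 hy0 hD hiff b hb r r' N h h1 hbr h3 hord h4
  · push Not at hother
    have hdiv : X ^ (N + 1) ∣ ∑ r' ∈ (Finset.range D).erase r, y ^ r' * b r' := by
      apply Finset.dvd_sum
      intro r' hr'
      rw [Finset.mem_erase, Finset.mem_range] at hr'
      by_cases h0 : b r' = 0
      · rw [h0, mul_zero]
        exact dvd_zero _
      · obtain ⟨N', hN'⟩ := exists_Od (hne r' h0)
        have h1 := hmin r' hr'.2 h0 N' hN'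
        have h2 : N' ≠ N := by
          rintro rfl
          exact hother r' hr'.2 hr'.1 h0 hN'
        exact (pow_dvd_pow X (by omega)).trans hN'.dvd
    have h1 := hord.add hdiv
    rw [Finset.add_sum_erase _ (fun r => y ^ r * b r) (Finset.mem_range.2 hr), hsum] at h1
    exact h1.ne_zero rfl

end ETA
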