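import Pool.Agent.ETA.StB

set_option autoImplicit false
set_option linter.unusedVariables false

namespace ETA

open PowerSeries ETD

theorem thm_ALR (hALS : St_ALS) : St_ALR := by
  intro p _ S η hS hne hη hηM hηc
  obtain ⟨s1, s2, s3, s4, s5, s6⟩ := hALS p S hS
  obtain ⟨φ, hφ⟩ := id hne
  have hφ0 : φ ≠ 0 := by
    rintro rfl
    exact hS.h0 hφ
  have h3 := hS.h3 η φ hη hηc hφ (s1 η hηM hη.ne_zero φ hφ)
  have hadd : ∀ χ₁ ∈ Mu S, ∀ χ₂ ∈ Mu S, χ₁ + χ₂ ∈ Mu S := by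
    intro χ₁ h1 χ₂ h2
    by_cases h4 : χ₁ = 0
    · rw [h4, zero_add]
      exact h2
    by_cases h5 : χ₂ = 0
    · rw [h5, add_zero]
      exact h1
    rcases h3 _ (s1 χ₁ h1 h4 φ hφ) _ (s1 χ₂ h2 h5 φ hφ) with h6 | h6
    · right
      refine ⟨φ, hφ, ?_⟩
      rw [add_mul]
      exact h6
    · left
      rw [← add_mul] at h6
      exact (mul_eq_zero.1 h6).resolve_right hφ0
  refine ⟨hadd, fun c => ?_⟩
  have h7 : ∀ n : ℕ, C ((n : ZMod p)) ∈ Mu S := by
    intro n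
    induction n with
    | zero =>
      left
      rw [Nat.cast_zero, map_zero]
    | succ n ih =>
      rw [Nat.cast_succ, map_add, map_one]
      exact hadd _ ih _ (s5 hne)
  have h8 := h7 c.val
  rwa [ZMod.natCast_zmod_val] at h8

end ETA
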