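import Pool.Agent.ETA.StB

set_option autoImplicit false
set_option linter.unusedVariables false

namespace ETA

open PowerSeries ETD

theorem thm_ALS (hFIP : St_FIP) (hFIM : St_FIM) : St_ALS := by
  intro p _ S hS
  obtain ⟨f1, f2, f3, f4, f5, f6, f7⟩ := hFIP p
  have s1 : ∀ χ ∈ Mu S, χ ≠ 0 → ∀ φ ∈ S, χ * φ ∈ S := by
    rintro χ (h | ⟨φ', h', h''⟩) hχ φ hφ
    · exact absurd h hχ
    · exact hS.h1 φ' h' φ hφ χ h''
  refine ⟨s1, ?_, ?_, ?_, ?_, ?_⟩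
  · rintro χ₁ h1 χ₂ (h2 | ⟨φ, hφ, h2⟩)
    · left
      rw [h2, mul_zero]
    · by_cases h3 : χ₁ = 0
      · left
        rw [h3, zero_mul]
      · right
        refine ⟨φ, hφ, ?_⟩
        rw [mul_assoc]
        exact s1 χ₁ h1 h3 _ h2
  · rintro χ₁ h1 χ h3 (h2 | ⟨φ, hφ, h2⟩)
    · left
      exact (mul_eq_zero.1 h2).resolve_left h3
    · right
      refine ⟨χ₁ * φ, s1 χ₁ h1 h3 φ hφ, ?_⟩
      have h4 : χ * (χ₁ * φ) = χ₁ * χ * φ := by ring
      rw [h4]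
      exact h2
  · intro χ hχ
    by_cases h0 : χ = 0
    · left
      exact h0
    obtain ⟨d, hd⟩ := exists_Od h0
    have hne : ∀ χ' : (ZMod p)⟦X⟧, X ^ (d + 1) ∣ χ - χ' → χ' ≠ 0 := by
      rintro χ' h1 rfl
      rw [sub_zero] at h1
      exact hd.not_dvd (Nat.lt_succ_self d) h1
    obtain ⟨χ₁, h1, h1'⟩ := hχ (d + 1)
    rcases h1 with h1 | ⟨φ, hφ, -⟩
    · exact absurd h1 (hne _ h1')
    right
    have hφ0 : φ ≠ 0 := by
      rintro rfl
      exact hS.h0 hφ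
    refine ⟨φ, hφ, hS.h2 _ (mul_ne_zero h0 hφ0) fun N => ?_⟩
    obtain ⟨χ', h2, h3⟩ := hχ (N + (d + 1))
    have h4 : χ' ≠ 0 := hne _ ((pow_dvd_pow X (Nat.le_add_left _ _)).trans h3)
    refine ⟨χ' * φ, s1 χ' h2 h4 φ hφ, ?_⟩
    rw [← sub_mul]
    exact ((pow_dvd_pow X (Nat.le_add_right _ _)).trans h3).mul_right _
  · rintro ⟨φ, hφ⟩
    right
    exact ⟨φ, hφ, by rwa [one_mul]⟩
  · intro ν hν δ hδ
    have h1 := hFIM p ν δ
    have h2 : ν * δ ≠ 0 := mul_ne_zero hν.1 hδ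
    constructor
    · intro h
      right
      refine ⟨fi p ν, hν.2, ?_⟩
      rw [mul_comm, ← h1]
      exact h.2
    · intro h
      refine ⟨h2, ?_⟩
      have h3 : PowerSeries.subst (X * fi p ν) (fi p δ) ≠ 0 := by
        intro h4
        rw [h4, mul_zero] at h1
        exact f7 _ h2 h1
      have h5 := s1 _ h h3 _ hν.2
      rw [h1, mul_comm]
      exact h5

end ETA
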