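import Pool.Agent.ETA.StB

set_option autoImplicit false
set_option linter.unusedVariables false

namespace ETA

open PowerSeries ETD

private theorem ALT_Y (hFIP : St_FIP) (p : ℕ) [Fact p.Prime] (l : ℕ) (γ : ℤ_[p]) :
    X * fi p ((p : ℤ_[p]) ^ l * γ) = (X * fi p γ) ^ p ^ l := by
  obtain ⟨f1, f2, f3, f4, f5, f6, f7⟩ := hFIP p
  have : CharP (ZMod p)⟦X⟧ p :=
    charP_of_injective_algebraMap (algebraMap (ZMod p) (ZMod p)⟦X⟧).injective p
  have h1 : ∀ (n : ℕ) (β : ℤ_[p]), 1 + X * fi p (n * β) = (1 + X * fi p β) ^ n := by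
    intro n β
    induction n with
    | zero => rw [Nat.cast_zero, zero_mul, f4, mul_zero, add_zero, pow_zero]
    | succ n ih =>
      rw [pow_succ, ← ih, Nat.cast_succ, add_mul, one_mul, f2]
      have e1 : pw p (1 + X : (ZMod p)⟦X⟧) (n * β) = 1 + X * fi p (n * β) := by
        rw [f1]
        ring
      rw [e1]
      ring
  have h2 := h1 (p ^ l) γ
  rw [add_pow_char_pow, one_pow] at h2
  push_cast at h2
  exact add_left_cancel h2

/-- submonoids of the natural numbers with differences -/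
private theorem ALT_D (P : ℕ → Prop) (h0 : P 0) (h1 : ∀ a b, P a → P b → P (a + b))
    (h2 : ∀ a b, P a → P (a + b) → P b) : ∃ D : ℕ, ∀ m, P m ↔ D ∣ m := by
  classical
  by_cases hex : ∃ D : ℕ, 0 < D ∧ P D
  · obtain ⟨hD0, hDM⟩ := Nat.find_spec hex
    have hmul : ∀ i, P (Nat.find hex * i) := by
      intro i
      induction i with
      | zero =>
        rw [mul_zero]
        exact h0
      | succ i ih =>
        rw [mul_add, mul_one]
        exact h1 _ _ ih hDM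
    refine ⟨Nat.find hex, fun m => ⟨fun h => ?_, ?_⟩⟩
    · have h3 : P (m % Nat.find hex) := by
        refine h2 _ _ (hmul (m / Nat.find hex)) ?_
        rw [Nat.div_add_mod]
        exact h
      refine Nat.dvd_of_mod_eq_zero ?_
      by_contra h4
      exact Nat.find_min hex (Nat.mod_lt _ hD0) ⟨Nat.pos_of_ne_zero h4, h3⟩
    · rintro ⟨i, rfl⟩
      exact hmul i
  · refine ⟨0, fun m => ?_⟩
    rw [zero_dvd_iff]
    constructor
    · intro hm
      by_contra h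
      exact hex ⟨m, Nat.pos_of_ne_zero h, hm⟩
    · rintro rfl
      exact h0

theorem thm_ALT (hFIP : St_FIP) (hALS : St_ALS) (hAPJ : St_APJ) : St_ALT := by
  intro p _ S β ν₀ hS hν₀ hall J hJ1 hJ2
  obtain ⟨f1, f2, f3, f4, f5, f6, f7⟩ := hFIP p
  obtain ⟨s1, s2, s3, s4, s5, s6⟩ := hALS p S hS
  have hp : p.Prime := Fact.out
  have hp0 : (p : ℤ_[p]) ≠ 0 := by exact_mod_cast hp.ne_zero
  have hy0 : X * fi p ν₀ ≠ 0 := mul_ne_zero X_ne_zero (f7 ν₀ hν₀.1)
  have hfi : ∀ a : ℕ, fi p ((p : ℤ_[p]) ^ a * ν₀) = (X * fi p ν₀) ^ (p ^ a - 1) * fi p ν₀ := by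
    intro a
    have h1 := ALT_Y hFIP p a ν₀
    have h2 : p ^ a = (p ^ a - 1) + 1 := (Nat.sub_add_cancel (Nat.one_le_pow _ _ hp.pos)).symm
    rw [h2, pow_succ] at h1
    have h3 : X * fi p ((p : ℤ_[p]) ^ a * ν₀) =
        X * ((X * fi p ν₀) ^ (p ^ a - 1) * fi p ν₀) := by
      rw [h1]
      ring
    exact mul_left_cancel₀ X_ne_zero h3
  have hiff : ∀ a : ℕ, (p : ℤ_[p]) ^ a * ν₀ ∈ So S ↔ (X * fi p ν₀) ^ (p ^ a - 1) ∈ Mu S := by
    intro a
    constructor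
    · intro h
      right
      refine ⟨fi p ν₀, hν₀.2, ?_⟩
      rw [← hfi]
      exact h.2
    · intro h
      refine ⟨mul_ne_zero (pow_ne_zero _ hp0) hν₀.1, ?_⟩
      rw [hfi]
      exact s1 _ h (pow_ne_zero _ hy0) _ hν₀.2
  obtain ⟨D, hD⟩ := ALT_D (fun m => (X * fi p ν₀) ^ m ∈ Mu S)
    (by rw [pow_zero]; exact s5 ⟨_, hν₀.2⟩)
    (fun a b ha hb => by rw [pow_add]; exact s2 _ ha _ hb)
    (fun a b ha hb => by
      rw [pow_add] at hb
      exact s3 _ ha _ (pow_ne_zero _ hy0) hb)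
  have h1 := hAPJ p β ν₀ D 0
  have h2 : {n : ℕ | (p : ℤ_[p]) ^ J ∣ (n : ℤ_[p]) - β ∧ (n : ℤ_[p]) - β ∈ So S} =
      {n : ℕ | ∃ i : ℕ, (n : ℤ_[p]) = β + (p : ℤ_[p]) ^ i * ν₀ ∧ D ∣ p ^ 0 * (p ^ i - 1)} := by
    ext n
    constructor
    · rintro ⟨h3, h4⟩
      obtain ⟨a, ha⟩ := hall _ h4 (hJ1 _ h4 h3)
      refine ⟨a, ?_, ?_⟩
      · rw [← ha]
        ring
      · rw [pow_zero, one_mul]
        refine (hD _).1 ?_
        rw [ha] at h4
        exact (hiff a).1 h4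
    · rintro ⟨i, h3, h4⟩
      have h5 : (n : ℤ_[p]) - β = (p : ℤ_[p]) ^ i * ν₀ := by
        rw [h3]
        ring
      rw [pow_zero, one_mul] at h4
      refine ⟨?_, ?_⟩
      · rw [h5]
        exact hJ2.mul_left _
      · rw [h5]
        exact (hiff i).2 ((hD _).2 h4)
  rw [h2]
  exact h1

end ETA
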