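import Pool.Agent.ETA.StA

/-!
# ETA, module APJ: geometric progressions
-/

set_option autoImplicit false
set_option linter.unusedVariables false

namespace ETA

open PowerSeries ETD

theorem APJ_sub (p : ℕ) [Fact p.Prime] (hS : ETD.St_SUN) (x : ℤ_[p]) (R : Set ℕ)
    (h : ∀ n ∈ R, (n : ℤ_[p]) = x) : PSet p R := by
  refine (hS p).1 R (Set.Subsingleton.finite fun n hn m hm => ?_)
  exact_mod_cast (h n hn).trans (h m hm).symm

/-- the order of `p` modulo `D` -/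
theorem APJ_ord (p D : ℕ) (hp : p.Prime) (hD : 0 < D) (hpD : ¬ p ∣ D) :
    ∃ s : ℕ, 0 < s ∧ ∀ i : ℕ, D ∣ p ^ i - 1 ↔ s ∣ i := by
  have : NeZero D := ⟨hD.ne'⟩
  have hc : Nat.Coprime p D := (Nat.Prime.coprime_iff_not_dvd hp).2 hpD
  refine ⟨orderOf (ZMod.unitOfCoprime p hc), orderOf_pos _, fun i => ?_⟩
  rw [orderOf_dvd_iff_pow_eq_one, ← Nat.modEq_iff_dvd' (Nat.one_le_pow _ _ hp.pos),
    ← ZMod.natCast_eq_natCast_iff, Units.ext_iff]
  push_cast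
  rw [ZMod.coe_unitOfCoprime]
  exact eq_comm

theorem thm_APJ (hS : ETD.St_SUN) (hQ : ETD.St_SPQ) : St_APJ := by
  intro p _ β ν₀ D j₀
  have hp : p.Prime := Fact.out
  rcases Nat.eq_zero_or_pos D with hD | hD
  · subst hD
    refine APJ_sub p hS (β + ν₀) _ ?_
    rintro n ⟨i, hi, hd⟩
    have h1 : i = 0 := by
      rw [zero_dvd_iff, mul_eq_zero] at hd
      rcases hd with hd | hd
      · exact absurd hd (pow_pos hp.pos _).ne'
      · by_contra h0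
        have := Nat.one_lt_pow h0 hp.one_lt
        omega
    rw [hi, h1, pow_zero, one_mul]
  obtain ⟨b, D₁, hD1, hDe⟩ := Nat.exists_eq_pow_mul_and_not_dvd hD.ne' p hp.ne_one
  by_cases hb : j₀ < b
  · refine APJ_sub p hS (β + ν₀) _ ?_
    rintro n ⟨i, hi, hd⟩
    have h1 : i = 0 := by
      by_contra h0
      have h2 : p ^ j₀ * p ∣ p ^ j₀ * (p ^ i - 1) := by
        refine dvd_trans ?_ hd
        rw [hDe, ← pow_succ]
        exact (pow_dvd_pow p hb).mul_right _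
      have h3 : p ∣ p ^ i - 1 := Nat.dvd_of_mul_dvd_mul_left (pow_pos hp.pos _) h2
      have h4 : p ∣ p ^ i := dvd_pow_self p h0
      have h5 : p ∣ p ^ i - (p ^ i - 1) := Nat.dvd_sub h4 h3
      have h6 : 0 < p ^ i := pow_pos hp.pos _
      have h7 : p ^ i - (p ^ i - 1) = 1 := by omega
      rw [h7] at h5
      exact hp.one_lt.ne' (Nat.dvd_one.1 h5)
    rw [hi, h1, pow_zero, one_mul]
  have hD1p : 0 < D₁ := by
    rcases Nat.eq_zero_or_pos D₁ with h | h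
    · exact absurd (h ▸ dvd_zero p) hD1
    · exact h
  obtain ⟨s, hs, hs'⟩ := APJ_ord p D₁ hp hD1p hD1
  have hset : {n : ℕ | ∃ i : ℕ, (n : ℤ_[p]) = β + (p : ℤ_[p]) ^ i * ν₀ ∧
      D ∣ p ^ j₀ * (p ^ i - 1)} = {n : ℕ | ∃ j : ℕ, (n : ℤ_[p]) = β + ((p : ℤ_[p]) ^ s) ^ j * ν₀} := by
    ext n
    constructor
    · rintro ⟨i, hi, hd⟩
      have h1 : D₁ ∣ p ^ i - 1 := by
        have h2 : D₁ ∣ p ^ j₀ * (p ^ i - 1) := (hDe ▸ Dvd.intro_left _ rfl : D₁ ∣ D).trans hd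
        have h3 : Nat.Coprime D₁ (p ^ j₀) :=
          (Nat.Coprime.pow_left j₀ ((Nat.Prime.coprime_iff_not_dvd hp).2 hD1)).symm
        exact h3.dvd_of_dvd_mul_left h2
      obtain ⟨j, rfl⟩ := (hs' i).1 h1
      exact ⟨j, by rw [hi, pow_mul]⟩
    · rintro ⟨j, hj⟩
      refine ⟨s * j, by rw [hj, pow_mul], ?_⟩
      rw [hDe]
      exact mul_dvd_mul (pow_dvd_pow p (not_lt.1 hb)) ((hs' _).2 (dvd_mul_right _ _))
  rw [hset]
  exact hQ p s hs β ν₀

end ETA
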