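import Pool.Agent.ETA.StA

/-!
# ETA: balls (BLL)
-/

set_option autoImplicit false
set_option linter.unusedVariables false

namespace ETA

open PowerSeries ETD

/-- naturals which are congruent in `ℤ_p` are congruent -/
private theorem BLL_modEq (p : ℕ) [Fact p.Prime] {m m' j : ℕ} :
    (p : ℤ_[p]) ^ j ∣ (m : ℤ_[p]) - (m' : ℤ_[p]) ↔ m ≡ m' [MOD p ^ j] := by
  rw [← ZMod.natCast_eq_natCast_iff, ← map_natCast (PadicInt.toZModPow (p := p) j) m,
    ← map_natCast (PadicInt.toZModPow (p := p) j) m', ← sub_eq_zero (a := PadicInt.toZModPow j _),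
    ← map_sub, ← RingHom.mem_ker, PadicInt.ker_toZModPow, Ideal.mem_span_singleton]

theorem thm_BLL (h : ETD.St_SUN) : St_BLL := by
  intro p _ β J
  have hp : 0 < p ^ J := pow_pos (Fact.out : p.Prime).pos J
  refine ⟨{(p ^ J, β.appr J)}, ∅, ?_, by simp, ?_⟩
  · intro q hq
    rw [Finset.mem_singleton] at hq
    rw [hq]
    exact hp
  · have hβ : (p : ℤ_[p]) ^ J ∣ β - (β.appr J : ℤ_[p]) :=
      Ideal.mem_span_singleton.1 (PadicInt.appr_spec J β)
    ext n
    simp only [Set.mem_setOf_eq, Finset.mem_singleton, exists_eq_left, Finset.notMem_empty,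
      false_and, exists_false, or_false]
    have h1 : (p : ℤ_[p]) ^ J ∣ (n : ℤ_[p]) - β ↔ n ≡ β.appr J [MOD p ^ J] := by
      rw [← BLL_modEq, ← dvd_add_left hβ, sub_add_sub_cancel]
    rw [h1]
    have h2 : β.appr J < p ^ J := PadicInt.appr_lt β J
    constructor
    · intro h3
      refine ⟨n / p ^ J, ?_⟩
      unfold Nat.ModEq at h3
      rw [Nat.mod_eq_of_lt h2] at h3
      rw [← h3, Nat.div_add_mod]
    · rintro ⟨m, rfl⟩
      unfold Nat.ModEq
      rw [Nat.mul_add_mod]

end ETA
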