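import Pool.Agent.ETA.StA

/-!
# ETA: small balls contain no small natural number except the centre (BLN)
-/

set_option autoImplicit false
set_option linter.unusedVariables false

namespace ETA

open PowerSeries ETD

private theorem BLN_one (p : ℕ) [Fact p.Prime] (z : ℤ_[p]) (hz : z ≠ 0) :
    ∃ J : ℕ, ¬ (p : ℤ_[p]) ^ J ∣ z := by
  refine ⟨z.valuation + 1, fun h => ?_⟩
  have h1 := (PadicInt.mem_span_pow_iff_le_valuation z hz (z.valuation + 1)).1
    (Ideal.mem_span_singleton.2 h)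
  omega

theorem thm_BLN : St_BLN := by
  intro p _ β L
  have h1 : ∀ n : ℕ, ∃ J : ℕ, (n : ℤ_[p]) ≠ β → ¬ (p : ℤ_[p]) ^ J ∣ (n : ℤ_[p]) - β := by
    intro n
    by_cases hn : (n : ℤ_[p]) = β
    · exact ⟨0, fun h => absurd hn h⟩
    · obtain ⟨J, hJ⟩ := BLN_one p _ (sub_ne_zero.2 hn)
      exact ⟨J, fun _ => hJ⟩
  choose J hJ using h1
  refine ⟨(Finset.range L).sup J, ?_⟩
  intro n hn hne
  by_contra hlt
  have h2 : J n ≤ (Finset.range L).sup J :=
    Finset.le_sup (f := J) (Finset.mem_range.2 (not_le.1 hlt))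
  exact hJ n hne ((pow_dvd_pow _ h2).trans hn)

end ETA
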