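import Pool.Agent.ETA.StD

/-!
# ETA: iterates of the maps of the second and third kind
-/

set_option autoImplicit false
set_option linter.unusedVariables false

namespace ETA

open PowerSeries ETD

section CLI

variable {R : Type} [CommRing R]

theorem CLI_add (p : ℕ) [Fact p.Prime] [CharP R p] (r : ℕ) (c : ℕ → R) (w w' : R) :
    ad p r c (w + w') = ad p r c w + ad p r c w' := by
  unfold ad
  rw [← Finset.sum_add_distrib]
  refine Finset.sum_congr rfl fun i _ => ?_
  rw [add_pow_char_pow, mul_add]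

theorem CLI_zero (p : ℕ) [Fact p.Prime] (r : ℕ) (c : ℕ → R) : ad p r c (0 : R) = 0 := by
  unfold ad
  refine Finset.sum_eq_zero fun i _ => ?_
  rw [zero_pow (pow_ne_zero _ (Fact.out : p.Prime).ne_zero), mul_zero]

/-- the additive polynomial as an endomorphism -/
noncomputable def CLI_end (p : ℕ) [Fact p.Prime] [CharP R p] (r : ℕ) (c : ℕ → R) :
    AddMonoid.End R :=
  { toFun := ad p r c
    map_zero' := CLI_zero p r c
    map_add' := CLI_add p r c }

theorem CLI_end_apply (p : ℕ) [Fact p.Prime] [CharP R p] (r : ℕ) (c : ℕ → R) (w : R) :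
    CLI_end p r c w = ad p r c w := rfl

theorem CLI_mul_apply (f g : AddMonoid.End R) (w : R) : (f * g) w = f (g w) := rfl

theorem CLI_add_apply (f g : AddMonoid.End R) (w : R) : (f + g) w = f w + g w := rfl

/-- given by an additive polynomial with the coefficient `a` at the index `0` -/
private def On (p : ℕ) (a : R) (f : AddMonoid.End R) : Prop :=
  ∃ (r : ℕ) (c : ℕ → R), 0 < r ∧ c 0 = a ∧ ∀ w, f w = ad p r c w

/-- given by an additive polynomial with the lowest index `u` and a unit as lowest coefficient -/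
private def Lo (p : ℕ) (u : ℕ) (f : AddMonoid.End R) : Prop :=
  ∃ (r : ℕ) (c : ℕ → R), u < r ∧ (∀ i < u, c i = 0) ∧ IsUnit (c u) ∧ ∀ w, f w = ad p r c w

private theorem Lo.mul (hADM : St_ADM) {p : ℕ} [Fact p.Prime] [CharP R p] {u v : ℕ}
    {f g : AddMonoid.End R} (hf : Lo p u f) (hg : Lo p v g) : Lo p (u + v) (f * g) := by
  obtain ⟨r, c, h1, h2, h3, h4⟩ := hf
  obtain ⟨r', c', h1', h2', h3', h4'⟩ := hg
  obtain ⟨r'', c'', h5, -, h6⟩ := hADM R p r r' c c'
  obtain ⟨h7, h8, h9⟩ := h6 u v h1 h1' h2 h2' h3 h3'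
  refine ⟨r'', c'', h7, h8, h9, fun w => ?_⟩
  rw [CLI_mul_apply, h4', h4, h5]

private theorem On.mul (hADM : St_ADM) {p : ℕ} [Fact p.Prime] [CharP R p] {a b : R}
    {f g : AddMonoid.End R} (hf : On p a f) (hg : On p b g) : On p (a * b) (f * g) := by
  obtain ⟨r, c, h1, h2, h4⟩ := hf
  obtain ⟨r', c', h1', h2', h4'⟩ := hg
  obtain ⟨r'', c'', h5, h6, -⟩ := hADM R p r r' c c'
  obtain ⟨h7, h8⟩ := h6 h1 h1'
  refine ⟨r'', c'', h7, ?_, fun w => ?_⟩
  · rw [h8, h2, h2']
  · rw [CLI_mul_apply, h4', h4, h5]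

/-- extension of the coefficients by zero -/
theorem CLI_ext (p r r' : ℕ) (c : ℕ → R) (w : R) :
    ad p r c w = ad p (r + r') (fun i => if i < r then c i else 0) w := by
  unfold ad
  rw [Finset.sum_range_add]
  have h1 : ∑ x ∈ Finset.range r', (if r + x < r then c (r + x) else 0) * w ^ p ^ (r + x) = 0 := by
    refine Finset.sum_eq_zero fun x _ => ?_
    rw [if_neg (by omega), zero_mul]
  rw [h1, add_zero]
  refine Finset.sum_congr rfl fun i hi => ?_
  simp only [if_pos (Finset.mem_range.1 hi)]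

private theorem On.add {p : ℕ} {a b : R} {f g : AddMonoid.End R} (hf : On p a f)
    (hg : On p b g) : On p (a + b) (f + g) := by
  obtain ⟨r, c, h1, h2, h4⟩ := hf
  obtain ⟨r', c', h1', h2', h4'⟩ := hg
  refine ⟨r + r', fun i => (if i < r then c i else 0) + if i < r' then c' i else 0, by omega,
    ?_, fun w => ?_⟩
  · simp only [if_pos h1, if_pos h1', h2, h2']
  · rw [CLI_add_apply, h4, h4', CLI_ext p r r' c, CLI_ext p r' r c', add_comm r' r]
    unfold ad
    rw [← Finset.sum_add_distrib]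
    exact Finset.sum_congr rfl fun i _ => by ring

private theorem on_one (p : ℕ) : On p (1 : R) (1 : AddMonoid.End R) := by
  refine ⟨1, fun _ => 1, one_pos, rfl, fun w => ?_⟩
  unfold ad
  simp

private theorem on_zero (p : ℕ) : On p (0 : R) (0 : AddMonoid.End R) := by
  refine ⟨1, fun _ => 0, one_pos, rfl, fun w => ?_⟩
  unfold ad
  simp

private theorem Lo.on {p u : ℕ} {f : AddMonoid.End R} (h : Lo p u f) (hu : 0 < u) :
    On p 0 f := by
  obtain ⟨r, c, h1, h2, h3, h4⟩ := h
  exact ⟨r, c, by omega, h2 0 hu, h4⟩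

private theorem On.lo {p : ℕ} {a : R} {f : AddMonoid.End R} (h : On p a f) (ha : IsUnit a) :
    Lo p 0 f := by
  obtain ⟨r, c, h1, h2, h4⟩ := h
  refine ⟨r, c, h1, fun i hi => absurd hi (by omega), ?_, h4⟩
  rw [h2]
  exact ha

private theorem Lo.pow (hADM : St_ADM) {p : ℕ} [Fact p.Prime] [CharP R p] {u : ℕ}
    {f : AddMonoid.End R} (hf : Lo p u f) (N : ℕ) : Lo p (u * N) (f ^ N) := by
  induction N with
  | zero => exact (on_one p).lo isUnit_one
  | succ N ih =>
    rw [pow_succ, mul_add, mul_one]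
    exact ih.mul hADM hf

private theorem On.pow (hADM : St_ADM) {p : ℕ} [Fact p.Prime] [CharP R p] 
    {f : AddMonoid.End R} (hf : On p 1 f) (N : ℕ) : On p 1 (f ^ N) := by
  induction N with
  | zero => exact on_one p
  | succ N ih =>
    rw [pow_succ]
    have h := ih.mul hADM hf
    rwa [mul_one] at h

private theorem On.sum (hADM : St_ADM) {p : ℕ} [Fact p.Prime] [CharP R p] 
    {f : AddMonoid.End R} (hf : On p 1 f) (N : ℕ) :
    On p (N : R) (∑ i ∈ Finset.range N, f ^ i) := by
  induction N with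
  | zero =>
    rw [Finset.range_zero, Finset.sum_empty, Nat.cast_zero]
    exact on_zero p
  | succ N ih =>
    rw [Finset.sum_range_succ, Nat.cast_succ]
    exact ih.add (hf.pow hADM N)

theorem CLI_char (p : ℕ) [CharP R p] : CharP (AddMonoid.End R) p := by
  refine charP_of_injective_ringHom (f := Module.toAddMonoidEnd R R) ?_ p
  intro a b hab
  have h : a • (1 : R) = b • (1 : R) := congrArg (fun f : AddMonoid.End R => f 1) hab
  simpa using h

/-- powers of `1 + A` -/
private theorem Lo.one_add_pow (hADM : St_ADM) {p : ℕ} [Fact p.Prime] [CharP R p] {u : ℕ}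
    (hu : 0 < u) {A : AddMonoid.End R} (hA : Lo p u A) {N : ℕ} (hN : 0 < N) :
    ∃ (v : ℕ) (B : AddMonoid.End R), 0 < v ∧ Lo p v B ∧ (1 + A) ^ N = 1 + B := by
  have hp : p.Prime := Fact.out
  have := CLI_char (R := R) p
  obtain ⟨e, n, hn, rfl⟩ := Nat.exists_eq_pow_mul_and_not_dvd hN.ne' p hp.ne_one
  have h1 : (1 + A) ^ p ^ e = 1 + A ^ p ^ e := by
    rw [add_pow_char_pow_of_commute _ _ (Commute.one_left A), one_pow]
  have h2 := hA.pow hADM (p ^ e)
  set A' := A ^ p ^ e with hA'
  have hu' : 0 < u * p ^ e := Nat.mul_pos hu (pow_pos hp.pos _)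
  have h3 : On p (1 : R) (1 + A') := by
    have h := (on_one (R := R) p).add (h2.on hu')
    rwa [add_zero] at h
  have h4 := h3.sum hADM n
  have hunit : IsUnit (n : R) := by
    have h5 : Nat.Coprime n p := (Nat.Prime.coprime_iff_not_dvd hp).2 hn |>.symm
    have h6 := Nat.isCoprime_iff_coprime.2 h5
    obtain ⟨a, b, hab⟩ := h6
    have h7 := congrArg (fun z : ℤ => (z : R)) hab
    push_cast at h7
    rw [CharP.cast_eq_zero R p, mul_zero, add_zero] at h7
    exact IsUnit.of_mul_eq_one (a : R) (by rw [mul_comm]; exact h7)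
  have h5 := (h4.lo hunit).mul hADM h2
  refine ⟨0 + u * p ^ e, (∑ i ∈ Finset.range n, (1 + A') ^ i) * A', by omega, h5, ?_⟩
  rw [pow_mul, h1]
  have h6 := geom_sum_mul (1 + A') n
  rw [add_sub_cancel_left] at h6
  rw [h6]
  abel

/-- iterates of affine maps -/
private theorem iter (D : AddMonoid.End R) (b : R) (N : ℕ) :
    ∃ b' : R, ∀ w, (fun w => b + D w)^[N] w = b' + (D ^ N) w := by
  induction N with
  | zero =>
    refine ⟨0, fun w => ?_⟩
    rw [pow_zero, zero_add]
    rfl
  | succ N ih =>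
    obtain ⟨b', hb'⟩ := ih
    refine ⟨b + D b', fun w => ?_⟩
    rw [Function.iterate_succ_apply', hb', map_add, pow_succ', CLI_mul_apply, add_assoc]

/-- [CLI] Iterates of the maps of the second and third kind. -/
theorem thm_CLI (hADM : St_ADM) : St_CLI := by
  intro R _ p _ _ r u c b N hN hu hur hc hcu
  have hA : Lo p u (CLI_end p r c) := ⟨r, c, hur, hc, hcu, fun w => rfl⟩
  constructor
  · obtain ⟨b', hb'⟩ := iter (CLI_end p r c) b N
    obtain ⟨r', c', h1, h2, h3, h4⟩ := hA.pow hADM N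
    refine ⟨r', u * N, c', b', Nat.mul_pos hu hN, h1, h2, h3, ?_⟩
    funext w
    have h5 := hb' w
    rw [h4] at h5
    exact h5
  · obtain ⟨b', hb'⟩ := iter (1 + CLI_end p r c) b N
    obtain ⟨v, B, hv, ⟨r', c', h1, h2, h3, h4⟩, h5⟩ := hA.one_add_pow hADM hu hN
    refine ⟨r', v, c', b', hv, h1, h2, h3, ?_⟩
    funext w
    have h6 := hb' w
    rw [h5] at h6
    have h7 : (1 + B : AddMonoid.End R) w = w + B w := rfl
    rw [h7, h4, ← add_assoc] at h6
    have h8 : (fun w : R => b + (1 + CLI_end p r c : AddMonoid.End R) w) =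
        fun w => b + w + ad p r c w := by
      funext w
      show b + (w + ad p r c w) = _
      rw [add_assoc]
    rw [h8] at h6
    exact h6

end CLI

end ETA
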