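import Pool.Agent.ETA.StD

/-!
# ETA: the class `Cl` is closed under iteration
-/

set_option autoImplicit false
set_option linter.unusedVariables false

namespace ETA

open PowerSeries ETD

/-- [CLJ] The class `Cl` is closed under iteration. -/
theorem thm_CLJ (hDSC : ETD.St_DSC) (hCLI : St_CLI) : St_CLJ := by
  intro R _ p _ _ F hF N hN
  rcases hF with ⟨a, G, ha, ha', rfl⟩ | ⟨r₀, u, c, b, hu, hur, hc, hcu, rfl⟩ |
    ⟨r₀, u, c, b, hu, hur, hc, hcu, rfl⟩ | ⟨b, rfl⟩ | ⟨b, rfl⟩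
  · obtain ⟨G', hG'⟩ := hDSC.1 R p a G N
    refine Or.inl ⟨a ^ N, G', ha.pow N, fun m hm => ?_, hG'⟩
    rw [← pow_mul]
    exact ha' _ (Nat.mul_pos hN hm)
  · obtain ⟨⟨r', u', c', b', hu', hur', hc', hcu', hI⟩, -⟩ :=
      hCLI R p r₀ u c b N hN hu hur hc hcu
    exact Or.inr (Or.inl ⟨r', u', c', b', hu', hur', hc', hcu', hI⟩)
  · obtain ⟨-, r', u', c', b', hu', hur', hc', hcu', hI⟩ :=
      hCLI R p r₀ u c b N hN hu hur hc hcu
    exact Or.inr (Or.inr (Or.inl ⟨r', u', c', b', hu', hur', hc', hcu', hI⟩))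
  · refine Or.inr (Or.inr (Or.inr (Or.inl ⟨N * b, ?_⟩)))
    have h : ∀ (n : ℕ) (y : R), (fun w => b + w)^[n] y = n * b + y := by
      intro n y
      induction n with
      | zero => simp
      | succ n ih =>
        rw [Function.iterate_succ_apply', ih]
        push_cast
        ring
    funext w
    exact h N w
  · refine Or.inr (Or.inr (Or.inr (Or.inr ⟨b, ?_⟩)))
    funext w
    obtain ⟨n, rfl⟩ := Nat.exists_eq_add_of_lt hN
    rw [zero_add, Function.iterate_succ_apply']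

end ETA
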