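import Pool.Agent.ETA.Defs

/-!
# ETA: basic lemmas
-/

set_option autoImplicit false
set_option linter.unusedVariables false

namespace ETA

open PowerSeries ETD

variable {k : Type} [Field k] {n m : ℕ}

/-! ## `kr` -/

theorem mem_kr {z : Fin n → k⟦X⟧} (F : MvPowerSeries (Fin n) k) : F ∈ kr z ↔ e z F = 0 := Iff.rfl

/-- composition with power series -/
theorem kr_comp {z z' : Fin n → k⟦X⟧} (hz : Sm z) (hz' : Sm z')
    (G : Fin m → MvPowerSeries (Fin n) k) (hG : ∀ i, MvPowerSeries.constantCoeff (G i) = 0)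
    (h : kr z = kr z') : kr (fun i => e z (G i)) = kr (fun i => e z' (G i)) := by
  ext F
  have h1 : MvPowerSeries.subst G F ∈ kr z ↔ MvPowerSeries.subst G F ∈ kr z' := by rw [h]
  rw [mem_kr, mem_kr, e_subst hz G hG, e_subst hz' G hG] at h1
  exact h1

/-- `kr` does not change under `t → t ^ q` -/
theorem kr_expand {z : Fin n → k⟦X⟧} (hz : Sm z) {q : ℕ} (hq : q ≠ 0) :
    kr (fun i => expand q hq (z i)) = kr z := by
  ext F
  rw [mem_kr, mem_kr, e_expand hz hq]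
  constructor
  · intro h
    refine PowerSeries.ext fun j => ?_
    have h1 := congrArg (coeff (q * j)) h
    rw [PowerSeries.coeff_expand_mul, map_zero] at h1
    rw [h1, map_zero]
  · intro h
    rw [h, map_zero]

/-! ## Orders -/

theorem Od.ne_zero {w : k⟦X⟧} {d : ℕ} (h : Od w d) : w ≠ 0 := by
  obtain ⟨η, hη, rfl⟩ := h
  exact mul_ne_zero (pow_ne_zero _ X_ne_zero) hη.ne_zero

theorem Od.dvd {w : k⟦X⟧} {d : ℕ} (h : Od w d) : X ^ d ∣ w := by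
  obtain ⟨η, hη, rfl⟩ := h
  exact dvd_mul_right _ _

theorem isUnit_iff_X {η : k⟦X⟧} : IsUnit η ↔ ¬ X ∣ η := by
  rw [isUnit_iff_constantCoeff, X_dvd_iff, isUnit_iff_ne_zero]

theorem Od.not_dvd {w : k⟦X⟧} {d d' : ℕ} (h : Od w d) (hd : d < d') : ¬ X ^ d' ∣ w := by
  obtain ⟨η, hη, rfl⟩ := h
  intro h1
  obtain ⟨j, rfl⟩ := Nat.exists_eq_add_of_lt hd
  rw [show d + j + 1 = d + (j + 1) by ring, pow_add] at h1
  have h2 := (mul_dvd_mul_iff_left (pow_ne_zero d X_ne_zero)).1 h1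
  exact isUnit_iff_X.1 hη ((dvd_pow_self X (Nat.succ_ne_zero j)).trans h2)

theorem Od.unique {w : k⟦X⟧} {d d' : ℕ} (h : Od w d) (h' : Od w d') : d = d' := by
  rcases lt_trichotomy d d' with h1 | h1 | h1
  · exact absurd h'.dvd (h.not_dvd h1)
  · exact h1
  · exact absurd h.dvd (h'.not_dvd h1)

theorem Od.le {w : k⟦X⟧} {d N : ℕ} (h : Od w d) (h' : X ^ N ∣ w) : N ≤ d := by
  by_contra h1
  exact h.not_dvd (not_le.1 h1) h'

theorem exists_Od {w : k⟦X⟧} (h : w ≠ 0) : ∃ d, Od w d := by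
  refine ⟨w.order.toNat, w.divXPowOrder, ?_, ?_⟩
  · rw [isUnit_iff_constantCoeff]
    exact isUnit_iff_ne_zero.2 (PowerSeries.constantCoeff_divXPowOrder_eq_zero_iff.not.2 h)
  · exact (PowerSeries.X_pow_order_mul_divXPowOrder).symm

theorem Od.mul {w w' : k⟦X⟧} {d d' : ℕ} (h : Od w d) (h' : Od w' d') : Od (w * w') (d + d') := by
  obtain ⟨η, hη, rfl⟩ := h
  obtain ⟨η', hη', rfl⟩ := h'
  exact ⟨η * η', hη.mul hη', by ring⟩

theorem Od.pow {w : k⟦X⟧} {d : ℕ} (h : Od w d) (j : ℕ) : Od (w ^ j) (d * j) := by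
  obtain ⟨η, hη, rfl⟩ := h
  exact ⟨η ^ j, hη.pow j, by ring⟩

theorem Od.add {w w' : k⟦X⟧} {d : ℕ} (h : Od w d) (h' : X ^ (d + 1) ∣ w') : Od (w + w') d := by
  obtain ⟨η, hη, rfl⟩ := h
  obtain ⟨v, rfl⟩ := h'
  refine ⟨η + X * v, ?_, by ring⟩
  rw [isUnit_iff_X] at hη ⊢
  intro h1
  exact hη ((dvd_add_left (dvd_mul_right X v)).1 h1)

theorem Od.pos {w : k⟦X⟧} {d : ℕ} (h : Od w d) (h' : X ∣ w) : 0 < d := by
  have := h.le (N := 1) (by rwa [pow_one])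
  omega

theorem od_zero_iff {w : k⟦X⟧} : Od w 0 ↔ IsUnit w := by
  constructor
  · rintro ⟨η, hη, rfl⟩
    simpa using hη
  · intro h
    exact ⟨w, h, by simp⟩

/-! ## Series in `t ^ q` -/

theorem Ex.small {q : ℕ} {w : k⟦X⟧} (h : Ex q w) : X ^ q ∣ w := by
  obtain ⟨hq, y, ⟨v, rfl⟩, rfl⟩ := h
  rw [map_mul, expand_X]
  exact dvd_mul_right _ _

theorem Ex.add {q : ℕ} {w w' : k⟦X⟧} (h : Ex q w) (h' : Ex q w') : Ex q (w + w') := by
  obtain ⟨hq, y, hy, rfl⟩ := h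
  obtain ⟨_, y', hy', rfl⟩ := h'
  exact ⟨hq, y + y', dvd_add hy hy', by rw [map_add]⟩

theorem ex_zero {q : ℕ} (hq : q ≠ 0) : Ex q (0 : k⟦X⟧) := ⟨hq, 0, dvd_zero _, by rw [map_zero]⟩

theorem ex_one {w : k⟦X⟧} (hw : X ∣ w) : Ex 1 w := ⟨one_ne_zero, w, hw, by rw [expand_one]; rfl⟩

theorem Ex.mono {q q' : ℕ} {w : k⟦X⟧} (h : Ex (q * q') w) : Ex q w := by
  obtain ⟨hq, y, ⟨v, rfl⟩, rfl⟩ := h
  have h1 : q ≠ 0 := by
    rintro rfl
    simp at hq
  have h2 : q' ≠ 0 := by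
    rintro rfl
    simp at hq
  refine ⟨h1, expand q' h2 (X * v), ?_, ?_⟩
  · rw [map_mul, expand_X]
    exact (dvd_pow_self X h2).mul_right _
  · rw [PowerSeries.expand_mul]

/-- a `p ^ m`-th power is a series in `t ^ (p ^ m)` -/
theorem ex_pow (p : ℕ) [Fact p.Prime] [CharP k p] (m : ℕ) {w : k⟦X⟧} (hw : X ∣ w) :
    Ex (p ^ m) (w ^ p ^ m) := by
  have hq : p ^ m ≠ 0 := pow_ne_zero _ (Fact.out : p.Prime).ne_zero
  refine ⟨hq, map (iterateFrobenius k p m) w, ?_, ?_⟩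
  · rw [X_dvd_iff] at hw ⊢
    rw [← coeff_zero_eq_constantCoeff_apply, coeff_map, coeff_zero_eq_constantCoeff_apply, hw,
      map_zero]
  · have h := MvPowerSeries.map_iterateFrobenius_expand p (σ := Unit) (R := k)
      (Fact.out : p.Prime).ne_zero w m
    rw [← PowerSeries.map_expand]
    exact h.symm

end ETA
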