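import Pool.Agent.ETA.StA
import Pool.Agent.ETA.Bas

/-!
# ETA: the digit lemma in terms of `A i = t ^ M ζ i` (helper55)
-/

set_option autoImplicit false

namespace ETA

open PowerSeries ETD

theorem thm_DGC (h : ETD.St_DIG) : St_DGC := by
  intro k _ n M H
  obtain ⟨h1, q₁, h2⟩ := h k n M H
  refine ⟨max q₁ (M + 1), fun q hq A ζ hζ hA hE => ?_⟩
  have hq1 : q₁ ≤ q := (le_max_left _ _).trans hq
  have hq2 : M < q := Nat.lt_of_lt_of_le (Nat.lt_succ_self M) ((le_max_right _ _).trans hq)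
  have hq0 : q ≠ 0 := by omega
  choose _ y hy hAy using hE
  have hyS : Sm y := hy
  have hA2 : A = fun i => expand q hq0 (y i) := funext hAy
  have hk : ∀ F : MvPowerSeries (Fin n) k, e A F = 0 ↔ e y F = 0 := by
    intro F
    have h3 : F ∈ kr A ↔ F ∈ kr y := by
      rw [hA2, kr_expand hyS hq0]
    exact h3
  have hζ2 : ∀ i, X ^ M * ζ i = expand q hq0 (y i) := fun i => (hA i).trans (hAy i)
  constructor
  · intro h0 F hF
    exact (hk F).2 (h2 q hq0 hq1 y ζ hyS hζ hζ2 h0 F hF)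
  · intro h0
    exact h1 q hq0 hq2 y ζ hyS hζ hζ2 fun F hF => (hk F).1 (h0 F hF)

end ETA
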