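import Pool.Agent.ETA.StA
import Pool.Agent.ETA.Bas

/-!
# ETA: if all digits vanish then the series vanishes (helper55)
-/

set_option autoImplicit false

namespace ETA

open PowerSeries ETD

theorem thm_DGZ : St_DGZ := by
  intro k _ n M H h
  refine MvPowerSeries.ext fun d => ?_
  set i : Fin n →₀ ℕ := Finsupp.tail d with hi
  set r : ℤ := (d 0 : ℤ) - M * i.degree with hr
  have h1 : dig M H r = 0 := h _ (Ideal.subset_span ⟨r, rfl⟩)
  have h2 : dig M H r i = 0 := by
    rw [h1]
    rfl
  have e1 : r + M * i.degree = (d 0 : ℤ) := by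
    rw [hr]
    ring
  have h3 : dig M H r i = MvPowerSeries.coeff (Finsupp.cons (d 0) i) H := by
    unfold dig
    rw [e1, if_pos (Int.natCast_nonneg _), Int.toNat_natCast]
  rw [h2] at h3
  rw [hi, Finsupp.cons_tail] at h3
  rw [← h3]
  rfl

end ETA
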