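import Pool.Agent.ETA.StD

/-!
# ETA: residue discs
-/

set_option autoImplicit false
set_option linter.unusedVariables false

namespace ETA

open PowerSeries ETD

section DSK

variable {R : Type} [CommRing R]

private theorem ad_add (p : ℕ) [Fact p.Prime] [CharP R p] (r : ℕ) (c : ℕ → R) (w w' : R) :
    ad p r c (w + w') = ad p r c w + ad p r c w' := by
  unfold ad
  rw [← Finset.sum_add_distrib]
  refine Finset.sum_congr rfl fun i _ => ?_
  rw [add_pow_char_pow, mul_add]

/-- additive polynomials without linear term -/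
private theorem ad_fm (p r u : ℕ) (c : ℕ → R) (hu : 0 < u) (hur : u < r)
    (hc : ∀ i < u, c i = 0) (a b : R) : ∃ G : Polynomial R,
    (fun w => b + a * w + ad p r c w) = fm p a G := by
  obtain ⟨r', rfl⟩ : ∃ r', r = r' + 1 := ⟨r - 1, by omega⟩
  refine ⟨Polynomial.C b + ∑ i ∈ Finset.range r', Polynomial.C (c (i + 1)) *
    Polynomial.X ^ p ^ i, ?_⟩
  funext w
  unfold ad fm
  rw [Finset.sum_range_succ', hc 0 hu, zero_mul, add_zero, Polynomial.eval_add,
    Polynomial.eval_C, Polynomial.eval_finset_sum]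
  have h : ∀ i, Polynomial.eval (w ^ p) (Polynomial.C (c (i + 1)) * Polynomial.X ^ p ^ i) =
      c (i + 1) * w ^ p ^ (i + 1) := by
    intro i
    rw [Polynomial.eval_mul, Polynomial.eval_C, Polynomial.eval_pow, Polynomial.eval_X,
      ← pow_mul, ← pow_succ']
  simp only [h]
  ring

private theorem it (H f : R → R) (A b : R) (h : ∀ w, H (A + b * w) = A + b * f w) (m : ℕ) :
    H^[m] A = A + b * f^[m] 0 := by
  induction m with
  | zero => simp
  | succ m ih => rw [Function.iterate_succ_apply', Function.iterate_succ_apply', ih, h]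

private theorem itm (F : R → R) (x : R) (r N m : ℕ) :
    F^[r + N * m] x = (F^[N])^[m] (F^[r] x) := by
  rw [← Function.iterate_mul, add_comm, Function.iterate_add_apply]

end DSK

/-- [DSK] Residue discs. -/
theorem thm_DSK (hDSC : ETD.St_DSC) (hPMD : ETD.St_PMD) (hCLI : St_CLI) : St_DSK := by
  intro k _ _ p _ _ F x hF
  have hchar : CharP k⟦X⟧ p :=
    charP_of_injective_ringHom (f := PowerSeries.C) PowerSeries.C_injective p
  obtain ⟨hD1, hD2⟩ := hDSC
  obtain ⟨hP1, N₂, hN₂, hP2⟩ := hPMD k p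
  rcases hF with ⟨a, G, ha, ha', rfl⟩ | ⟨r₀, u, c, b, hu, hur, hc, hcu, rfl⟩ |
    ⟨r₀, u, c, b, hu, hur, hc, hcu, rfl⟩ | ⟨b, rfl⟩ | ⟨b, rfl⟩
  · -- the first kind
    obtain ⟨n₀, N₁, hN₁, h1⟩ := hP1 a x G
    refine ⟨n₀, N₁ * N₂, Nat.mul_pos hN₁ hN₂, ?_⟩
    rintro N' hN' ⟨q, rfl⟩ r hr
    obtain ⟨G', hG'⟩ := hD1 k⟦X⟧ p a G (N₁ * N₂ * q)
    have h2 : X ∣ a ^ (N₁ * N₂ * q) - 1 := by
      have h := hP2 a ha (N₁ * q)
      rwa [show N₂ * (N₁ * q) = N₁ * N₂ * q by ring] at h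
    have h3 : X ^ 2 ∣ fm p (a ^ (N₁ * N₂ * q)) G' ((fm p a G)^[r] x) - (fm p a G)^[r] x := by
      have h := h1 r hr (N₂ * q)
      rw [← mul_assoc, add_comm r, Function.iterate_add_apply, hG'] at h
      exact h
    obtain ⟨α, E, hL, hE⟩ := hD2 k p (a ^ (N₁ * N₂ * q)) ((fm p a G)^[r] x) G' h2 h3
    refine ⟨(fm p a G)^[r] x, X, fun m => (ph p α (a ^ (N₁ * N₂ * q)) E)^[m] 0,
      Or.inl ⟨α, a ^ (N₁ * N₂ * q), E, hL, ha' _ hN', fun n => rfl⟩, fun m => ?_⟩
    rw [itm, hG']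
    exact it _ _ _ _ hE m
  · -- the second kind
    obtain ⟨G, hG⟩ := ad_fm p r₀ u c hu hur hc 0 b
    have hG' : (fun w => b + ad p r₀ c w) = fm p 0 G := by
      rw [← hG]
      funext w
      ring
    obtain ⟨n₀, N₁, hN₁, h1⟩ := hP1 0 x G
    rw [← hG'] at h1
    refine ⟨n₀, N₁, hN₁, ?_⟩
    rintro N' hN' ⟨q, rfl⟩ r hr
    obtain ⟨⟨r', u', c', b', hu', hur', hc', hcu', hI⟩, -⟩ :=
      hCLI k⟦X⟧ p r₀ u c b (N₁ * q) hN' hu hur hc hcu
    set F : k⟦X⟧ → k⟦X⟧ := fun w => b + ad p r₀ c w with hF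
    set y := F^[r] x with hy
    have h2 : X ^ 2 ∣ F^[N₁ * q] y - y := by
      have h := h1 r hr q
      rw [add_comm r, Function.iterate_add_apply] at h
      exact h
    refine ⟨y, 1, fun m => (fun w => (F^[N₁ * q] y - y) + ad p r' c' w)^[m] 0,
      Or.inr (Or.inr (Or.inl ⟨r', u', c', F^[N₁ * q] y - y, hu', hur', hc', hcu',
        (dvd_pow_self X two_ne_zero).trans h2, fun n => rfl⟩)), fun m => ?_⟩
    rw [itm]
    refine it _ _ _ _ (fun w => ?_) m
    rw [hI]
    simp only [one_mul]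
    rw [ad_add]
    ring
  · -- the third kind
    obtain ⟨G, hG⟩ := ad_fm p r₀ u c hu hur hc 1 b
    have hG' : (fun w => b + w + ad p r₀ c w) = fm p 1 G := by
      rw [← hG]
      funext w
      ring
    obtain ⟨n₀, N₁, hN₁, h1⟩ := hP1 1 x G
    rw [← hG'] at h1
    refine ⟨n₀, N₁, hN₁, ?_⟩
    rintro N' hN' ⟨q, rfl⟩ r hr
    obtain ⟨-, r', u', c', b', hu', hur', hc', hcu', hI⟩ :=
      hCLI k⟦X⟧ p r₀ u c b (N₁ * q) hN' hu hur hc hcu
    set F : k⟦X⟧ → k⟦X⟧ := fun w => b + w + ad p r₀ c w with hF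
    set y := F^[r] x with hy
    have h2 : X ^ 2 ∣ F^[N₁ * q] y - y := by
      have h := h1 r hr q
      rw [add_comm r, Function.iterate_add_apply] at h
      exact h
    have h3 : ∀ m, F^[r + N₁ * q * m] x =
        y + 1 * (fun w => (F^[N₁ * q] y - y) + w + ad p r' c' w)^[m] 0 := by
      intro m
      rw [itm]
      refine it _ _ _ _ (fun w => ?_) m
      rw [hI]
      simp only [one_mul]
      rw [ad_add]
      ring
    refine ⟨y, 1, fun m => (fun w => (F^[N₁ * q] y - y) + w + ad p r' c' w)^[m] 0, ?_, h3⟩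
    by_cases h0 : F^[N₁ * q] y - y = 0
    · right; right; right
      refine ⟨0, 1, one_pos, fun n _ => ?_⟩
      have h4 : ∀ m : ℕ, (fun w => (F^[N₁ * q] y - y) + w + ad p r' c' w)^[m] 0 = 0 := by
        intro m
        refine Function.iterate_fixed ?_ m
        show (F^[N₁ * q] y - y) + 0 + ad p r' c' 0 = 0
        rw [h0, zero_add, zero_add]
        unfold ad
        refine Finset.sum_eq_zero fun i _ => ?_
        rw [zero_pow (pow_ne_zero _ (Fact.out : p.Prime).ne_zero), mul_zero]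
      show (fun w => (F^[N₁ * q] y - y) + w + ad p r' c' w)^[n + 1] 0 =
        (fun w => (F^[N₁ * q] y - y) + w + ad p r' c' w)^[n] 0
      rw [h4, h4]
    · exact Or.inr (Or.inl ⟨r', u', c', F^[N₁ * q] y - y, hu', hur', hc', hcu', h2, h0,
        fun n => rfl⟩)
  · -- translations
    refine ⟨0, 1, one_pos, fun N' hN' _ r _ => ⟨0, 1, fun m => (fun w => b + w)^[r + N' * m] x,
      Or.inr (Or.inr (Or.inr ⟨0, p, (Fact.out : p.Prime).pos, fun n _ => ?_⟩)), fun m => ?_⟩⟩
    · have h : ∀ (n : ℕ) (y : k⟦X⟧), (fun w => b + w)^[n] y = n * b + y := by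
        intro n y
        induction n with
        | zero => simp
        | succ n ih =>
          rw [Function.iterate_succ_apply', ih]
          push_cast
          ring
      show (fun w => b + w)^[r + N' * (n + p)] x = (fun w => b + w)^[r + N' * n] x
      rw [h, h]
      push_cast
      rw [CharP.cast_eq_zero k⟦X⟧ p, add_zero]
    · rw [zero_add, one_mul]
  · -- constants
    refine ⟨1, 1, one_pos, fun N' hN' _ r hr => ⟨0, 1, fun m => (fun _ => b)^[r + N' * m] x,
      Or.inr (Or.inr (Or.inr ⟨0, 1, one_pos, fun n _ => ?_⟩)), fun m => ?_⟩⟩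
    · have h : ∀ (n : ℕ) (y : k⟦X⟧), 0 < n → (fun _ => b)^[n] y = b := by
        intro n y hn
        obtain ⟨n, rfl⟩ := Nat.exists_eq_add_of_lt hn
        rw [zero_add, Function.iterate_succ_apply']
      show (fun _ => b)^[r + N' * (n + 1)] x = (fun _ => b)^[r + N' * n] x
      rw [h _ _ (by omega), h _ _ (by omega)]
    · rw [zero_add, one_mul]

end ETA
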