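import Pool.Agent.ETA.StC

/-!
# ETA, [EI1]: the iterates of an additive operator as powers
-/

set_option autoImplicit false
set_option linter.unusedVariables false

namespace ETA

open PowerSeries ETD

section

variable {k : Type} [Field k]

private theorem EI1_char (p : ℕ) [CharP k p] : CharP k⟦X⟧ p :=
  charP_of_injective_ringHom (f := (C : k →+* k⟦X⟧)) C_injective p

/-- the terms of the map `B.f` start with `u` -/
private theorem EI1_f (p : ℕ) (B : Op k) (w : k⟦X⟧) :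
    B.f p w = ∑ i ∈ Finset.range (B.r - B.u), C (B.c (B.u + i)) * w ^ p ^ (B.u + i) := by
  have h1 : B.f p w = ∑ i ∈ Finset.range B.r, C (B.c i) * w ^ p ^ i := rfl
  obtain ⟨m, hm⟩ := Nat.exists_eq_add_of_le B.hr.le
  have h2 : ∑ i ∈ Finset.range B.u, (C (B.c i) : k⟦X⟧) * w ^ p ^ i = 0 := by
    refine Finset.sum_eq_zero fun i hi => ?_
    rw [B.h0 i (Finset.mem_range.1 hi), map_zero, zero_mul]
  rw [h1, hm, Finset.sum_range_add, h2, zero_add, Nat.add_sub_cancel_left]

/-- the coefficients of a composition -/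
private theorem EI1_comp (p : ℕ) (w : k⟦X⟧) (a r r' : ℕ) (c : ℕ × ℕ → k) :
    ∑ x ∈ Finset.range r ×ˢ Finset.range r', C (c x) * w ^ p ^ (a + (x.1 + x.2)) =
      ∑ m ∈ Finset.range (r + r'),
        C (∑ x ∈ Finset.range r ×ˢ Finset.range r' with x.1 + x.2 = m, c x) *
          w ^ p ^ (a + m) := by
  have h1 : ∀ x ∈ Finset.range r ×ˢ Finset.range r', x.1 + x.2 ∈ Finset.range (r + r') := by
    intro x hx
    rw [Finset.mem_product, Finset.mem_range, Finset.mem_range] at hx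
    rw [Finset.mem_range]
    omega
  rw [← Finset.sum_fiberwise_of_maps_to h1]
  refine Finset.sum_congr rfl fun m _ => ?_
  rw [map_sum, Finset.sum_mul]
  refine Finset.sum_congr rfl fun x hx => ?_
  rw [(Finset.mem_filter.1 hx).2]

private theorem EI1_zero (r r' : ℕ) (hr : 0 < r) (hr' : 0 < r') (c : ℕ × ℕ → k) :
    ∑ x ∈ Finset.range r ×ˢ Finset.range r' with x.1 + x.2 = 0, c x = c (0, 0) := by
  have h1 : ((Finset.range r ×ˢ Finset.range r').filter fun x => x.1 + x.2 = 0) = {(0, 0)} := by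
    ext x
    rw [Finset.mem_filter, Finset.mem_product, Finset.mem_range, Finset.mem_range,
      Finset.mem_singleton]
    constructor
    · rintro ⟨_, h⟩
      refine Prod.ext ?_ ?_
      · change x.1 = 0
        omega
      · change x.2 = 0
        omega
    · rintro rfl
      exact ⟨⟨hr, hr'⟩, rfl⟩
  rw [h1, Finset.sum_singleton]

private theorem EI1_iter (p : ℕ) [Fact p.Prime] [CharP k p] (B : Op k) (d : ℕ) :
    ∃ (r' : ℕ) (κ : ℕ → k), 0 < r' ∧ κ 0 ≠ 0 ∧ ∀ w : k⟦X⟧,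
      (B.f p)^[d] w = ∑ i ∈ Finset.range r', C (κ i) * w ^ p ^ (B.u * d + i) := by
  have hch := EI1_char (k := k) p
  induction d with
  | zero =>
    refine ⟨1, fun _ => 1, one_pos, one_ne_zero, fun w => ?_⟩
    rw [Function.iterate_zero, id, Finset.sum_range_one, map_one, one_mul, mul_zero, add_zero,
      pow_zero, pow_one]
  | succ d ih =>
    obtain ⟨r', κ, hr', hκ, h⟩ := ih
    have hr : 0 < B.r - B.u := Nat.sub_pos_of_lt B.hr
    obtain ⟨c, hc⟩ : ∃ c : ℕ × ℕ → k, c = fun x => B.c (B.u + x.1) * κ x.2 ^ p ^ (B.u + x.1) :=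
      ⟨_, rfl⟩
    refine ⟨(B.r - B.u) + r', fun m => ∑ x ∈ Finset.range (B.r - B.u) ×ˢ Finset.range r'
      with x.1 + x.2 = m, c x, by omega, ?_, fun w => ?_⟩
    · change ∑ x ∈ Finset.range (B.r - B.u) ×ˢ Finset.range r' with x.1 + x.2 = 0, c x ≠ 0
      rw [EI1_zero _ _ hr hr', hc]
      exact mul_ne_zero B.h1 (pow_ne_zero _ hκ)
    · rw [← EI1_comp p w (B.u * (d + 1)) (B.r - B.u) r' c, Finset.sum_product,
        Function.iterate_succ_apply', EI1_f, h w]
      refine Finset.sum_congr rfl fun i _ => ?_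
      rw [sum_pow_char_pow, Finset.mul_sum]
      refine Finset.sum_congr rfl fun j _ => ?_
      rw [hc]
      change C (B.c (B.u + i)) * (C (κ j) * w ^ p ^ (B.u * d + j)) ^ p ^ (B.u + i) =
        C (B.c (B.u + i) * κ j ^ p ^ (B.u + i)) * w ^ p ^ (B.u * (d + 1) + (i + j))
      rw [mul_pow, ← pow_mul, ← pow_add, ← map_pow, map_mul, mul_assoc,
        show B.u * d + j + (B.u + i) = B.u * (d + 1) + (i + j) by ring]

/-- powers of constants -/
private theorem EI1_const (p s : ℕ) (hs : Fr k p s) (m : ℕ) (hm : s ∣ m) (hp : p ≠ 0) (x : k) :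
    (C x : k⟦X⟧) ^ p ^ m = C x := by
  obtain ⟨i, rfl⟩ := hm
  have h1 : (p ^ s) ^ i ≠ 0 := pow_ne_zero _ (pow_ne_zero _ hp)
  rw [pow_mul, hs.2 i h1 (C x), PowerSeries.expand_C]

end

theorem thm_EI1 : St_EI1 := by
  intro k _ p _ _ s hs B d hd
  have hch := EI1_char (k := k) p
  have hp : p ≠ 0 := (Fact.out : p.Prime).ne_zero
  obtain ⟨r', κ, hr', hκ, h⟩ := EI1_iter p B d
  refine ⟨r', κ, hr', hκ, fun w => ?_⟩
  have h1 : ad p r' (fun i => (C (κ i) : k⟦X⟧)) w =
      ∑ i ∈ Finset.range r', C (κ i) * w ^ p ^ i := rfl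
  rw [h w, h1, sum_pow_char_pow]
  refine Finset.sum_congr rfl fun i _ => ?_
  rw [mul_pow, EI1_const p s hs (B.u * d) hd hp, ← pow_mul, ← pow_add, Nat.add_comm]

end ETA
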