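import Pool.Agent.ETA.StC

/-!
# ETA, [EI2]: a stabiliser argument
-/

set_option autoImplicit false
set_option linter.unusedVariables false

namespace ETA

open PowerSeries ETD

section

variable {k : Type} [Field k]

private theorem EI2_sub {z : Fin 2 → k⟦X⟧} (hz : Sm z) (i : Fin 2) (f : k⟦X⟧) :
    e z (PowerSeries.subst (MvPowerSeries.X i : MvPowerSeries (Fin 2) k) f) =
      PowerSeries.subst (z i) f := by
  have hs : MvPowerSeries.HasSubst
      (fun _ : Unit => (MvPowerSeries.X i : MvPowerSeries (Fin 2) k)) :=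
    MvPowerSeries.hasSubst_of_constantCoeff_zero fun _ => MvPowerSeries.constantCoeff_X i
  have h1 := MvPowerSeries.subst_comp_subst_apply (R := k) hs hz.hs f
  have h2 : (fun s : Unit => MvPowerSeries.subst z
      ((fun _ : Unit => (MvPowerSeries.X i : MvPowerSeries (Fin 2) k)) s)) =
      fun _ : Unit => z i := by
    funext s
    rw [MvPowerSeries.subst_X hz.hs]
  rw [h2] at h1
  exact h1

private theorem EI2_sub_cc (i : Fin 2) (f : k⟦X⟧) (hf : X ∣ f) : MvPowerSeries.constantCoeff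
    (PowerSeries.subst (MvPowerSeries.X i : MvPowerSeries (Fin 2) k) f) = 0 := by
  obtain ⟨g, rfl⟩ := hf
  have hs : PowerSeries.HasSubst (MvPowerSeries.X i : MvPowerSeries (Fin 2) k) :=
    PowerSeries.HasSubst.X i
  rw [PowerSeries.subst_mul hs, PowerSeries.subst_X hs, map_mul, MvPowerSeries.constantCoeff_X,
    zero_mul]

private theorem EI2_small (p : ℕ) (hp : p ≠ 0) (r' : ℕ) (κ : ℕ → k) (w : k⟦X⟧) (hw : X ∣ w) :
    X ∣ ad p r' (fun i => (C (κ i) : k⟦X⟧)) w :=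
  Finset.dvd_sum fun i _ => (dvd_pow hw (pow_ne_zero i hp)).mul_left _

/-- the two series of the transformation -/
private noncomputable def EI2_G (p r' : ℕ) (κ : ℕ → k) (f : k⟦X⟧) :
    Fin 2 → MvPowerSeries (Fin 2) k :=
  ![PowerSeries.subst (MvPowerSeries.X 0 : MvPowerSeries (Fin 2) k) f,
    ∑ i ∈ Finset.range r', MvPowerSeries.C (κ i) * MvPowerSeries.X 1 ^ p ^ i]

private theorem EI2_G_cc (p : ℕ) (hp : p ≠ 0) (r' : ℕ) (κ : ℕ → k) (f : k⟦X⟧) (hf : X ∣ f)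
    (i : Fin 2) : MvPowerSeries.constantCoeff (EI2_G p r' κ f i) = 0 := by
  fin_cases i
  · exact EI2_sub_cc 0 f hf
  · change MvPowerSeries.constantCoeff (∑ i ∈ Finset.range r', MvPowerSeries.C (κ i) *
      (MvPowerSeries.X 1 : MvPowerSeries (Fin 2) k) ^ p ^ i) = 0
    rw [map_sum]
    refine Finset.sum_eq_zero fun i _ => ?_
    rw [map_mul, map_pow, MvPowerSeries.constantCoeff_X, zero_pow (pow_ne_zero i hp), mul_zero]

private theorem EI2_G_e (p r' : ℕ) (κ : ℕ → k) (f : k⟦X⟧) {z : Fin 2 → k⟦X⟧} (hz : Sm z) :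
    (fun i => e z (EI2_G p r' κ f i)) =
      ![PowerSeries.subst (z 0) f, ad p r' (fun i => (C (κ i) : k⟦X⟧)) (z 1)] := by
  funext i
  fin_cases i
  · exact EI2_sub hz 0 f
  · change e z (∑ i ∈ Finset.range r', MvPowerSeries.C (κ i) *
      (MvPowerSeries.X 1 : MvPowerSeries (Fin 2) k) ^ p ^ i) = ad p r' (fun i => C (κ i)) (z 1)
    rw [e_sum _ hz]
    refine Finset.sum_congr rfl fun i _ => ?_
    rw [e_mul hz, e_C hz, e_pow hz, e_X hz]

private theorem EI2_sm {w y : k⟦X⟧} (hw : X ∣ w) (hy : X ∣ y) : Sm ![w, y] := by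
  intro i
  fin_cases i
  · exact hw
  · exact hy

private theorem EI2_num (p : ℕ) (hp : 1 < p) (a b c : ℕ) : ∃ l : ℕ, b ≤ l ∧
    a * p ^ (l + c) + b < p ^ p ^ l := by
  have h1 : ∀ n : ℕ, n < p ^ n := fun n => Nat.lt_pow_self hp
  refine ⟨a + b + c + 2, by omega, ?_⟩
  obtain ⟨s, hs⟩ : ∃ s, s = a + b + c + 2 + c := ⟨_, rfl⟩
  rw [← hs]
  have h2 : a * p ^ s + b ≤ (a + b) * p ^ s := by
    have h3 : 1 ≤ p ^ s := Nat.one_le_pow _ _ (by omega)
    nlinarith
  have h4 : (a + b) * p ^ s < p ^ (a + b) * p ^ s :=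
    Nat.mul_lt_mul_of_pos_right (h1 _) (pow_pos (by omega) _)
  have h5 : a + b + s ≤ p ^ (a + b + c + 2) := by
    have h6 : a + b + c < p ^ (a + b + c) := h1 _
    have h7 : p ^ (a + b + c + 2) = p ^ (a + b + c) * (p * p) := by ring
    rw [h7, hs]
    have h8 : 4 ≤ p * p := by nlinarith
    nlinarith
  calc a * p ^ s + b ≤ (a + b) * p ^ s := h2
    _ < p ^ (a + b) * p ^ s := h4
    _ = p ^ (a + b + s) := by rw [← pow_add]
    _ ≤ p ^ p ^ (a + b + c + 2) := Nat.pow_le_pow_right (by omega) h5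

end

theorem thm_EI2 (h1 : ETD.St_PWB) (h2 : ETD.St_PWP) (h3 : St_PWS) (h4 : St_PWM) (h5 : St_ONE)
    (h6 : St_NZS) (h7 : St_EIK) (h8 : St_EIV) : St_EI2 := by
  intro k _ _ p _ _ a ha ha1 ν lam hν hlam r' κ hr' hκ y hy hy0 hF hkr
  have hp : 1 < p := (Fact.out : p.Prime).one_lt
  have hp0 : p ≠ 0 := by omega
  by_contra hM
  push Not at hM
  obtain ⟨K, hK⟩ : ∃ K : k⟦X⟧ → k⟦X⟧, K = ad p r' (fun i => (C (κ i) : k⟦X⟧)) := ⟨_, rfl⟩
  obtain ⟨A, hA⟩ : ∃ A : ℤ_[p] → k⟦X⟧, A = fun μ => pw p a (μ * ν) - 1 := ⟨_, rfl⟩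
  have hAs : ∀ μ, X ∣ A μ := fun μ => by rw [hA]; exact (h1 k p a ha).2.2.1 _
  have hKs : ∀ w, X ∣ w → X ∣ K w := fun w hw => by rw [hK]; exact EI2_small p hp0 r' κ w hw
  have hKi : ∀ m : ℕ, X ∣ K^[m] y := by
    intro m
    induction m with
    | zero => exact hy
    | succ m ih =>
      rw [Function.iterate_succ_apply']
      exact hKs _ ih
  -- the transformation
  have hX1 : X ∣ (1 + X : k⟦X⟧) - 1 := by rw [add_sub_cancel_left]
  have hf : X ∣ pw p (1 + X : k⟦X⟧) lam - 1 := (h1 k p (1 + X) hX1).2.2.1 lam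
  have hG : ∀ (μ : ℤ_[p]) (w : k⟦X⟧), X ∣ w →
      (fun i => e ![A μ, w] (EI2_G p r' κ (pw p (1 + X : k⟦X⟧) lam - 1) i)) =
        ![A (lam * μ), K w] := by
    intro μ w hw
    rw [EI2_G_e p r' κ _ (EI2_sm (hAs μ) hw), hK]
    congr 1
    change PowerSeries.subst (A μ) (pw p (1 + X : k⟦X⟧) lam - 1) = A (lam * μ)
    have hs : PowerSeries.HasSubst (A μ) :=
      PowerSeries.HasSubst.of_constantCoeff_zero (X_dvd_iff.1 (hAs μ))
    have h9 := h3 k p (pw p a (μ * ν)) lam (by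
      have := hAs μ
      rw [hA] at this
      exact this)
    rw [h4 k p a (μ * ν) lam ha] at h9
    rw [← coe_substAlgHom hs, map_sub, map_one, coe_substAlgHom hs, hA]
    dsimp only
    rw [← h9]
    congr 2
    ring
  have hstep : ∀ (μ μ' : ℤ_[p]) (w w' : k⟦X⟧), X ∣ w → X ∣ w' →
      kr ![A μ, w] = kr ![A μ', w'] → kr ![A (lam * μ), K w] = kr ![A (lam * μ'), K w'] := by
    intro μ μ' w w' hw hw' h
    have h9 := kr_comp (EI2_sm (hAs μ) hw) (EI2_sm (hAs μ') hw')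
      (EI2_G p r' κ (pw p (1 + X : k⟦X⟧) lam - 1)) (EI2_G_cc p hp0 r' κ _ hf) h
    rw [hG μ w hw, hG μ' w' hw'] at h9
    exact h9
  have h0 : kr ![A 1, y] = kr ![A lam, K y] := by
    rw [hA, hK]
    dsimp only
    rw [one_mul]
    exact hkr
  have hsucc : ∀ m : ℕ, kr ![A (lam ^ m), K^[m] y] = kr ![A (lam ^ (m + 1)), K^[m + 1] y] := by
    intro m
    induction m with
    | zero =>
      rw [pow_zero, zero_add, pow_one]
      exact h0
    | succ m ih =>
      have h9 := hstep _ _ _ _ (hKi m) (hKi (m + 1)) ih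
      have h10 : ∀ m, A (lam ^ (m + 1)) = A (lam * lam ^ m) := fun m => by rw [pow_succ']
      have h11 : ∀ m, K^[m + 1] y = K (K^[m] y) := fun m => Function.iterate_succ_apply' _ _ _
      rw [h10 m, h11 m, h10 (m + 1), h11 (m + 1)]
      exact h9
  have hall : ∀ m : ℕ, kr ![A 1, y] = kr ![A (lam ^ m), K^[m] y] := by
    intro m
    induction m with
    | zero =>
      rw [pow_zero]
      rfl
    | succ m ih => exact ih.trans (hsucc m)
  -- the data
  obtain ⟨f, hfp, hq⟩ : ∃ f : ℕ, 0 < f ∧ Nat.card k = p ^ f := by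
    have := Fintype.ofFinite k
    obtain ⟨n, -, hn⟩ := FiniteField.card k p
    exact ⟨n, n.pos, by rw [Nat.card_eq_fintype_card, hn]⟩
  obtain ⟨c, hc⟩ := h8 p f lam hfp hlam hM
  have hν' : ν = (p : ℤ_[p]) ^ ν.valuation * (PadicInt.unitCoeff hν : ℤ_[p]) := by
    rw [mul_comm]
    exact PadicInt.unitCoeff_spec hν
  obtain ⟨j, hj⟩ : ∃ j, j = ν.valuation := ⟨_, rfl⟩
  rw [← hj] at hν'
  obtain ⟨γ, hγ⟩ : ∃ γ : ℤ_[p], γ = (PadicInt.unitCoeff hν : ℤ_[p]) := ⟨_, rfl⟩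
  have hγu : IsUnit γ := by rw [hγ]; exact Units.isUnit _
  rw [← hγ] at hν'
  obtain ⟨e0, he0⟩ := exists_Od (sub_ne_zero.2 ha1)
  have he0p := he0.pos ha
  obtain ⟨η, hη, hη'⟩ := he0
  obtain ⟨F, hFm, hF0⟩ := hF
  have hFm' : F ∈ kr ![A 1, y] := by
    rw [hA]
    dsimp only
    rw [one_mul]
    exact hFm
  obtain ⟨g, hg0, hg⟩ := h6 k F (A 1) y hF0 (hAs 1) hy hy0
  obtain ⟨i, c', hic⟩ := h5 k g hg0
  obtain ⟨l, hl1, hl2⟩ := EI2_num p hp (i * e0) c' (j + c)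
  obtain ⟨v, x, hv1, hv2, hx, hvx⟩ := hc l
  obtain ⟨m, hm⟩ : ∃ m, m = (p ^ f - 1) * p ^ l := ⟨_, rfl⟩
  rw [← hm] at hvx
  -- the order of the difference
  have hδ : Od (A (lam ^ m) - A 1) (e0 * p ^ (j + v)) := by
    have h9 : lam ^ m * ν = ν + (p : ℤ_[p]) ^ (j + v) * (γ * x) := by
      have h10 : lam ^ m = 1 + (p : ℤ_[p]) ^ v * x := by rw [← hvx]; ring
      rw [h10, hν']
      ring
    obtain ⟨w, hw, hw'⟩ := (h2 k p a ha).2 e0 η he0p hη hη' (j + v) (γ * x) (hγu.mul hx)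
    have h11 : A (lam ^ m) - A 1 = pw p a ν * (X ^ (e0 * p ^ (j + v)) * w) := by
      rw [hA]
      dsimp only
      rw [h9, one_mul, (h1 k p a ha).2.1, ← hw']
      ring
    have h12 : IsUnit (pw p a ν) := by
      rw [isUnit_iff_X]
      intro h13
      have h14 := (h1 k p a ha).2.2.1 ν
      have h15 := dvd_sub h13 h14
      rw [sub_sub_cancel] at h15
      exact isUnit_iff_X.1 isUnit_one h15
    exact ⟨pw p a ν * w, h12.mul hw, by rw [h11]; ring⟩
  have hD : c' < e0 * p ^ (j + v) := by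
    have h9 : l < p ^ l := Nat.lt_pow_self hp
    have h10 : p ^ l ≤ p ^ (j + v) := Nat.pow_le_pow_right (by omega) (by omega)
    have h11 : p ^ (j + v) ≤ e0 * p ^ (j + v) := Nat.le_mul_of_pos_left _ he0p
    omega
  have hod := hic _ _ hδ hD
  rw [hg _ (dvd_sub (hAs _) (hAs _)), add_sub_cancel] at hod
  -- the congruence
  have hy' : X ^ p ^ p ^ l ∣ K^[m] y - y := by
    have h9 := h7 k p r' κ hr' hκ y l hy
    rw [hq, ← hm, ← hK] at h9
    exact h9
  have hz : e ![A (lam ^ m), K^[m] y] F = 0 := by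
    have h9 : F ∈ kr ![A (lam ^ m), K^[m] y] := by
      rw [← hall m]
      exact hFm'
    exact h9
  have hcg := e_congr (EI2_sm (hAs (lam ^ m)) (hKi m)) (EI2_sm (hAs (lam ^ m)) hy) F
    (p ^ p ^ l) (by
      intro i
      fin_cases i
      · change X ^ p ^ p ^ l ∣ A (lam ^ m) - A (lam ^ m)
        rw [sub_self]
        exact dvd_zero _
      · exact hy')
  rw [hz, zero_sub, dvd_neg] at hcg
  have hle := hod.le hcg
  have h9 : i * (e0 * p ^ (j + v)) ≤ i * e0 * p ^ (l + (j + c)) := by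
    rw [← mul_assoc]
    exact Nat.mul_le_mul_left _ (Nat.pow_le_pow_right (by omega) (by omega))
  omega

end ETA
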