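import Pool.Agent.ETA.StC

/-!
# ETA, module EI3
-/

set_option autoImplicit false
set_option linter.unusedVariables false

namespace ETA

open PowerSeries ETD

/-! ### elementary lemmas -/

private theorem EI3_unit {p : ℕ} [Fact p.Prime] (z : ℤ_[p]) : IsUnit z ↔ ¬ (p : ℤ_[p]) ∣ z := by
  rw [PadicInt.isUnit_iff, ← PadicInt.norm_lt_one_iff_dvd]
  have := PadicInt.norm_le_one z
  constructor
  · intro h
    rw [h]
    exact lt_irrefl _
  · intro h
    exact le_antisymm this (not_lt.1 h)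

private theorem EI3_bin {R : Type*} [CommRing R] (z : R) (n : ℕ) :
    ∃ r : R, (1 + z) ^ n = 1 + n * z + z ^ 2 * r := by
  induction n with
  | zero => exact ⟨0, by simp⟩
  | succ n ih =>
    obtain ⟨r, hr⟩ := ih
    refine ⟨n + r + z * r, ?_⟩
    rw [pow_succ, hr]
    push_cast
    ring

private theorem EI3_step {p : ℕ} [Fact p.Prime] (b : ℕ) (hb : 2 ≤ b) (x : ℤ_[p])
    (hx : IsUnit x) :
    ∃ x' : ℤ_[p], IsUnit x' ∧ (1 + (p : ℤ_[p]) ^ b * x) ^ p = 1 + (p : ℤ_[p]) ^ (b + 1) * x' := by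
  obtain ⟨r, hr⟩ := EI3_bin ((p : ℤ_[p]) ^ b * x) p
  obtain ⟨d, rfl⟩ := Nat.exists_eq_add_of_le hb
  refine ⟨x + p * ((p : ℤ_[p]) ^ d * x ^ 2 * r), ?_, ?_⟩
  · rw [EI3_unit] at hx ⊢
    intro h
    exact hx ((dvd_add_left (dvd_mul_right _ _)).1 h)
  · rw [hr]
    ring

private theorem EI3_val {p : ℕ} [Fact p.Prime] (w : ℤ_[p]) (hw : w ≠ 1) :
    ∃ (b : ℕ) (x : ℤ_[p]), IsUnit x ∧ w = 1 + (p : ℤ_[p]) ^ b * x := by
  have h0 : w - 1 ≠ 0 := sub_ne_zero.2 hw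
  refine ⟨(w - 1).valuation, (PadicInt.unitCoeff h0 : ℤ_[p]), Units.isUnit _, ?_⟩
  have h1 := PadicInt.unitCoeff_spec h0
  rw [mul_comm]
  rw [← h1]
  ring

theorem thm_EI3 : St_EI3 := by
  intro p _ lam h2 M hM hM1
  have hp : p.Prime := Fact.out
  by_contra hne
  obtain ⟨b, x, hx, e⟩ := EI3_val lam hne
  have hp0 : ∀ n : ℕ, (p : ℤ_[p]) ^ n ≠ 0 := fun n =>
    pow_ne_zero _ (by exact_mod_cast hp.ne_zero)
  have hb : 2 ≤ b := by
    by_contra hlt
    have hlt' : b + 1 ≤ 2 := by omega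
    obtain ⟨m, hm⟩ := h2
    obtain ⟨d, hd⟩ := Nat.exists_eq_add_of_le hlt'
    rw [e, hd, add_assoc, pow_add, mul_assoc, add_sub_cancel_left] at hm
    have e4 := mul_left_cancel₀ (hp0 b) hm
    rw [EI3_unit] at hx
    apply hx
    rw [e4, pow_add, pow_one, mul_assoc]
    exact dvd_mul_right _ _
  obtain ⟨c, M', hM', hMe⟩ := Nat.exists_eq_pow_mul_and_not_dvd hM.ne' p hp.ne_one
  -- the prime to `p` part
  have h3 : ∃ x' : ℤ_[p], IsUnit x' ∧ lam ^ M' = 1 + (p : ℤ_[p]) ^ b * x' := by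
    obtain ⟨r, hr⟩ := EI3_bin ((p : ℤ_[p]) ^ b * x) M'
    obtain ⟨d, rfl⟩ := Nat.exists_eq_add_of_le hb
    refine ⟨M' * x + p * (p * (p : ℤ_[p]) ^ d * x ^ 2 * r), ?_, ?_⟩
    · have h4 : IsUnit ((M' : ℤ_[p]) * x) := by
        refine IsUnit.mul ?_ hx
        rw [EI3_unit]
        intro h5
        have h6 := (PadicInt.pow_p_dvd_int_iff 1 (M' : ℤ)).1 (by
          rw [pow_one]
          exact_mod_cast h5)
        rw [pow_one] at h6
        exact hM' (by exact_mod_cast h6)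
      rw [EI3_unit] at h4 ⊢
      intro h
      exact h4 ((dvd_add_left (dvd_mul_right _ _)).1 h)
    · rw [e, hr]
      ring
  have h4 : ∀ j : ℕ, ∃ x' : ℤ_[p], IsUnit x' ∧
      lam ^ (p ^ j * M') = 1 + (p : ℤ_[p]) ^ (b + j) * x' := by
    intro j
    induction j with
    | zero =>
      rw [pow_zero, one_mul, add_zero]
      exact h3
    | succ j ih =>
      obtain ⟨y, hy, ey⟩ := ih
      obtain ⟨y', hy', ey'⟩ := EI3_step (b + j) (by omega) y hy
      refine ⟨y', hy', ?_⟩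
      have e5 : p ^ (j + 1) * M' = p ^ j * M' * p := by ring
      rw [e5, pow_mul, ey, ey']
      rfl
  obtain ⟨y, hy, ey⟩ := h4 c
  rw [← hMe, hM1] at ey
  have h5 : (p : ℤ_[p]) ^ (b + c) * y = 0 := by linear_combination -ey
  rcases mul_eq_zero.1 h5 with h6 | h6
  · exact hp0 _ h6
  · rw [h6] at hy
    exact not_isUnit_zero hy

end ETA
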