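import Pool.Agent.ETA.StC

/-!
# ETA: three times in geometric position
-/

set_option autoImplicit false
set_option linter.unusedVariables false

namespace ETA

open PowerSeries ETD

private theorem ineq (Q b₂ : ℕ) (hQ : 2 ≤ Q) (hb : 1 ≤ b₂) (b₃ : ℕ) (h : b₂ + 1 ≤ b₃) :
    (b₃ : ℤ) * ((Q : ℤ) ^ b₂ - 1) < b₂ * ((Q : ℤ) ^ b₃ - 1) := by
  have hQ' : (2 : ℤ) ≤ Q := by exact_mod_cast hQ
  have hb' : (1 : ℤ) ≤ b₂ := by exact_mod_cast hb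
  induction b₃, h using Nat.le_induction with
  | base =>
    have h1 : (1 : ℤ) ≤ (Q : ℤ) ^ b₂ := one_le_pow₀ (by linarith)
    have h2 : (b₂ : ℤ) * (Q : ℤ) ^ b₂ * 2 ≤ (b₂ : ℤ) * (Q : ℤ) ^ b₂ * Q :=
      mul_le_mul_of_nonneg_left hQ' (by positivity)
    rw [pow_succ]
    push_cast
    nlinarith
  | succ b hb₃ ih =>
    have h1 : (Q : ℤ) ^ b₂ ≤ (Q : ℤ) ^ b := pow_le_pow_right₀ (by linarith) (by omega)
    have h2 : (1 : ℤ) * ((Q : ℤ) ^ b * 1) ≤ (b₂ : ℤ) * ((Q : ℤ) ^ b * (Q - 1)) :=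
      mul_le_mul hb' (mul_le_mul_of_nonneg_left (by linarith) (by positivity)) (by positivity)
        (by linarith)
    rw [pow_succ]
    push_cast
    nlinarith

/-- [EI4] Three times in geometric position. -/
theorem thm_EI4 : St_EI4 := by
  intro p _ u β γ n₁ n₂ n₃ j₁ hu h12 h23 e1 e2 e3
  have hp : p.Prime := Fact.out
  obtain ⟨b₂, rfl⟩ : ∃ b, n₂ = n₁ + b := ⟨n₂ - n₁, by omega⟩
  obtain ⟨b₃, rfl⟩ : ∃ b, n₃ = n₁ + b := ⟨n₃ - n₁, by omega⟩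
  rw [Nat.add_sub_cancel_left, pow_add, pow_mul] at e2 e3
  push_cast at e2 e3
  have f2 : (b₂ : ℤ_[p]) = (p : ℤ_[p]) ^ j₁ * (((p : ℤ_[p]) ^ u) ^ b₂ - 1) * γ := by
    linear_combination e2 - e1
  have f3 : (b₃ : ℤ_[p]) = (p : ℤ_[p]) ^ j₁ * (((p : ℤ_[p]) ^ u) ^ b₃ - 1) * γ := by
    linear_combination e3 - e1
  have f4 : (b₂ : ℤ_[p]) * (((p : ℤ_[p]) ^ u) ^ b₃ - 1) =
      (b₃ : ℤ_[p]) * (((p : ℤ_[p]) ^ u) ^ b₂ - 1) := by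
    rw [f2, f3]
    ring
  have f5 : (b₂ : ℤ) * (((p ^ u : ℕ) : ℤ) ^ b₃ - 1) = b₃ * (((p ^ u : ℕ) : ℤ) ^ b₂ - 1) := by
    have : (((b₂ : ℤ) * (((p ^ u : ℕ) : ℤ) ^ b₃ - 1) : ℤ) : ℤ_[p]) =
        ((b₃ * (((p ^ u : ℕ) : ℤ) ^ b₂ - 1) : ℤ) : ℤ_[p]) := by
      push_cast
      exact f4
    exact_mod_cast this
  have hQ : 2 ≤ p ^ u := by
    calc 2 ≤ p := hp.two_le
      _ = p ^ 1 := (pow_one p).symm
      _ ≤ p ^ u := Nat.pow_le_pow_right hp.pos hu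
  have := ineq (p ^ u) b₂ hQ (by omega) b₃ (by omega)
  rw [f5] at this
  exact lt_irrefl _ this

end ETA
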