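import Pool.Agent.ETA.StC

/-!
# ETA, module EI5: two times in the same class (helper31)
-/

set_option autoImplicit false
set_option linter.unusedVariables false

namespace ETA

open PowerSeries ETD

private theorem EI5_charP (k : Type) [Field k] (p : ℕ) [CharP k p] : CharP k⟦X⟧ p :=
  charP_of_injective_ringHom (C_injective (R := k)) p

private theorem EI5_pw {k : Type} [Field k] (p : ℕ) [Fact p.Prime] {a : k⟦X⟧} (ha : X ∣ a - 1)
    (β : ℤ_[p]) : X ∣ pw p a β - 1 := by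
  rw [X_dvd_iff, map_sub, map_one, sub_eq_zero] at ha ⊢
  rw [← coeff_zero_eq_constantCoeff_apply, pw, coeff_mk, coeff_zero_eq_constantCoeff_apply,
    map_pow, ha, one_pow]

private theorem EI5_sm2 {k : Type} [Field k] {ζ v : k⟦X⟧} (hζ : X ∣ ζ) (hv : X ∣ v) :
    Sm (![ζ, v] : Fin 2 → k⟦X⟧) := by
  intro i
  fin_cases i
  · exact hζ
  · exact hv

theorem thm_EI5 (hPWP : ETD.St_PWP) (hEI1 : St_EI1) (hEI2 : St_EI2) (hEI3 : St_EI3)
    (hACO : St_ACO) : St_EI5 := by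
  intro k _ _ p _ _ s hFr a ha ha1 B z hz hz0 β γ γ' n n' j hnn' hs hγ hγ' h2 hn hn' hF hkr
  have hp : p.Prime := Fact.out
  have hch := EI5_charP k p
  have hp0 : (p : ℤ_[p]) ≠ 0 := Nat.cast_ne_zero.2 hp.ne_zero
  obtain ⟨d, rfl⟩ := Nat.exists_eq_add_of_le hnn'.le
  rw [Nat.add_sub_cancel_left] at hs hn'
  obtain ⟨y, hyd⟩ : ∃ y, y = (B.f p)^[n] z := ⟨_, rfl⟩
  have hyact : act p B (X ^ n) z = y := by
    rw [hyd]
    exact (hACO k p B).1 n z hz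
  have hy0 : y ≠ 0 := by
    rw [← hyact]
    exact (hACO k p B).2.2.2 (X ^ n) z (pow_ne_zero _ X_ne_zero) hz hz0
  have hy : X ∣ y := by
    have h3 := (hACO k p B).2.1 n 1 z hz
    rw [mul_one, hyact] at h3
    exact (dvd_pow_self X (pow_ne_zero _ hp.ne_zero)).trans h3.small
  have hit : (B.f p)^[n + d] z = (B.f p)^[d] y := by
    rw [add_comm, Function.iterate_add_apply, hyd]
  obtain ⟨r', κ, hr, hκ, hK⟩ := hEI1 k p s hFr B d (hs.mul_left _)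
  obtain ⟨g, hg⟩ := hγ
  obtain ⟨lam, hlam⟩ : ∃ lam, lam = γ' * ((g⁻¹ : ℤ_[p]ˣ) : ℤ_[p]) := ⟨_, rfl⟩
  have hlamγ : lam * γ = γ' := by
    rw [hlam, ← hg, mul_assoc, Units.inv_mul, mul_one]
  obtain ⟨ν, hν⟩ : ∃ ν, ν = (n : ℤ_[p]) - β := ⟨_, rfl⟩
  rw [← hν] at hn hF hkr
  have hν0 : ν ≠ 0 := by
    rw [hn]
    refine mul_ne_zero (pow_ne_zero _ hp0) ?_
    rw [← hg]
    exact g.ne_zero
  have hν' : ((n + d : ℕ) : ℤ_[p]) - β = (p : ℤ_[p]) ^ (B.u * d) * (lam * ν) := by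
    rw [hn', hn, pow_add, ← hlamγ]
    ring
  have hpw : pw p a (((n + d : ℕ) : ℤ_[p]) - β) - 1 =
      (pw p a (lam * ν) - 1) ^ p ^ (B.u * d) := by
    rw [hν', (hPWP k p a ha).1, sub_pow_char_pow, one_pow]
  obtain ⟨i, hi⟩ := hs.mul_left B.u
  have hq : p ^ (B.u * d) = (p ^ s) ^ i := by
    rw [hi, pow_mul]
  have hq0 : (p ^ s) ^ i ≠ 0 := pow_ne_zero _ (pow_ne_zero _ hp.ne_zero)
  obtain ⟨Ky, hKy⟩ : ∃ Ky, Ky = ad p r' (fun i => C (κ i)) y := ⟨_, rfl⟩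
  have hKyX : X ∣ Ky := by
    rw [hKy]
    unfold ad
    exact Finset.dvd_sum fun i _ =>
      (hy.trans (dvd_pow_self y (pow_ne_zero _ hp.ne_zero))).mul_left _
  have hsm : Sm (![pw p a (lam * ν) - 1, Ky] : Fin 2 → k⟦X⟧) := EI5_sm2 (EI5_pw p ha _) hKyX
  have hvec : (![pw p a (((n + d : ℕ) : ℤ_[p]) - β) - 1, (B.f p)^[n + d] z] : Fin 2 → k⟦X⟧) =
      fun l => expand ((p ^ s) ^ i) hq0 ((![pw p a (lam * ν) - 1, Ky] : Fin 2 → k⟦X⟧) l) := by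
    funext l
    rw [← hFr.2 i hq0, ← hq]
    fin_cases l
    · exact hpw
    · show (B.f p)^[n + d] z = Ky ^ p ^ (B.u * d)
      rw [hit, hK, hKy]
  rw [hvec, kr_expand hsm hq0] at hkr
  obtain ⟨M, hM, hM1⟩ := hEI2 k p a ha ha1 ν lam hν0 (by
    rw [hlam]
    exact hγ'.mul (Units.isUnit _)) r' κ hr hκ y hy hy0 (by rw [hyd]; exact hF)
    (by rw [hyd, ← hkr, hKy, hyd])
  have hlam1 : lam = 1 := by
    refine hEI3 p lam ?_ M hM hM1
    have h3 : lam - 1 = (γ' - γ) * ((g⁻¹ : ℤ_[p]ˣ) : ℤ_[p]) := by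
      rw [sub_mul, ← hlam, ← hg, Units.mul_inv]
    rw [h3]
    exact h2.mul_right _
  rw [← hlamγ, hlam1, one_mul]

end ETA
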