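import Pool.Agent.ETA.StC

/-!
# ETA, module EIK: superexponential convergence of iterates (helper31)
-/

set_option autoImplicit false
set_option linter.unusedVariables false

namespace ETA

open PowerSeries ETD

private theorem EIK_charP (k : Type) [Field k] (p : ℕ) [CharP k p] : CharP k⟦X⟧ p :=
  charP_of_injective_ringHom (C_injective (R := k)) p

/-- the endomorphism raises the order by the factor `p` -/
private def EIK_P {k : Type} [Field k] (p : ℕ) (N : AddMonoid.End k⟦X⟧) : Prop :=
  ∀ (a : ℕ) (w : k⟦X⟧), X ^ a ∣ w → X ^ (a * p) ∣ N w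

private theorem EIK_add {k : Type} [Field k] {p : ℕ} {N N' : AddMonoid.End k⟦X⟧}
    (h : EIK_P p N) (h' : EIK_P p N') : EIK_P p (N + N') := fun a w hw =>
  dvd_add (h a w hw) (h' a w hw)

theorem thm_EIK : St_EIK := by
  intro k _ _ p _ _ r' κ hr hκ y l hy
  have hp : p.Prime := Fact.out
  have hch : CharP k⟦X⟧ p := EIK_charP k p
  obtain ⟨K, hK⟩ : ∃ K : AddMonoid.End k⟦X⟧, ∀ w, K w = ad p r' (fun i => C (κ i)) w := by
    refine ⟨AddMonoidHom.mk' (ad p r' (fun i => C (κ i))) fun a b => ?_, fun _ => rfl⟩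
    unfold ad
    rw [← Finset.sum_add_distrib]
    refine Finset.sum_congr rfl fun i _ => ?_
    rw [add_pow_char_pow, mul_add]
  have hKf : ⇑K = ad p r' (fun i => C (κ i)) := funext hK
  obtain ⟨M, hM⟩ : ∃ M : AddMonoid.End k⟦X⟧, ∀ w, M w = C (κ 0) * w :=
    ⟨AddMonoidHom.mulLeft (C (κ 0)), fun _ => rfl⟩
  obtain ⟨N, hN⟩ : ∃ N : AddMonoid.End k⟦X⟧, K = M + N := ⟨K - M, by abel⟩
  have hNP : EIK_P p N := by
    intro a w hw
    have h1 : N w = K w - M w := by
      rw [hN]
      exact (add_sub_cancel_left (M w) (N w)).symm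
    rw [h1, hK, hM]
    unfold ad
    obtain ⟨r, rfl⟩ : ∃ r, r' = r + 1 := ⟨r' - 1, by omega⟩
    rw [Finset.sum_range_succ', pow_zero, pow_one, add_sub_cancel_right]
    refine Finset.dvd_sum fun i _ => Dvd.dvd.mul_left ?_ _
    have h2 : (X : k⟦X⟧) ^ (a * p ^ (i + 1)) ∣ w ^ p ^ (i + 1) := by
      rw [pow_mul]
      exact pow_dvd_pow_of_dvd hw _
    refine (pow_dvd_pow X ?_).trans h2
    rw [pow_succ, ← mul_assoc]
    exact Nat.mul_le_mul_right p (Nat.le_mul_of_pos_right a (pow_pos hp.pos i))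
  have hMd : ∀ (m a : ℕ) (w : k⟦X⟧), X ^ a ∣ w → X ^ a ∣ (M ^ m) w := by
    intro m
    induction m with
    | zero => exact fun a w hw => hw
    | succ m ih =>
      intro a w hw
      rw [pow_succ']
      change X ^ a ∣ M ((M ^ m) w)
      rw [hM]
      exact (ih a w hw).mul_left _
  have hpow : ∀ m : ℕ, ∃ N' : AddMonoid.End k⟦X⟧, EIK_P p N' ∧ K ^ m = M ^ m + N' := by
    intro m
    induction m with
    | zero => exact ⟨0, fun a w _ => dvd_zero _, by rw [pow_zero, pow_zero, add_zero]⟩
    | succ m ih =>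
      obtain ⟨N', hN', hm⟩ := ih
      refine ⟨M * N' + N * M ^ m + N * N', ?_, ?_⟩
      · refine EIK_add (EIK_add ?_ ?_) ?_
        · intro a w hw
          change X ^ (a * p) ∣ M (N' w)
          rw [hM]
          exact (hN' a w hw).mul_left _
        · intro a w hw
          exact hNP a _ (hMd m a w hw)
        · intro a w hw
          refine (pow_dvd_pow X ?_).trans (hNP (a * p) _ (hN' a w hw))
          exact Nat.le_mul_of_pos_right _ hp.pos
      · rw [pow_succ', hm, hN, pow_succ', add_mul, mul_add, mul_add]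
        abel
  obtain ⟨N', hN', hq⟩ := hpow (Nat.card k - 1)
  have hMq : M ^ (Nat.card k - 1) = 1 := by
    have h1 : ∀ (m : ℕ) (w : k⟦X⟧), (M ^ m) w = C (κ 0 ^ m) * w := by
      intro m
      induction m with
      | zero =>
        intro w
        rw [pow_zero, pow_zero, map_one, one_mul]
        rfl
      | succ m ih =>
        intro w
        rw [pow_succ']
        change M ((M ^ m) w) = _
        rw [ih, hM, pow_succ', map_mul, mul_assoc]
    ext1 w
    rw [h1]
    have : Fintype k := Fintype.ofFinite k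
    rw [Nat.card_eq_fintype_card, FiniteField.pow_card_sub_one_eq_one (κ 0) hκ, map_one, one_mul]
    rfl
  rw [hMq] at hq
  have hpz : (p : AddMonoid.End k⟦X⟧) = 0 := by
    ext1 w
    rw [AddMonoid.End.natCast_apply, nsmul_eq_mul, CharP.cast_eq_zero, zero_mul]
    rfl
  have hKp : K ^ ((Nat.card k - 1) * p ^ l) = 1 + N' ^ p ^ l := by
    rw [pow_mul, hq, (Commute.one_left N').add_pow_prime_pow_eq hp, one_pow, hpz]
    simp only [zero_mul, add_zero]
  have hit : ∀ m : ℕ, X ^ p ^ m ∣ (N' ^ m) y := by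
    intro m
    induction m with
    | zero => rw [pow_zero, pow_one]; exact hy
    | succ m ih =>
      have h1 : (N' ^ (m + 1)) y = N' ((N' ^ m) y) := by
        rw [pow_succ']
        rfl
      rw [h1, pow_succ]
      exact hN' _ _ ih
  have hfin : (ad p r' fun i => C (κ i))^[(Nat.card k - 1) * p ^ l] y = y + (N' ^ p ^ l) y := by
    rw [← hKf, ← AddMonoid.End.coe_pow, hKp]
    rfl
  rw [hfin, add_sub_cancel_left]
  exact hit (p ^ l)

end ETA
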