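import Pool.Agent.ETA.StC

/-!
# ETA, module EIV
-/

set_option autoImplicit false
set_option linter.unusedVariables false

namespace ETA

open PowerSeries ETD

/-! ### elementary lemmas -/

private theorem EIV_unit {p : ℕ} [Fact p.Prime] (z : ℤ_[p]) : IsUnit z ↔ ¬ (p : ℤ_[p]) ∣ z := by
  rw [PadicInt.isUnit_iff, ← PadicInt.norm_lt_one_iff_dvd]
  have := PadicInt.norm_le_one z
  constructor
  · intro h
    rw [h]
    exact lt_irrefl _
  · intro h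
    exact le_antisymm this (not_lt.1 h)

private theorem EIV_bin {R : Type*} [CommRing R] (z : R) (n : ℕ) :
    ∃ r : R, (1 + z) ^ n = 1 + n * z + z ^ 2 * r := by
  induction n with
  | zero => exact ⟨0, by simp⟩
  | succ n ih =>
    obtain ⟨r, hr⟩ := ih
    refine ⟨n + r + z * r, ?_⟩
    rw [pow_succ, hr]
    push_cast
    ring

private theorem EIV_step {p : ℕ} [Fact p.Prime] (b : ℕ) (hb : 2 ≤ b) (x : ℤ_[p])
    (hx : IsUnit x) :
    ∃ x' : ℤ_[p], IsUnit x' ∧ (1 + (p : ℤ_[p]) ^ b * x) ^ p = 1 + (p : ℤ_[p]) ^ (b + 1) * x' := by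
  obtain ⟨r, hr⟩ := EIV_bin ((p : ℤ_[p]) ^ b * x) p
  obtain ⟨d, rfl⟩ := Nat.exists_eq_add_of_le hb
  refine ⟨x + p * ((p : ℤ_[p]) ^ d * x ^ 2 * r), ?_, ?_⟩
  · rw [EIV_unit] at hx ⊢
    intro h
    exact hx ((dvd_add_left (dvd_mul_right _ _)).1 h)
  · rw [hr]
    ring

private theorem EIV_val {p : ℕ} [Fact p.Prime] (w : ℤ_[p]) (hw : w ≠ 1) :
    ∃ (b : ℕ) (x : ℤ_[p]), IsUnit x ∧ w = 1 + (p : ℤ_[p]) ^ b * x := by
  have h0 : w - 1 ≠ 0 := sub_ne_zero.2 hw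
  refine ⟨(w - 1).valuation, (PadicInt.unitCoeff h0 : ℤ_[p]), Units.isUnit _, ?_⟩
  have h1 := PadicInt.unitCoeff_spec h0
  rw [mul_comm]
  rw [← h1]
  ring

theorem thm_EIV : St_EIV := by
  intro p _ f μ hf hμ hr
  have hp : p.Prime := Fact.out
  obtain ⟨w, hw⟩ : ∃ w : ℤ_[p], w = μ ^ (p ^ f - 1) := ⟨_, rfl⟩
  have hpf : 0 < p ^ f - 1 := by
    have : 1 < p ^ f := Nat.one_lt_pow hf.ne' hp.one_lt
    omega
  have hwn : ∀ M : ℕ, 0 < M → w ^ M ≠ 1 := by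
    intro M hM
    rw [hw, ← pow_mul]
    exact hr _ (Nat.mul_pos hpf hM)
  -- Fermat
  have h1 : (p : ℤ_[p]) ∣ w - 1 := by
    have h2 : PadicInt.toZMod μ ≠ 0 := (hμ.map PadicInt.toZMod).ne_zero
    have h3 : p - 1 ∣ p ^ f - 1 := by
      have := Nat.sub_dvd_pow_sub_pow p 1 f
      rwa [one_pow] at this
    obtain ⟨t, ht⟩ := h3
    have h4 : PadicInt.toZMod (w - 1) = 0 := by
      rw [map_sub, map_one, hw, map_pow, ht, pow_mul, ZMod.pow_card_sub_one_eq_one h2, one_pow,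
        sub_self]
    have h5 : w - 1 ∈ RingHom.ker (PadicInt.toZMod (p := p)) := h4
    rw [PadicInt.ker_toZMod, PadicInt.maximalIdeal_eq_span_p, Ideal.mem_span_singleton] at h5
    exact h5
  -- the first power
  obtain ⟨b₀, x₀, hx₀, e₀⟩ := EIV_val w (by
    have := hwn 1 one_pos
    rwa [pow_one] at this)
  obtain ⟨b₁, x₁, hx₁, e₁⟩ := EIV_val (w ^ p) (hwn p hp.pos)
  have hb₁ : 2 ≤ b₁ := by
    obtain ⟨m, hm⟩ := h1
    have e2 : w = 1 + p * m := by rw [← hm]; ring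
    obtain ⟨r, hr⟩ := EIV_bin ((p : ℤ_[p]) * m) p
    rw [← e2, e₁] at hr
    have e3 : (p : ℤ_[p]) ^ b₁ * x₁ = (p : ℤ_[p]) ^ 2 * (m + m ^ 2 * r) := by
      linear_combination hr
    by_contra hlt
    have hlt' : b₁ + 1 ≤ 2 := by omega
    obtain ⟨d, hd⟩ := Nat.exists_eq_add_of_le hlt'
    rw [hd, add_assoc, pow_add, mul_assoc] at e3
    have hp0 : (p : ℤ_[p]) ^ b₁ ≠ 0 := pow_ne_zero _ (by exact_mod_cast hp.ne_zero)
    have e4 := mul_left_cancel₀ hp0 e3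
    rw [EIV_unit] at hx₁
    apply hx₁
    rw [e4, pow_add, pow_one, mul_assoc]
    exact dvd_mul_right _ _
  have hind : ∀ m : ℕ, ∃ x : ℤ_[p], IsUnit x ∧ w ^ p ^ (m + 1) = 1 + (p : ℤ_[p]) ^ (b₁ + m) * x := by
    intro m
    induction m with
    | zero =>
      refine ⟨x₁, hx₁, ?_⟩
      rw [zero_add, pow_one]
      exact e₁
    | succ m ih =>
      obtain ⟨x, hx, e⟩ := ih
      obtain ⟨x', hx', e'⟩ := EIV_step (b₁ + m) (by omega) x hx
      refine ⟨x', hx', ?_⟩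
      rw [pow_succ p (m + 1), pow_mul, e, e']
      rfl
  refine ⟨b₀ + b₁, fun l => ?_⟩
  rw [pow_mul, ← hw]
  cases l with
  | zero =>
    refine ⟨b₀, x₀, by omega, Nat.zero_le _, hx₀, ?_⟩
    rw [pow_zero, pow_one, e₀]
    ring
  | succ m =>
    obtain ⟨x, hx, e⟩ := hind m
    refine ⟨b₁ + m, x, by omega, by omega, hx, ?_⟩
    rw [e]
    ring

end ETA
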