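import Pool.Agent.ETA.StA

/-!
# ETA, module EVP
-/

set_option autoImplicit false
set_option linter.unusedVariables false

namespace ETA

open PowerSeries ETD

theorem thm_EVP (h : ETD.St_SUN) : St_EVP := by
  classical
  intro p R n₀ N hN hR
  obtain ⟨h1, h2, h3⟩ := h p
  have hind : ∀ k m : ℕ, n₀ ≤ m → (m ∈ R ↔ N * k + m ∈ R) := by
    intro k m hm
    induction k with
    | zero => rw [mul_zero, zero_add]
    | succ k ih =>
      rw [ih, hR (N * k + m) (by omega)]
      have e : N * k + m + N = N * (k + 1) + m := by ring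
      rw [e]
  have hfin : ∀ s : Finset ℕ, PSet p {n : ℕ | ∃ m ∈ s, ∃ k : ℕ, n = N * k + m} := by
    intro s
    induction s using Finset.induction_on with
    | empty =>
      refine h1 _ ?_
      have e : {n : ℕ | ∃ m ∈ (∅ : Finset ℕ), ∃ k : ℕ, n = N * k + m} = ∅ := by
        ext n
        simp
      rw [e]
      exact Set.finite_empty
    | insert a s ha ih =>
      have e : {n : ℕ | ∃ m ∈ insert a s, ∃ k : ℕ, n = N * k + m} =
          {n : ℕ | ∃ k : ℕ, n = N * k + a} ∪ {n : ℕ | ∃ m ∈ s, ∃ k : ℕ, n = N * k + m} := by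
        ext n
        constructor
        · rintro ⟨m, hm, k, hk⟩
          rcases Finset.mem_insert.1 hm with rfl | hm
          · exact Or.inl ⟨k, hk⟩
          · exact Or.inr ⟨m, hm, k, hk⟩
        · rintro (⟨k, hk⟩ | ⟨m, hm, k, hk⟩)
          · exact ⟨a, Finset.mem_insert_self _ _, k, hk⟩
          · exact ⟨m, Finset.mem_insert_of_mem hm, k, hk⟩
      rw [e]
      exact h2 _ _ (h3 N a hN) ih
  have e : R = {n | n ∈ R ∧ n < n₀} ∪
      {n : ℕ | ∃ m ∈ (Finset.Ico n₀ (n₀ + N)).filter (· ∈ R), ∃ k : ℕ, n = N * k + m} := by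
    ext n
    constructor
    · intro hn
      by_cases hlt : n < n₀
      · exact Or.inl ⟨hn, hlt⟩
      · have hk : n = N * ((n - n₀) / N) + (n₀ + (n - n₀) % N) := by
          have := Nat.div_add_mod (n - n₀) N
          omega
        have hm : n₀ + (n - n₀) % N ∈ R := by
          rw [hind ((n - n₀) / N) _ (Nat.le_add_right _ _), ← hk]
          exact hn
        have hmod := Nat.mod_lt (n - n₀) hN
        exact Or.inr ⟨_, Finset.mem_filter.2 ⟨Finset.mem_Ico.2 ⟨Nat.le_add_right _ _, by omega⟩,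
          hm⟩, _, hk⟩
    · rintro (⟨hn, -⟩ | ⟨m, hm, k, rfl⟩)
      · exact hn
      · obtain ⟨h4, h5⟩ := Finset.mem_filter.1 hm
        exact (hind k m (Finset.mem_Ico.1 h4).1).1 h5
  rw [e]
  exact h2 _ _ (h1 _ ((Set.finite_lt_nat n₀).subset fun n hn => hn.2)) (hfin _)

end ETA
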