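import Pool.Agent.ETA.StA
import Pool.Agent.ETA.Bas
import Pool.Agent.ETD.Bas

/-!
# ETA: the orders of the coordinates of zeros are comparable
-/

set_option autoImplicit false
set_option linter.unusedVariables false

namespace ETA

open PowerSeries ETD

private noncomputable def sw (k : Type) [Field k] : Fin 3 → MvPowerSeries (Fin 3) k :=
  ![MvPowerSeries.X 0, MvPowerSeries.X 2, MvPowerSeries.X 1]

private theorem sw0 (k : Type) [Field k] (i : Fin 3) :
    MvPowerSeries.constantCoeff (sw k i) = 0 := by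
  fin_cases i <;> exact MvPowerSeries.constantCoeff_X _

private theorem sw_sw {k : Type} [Field k] (H : MvPowerSeries (Fin 3) k) :
    MvPowerSeries.subst (sw k) (MvPowerSeries.subst (sw k) H) = H := by
  have hs : MvPowerSeries.HasSubst (sw k) :=
    MvPowerSeries.hasSubst_of_constantCoeff_zero (sw0 k)
  rw [MvPowerSeries.subst_comp_subst_apply hs hs]
  have h : (fun s => MvPowerSeries.subst (sw k) (sw k s)) =
      (MvPowerSeries.X : Fin 3 → MvPowerSeries (Fin 3) k) := by
    funext i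
    fin_cases i
    · exact MvPowerSeries.subst_X hs 0
    · exact MvPowerSeries.subst_X hs 2
    · exact MvPowerSeries.subst_X hs 1
  rw [h, MvPowerSeries.subst_self]
  rfl

private theorem half {k : Type} [Field k] {H : MvPowerSeries (Fin 3) k} {m c : ℕ}
    (h : ∀ (ζ v : k⟦X⟧) (w : k⟦X⟧) (d N : ℕ), IsUnit w → ζ = X ^ d * w → c < d →
      X ^ N ∣ v → m * d + c < N → v ≠ 0 → ec ![ζ, v] H ≠ 0) {C : ℕ} (hC : m + c + 1 ≤ C)
    {ζ v : k⟦X⟧} {d d' : ℕ} (hζ : Od ζ d) (hv : Od v d') (hd : C ≤ d) (h0 : ec ![ζ, v] H = 0) :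
    d' ≤ C * d := by
  by_contra hcon
  obtain ⟨w, hw, hζw⟩ := hζ
  refine h ζ v w d d' hw hζw (by omega) hv.dvd ?_ hv.ne_zero h0
  have h1 : m * d + c < (m + c + 1) * d := by nlinarith
  have h2 : (m + c + 1) * d ≤ C * d := Nat.mul_le_mul_right d hC
  omega

/-- [FC2] The orders of the coordinates of zeros are comparable. -/
theorem thm_FC2 (hFAC : ETD.St_FAC) : St_FC2 := by
  intro k _ H hH
  obtain ⟨l, m, c, h⟩ := hFAC k H hH
  have hH' : MvPowerSeries.subst (sw k) H ≠ 0 := by
    intro h0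
    apply hH
    rw [← sw_sw H, h0]
    have hs : MvPowerSeries.HasSubst (sw k) :=
      MvPowerSeries.hasSubst_of_constantCoeff_zero (sw0 k)
    rw [← MvPowerSeries.substAlgHom_apply hs, map_zero]
  obtain ⟨l', m', c', h'⟩ := hFAC k _ hH'
  refine ⟨(m + c + 1) + (m' + c' + 1), fun ζ v d d' hζ hv hd hd' h0 => ⟨?_, ?_⟩⟩
  · refine half (C := (m + c + 1) + (m' + c' + 1)) h' (by omega) hv hζ hd' ?_
    have hζX : X ∣ ζ := by
      have := hζ.dvd
      exact (dvd_pow_self X (by omega)).trans this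
    have hvX : X ∣ v := by
      have := hv.dvd
      exact (dvd_pow_self X (by omega)).trans this
    have hsm : Sm (Fin.cons X ![v, ζ] : Fin 3 → k⟦X⟧) := by
      refine Sm.cons fun i => ?_
      fin_cases i
      · exact hvX
      · exact hζX
    have h1 : e (Fin.cons X ![v, ζ] : Fin 3 → k⟦X⟧) (MvPowerSeries.subst (sw k) H) =
        e (fun i => e (Fin.cons X ![v, ζ] : Fin 3 → k⟦X⟧) (sw k i)) H :=
      e_subst hsm (sw k) (sw0 k) H
    have h2 : (fun i => e (Fin.cons X ![v, ζ] : Fin 3 → k⟦X⟧) (sw k i)) =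
        (Fin.cons X ![ζ, v] : Fin 3 → k⟦X⟧) := by
      funext i
      fin_cases i
      · exact e_X hsm 0
      · exact e_X hsm 2
      · exact e_X hsm 1
    rw [h2] at h1
    exact h1.trans h0
  · exact half (C := (m + c + 1) + (m' + c' + 1)) h (by omega) hζ hv hd h0

end ETA
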