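import Pool.Agent.ETA.StD

/-!
# ETA, module FI2: the main theorem (helper71)
-/

set_option autoImplicit false
set_option linter.unusedVariables false

namespace ETA

open PowerSeries ETD

private theorem FI2_union (hSUN : ETD.St_SUN) (p N : ℕ) (R : ℕ → Set ℕ)
    (h : ∀ r, PSet p (R r)) : PSet p {n : ℕ | ∃ r < N, n ∈ R r} := by
  induction N with
  | zero =>
    refine (hSUN p).1 _ ?_
    have h1 : {n : ℕ | ∃ r < 0, n ∈ R r} = ∅ := by
      ext n
      simp
    rw [h1]
    exact Set.finite_empty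
  | succ N ih =>
    have h1 : {n : ℕ | ∃ r < N + 1, n ∈ R r} = {n : ℕ | ∃ r < N, n ∈ R r} ∪ R N := by
      ext n
      simp only [Set.mem_ofPred_eq, Set.mem_union]
      constructor
      · rintro ⟨r, hr, hn⟩
        rcases Nat.lt_succ_iff_lt_or_eq.1 hr with h2 | h2
        · exact Or.inl ⟨r, h2, hn⟩
        · exact Or.inr (h2 ▸ hn)
      · rintro (⟨r, hr, hn⟩ | hn)
        · exact ⟨r, Nat.lt_succ_of_lt hr, hn⟩
        · exact ⟨N, Nat.lt_succ_self N, hn⟩
    rw [h1]
    exact (hSUN p).2.1 _ _ ih (h N)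

private theorem FI2_iter {K : Type} (f : K → K) (x : K) (N r m : ℕ) :
    f^[r + N * m] x = (f^[N])^[m] (f^[r] x) := by
  rw [add_comm, Function.iterate_add_apply, Function.iterate_mul]

theorem thm_FI2 (hKCL : St_KCL) (hCLJ : St_CLJ) (hRE3 : St_RE3) (hSAF : ETD.St_SAF)
    (hSUN : ETD.St_SUN) : St_FI2 := by
  intro K _ p hp hchar f g hf hg γ h
  have : Fact p.Prime := ⟨hp⟩
  obtain ⟨Nf, hNf, hFf⟩ := hKCL K p f hf
  obtain ⟨Ng, hNg, hFg⟩ := hKCL K p g hg
  have hN : 0 < Nf * Ng := Nat.mul_pos hNf hNg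
  have hF : Cl p ((fun x => Polynomial.eval x f)^[Nf * Ng]) := by
    rw [Function.iterate_mul]
    exact hCLJ K p _ hFf Ng hNg
  have hG : Cl p ((fun x => Polynomial.eval x g)^[Nf * Ng]) := by
    rw [mul_comm, Function.iterate_mul]
    exact hCLJ K p _ hFg Nf hNf
  have hset : {n : ℕ | MvPolynomial.eval
        ![(fun x => Polynomial.eval x f)^[n] γ.1, (fun y => Polynomial.eval y g)^[n] γ.2] h = 0} =
      {n : ℕ | ∃ r < Nf * Ng, n ∈ (fun m => r + Nf * Ng * m) '' {m : ℕ | MvPolynomial.eval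
        ![((fun x => Polynomial.eval x f)^[Nf * Ng])^[m] ((fun x => Polynomial.eval x f)^[r] γ.1),
          ((fun x => Polynomial.eval x g)^[Nf * Ng])^[m]
            ((fun x => Polynomial.eval x g)^[r] γ.2)] h = 0}} := by
    ext n
    constructor
    · intro hn
      refine ⟨n % (Nf * Ng), Nat.mod_lt _ hN, n / (Nf * Ng), ?_, Nat.mod_add_div _ _⟩
      show MvPolynomial.eval _ h = 0
      rw [← FI2_iter, ← FI2_iter, Nat.mod_add_div]
      exact hn
    · rintro ⟨r, hr, m, hm, rfl⟩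
      show MvPolynomial.eval ![(fun x => Polynomial.eval x f)^[r + Nf * Ng * m] γ.1,
        (fun y => Polynomial.eval y g)^[r + Nf * Ng * m] γ.2] h = 0
      rw [FI2_iter, FI2_iter]
      exact hm
  rw [hset]
  exact FI2_union hSUN p (Nf * Ng) _ fun r => hSAF p _ (hRE3 K p _ _ _ _ h hF hG) _ r hN

end ETA
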