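import Pool.Agent.ETA.StA

/-!
# ETA: multiplicativity of `fi` (FIM)
-/

set_option autoImplicit false
set_option linter.unusedVariables false

namespace ETA

open PowerSeries ETD

theorem thm_FIM (h1 : St_FIP) (h2 : St_PWS) (h3 : St_PWM) : St_FIM := by
  intro p _ ν δ
  obtain ⟨hfi, -⟩ := h1 p
  have hν := hfi ν
  have hdv : (X : (ZMod p)⟦X⟧) ∣ pw p (1 + X : (ZMod p)⟦X⟧) ν - 1 := ⟨_, hν.symm⟩
  have hs : PowerSeries.HasSubst (X * fi p ν : (ZMod p)⟦X⟧) :=
    PowerSeries.HasSubst.of_constantCoeff_zero (X_dvd_iff.1 (dvd_mul_right X (fi p ν)))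
  have h0 : ∀ f : (ZMod p)⟦X⟧, PowerSeries.subst (X * fi p ν : (ZMod p)⟦X⟧) f =
      PowerSeries.substAlgHom hs f := fun f => by
    rw [PowerSeries.coe_substAlgHom]
  have hX : PowerSeries.substAlgHom hs (X : (ZMod p)⟦X⟧) = X * fi p ν := by
    rw [← h0, PowerSeries.subst_X hs]
  have h4 : X * fi p (ν * δ) = X * (fi p ν * PowerSeries.subst (X * fi p ν) (fi p δ)) := by
    rw [hfi (ν * δ), ← h3 (ZMod p) p (1 + X) ν δ (by simp), h2 (ZMod p) p _ δ hdv, ← hν, h0, h0]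
    have h5 := congrArg (PowerSeries.substAlgHom hs) (hfi δ)
    rw [map_mul, map_sub, map_one, hX] at h5
    rw [← h5]
    ring
  exact mul_left_cancel₀ X_ne_zero h4

end ETA
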