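import Pool.Agent.ETA.StA

/-!
# ETA, [FIP]: properties of `fi p β = ((1 + T) ^ β - 1) / T`
-/

set_option autoImplicit false
set_option linter.unusedVariables false

namespace ETA

open PowerSeries ETD

theorem thm_FIP (hB : ETD.St_PWB) (hP : ETD.St_PWP) : St_FIP := by
  intro p _
  have ha : (X : (ZMod p)⟦X⟧) ∣ 1 + X - 1 := by
    rw [add_sub_cancel_left]
  obtain ⟨b1, b2, b3, -⟩ := hB (ZMod p) p (1 + X : (ZMod p)⟦X⟧) ha
  obtain ⟨-, p2⟩ := hP (ZMod p) p (1 + X : (ZMod p)⟦X⟧) ha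
  have hX : (X : (ZMod p)⟦X⟧) ≠ 0 := X_ne_zero
  -- (1)
  have h1 : ∀ β : ℤ_[p], X * fi p β = pw p (1 + X : (ZMod p)⟦X⟧) β - 1 := by
    intro β
    refine PowerSeries.ext fun j => ?_
    rcases j with _ | j
    · rw [coeff_zero_X_mul]
      have h2 := X_dvd_iff.1 (b3 β)
      rw [coeff_zero_eq_constantCoeff_apply, h2]
    · rw [mul_comm, coeff_succ_mul_X, fi, coeff_mk, map_sub, coeff_one, if_neg (Nat.succ_ne_zero j),
        sub_zero]
  -- (2)
  have h2 : ∀ β γ : ℤ_[p], fi p (β + γ) =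
      fi p β + pw p (1 + X : (ZMod p)⟦X⟧) β * fi p γ := by
    intro β γ
    apply mul_left_cancel₀ hX
    have e1 := h1 (β + γ)
    have e2 := h1 β
    have e3 := h1 γ
    have e4 := b2 β γ
    rw [e1, e4, mul_add, e2, mul_left_comm, e3]
    ring
  have hp1 : pw p (1 + X : (ZMod p)⟦X⟧) 1 = 1 + X := by
    have h := b1 1
    rw [Nat.cast_one, pow_one] at h
    exact h
  have hf1 : fi p 1 = 1 := by
    apply mul_left_cancel₀ hX
    rw [h1, hp1]
    ring
  have hp0 : pw p (1 + X : (ZMod p)⟦X⟧) 0 = 1 := by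
    have h := b1 0
    rw [Nat.cast_zero, pow_zero] at h
    exact h
  have hod : ∀ (j : ℕ) (γ : ℤ_[p]), IsUnit γ → Od (fi p ((p : ℤ_[p]) ^ j * γ)) (p ^ j - 1) := by
    intro j γ hγ
    obtain ⟨w, hw, he⟩ := p2 1 1 one_pos isUnit_one (by ring) j γ hγ
    refine ⟨w, hw, ?_⟩
    apply mul_left_cancel₀ hX
    have hpj : 0 < p ^ j := pow_pos (Fact.out : p.Prime).pos j
    rw [h1, he, one_mul, ← mul_assoc, ← pow_succ', Nat.sub_add_cancel hpj]
  refine ⟨h1, h2, fun n => ?_, ?_, fun β => ?_, hod, fun β hβ => ?_⟩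
  · rw [add_comm (n : ℤ_[p]) 1, h2, hf1, hp1]
  · apply mul_left_cancel₀ hX
    rw [h1, hp0, sub_self, mul_zero]
  · rw [isUnit_iff_constantCoeff]
    have h3 := X_dvd_iff.1 (b3 β)
    rw [map_sub, map_one, sub_eq_zero] at h3
    rw [h3]
    exact isUnit_one
  · have h3 := hod β.valuation _ (PadicInt.unitCoeff hβ).isUnit
    have h4 := PadicInt.unitCoeff_spec hβ
    rw [mul_comm, ← h4] at h3
    exact h3.ne_zero

end ETA
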