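import Pool.Agent.ETA.StA

set_option autoImplicit false
set_option linter.unusedVariables false

namespace ETA

open PowerSeries ETD

theorem thm_HTS (hHTL : ETD.St_HTL) : St_HTS := by
  intro k _ z z' hz hz' hne hF hsub
  have h1 : ker hz ≠ ⊥ := by
    obtain ⟨F, hF1, hF2⟩ := hF
    intro h
    have h2 : F ∈ ker hz := (mem_ker hz F).2 hF1
    rw [h, Ideal.mem_bot] at h2
    exact hF2 h2
  have h3 : ker hz ≤ ker hz' := fun F h => (mem_ker hz' F).2 (hsub ((mem_ker hz F).1 h))
  have h4 := hHTL k z' hz' hne (ker hz) (ker_isPrime hz) h1 h3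
  ext F
  rw [mem_kr, mem_kr, ← mem_ker hz, ← mem_ker hz', h4]

end ETA
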