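import Pool.Agent.ETA.StD

/-!
# ETA: some iterate of the maps of the theorem is in the class `Cl`
-/

set_option autoImplicit false
set_option linter.unusedVariables false

namespace ETA

open PowerSeries ETD

section KCL

variable {K : Type} [Field K] {p : ℕ}

private theorem KCL_ad_add [Fact p.Prime] [CharP K p] (r : ℕ) (c : ℕ → K) (x y : K) :
    ad p r c (x + y) = ad p r c x + ad p r c y := by
  unfold ad
  rw [← Finset.sum_add_distrib]
  refine Finset.sum_congr rfl fun i _ => ?_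
  rw [add_pow_char_pow, mul_add]

private theorem KCL_ad_succ (r : ℕ) (c : ℕ → K) (x : K) :
    ad p (r + 1) c x = c 0 * x + ∑ i ∈ Finset.range r, c (i + 1) * x ^ p ^ (i + 1) := by
  unfold ad
  rw [Finset.sum_range_succ', pow_zero, pow_one, add_comm]

/-- a polynomial whose exponents are powers of `p` -/
private theorem KCL_eval [hp : Fact p.Prime] (f : Polynomial K)
    (hf : ∀ i : ℕ, i ≠ 0 → f.coeff i ≠ 0 → ∃ j : ℕ, i = p ^ j) (x : K) :
    Polynomial.eval x f = f.coeff 0 + ad p (f.natDegree + 1) (fun i => f.coeff (p ^ i)) x := by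
  classical
  have hp1 : 1 < p := hp.out.one_lt
  have h1 : f.natDegree < p ^ (f.natDegree + 1) :=
    (Nat.lt_succ_self _).trans (Nat.lt_pow_self hp1)
  have h0 : (0 : ℕ) ∉ (Finset.range (f.natDegree + 1)).image fun i => p ^ i := by
    intro h
    obtain ⟨i, _, hi⟩ := Finset.mem_image.1 h
    exact absurd hi (pow_ne_zero _ hp.out.ne_zero)
  have h2 : insert 0 ((Finset.range (f.natDegree + 1)).image fun i => p ^ i) ⊆
      Finset.range (p ^ (f.natDegree + 1)) := by
    intro i hi
    rcases Finset.mem_insert.1 hi with h | h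
    · rw [h]
      exact Finset.mem_range.2 (pow_pos hp.out.pos _)
    · obtain ⟨j, hj, rfl⟩ := Finset.mem_image.1 h
      exact Finset.mem_range.2 (Nat.pow_lt_pow_right hp1 (Finset.mem_range.1 hj))
  rw [Polynomial.eval_eq_sum_range' h1, ← Finset.sum_subset h2]
  · rw [Finset.sum_insert h0, pow_zero, mul_one, Finset.sum_image (fun i _ j _ hij =>
      Nat.pow_right_injective hp1 hij)]
    rfl
  · intro i _ hi
    rw [Finset.mem_insert, not_or] at hi
    have h3 : f.coeff i = 0 := by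
      by_contra h4
      obtain ⟨j, rfl⟩ := hf i hi.1 h4
      apply hi.2
      refine Finset.mem_image.2 ⟨j, Finset.mem_range.2 ?_, rfl⟩
      have h5 := Polynomial.le_natDegree_of_ne_zero h4
      have h6 : j < p ^ j := Nat.lt_pow_self hp1
      omega
    rw [h3, zero_mul]

private theorem KCL_least (c : ℕ → K) (r : ℕ) (h : ¬ ∀ i < r, c i = 0) :
    ∃ u, u < r ∧ c u ≠ 0 ∧ ∀ i < u, c i = 0 := by
  classical
  push Not at h
  obtain ⟨i, hi, hc⟩ := h
  have hex : ∃ i, c i ≠ 0 := ⟨i, hc⟩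
  refine ⟨Nat.find hex, lt_of_le_of_lt (Nat.find_le hc) hi, Nat.find_spec hex, fun j hj => ?_⟩
  by_contra h1
  exact Nat.find_min hex hj h1

private theorem KCL_ad_zero (c : ℕ → K) (r : ℕ) (h : ∀ i < r, c i = 0) (x : K) :
    ad p r c x = 0 := by
  unfold ad
  refine Finset.sum_eq_zero fun i hi => ?_
  rw [h i (Finset.mem_range.1 hi), zero_mul]

private theorem KCL_iter [Fact p.Prime] [CharP K p] (hA : St_ADM) (r : ℕ) (hr : 0 < r)
    (c : ℕ → K) (b : K) (m : ℕ) : ∃ (r' : ℕ) (c' : ℕ → K) (b' : K), 0 < r' ∧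
      c' 0 = c 0 ^ (m + 1) ∧ ∀ w, (fun w => b + ad p r c w)^[m + 1] w = b' + ad p r' c' w := by
  induction m with
  | zero =>
    refine ⟨r, c, b, hr, by rw [zero_add, pow_one], fun w => ?_⟩
    rw [zero_add, Function.iterate_one]
  | succ m ih =>
    obtain ⟨r', c', b', hr', hc', h⟩ := ih
    obtain ⟨r'', c'', h1, h2, -⟩ := hA K p r r' c c'
    obtain ⟨h3, h4⟩ := h2 hr hr'
    refine ⟨r'', c'', b + ad p r c b', h3, ?_, fun w => ?_⟩
    · rw [h4, hc', pow_succ' (c 0) (m + 1)]
    · rw [Function.iterate_succ_apply', h w, ← h1 w, KCL_ad_add, add_assoc]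

/-- maps of the form `b + ad p r c w` -/
private theorem KCL_main [Fact p.Prime] [CharP K p] (hA : St_ADM) (r : ℕ) (hr : 0 < r)
    (c : ℕ → K) (b : K) : ∃ N : ℕ, 0 < N ∧ Cl p ((fun w => b + ad p r c w)^[N]) := by
  classical
  by_cases h0 : ∀ i < r, c i = 0
  · refine ⟨1, one_pos, ?_⟩
    rw [Function.iterate_one]
    right; right; right; right
    refine ⟨b, funext fun w => ?_⟩
    rw [KCL_ad_zero c r h0, add_zero]
  obtain ⟨u, hur, hcu, hu⟩ := KCL_least c r h0
  by_cases hu0 : 0 < u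
  · refine ⟨1, one_pos, ?_⟩
    rw [Function.iterate_one]
    right; left
    exact ⟨r, u, c, b, hu0, hur, hu, isUnit_iff_ne_zero.2 hcu, rfl⟩
  have hu1 : u = 0 := by omega
  subst hu1
  by_cases hroot : ∀ m : ℕ, 0 < m → c 0 ^ m ≠ 1
  · refine ⟨1, one_pos, ?_⟩
    rw [Function.iterate_one]
    left
    obtain ⟨r', rfl⟩ : ∃ r', r = r' + 1 := ⟨r - 1, by omega⟩
    refine ⟨c 0, Polynomial.C b + ∑ i ∈ Finset.range r', Polynomial.C (c (i + 1)) *
      Polynomial.X ^ p ^ i, isUnit_iff_ne_zero.2 hcu, hroot, funext fun w => ?_⟩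
    rw [KCL_ad_succ]
    unfold fm
    rw [Polynomial.eval_add, Polynomial.eval_C, Polynomial.eval_finsetSum]
    have h1 : ∀ i ∈ Finset.range r', Polynomial.eval (w ^ p) (Polynomial.C (c (i + 1)) *
        Polynomial.X ^ p ^ i) = c (i + 1) * w ^ p ^ (i + 1) := by
      intro i _
      rw [Polynomial.eval_mul, Polynomial.eval_C, Polynomial.eval_pow, Polynomial.eval_X,
        ← pow_mul, ← pow_succ']
    rw [Finset.sum_congr rfl h1]
    ring
  push Not at hroot
  obtain ⟨m, hm, hcm⟩ := hroot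
  obtain ⟨m', rfl⟩ : ∃ m', m = m' + 1 := ⟨m - 1, by omega⟩
  refine ⟨m' + 1, Nat.succ_pos _, ?_⟩
  obtain ⟨r', c', b', hr', hc', h⟩ := KCL_iter (p := p) hA r hr c b m'
  rw [hcm] at hc'
  obtain ⟨r'', rfl⟩ : ∃ r'', r' = r'' + 1 := ⟨r' - 1, by omega⟩
  let c'' : ℕ → K := fun i => if i = 0 then 0 else c' i
  have h1 : ∀ w, (fun w => b + ad p r c w)^[m' + 1] w = b' + w + ad p (r'' + 1) c'' w := by
    intro w
    rw [h w, KCL_ad_succ, KCL_ad_succ, hc']
    show b' + (1 * w + _) = b' + w + (0 * w + _)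
    rw [one_mul, zero_mul, zero_add, add_assoc]
    rfl
  by_cases h2 : ∀ i < r'' + 1, c'' i = 0
  · right; right; right; left
    refine ⟨b', funext fun w => ?_⟩
    rw [h1 w, KCL_ad_zero c'' _ h2, add_zero]
  · obtain ⟨u, hur, hcu', hu'⟩ := KCL_least c'' (r'' + 1) h2
    right; right; left
    refine ⟨r'' + 1, u, c'', b', ?_, hur, hu', isUnit_iff_ne_zero.2 hcu', funext h1⟩
    by_contra h3
    have h4 : u = 0 := by omega
    apply hcu'
    rw [h4]
    rfl

end KCL

theorem thm_KCL (hA : St_ADM) : St_KCL := by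
  intro K _ p hp _ f hf
  rcases hf with hf | ⟨a, ha, ha0, har⟩
  · have h1 : (fun x => Polynomial.eval x f) =
        fun w => f.coeff 0 + ad p (f.natDegree + 1) (fun i => f.coeff (p ^ i)) w :=
      funext fun x => KCL_eval f hf x
    rw [h1]
    exact KCL_main hA _ (Nat.succ_pos _) _ _
  · refine ⟨1, one_pos, ?_⟩
    rw [Function.iterate_one]
    left
    have h1 : Polynomial.derivative (f - Polynomial.C a * Polynomial.X) = 0 := by
      rw [Polynomial.derivative_sub, ha, Polynomial.derivative_C_mul_X, sub_self]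
    have h2 := Polynomial.expand_contract p h1 hp.out.ne_zero
    refine ⟨a, Polynomial.contract p (f - Polynomial.C a * Polynomial.X),
      isUnit_iff_ne_zero.2 ha0, har, funext fun x => ?_⟩
    unfold fm
    rw [← Polynomial.expand_eval, h2, Polynomial.eval_sub, Polynomial.eval_mul,
      Polynomial.eval_C, Polynomial.eval_X]
    ring

end ETA
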