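import Pool.Agent.ETA.StA

/-!
# ETA, [LOI]: the local form of the orbits of the type `I`
-/

set_option autoImplicit false
set_option linter.unusedVariables false

namespace ETA

open PowerSeries ETD

private theorem LOI_add {R : Type} [CommRing R] (p : ℕ) [Fact p.Prime] [CharP R p] (r : ℕ)
    (c : ℕ → R) (w w' : R) : ad p r c (w + w') = ad p r c w + ad p r c w' := by
  unfold ad
  rw [← Finset.sum_add_distrib]
  refine Finset.sum_congr rfl fun i _ => ?_
  rw [add_pow_char_pow, mul_add]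

private theorem LOI_small {k : Type} [Field k] (p : ℕ) [Fact p.Prime] (r : ℕ)
    (c : ℕ → k⟦X⟧) {w : k⟦X⟧} (hw : X ∣ w) : X ∣ ad p r c w := by
  unfold ad
  refine Finset.dvd_sum fun i _ => ?_
  exact (dvd_pow hw (pow_ne_zero _ (Fact.out : p.Prime).ne_zero)).mul_left _

private theorem LOI_fix {k : Type} [Field k] (hH : ETD.St_HEN) (p : ℕ) [Fact p.Prime] [CharP k p]
    (r u : ℕ) (c : ℕ → k⟦X⟧) (α : k⟦X⟧) (hu : 0 < u) (h0 : ∀ i < u, c i = 0) (hα : X ∣ α) :
    ∃ V : k⟦X⟧, X ∣ V ∧ V = α + ad p r c V := by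
  have hpp : p.Prime := Fact.out
  let P : Polynomial k⟦X⟧ := Polynomial.C α +
    (∑ i ∈ Finset.range r, Polynomial.C (c i) * Polynomial.X ^ p ^ i) - Polynomial.X
  have hev : ∀ y : k⟦X⟧, P.eval y = α + ad p r c y - y := by
    intro y
    simp only [P, Polynomial.eval_sub, Polynomial.eval_add, Polynomial.eval_C,
      Polynomial.eval_finsetSum, Polynomial.eval_mul, Polynomial.eval_pow, Polynomial.eval_X, ad]
  have hder : P.derivative = -1 := by
    have hCk : CharP k⟦X⟧ p :=
    charP_of_injective_ringHom (f := (C : k →+* k⟦X⟧)) C_injective p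
    have e1 : ∀ i, Polynomial.derivative (Polynomial.C (c i) *
        (Polynomial.X : Polynomial k⟦X⟧) ^ p ^ i) = 0 := by
      intro i
      rcases i with _ | i
      · rw [h0 0 hu, Polynomial.C_0, zero_mul, Polynomial.derivative_zero]
      · rw [Polynomial.derivative_C_mul, Polynomial.derivative_X_pow]
        have : ((p ^ (i + 1) : ℕ) : k⟦X⟧) = 0 := by
          rw [Nat.cast_pow, CharP.cast_eq_zero, zero_pow (Nat.succ_ne_zero i)]
        rw [this, Polynomial.C_0, zero_mul, mul_zero]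
    simp only [P, Polynomial.derivative_sub, Polynomial.derivative_add, Polynomial.derivative_C,
      Polynomial.derivative_sum, Polynomial.derivative_X]
    rw [Finset.sum_eq_zero fun i _ => e1 i]
    ring
  obtain ⟨y, hy, hy'⟩ := hH k P 0 (by
    rw [hev, map_zero]
    have h2 : ad p r c (0 : k⟦X⟧) = 0 := by
      unfold ad
      refine Finset.sum_eq_zero fun i _ => ?_
      rw [zero_pow (pow_ne_zero _ hpp.ne_zero), mul_zero]
    rw [h2, add_zero, sub_zero]
    exact hα) (by
    rw [hder, Polynomial.eval_neg, Polynomial.eval_one]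
    intro h
    rw [X_dvd_iff, map_neg, map_one, neg_eq_zero] at h
    exact one_ne_zero h)
  rw [map_zero, sub_zero] at hy'
  rw [hev, sub_eq_zero] at hy
  exact ⟨y, hy', hy.symm⟩

theorem thm_LOI (hN : St_NRA) (hH : ETD.St_HEN) (hT : ETD.St_TAY) : St_LOI := by
  intro k _ p _ _ x hx
  obtain ⟨r, u, c, α, hu, hur, h0, h1, hα, hx⟩ := hx
  obtain ⟨V, hV, hVe⟩ := LOI_fix hH p r u c α hu h0 hα
  obtain ⟨B, ψ, -, hψ, hsurj⟩ := hN k p r u c hu hur h0 h1
  obtain ⟨z, hz, hzV⟩ := hsurj (-V) (dvd_neg.2 hV)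
  have hCk : CharP k⟦X⟧ p :=
    charP_of_injective_ringHom (f := (C : k →+* k⟦X⟧)) C_injective p
  have hxn : ∀ n, x n = V + (ad p r c)^[n] (-V) := by
    intro n
    rw [hx]
    induction n with
    | zero => exact (add_neg_cancel V).symm
    | succ n ih =>
      rw [Function.iterate_succ_apply', Function.iterate_succ_apply', ih, LOI_add, ← add_assoc,
        ← hVe]
  have hit : ∀ n, X ∣ (B.f p)^[n] z ∧ (ad p r c)^[n] (-V) = ec ![(B.f p)^[n] z] ψ := by
    intro n
    induction n with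
    | zero => exact ⟨hz, hzV.symm⟩
    | succ n ih =>
      rw [Function.iterate_succ_apply', Function.iterate_succ_apply', ih.2]
      exact ⟨LOI_small p _ _ ih.1, (hψ _ ih.1).2⟩
  refine ⟨B, z, hz, fun M => ?_⟩
  obtain ⟨s', hs'⟩ := hT k ψ V 1 (X ^ M) 0 (dvd_zero _)
  refine ⟨s', fun n ζ hζ he => ?_⟩
  have h3 := hs' ζ hζ
  rw [zero_add, one_mul, he] at h3
  rw [hxn, (hit n).2, h3]

end ETA
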