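import Pool.Agent.ETA.StA

/-!
# ETA, module LOU: local form of the orbits of type `U` (helper71)
-/

set_option autoImplicit false
set_option linter.unusedVariables false

namespace ETA

open PowerSeries ETD

theorem thm_LOU (hACT : St_ACT) (hACO : St_ACO) (hFIP : St_FIP) (hNRA : St_NRA)
    (hTAY : ETD.St_TAY) : St_LOU := by
  intro k _ p _ _ x hx
  obtain ⟨r, u, c, α, hu, hr, h0, hc, hα2, hα0, hx⟩ := hx
  obtain ⟨B, ψ, hadd, hrel, hsurj⟩ := hNRA k p r u c hu hr h0 hc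
  obtain ⟨a1, a2, a3, a4, a5, a6, a7, a8⟩ := hACT k p B
  obtain ⟨o1, o2, o3, o4⟩ := hACO k p B
  obtain ⟨f1, f2, f3, f4, f5, f6, f7⟩ := hFIP p
  have hαX : X ∣ α := (dvd_pow_self X two_ne_zero).trans hα2
  obtain ⟨z₀, hz₀, hz₀α⟩ := hsurj α hαX
  have hΨ0 : ec ![(0 : k⟦X⟧)] ψ = 0 := by
    have h1 := hadd 0 0 (dvd_zero _) (dvd_zero _)
    rw [add_zero] at h1
    exact left_eq_add.1 h1
  have hz₀ne : z₀ ≠ 0 := by
    rintro rfl
    exact hα0 (hz₀α.symm.trans hΨ0)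
  have hact0 : act p B 0 z₀ = 0 := by
    have h1 := a2 0 0 z₀
    rw [add_zero] at h1
    exact left_eq_add.1 h1
  have hxn : ∀ n : ℕ, x n = ec ![act p B (fi p (n : ℤ_[p])) z₀] ψ := by
    intro n
    induction n with
    | zero =>
      rw [hx 0, Nat.cast_zero, f4, hact0, hΨ0]
      rfl
    | succ n ih =>
      have h1 : x (n + 1) = α + x n + ad p r c (x n) := by
        rw [hx (n + 1), hx n, Function.iterate_succ_apply']
      obtain ⟨w, hw⟩ : ∃ w, w = act p B (fi p (n : ℤ_[p])) z₀ := ⟨_, rfl⟩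
      have hwX : X ∣ w := by
        rw [hw]
        exact a7 _ _ hz₀
      have hBw : B.f p w = act p B X w := (a4 w hwX).2.symm
      have hBX : X ∣ B.f p w := by
        rw [hBw]
        exact a7 _ _ hwX
      have h2 : act p B (fi p ((n : ℤ_[p]) + 1)) z₀ = z₀ + w + B.f p w := by
        have h3 : (1 : (ZMod p)⟦X⟧) + (1 + X) * fi p (n : ℤ_[p]) =
            1 + fi p (n : ℤ_[p]) + X * fi p (n : ℤ_[p]) := by ring
        rw [f3, h3, a2, a2, a5 _ _ _ hz₀, ← hw, ← hBw, (a4 z₀ hz₀).1]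
      rw [h1, ih, ← hw, ← hz₀α, (hrel w hwX).2, Nat.cast_succ, h2,
        hadd _ _ (dvd_add hz₀ hwX) hBX, hadd _ _ hz₀ hwX]
  refine ⟨B, fun β => ?_⟩
  refine ⟨act p B (pw p (1 + X : (ZMod p)⟦X⟧) β) z₀, a7 _ _ hz₀,
    o4 _ _ (f5 β).ne_zero hz₀ hz₀ne, fun M => ?_⟩
  obtain ⟨ρ, hρ⟩ := hTAY k ψ (ec ![act p B (fi p β) z₀] ψ) 1 (X ^ M) 0 (dvd_zero _)
  refine ⟨ρ, fun n ζ hζ heq => ?_⟩
  have h1 := hρ ζ hζ
  rw [one_mul, zero_add, heq] at h1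
  rw [← h1, hxn n]
  have h2 : (n : ℤ_[p]) = β + ((n : ℤ_[p]) - β) := by ring
  have h3 : act p B (fi p (n : ℤ_[p])) z₀ = act p B (fi p β) z₀ +
      act p B (fi p ((n : ℤ_[p]) - β)) (act p B (pw p (1 + X : (ZMod p)⟦X⟧) β) z₀) := by
    conv_lhs => rw [h2]
    rw [f2, a2, mul_comm, a5 _ _ _ hz₀]
  rw [h3]
  exact hadd _ _ (a7 _ _ hz₀) (a7 _ _ (a7 _ _ hz₀))

end ETA
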