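import Pool.Agent.ETA.StB
import Mathlib

/-!
# ETA: exponents with few nonvanishing binomials
-/

set_option autoImplicit false
set_option linter.unusedVariables false

namespace ETA

open PowerSeries ETD

variable (p : ℕ) [Fact p.Prime]

/-- a multiple of `p` -/
private theorem LUC_mul (n l : ℕ) :
    ((Nat.choose (p * n) (p * l) : ℕ) : ZMod p) = ((Nat.choose n l : ℕ) : ZMod p) := by
  have hp : 0 < p := (Fact.out : p.Prime).pos
  have h := Choose.choose_modEq_choose_mod_mul_choose_div_nat (n := p * n) (k := p * l) (p := p)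
  rw [Nat.mul_mod_right, Nat.mul_mod_right, Nat.mul_div_cancel_left _ hp,
    Nat.mul_div_cancel_left _ hp, Nat.choose_zero_right, one_mul] at h
  exact (ZMod.natCast_eq_natCast_iff _ _ _).2 h

private theorem LUC_mulpow (a n l : ℕ) :
    ((Nat.choose (p ^ a * n) (p ^ a * l) : ℕ) : ZMod p) = ((Nat.choose n l : ℕ) : ZMod p) := by
  induction a with
  | zero => simp
  | succ a ih =>
    rw [pow_succ', mul_assoc, mul_assoc, LUC_mul, ih]

private theorem LUC_add (g n r l : ℕ) (hg : g < p) (hr : r < p) :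
    ((Nat.choose (g + p * n) (r + p * l) : ℕ) : ZMod p) =
      ((Nat.choose g r : ℕ) : ZMod p) * ((Nat.choose n l : ℕ) : ZMod p) := by
  have hp : 0 < p := (Fact.out : p.Prime).pos
  have h := Choose.choose_modEq_choose_mod_mul_choose_div_nat (n := g + p * n) (k := r + p * l)
    (p := p)
  rw [Nat.add_mul_mod_self_left, Nat.add_mul_mod_self_left, Nat.mod_eq_of_lt hg,
    Nat.mod_eq_of_lt hr, Nat.add_mul_div_left _ _ hp, Nat.add_mul_div_left _ _ hp,
    Nat.div_eq_of_lt hg, Nat.div_eq_of_lt hr, zero_add, zero_add] at h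
  rw [← Nat.cast_mul]
  exact (ZMod.natCast_eq_natCast_iff _ _ _).2 h

private theorem LUC_ne (n : ℕ) (h : ¬ p ∣ n) : ((n : ℕ) : ZMod p) ≠ 0 := by
  rwa [Ne, ZMod.natCast_eq_zero_iff]

/-- the natural number case -/
private theorem LUC_nat (D m : ℕ) (hm : m ≠ 0) (hD : D ≠ 1)
    (h : ∀ l : ℕ, 1 ≤ l → l ≤ m → ¬ l ≡ 1 [MOD D] → ((Nat.choose m l : ℕ) : ZMod p) = 0) :
    ∃ a : ℕ, m = p ^ a ∧ p ^ a ≡ 1 [MOD D] := by
  have hp : p.Prime := Fact.out
  -- a contradiction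
  have key : ∀ q : ℕ, q ≡ 1 [MOD D] → ∀ s : ℕ, s ≡ 1 [MOD D] → q + s ≡ 1 [MOD D] → False := by
    intro q hq s hs hqs
    have h1 : 1 + 1 ≡ 0 + 1 [MOD D] := ((hq.add hs).symm.trans hqs).trans (by rfl)
    have h2 : 1 ≡ 0 [MOD D] := Nat.ModEq.add_right_cancel' 1 h1
    exact hD (Nat.dvd_one.1 ((Nat.modEq_zero_iff_dvd).1 h2))
  have hne : ∀ l : ℕ, 1 ≤ l → l ≤ m → ((Nat.choose m l : ℕ) : ZMod p) ≠ 0 → l ≡ 1 [MOD D] := by
    intro l h1 h2 h3
    by_contra h4
    exact h3 (h l h1 h2 h4)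
  obtain ⟨a, n, hn, hmn⟩ := Nat.exists_eq_pow_mul_and_not_dvd hm p hp.ne_one
  have hpa : 0 < p ^ a := pow_pos hp.pos a
  have hn0 : 0 < n := by
    rcases Nat.eq_zero_or_pos n with h0 | h0
    · exact absurd (h0 ▸ dvd_zero p) hn
    · exact h0
  -- the first coefficient
  have ha : p ^ a ≡ 1 [MOD D] := by
    apply hne _ hpa
    · rw [hmn]
      exact Nat.le_mul_of_pos_right _ hn0
    · rw [hmn]
      have h1 := LUC_mulpow p a n 1
      rw [mul_one, Nat.choose_one_right] at h1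
      rw [h1]
      exact LUC_ne p n hn
  -- the last digit
  obtain ⟨g, n', hg, hgn⟩ : ∃ g n' : ℕ, g < p ∧ n = g + p * n' :=
    ⟨n % p, n / p, Nat.mod_lt _ hp.pos, (Nat.mod_add_div n p).symm⟩
  have hg0 : g ≠ 0 := by
    rintro rfl
    apply hn
    rw [hgn, zero_add]
    exact dvd_mul_right _ _
  have hg1 : g = 1 := by
    by_contra hg1
    have hg2 : 2 ≤ g := by omega
    have h2n : 2 ≤ n := by
      rw [hgn]
      omega
    have h2 : p ^ a * 2 ≡ 1 [MOD D] := by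
      apply hne
      · omega
      · rw [hmn]
        exact Nat.mul_le_mul_left _ h2n
      · rw [hmn, LUC_mulpow, hgn]
        have h3 := LUC_add p g n' 2 0 hg (by omega)
        rw [mul_zero, add_zero, Nat.choose_zero_right, Nat.cast_one, mul_one] at h3
        rw [h3]
        apply LUC_ne
        intro h4
        have h5 := Nat.choose_mul_factorial_mul_factorial hg2
        have h6 : p ∣ g.factorial := by
          rw [← h5]
          exact (h4.mul_right _).mul_right _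
        exact absurd ((hp.dvd_factorial).1 h6) (by omega)
    rw [mul_two] at h2
    exact key _ ha _ ha h2
  subst hg1
  refine ⟨a, ?_, ha⟩
  by_cases hn' : n' = 0
  · rw [hmn, hgn, hn', mul_zero, add_zero, mul_one]
  exfalso
  obtain ⟨b, g, hg', hn2⟩ := Nat.exists_eq_pow_mul_and_not_dvd hn' p hp.ne_one
  have hg0' : 0 < g := by
    rcases Nat.eq_zero_or_pos g with h0 | h0
    · exact absurd (h0 ▸ dvd_zero p) hg'
    · exact h0
  have hpb : 0 < p ^ b := pow_pos hp.pos b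
  have hch : ((Nat.choose n' (p ^ b) : ℕ) : ZMod p) ≠ 0 := by
    have h1 := LUC_mulpow p b g 1
    rw [mul_one, Nat.choose_one_right] at h1
    rw [hn2, h1]
    exact LUC_ne p g hg'
  have hle : p ^ b ≤ n' := by
    rw [hn2]
    exact Nat.le_mul_of_pos_right _ hg0'
  have h1p : 1 < p := hp.one_lt
  have h1 : p ^ a * (p * p ^ b) ≡ 1 [MOD D] := by
    apply hne
    · exact Nat.mul_pos hpa (Nat.mul_pos hp.pos hpb)
    · rw [hmn, hgn]
      exact Nat.mul_le_mul_left _ ((Nat.mul_le_mul_left _ hle).trans (Nat.le_add_left _ _))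
    · rw [hmn, LUC_mulpow, hgn]
      have h3 := LUC_add p 1 n' 0 (p ^ b) h1p (by omega)
      rw [zero_add, Nat.choose_zero_right, Nat.cast_one, one_mul] at h3
      rw [h3]
      exact hch
  have h2 : p ^ a * (1 + p * p ^ b) ≡ 1 [MOD D] := by
    apply hne
    · exact Nat.mul_pos hpa (by omega)
    · rw [hmn, hgn]
      exact Nat.mul_le_mul_left _ (Nat.add_le_add_left (Nat.mul_le_mul_left _ hle) _)
    · rw [hmn, LUC_mulpow, hgn]
      have h3 := LUC_add p 1 n' 1 (p ^ b) h1p h1p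
      rw [Nat.choose_self, Nat.cast_one, one_mul] at h3
      rw [h3]
      exact hch
  rw [mul_add, mul_one] at h2
  exact key _ ha _ h1 h2

/-- divisibility of differences of natural numbers -/
private theorem LUC_dvd (J x y : ℕ) (hx : x < p ^ J) (hy : y < p ^ J)
    (h : (p : ℤ_[p]) ^ J ∣ (x : ℤ_[p]) - (y : ℤ_[p])) : x = y := by
  have h1 : (p : ℤ_[p]) ^ J ∣ (((x : ℤ) - (y : ℤ) : ℤ) : ℤ_[p]) := by
    push_cast
    exact h
  rw [PadicInt.pow_p_dvd_int_iff] at h1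
  have h2 : (x : ℤ) ≡ (y : ℤ) [ZMOD ((p ^ J : ℕ) : ℤ)] := by
    rw [Int.modEq_comm, Int.modEq_iff_dvd]
    push_cast
    exact h1
  rw [Int.natCast_modEq_iff] at h2
  exact Nat.ModEq.eq_of_lt_of_lt h2 hx hy

/-- Exponents with few nonvanishing binomials. -/
theorem thm_LUC (h1 : ETD.St_PWB) (h2 : ETD.St_PWP) : St_LUC := by
  intro p _ δ D hδ hD hl
  have hp : p.Prime := Fact.out
  obtain ⟨hn, -, -, hc⟩ := h1 (ZMod p) p (1 + X) (by rw [add_sub_cancel_left])
  have happ : ∀ J, (p : ℤ_[p]) ^ J ∣ δ - (δ.appr J : ℤ_[p]) := fun J =>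
    Ideal.mem_span_singleton.1 (PadicInt.appr_spec J δ)
  -- the coefficients
  have hco : ∀ J l, l < p ^ J → coeff l (pw p (1 + X : (ZMod p)⟦X⟧) δ) =
      ((Nat.choose (δ.appr J) l : ℕ) : ZMod p) := by
    intro J l hlJ
    have e1 := hc 1 J δ (δ.appr J : ℤ_[p]) (by rw [add_sub_cancel_left, pow_one]) (happ J)
    rw [hn, one_mul, PowerSeries.X_pow_dvd_iff] at e1
    have e2 := e1 l hlJ
    rw [map_sub, sub_eq_zero] at e2
    rw [e2]
    have e3 : ((1 + X : (ZMod p)⟦X⟧) ^ (δ.appr J)) =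
        (((1 + Polynomial.X : Polynomial (ZMod p)) ^ (δ.appr J) : Polynomial (ZMod p)) :
          (ZMod p)⟦X⟧) := by
      push_cast
      rfl
    rw [e3, Polynomial.coeff_coe, Polynomial.coeff_one_add_X_pow]
  -- large `J`
  obtain ⟨J₀, hJ₀⟩ : ∃ J₀ : ℕ, ¬ (p : ℤ_[p]) ^ J₀ ∣ δ := by
    refine ⟨δ.valuation + 1, fun h => ?_⟩
    rw [← Ideal.mem_span_singleton, PadicInt.mem_span_pow_iff_le_valuation δ hδ] at h
    omega
  have hJ : ∀ J, J₀ ≤ J → ∃ a : ℕ, δ.appr J = p ^ a ∧ p ^ a ≡ 1 [MOD D] := by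
    intro J hJ
    apply LUC_nat p D (δ.appr J) _ hD
    · intro l h3 h4 h5
      rw [← hco J l (h4.trans_lt (PadicInt.appr_lt δ J))]
      exact hl l h3 h5
    · intro h0
      have h3 := happ J
      rw [h0, Nat.cast_zero, sub_zero] at h3
      exact hJ₀ ((pow_dvd_pow _ hJ).trans h3)
  obtain ⟨a, ha, haD⟩ := hJ J₀ le_rfl
  refine ⟨a, ?_, haD⟩
  have hall : ∀ J, J₀ ≤ J → (p : ℤ_[p]) ^ J ∣ δ - (p : ℤ_[p]) ^ a := by
    intro J hJJ
    obtain ⟨b, hb, -⟩ := hJ J hJJ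
    have h3 := happ J
    rw [hb] at h3
    have h4 : b < J₀ := by
      by_contra h5
      push Not at h5
      apply hJ₀
      have h6 : (p : ℤ_[p]) ^ J₀ ∣ ((p ^ b : ℕ) : ℤ_[p]) := by
        push_cast
        exact pow_dvd_pow _ h5
      have h7 := dvd_add ((pow_dvd_pow _ hJJ).trans h3) h6
      rwa [sub_add_cancel] at h7
    have h5 : (p : ℤ_[p]) ^ J₀ ∣ ((p ^ b : ℕ) : ℤ_[p]) - ((p ^ a : ℕ) : ℤ_[p]) := by
      have h6 := happ J₀
      rw [ha] at h6
      have h7 := dvd_sub h6 ((pow_dvd_pow _ hJJ).trans h3)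
      have h8 : δ - ((p ^ a : ℕ) : ℤ_[p]) - (δ - ((p ^ b : ℕ) : ℤ_[p])) =
          ((p ^ b : ℕ) : ℤ_[p]) - ((p ^ a : ℕ) : ℤ_[p]) := by ring
      rwa [h8] at h7
    have h6 : p ^ b = p ^ a := LUC_dvd p J₀ _ _ (Nat.pow_lt_pow_right hp.one_lt h4)
      (by rw [← ha]; exact PadicInt.appr_lt δ J₀) h5
    rw [h6] at h3
    push_cast at h3
    exact h3
  by_contra hne
  have h3 : δ - (p : ℤ_[p]) ^ a ≠ 0 := sub_ne_zero.2 hne
  have h4 := hall (J₀ + (δ - (p : ℤ_[p]) ^ a).valuation + 1) (by omega)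
  rw [← Ideal.mem_span_singleton, PadicInt.mem_span_pow_iff_le_valuation _ h3] at h4
  omega

end ETA
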