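import Pool.Agent.ETA.StA

/-!
# ETA, module NFC: the coefficients of the normal form
-/

set_option autoImplicit false
set_option linter.unusedVariables false

namespace ETA

open PowerSeries ETD

/-- a sequence constructed by strong recursion -/
theorem NFC_seq {α : Type} [Inhabited α] (G : ℕ → (ℕ → α) → α → Prop)
    (hG : ∀ i ψ ψ' y, (∀ m < i, ψ m = ψ' m) → G i ψ y → G i ψ' y)
    (h : ∀ i ψ, (∀ m < i, G m ψ (ψ m)) → ∃ y, G i ψ y) : ∃ ψ, ∀ i, G i ψ (ψ i) := by
  classical
  let st : ℕ → (ℕ → α) → α := fun i ψ => if h : ∃ y, G i ψ y then h.choose else default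
  let F : ℕ → (ℕ → α) := fun n =>
    Nat.rec (fun _ => default) (fun n f => Function.update f n (st n f)) n
  have hF : ∀ n, F (n + 1) = Function.update (F n) n (st n (F n)) := fun n => rfl
  let ψ : ℕ → α := fun n => st n (F n)
  have h1 : ∀ n m, m < n → F n m = ψ m := by
    intro n
    induction n with
    | zero =>
      intro m hm
      exact absurd hm (Nat.not_lt_zero m)
    | succ n ih =>
      intro m hm
      rw [hF]
      by_cases h2 : m = n
      · subst h2
        rw [Function.update_self]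
      · rw [Function.update_of_ne h2]
        exact ih m (by omega)
  refine ⟨ψ, fun i => ?_⟩
  induction i using Nat.strong_induction_on with
  | _ i ih =>
    have h2 : ∃ y, G i (F i) y := h i (F i) fun m hm => by
      have h3 := ih m hm
      rw [h1 i m hm]
      exact hG m ψ (F i) (ψ m) (fun m' hm' => (h1 i m' (hm'.trans hm)).symm) h3
    have h4 : G i (F i) (ψ i) := by
      show G i (F i) (if h : ∃ y, G i (F i) y then h.choose else default)
      rw [dif_pos h2]
      exact h2.choose_spec
    exact hG i (F i) ψ (ψ i) (fun m hm => h1 i m hm) h4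

/-- one equation -/
theorem NFC_root (hHEN : ETD.St_HEN) {k : Type} [Field k] (p : ℕ) [Fact p.Prime] [CharP k p]
    (u : ℕ) (hu : 0 < u) (a b R : k⟦X⟧) (c₀ : k) (ha : constantCoeff a ≠ 0)
    (h : constantCoeff a * c₀ - constantCoeff b * c₀ ^ p ^ u - constantCoeff R = 0) :
    ∃ y : k⟦X⟧, a * y - b * y ^ p ^ u = R ∧ constantCoeff y = c₀ := by
  have h0 : ((p ^ u : ℕ) : k⟦X⟧) = 0 := by
    have h1 : ((p ^ u : ℕ) : k) = 0 := (CharP.cast_eq_zero_iff k p _).2 (dvd_pow_self p hu.ne')
    have h2 := map_natCast (C (R := k)) (p ^ u)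
    rw [h1, map_zero] at h2
    exact h2.symm
  obtain ⟨y, hy, hy'⟩ := hHEN k (Polynomial.C a * Polynomial.X -
    Polynomial.C b * Polynomial.X ^ p ^ u - Polynomial.C R) c₀ (by
      rw [X_dvd_iff]
      simp only [Polynomial.eval_sub, Polynomial.eval_mul, Polynomial.eval_C, Polynomial.eval_X,
        Polynomial.eval_pow, map_sub, map_mul, map_pow, constantCoeff_C]
      exact h) (by
      rw [X_dvd_iff]
      simp only [Polynomial.derivative_sub, Polynomial.derivative_mul, Polynomial.derivative_C,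
        Polynomial.derivative_X, Polynomial.derivative_X_pow, zero_mul, zero_add, mul_one,
        sub_zero, h0, map_zero, mul_zero, Polynomial.eval_C]
      exact ha)
  refine ⟨y, ?_, ?_⟩
  · simp only [Polynomial.eval_sub, Polynomial.eval_mul, Polynomial.eval_C, Polynomial.eval_X,
      Polynomial.eval_pow] at hy
    exact sub_eq_zero.1 hy
  · rw [X_dvd_iff, map_sub, constantCoeff_C, sub_eq_zero] at hy'
    exact hy'

theorem thm_NFC (hHEN : ETD.St_HEN) : St_NFC := by
  intro k _ p _ _ u hu c hc
  have hp : p.Prime := Fact.out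
  have hinh : Inhabited k⟦X⟧ := ⟨0⟩
  have hc0 : constantCoeff (c u) ≠ 0 := by
    rw [isUnit_iff_constantCoeff] at hc
    exact hc.ne_zero
  let R : ℕ → (ℕ → k⟦X⟧) → k⟦X⟧ := fun i ψ => ∑ m ∈ Finset.range i,
    (c (u + i - m) * ψ m ^ p ^ (u + i - m) - ψ m * C (constantCoeff (c (u + i - m))) ^ p ^ m)
  let G : ℕ → (ℕ → k⟦X⟧) → k⟦X⟧ → Prop := fun i ψ y =>
    C (constantCoeff (c u)) ^ p ^ i * y - c u * y ^ p ^ u = R i ψ ∧
      constantCoeff y = if i = 0 then 1 else 0
  obtain ⟨ψ, hψ⟩ := NFC_seq G (by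
    intro i ψ ψ' y h h1
    refine ⟨?_, h1.2⟩
    rw [h1.1]
    refine Finset.sum_congr rfl fun m hm => ?_
    rw [h m (Finset.mem_range.1 hm)]) (by
    intro i ψ h
    refine NFC_root hHEN p u hu _ _ _ _ ?_ ?_
    · rw [map_pow, constantCoeff_C]
      exact pow_ne_zero _ hc0
    · rw [map_pow, constantCoeff_C]
      by_cases hi : i = 0
      · subst hi
        rw [if_pos rfl, show R 0 ψ = 0 from Finset.sum_range_zero _, map_zero, pow_zero]
        simp
      · rw [if_neg hi, zero_pow (pow_ne_zero _ hp.ne_zero), mul_zero, mul_zero, sub_zero,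
          zero_sub, neg_eq_zero]
        show constantCoeff (∑ m ∈ Finset.range i, (c (u + i - m) * ψ m ^ p ^ (u + i - m) -
          ψ m * C (constantCoeff (c (u + i - m))) ^ p ^ m)) = 0
        rw [map_sum]
        refine Finset.sum_eq_zero fun m hm => ?_
        have h1 := (h m (Finset.mem_range.1 hm)).2
        rw [map_sub, map_mul, map_mul, map_pow, map_pow, constantCoeff_C, h1]
        by_cases hm0 : m = 0
        · subst hm0
          simp
        · rw [if_neg hm0, zero_pow (pow_ne_zero _ hp.ne_zero), mul_zero, zero_mul, sub_zero])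
  refine ⟨ψ, ?_, ?_, ?_⟩
  · rw [X_dvd_iff, map_sub, (hψ 0).2, if_pos rfl, map_one, sub_self]
  · intro i
    rw [X_dvd_iff, (hψ (i + 1)).2, if_neg (Nat.succ_ne_zero i)]
  · intro i
    have h1 := (hψ i).1
    have h2 : R i ψ = (∑ m ∈ Finset.range i, c (u + i - m) * ψ m ^ p ^ (u + i - m)) -
        ∑ m ∈ Finset.range i, ψ m * C (constantCoeff (c (u + i - m))) ^ p ^ m :=
      Finset.sum_sub_distrib _ _
    rw [h2] at h1
    rw [Finset.sum_range_succ, Finset.sum_range_succ, Nat.add_sub_cancel]
    linear_combination -h1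

end ETA
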