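import Pool.Agent.ETA.StA

/-!
# ETA, module NRA: the normal form of an inseparable additive polynomial
-/

set_option autoImplicit false
set_option linter.unusedVariables false

namespace ETA

open PowerSeries ETD

/-- sums over triangles -/
theorem NRA_tri {R : Type} [CommRing R] (x : R) (N : ℕ) (F : ℕ → ℕ → R)
    (hF : ∀ l m, N ≤ l + m → x ∣ F l m) :
    x ∣ (∑ l ∈ Finset.range N, ∑ m ∈ Finset.range N, F l m) -
      ∑ s ∈ Finset.range N, ∑ m ∈ Finset.range (s + 1), F (s - m) m := by
  classical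
  have h1 : ∑ l ∈ Finset.range N, ∑ m ∈ Finset.range N, F l m =
      ∑ q ∈ Finset.range N ×ˢ Finset.range N, F q.1 q.2 :=
    (Finset.sum_product' _ _ _).symm
  have h2 : ∑ s ∈ Finset.range N, ∑ m ∈ Finset.range (s + 1), F (s - m) m =
      ∑ q ∈ (Finset.range N).sigma (fun s => Finset.range (s + 1)), F (q.1 - q.2) q.2 := by
    rw [Finset.sum_sigma]
  have h3 : ∑ q ∈ (Finset.range N).sigma (fun s => Finset.range (s + 1)), F (q.1 - q.2) q.2 =
      ∑ q ∈ (Finset.range N ×ˢ Finset.range N).filter (fun q => q.1 + q.2 < N), F q.1 q.2 := by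
    refine Finset.sum_nbij' (fun q => (q.1 - q.2, q.2)) (fun q => ⟨q.1 + q.2, q.2⟩) ?_ ?_ ?_ ?_ ?_
    · rintro ⟨s, m⟩ h
      rw [Finset.mem_sigma, Finset.mem_range, Finset.mem_range] at h
      rw [Finset.mem_filter, Finset.mem_product, Finset.mem_range, Finset.mem_range]
      dsimp only at h ⊢
      omega
    · rintro ⟨l, m⟩ h
      rw [Finset.mem_filter, Finset.mem_product, Finset.mem_range, Finset.mem_range] at h
      rw [Finset.mem_sigma, Finset.mem_range, Finset.mem_range]
      dsimp only at h ⊢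
      omega
    · rintro ⟨s, m⟩ h
      rw [Finset.mem_sigma, Finset.mem_range, Finset.mem_range] at h
      dsimp only at h ⊢
      have : s - m + m = s := by omega
      rw [this]
    · rintro ⟨l, m⟩ h
      dsimp only
      rw [Nat.add_sub_cancel]
    · rintro ⟨s, m⟩ h
      rfl
  rw [h1, h2, h3, ← Finset.sum_filter_add_sum_filter_not (Finset.range N ×ˢ Finset.range N)
    (fun q => q.1 + q.2 < N) (fun q => F q.1 q.2), add_sub_cancel_left]
  refine Finset.dvd_sum fun q hq => ?_
  rw [Finset.mem_filter] at hq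
  exact hF _ _ (not_lt.1 hq.2)

theorem NRA_zero {k : Type} [Field k] {f : k⟦X⟧} (n₀ : ℕ) (h : ∀ j : ℕ, n₀ ≤ j → X ^ j ∣ f) :
    f = 0 := by
  refine PowerSeries.ext fun m => ?_
  rw [map_zero]
  exact (X_pow_dvd_iff.1 (h (n₀ + m + 1) (by omega))) m (by omega)

theorem thm_NRA (hSRS : St_SRS) (hNFC : St_NFC) (hNRS : St_NRS) : St_NRA := by
  intro k _ p _ _ r u c hu hr h0 hcu
  have hp : p.Prime := Fact.out
  have hch : CharP k⟦X⟧ p := charP_of_injective_ringHom (C_injective (R := k)) p
  have hfr : ∀ (a b : k⟦X⟧) (n : ℕ), (a + b) ^ p ^ n = a ^ p ^ n + b ^ p ^ n := fun a b n =>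
    add_pow_char_pow a b p n
  have hfs : ∀ (n : ℕ) (T : Finset ℕ) (f : ℕ → k⟦X⟧),
      (∑ i ∈ T, f i) ^ p ^ n = ∑ i ∈ T, f i ^ p ^ n := by
    intro n T f
    classical
    induction T using Finset.induction_on with
    | empty => rw [Finset.sum_empty, Finset.sum_empty, zero_pow (pow_ne_zero _ hp.ne_zero)]
    | insert a T ha ih => rw [Finset.sum_insert ha, Finset.sum_insert ha, hfr, ih]
  set c' : ℕ → k⟦X⟧ := fun i => if i < r then c i else 0 with hc'
  have hc'u : IsUnit (c' u) := by
    rw [hc']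
    show IsUnit (if u < r then c u else 0)
    rw [if_pos hr]
    exact hcu
  have hc'0 : ∀ i < u, c' i = 0 := by
    intro i hi
    show (if i < r then c i else 0) = 0
    rw [if_pos (hi.trans hr)]
    exact h0 i hi
  have hc'r : ∀ i, i < r → c' i = c i := fun i hi => if_pos hi
  have hc'g : ∀ i, r ≤ i → c' i = 0 := fun i hi => if_neg (not_lt.2 hi)
  obtain ⟨ψs, hψ0, hψs, hψ⟩ := hNFC k p u hu c' hc'u
  obtain ⟨ψ, hE⟩ := hSRS k p hp ψs
  have hcc : constantCoeff (c u) ≠ 0 := by
    rw [isUnit_iff_constantCoeff] at hcu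
    exact hcu.ne_zero
  let B : Op k :=
    { r := r
      u := u
      c := fun i => constantCoeff (c i)
      hu := hu
      hr := hr
      h0 := fun i hi => by
        rw [h0 i hi, map_zero]
      h1 := hcc }
  have hEs : ∀ y : k⟦X⟧, X ∣ y → X ∣ ec ![y] ψ := by
    intro y hy
    have h1 := hE y hy 1
    rw [pow_one, Finset.sum_range_one, pow_zero, pow_one] at h1
    have h2 := dvd_add h1 (hy.mul_left (ψs 0))
    rwa [sub_add_cancel] at h2
  have hBs : ∀ y : k⟦X⟧, X ∣ y → X ∣ B.f p y := by
    intro y hy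
    show X ∣ ∑ i ∈ Finset.range r, C (constantCoeff (c i)) * y ^ p ^ i
    refine Finset.dvd_sum fun i _ => ?_
    exact (hy.trans (dvd_pow_self y (pow_ne_zero _ hp.ne_zero))).mul_left _
  -- the equations between the coefficients
  have heq : ∀ s : ℕ, ∑ m ∈ Finset.range (s + 1), c' (s - m) * ψs m ^ p ^ (s - m) =
      ∑ m ∈ Finset.range (s + 1), ψs m * C (constantCoeff (c' (s - m))) ^ p ^ m := by
    intro s
    by_cases hs : s < u
    · rw [Finset.sum_eq_zero, Finset.sum_eq_zero]
      · intro m _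
        rw [hc'0 (s - m) (by omega), map_zero, map_zero, zero_pow (pow_ne_zero _ hp.ne_zero),
          mul_zero]
      · intro m _
        rw [hc'0 (s - m) (by omega), zero_mul]
    · obtain ⟨i, rfl⟩ := Nat.exists_eq_add_of_le (not_lt.1 hs)
      have hsub : Finset.range (i + 1) ⊆ Finset.range (u + i + 1) := by
        intro m hm
        rw [Finset.mem_range] at hm ⊢
        omega
      rw [← Finset.sum_subset hsub, ← Finset.sum_subset hsub]
      · exact hψ i
      · intro m hm hm'
        rw [Finset.mem_range] at hm hm'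
        rw [hc'0 (u + i - m) (by omega), map_zero, map_zero,
          zero_pow (pow_ne_zero _ hp.ne_zero), mul_zero]
      · intro m hm hm'
        rw [Finset.mem_range] at hm hm'
        rw [hc'0 (u + i - m) (by omega), zero_mul]
  refine ⟨B, ψ, ?_, ?_, ?_⟩
  · -- additivity
    intro y y' hy hy'
    rw [← sub_eq_zero]
    apply NRA_zero 0
    intro N _
    have h1 := hE (y + y') (dvd_add hy hy') N
    have h2 := hE y hy N
    have h3 := hE y' hy' N
    have h4 : ∑ i ∈ Finset.range N, ψs i * (y + y') ^ p ^ i =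
        (∑ i ∈ Finset.range N, ψs i * y ^ p ^ i) + ∑ i ∈ Finset.range N, ψs i * y' ^ p ^ i := by
      rw [← Finset.sum_add_distrib]
      refine Finset.sum_congr rfl fun i _ => ?_
      rw [hfr, mul_add]
    rw [h4] at h1
    have h5 := dvd_sub h1 (dvd_add h2 h3)
    have e1 : ec ![y + y'] ψ - (ec ![y] ψ + ec ![y'] ψ) = ec ![y + y'] ψ -
        ((∑ i ∈ Finset.range N, ψs i * y ^ p ^ i) + ∑ i ∈ Finset.range N, ψs i * y' ^ p ^ i) -
        ((ec ![y] ψ - ∑ i ∈ Finset.range N, ψs i * y ^ p ^ i) +
          (ec ![y'] ψ - ∑ i ∈ Finset.range N, ψs i * y' ^ p ^ i)) := by ring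
    rw [e1]
    exact h5
  · intro y hy
    refine ⟨hEs y hy, ?_⟩
    rw [← sub_eq_zero]
    apply NRA_zero r
    intro N hN
    have hyN : ∀ s, N ≤ s → X ^ N ∣ y ^ p ^ s := by
      intro s hs
      have h1 : N ≤ p ^ s := hs.trans (Nat.lt_pow_self hp.one_lt).le
      exact (pow_dvd_pow _ h1).trans (pow_dvd_pow_of_dvd hy _)
    -- the left side
    have hL : X ^ N ∣ ad p r c (ec ![y] ψ) - ∑ l ∈ Finset.range N, ∑ m ∈ Finset.range N,
        c' l * ψs m ^ p ^ l * y ^ p ^ (l + m) := by
      have e1 : ad p r c (ec ![y] ψ) = ∑ l ∈ Finset.range N, c' l * (ec ![y] ψ) ^ p ^ l := by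
        have hsub : Finset.range r ⊆ Finset.range N := by
          intro m hm
          rw [Finset.mem_range] at hm ⊢
          omega
        rw [← Finset.sum_subset hsub]
        · refine Finset.sum_congr rfl fun l hl => ?_
          rw [hc'r l (Finset.mem_range.1 hl)]
        · intro l _ hl
          rw [Finset.mem_range] at hl
          rw [hc'g l (not_lt.1 hl), zero_mul]
      rw [e1, ← Finset.sum_sub_distrib]
      refine Finset.dvd_sum fun l _ => ?_
      have e2 : ∑ m ∈ Finset.range N, c' l * ψs m ^ p ^ l * y ^ p ^ (l + m) =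
          c' l * (∑ m ∈ Finset.range N, ψs m * y ^ p ^ m) ^ p ^ l := by
        rw [hfs, Finset.mul_sum]
        refine Finset.sum_congr rfl fun m _ => ?_
        rw [mul_pow, ← pow_mul, ← pow_add, add_comm m l]
        ring
      rw [e2, ← mul_sub]
      exact ((hE y hy N).trans (sub_dvd_pow_sub_pow _ _ _)).mul_left _
    -- the right side
    have hR : X ^ N ∣ ec ![B.f p y] ψ - ∑ l ∈ Finset.range N, ∑ m ∈ Finset.range N,
        ψs m * C (constantCoeff (c' l)) ^ p ^ m * y ^ p ^ (l + m) := by
      have e1 : B.f p y = ∑ l ∈ Finset.range N, C (constantCoeff (c' l)) * y ^ p ^ l := by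
        have hsub : Finset.range r ⊆ Finset.range N := by
          intro m hm
          rw [Finset.mem_range] at hm ⊢
          omega
        show ∑ l ∈ Finset.range r, C (constantCoeff (c l)) * y ^ p ^ l = _
        rw [← Finset.sum_subset hsub]
        · refine Finset.sum_congr rfl fun l hl => ?_
          rw [hc'r l (Finset.mem_range.1 hl)]
        · intro l _ hl
          rw [Finset.mem_range] at hl
          rw [hc'g l (not_lt.1 hl), map_zero, map_zero, zero_mul]
      have h1 := hE (B.f p y) (hBs y hy) N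
      have e2 : ∑ i ∈ Finset.range N, ψs i * (B.f p y) ^ p ^ i = ∑ l ∈ Finset.range N,
          ∑ m ∈ Finset.range N, ψs m * C (constantCoeff (c' l)) ^ p ^ m * y ^ p ^ (l + m) := by
        rw [Finset.sum_comm]
        refine Finset.sum_congr rfl fun m _ => ?_
        rw [e1, hfs, Finset.mul_sum]
        refine Finset.sum_congr rfl fun l _ => ?_
        rw [mul_pow, ← pow_mul, ← pow_add]
        ring
      rw [e2] at h1
      exact h1
    have hL2 := NRA_tri (X ^ N : k⟦X⟧) N (fun l m => c' l * ψs m ^ p ^ l * y ^ p ^ (l + m))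
      fun l m h => (hyN _ h).mul_left _
    have hR2 := NRA_tri (X ^ N : k⟦X⟧) N
      (fun l m => ψs m * C (constantCoeff (c' l)) ^ p ^ m * y ^ p ^ (l + m))
      fun l m h => (hyN _ h).mul_left _
    have hmid : ∑ s ∈ Finset.range N, ∑ m ∈ Finset.range (s + 1),
        c' (s - m) * ψs m ^ p ^ (s - m) * y ^ p ^ (s - m + m) =
        ∑ s ∈ Finset.range N, ∑ m ∈ Finset.range (s + 1),
        ψs m * C (constantCoeff (c' (s - m))) ^ p ^ m * y ^ p ^ (s - m + m) := by
      refine Finset.sum_congr rfl fun s _ => ?_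
      have e1 : ∑ m ∈ Finset.range (s + 1), c' (s - m) * ψs m ^ p ^ (s - m) *
          y ^ p ^ (s - m + m) = (∑ m ∈ Finset.range (s + 1), c' (s - m) * ψs m ^ p ^ (s - m)) *
          y ^ p ^ s := by
        rw [Finset.sum_mul]
        refine Finset.sum_congr rfl fun m hm => ?_
        rw [Finset.mem_range] at hm
        rw [show s - m + m = s by omega]
      have e2 : ∑ m ∈ Finset.range (s + 1), ψs m * C (constantCoeff (c' (s - m))) ^ p ^ m *
          y ^ p ^ (s - m + m) = (∑ m ∈ Finset.range (s + 1), ψs m *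
          C (constantCoeff (c' (s - m))) ^ p ^ m) * y ^ p ^ s := by
        rw [Finset.sum_mul]
        refine Finset.sum_congr rfl fun m hm => ?_
        rw [Finset.mem_range] at hm
        rw [show s - m + m = s by omega]
      rw [e1, e2, heq s]
    have h9 := dvd_sub (dvd_add hL hL2) (dvd_add hR hR2)
    rw [sub_add_sub_cancel, sub_add_sub_cancel, hmid, sub_sub_sub_cancel_right] at h9
    exact h9
  · exact fun w hw => hNRS k p ψs hψ0 hψs (fun y => ec ![y] ψ) (fun y hy N => hE y hy N) w hw

end ETA
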