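import Pool.Agent.ETA.StA

/-!
# ETA, module NRS: surjectivity
-/

set_option autoImplicit false
set_option linter.unusedVariables false

namespace ETA

open PowerSeries ETD

theorem NRS_zero {k : Type} [Field k] {f : k⟦X⟧} (h : ∀ j : ℕ, X ^ j ∣ f) : f = 0 := by
  refine PowerSeries.ext fun m => ?_
  rw [map_zero]
  exact (X_pow_dvd_iff.1 (h (m + 1))) m (Nat.lt_succ_self m)

theorem NRS_lim {k : Type} [Field k] (ys : ℕ → k⟦X⟧) (h : ∀ j, X ^ j ∣ ys (j + 1) - ys j) :
    ∃ y : k⟦X⟧, ∀ j, X ^ j ∣ y - ys j := by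
  have h1 : ∀ i j, i ≤ j → X ^ i ∣ ys j - ys i := by
    intro i j hij
    induction j, hij using Nat.le_induction with
    | base =>
      rw [sub_self]
      exact dvd_zero _
    | succ j hj ih =>
      have : ys (j + 1) - ys i = (ys (j + 1) - ys j) + (ys j - ys i) := by ring
      rw [this]
      exact dvd_add ((pow_dvd_pow _ hj).trans (h j)) ih
  refine ⟨PowerSeries.mk fun m => coeff m (ys (m + 1)), fun j => ?_⟩
  rw [X_pow_dvd_iff]
  intro m hm
  rw [map_sub, coeff_mk]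
  have h2 := (X_pow_dvd_iff.1 (h1 (m + 1) j hm)) m (Nat.lt_succ_self m)
  rw [map_sub] at h2
  linear_combination -h2

theorem thm_NRS : St_NRS := by
  intro k _ p _ _ c hc0 hc Ψ hΨ w hw
  have hp : p.Prime := Fact.out
  -- the contraction
  have hD1 : ∀ y, X ∣ y → X ∣ Ψ y := by
    intro y hy
    have h1 := hΨ y hy 1
    rw [pow_one, Finset.sum_range_one] at h1
    have h2 : X ∣ c 0 * y ^ p ^ 0 := by
      rw [pow_zero, pow_one]
      exact hy.mul_left _
    have h3 := dvd_add h1 h2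
    rwa [sub_add_cancel] at h3
  have hD : ∀ (N : ℕ) (y y' : k⟦X⟧), X ∣ y → X ∣ y' → X ^ N ∣ y - y' →
      X ^ (N + 1) ∣ (Ψ y - y) - (Ψ y' - y') := by
    intro N y y' hy hy' h
    have h1 := hΨ y hy (N + 1)
    have h2 := hΨ y' hy' (N + 1)
    rw [Finset.sum_range_succ'] at h1 h2
    have h3 : X ^ (N + 1) ∣ ∑ i ∈ Finset.range N, (c (i + 1) * y ^ p ^ (i + 1) -
        c (i + 1) * y' ^ p ^ (i + 1)) := by
      refine Finset.dvd_sum fun i _ => ?_
      rw [← mul_sub, add_comm N 1, pow_add, pow_one]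
      exact mul_dvd_mul (hc i) (h.trans (sub_dvd_pow_sub_pow _ _ _))
    have h4 : X ^ (N + 1) ∣ (c 0 - 1) * (y - y') := by
      rw [add_comm N 1, pow_add, pow_one]
      exact mul_dvd_mul hc0 h
    rw [Finset.sum_sub_distrib] at h3
    have h5 := dvd_add (dvd_add (dvd_sub h1 h2) h3) h4
    rw [pow_zero, pow_one, pow_one] at h5
    have e1 : (Ψ y - y) - (Ψ y' - y') = Ψ y - (∑ i ∈ Finset.range N,
        c (i + 1) * y ^ p ^ (i + 1) + c 0 * y) - (Ψ y' - (∑ i ∈ Finset.range N,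
        c (i + 1) * y' ^ p ^ (i + 1) + c 0 * y')) + (∑ i ∈ Finset.range N,
        c (i + 1) * y ^ p ^ (i + 1) - ∑ i ∈ Finset.range N, c (i + 1) * y' ^ p ^ (i + 1)) +
        (c 0 - 1) * (y - y') := by ring
    rw [e1]
    exact h5
  let ys : ℕ → k⟦X⟧ := fun n => Nat.rec 0 (fun _ y => w - (Ψ y - y)) n
  have hys : ∀ n, ys (n + 1) = w - (Ψ (ys n) - ys n) := fun n => rfl
  have hs : ∀ n, X ∣ ys n := by
    intro n
    induction n with
    | zero => exact dvd_zero _
    | succ n ih =>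
      rw [hys]
      exact dvd_sub hw (dvd_sub (hD1 _ ih) ih)
  have hj : ∀ j, X ^ j ∣ ys (j + 1) - ys j := by
    intro j
    induction j with
    | zero =>
      rw [pow_zero]
      exact one_dvd _
    | succ j ih =>
      rw [hys (j + 1), hys j]
      have h1 := hD j (ys (j + 1)) (ys j) (hs (j + 1)) (hs j) ih
      rw [← dvd_neg] at h1
      rw [hys j] at h1
      have e1 : w - (Ψ (w - (Ψ (ys j) - ys j)) - (w - (Ψ (ys j) - ys j))) -
          (w - (Ψ (ys j) - ys j)) = -(Ψ (w - (Ψ (ys j) - ys j)) - (w - (Ψ (ys j) - ys j)) -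
          (Ψ (ys j) - ys j)) := by ring
      rw [e1]
      exact h1
  obtain ⟨y, hy⟩ := NRS_lim ys hj
  have hys1 : X ∣ y := by
    have h1 := hy 1
    rw [pow_one] at h1
    have h2 := dvd_add h1 (hs 1)
    rwa [sub_add_cancel] at h2
  refine ⟨y, hys1, ?_⟩
  rw [← sub_eq_zero]
  apply NRS_zero
  intro j
  have h1 := hy (j + 1)
  have h2 := hD j y (ys j) hys1 (hs j) (hy j)
  have e1 : Ψ y - w = (y - ys (j + 1)) + ((Ψ y - y) - (Ψ (ys j) - ys j)) := by
    rw [hys]
    ring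
  rw [e1]
  exact dvd_add ((pow_dvd_pow _ (Nat.le_succ j)).trans h1)
    ((pow_dvd_pow _ (Nat.le_succ j)).trans h2)

end ETA
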