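import Pool.Agent.ETA.StC

/-!
# ETA, module NZS: `F(w + z, y)` as a nonzero series in `z` (helper31)
-/

set_option autoImplicit false
set_option linter.unusedVariables false

namespace ETA

open PowerSeries ETD

section

variable {k : Type} [Field k]

/-- the series in the variable with number `0` -/
private noncomputable def NZS_W (u : k⟦X⟧) : MvPowerSeries (Fin 2) k :=
  MvPowerSeries.X 0 * MvPowerSeries.subst
    (fun _ : Unit => (MvPowerSeries.X 0 : MvPowerSeries (Fin 2) k)) u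

private theorem NZS_W_cc (u : k⟦X⟧) : MvPowerSeries.constantCoeff (NZS_W u) = 0 := by
  rw [NZS_W, map_mul, MvPowerSeries.constantCoeff_X, zero_mul]

private theorem NZS_W_e {z : Fin 1 → k⟦X⟧} (hz : Sm z) (u : k⟦X⟧) :
    e (Fin.cons X z : Fin 2 → k⟦X⟧) (NZS_W u) = X * u := by
  have hs : MvPowerSeries.HasSubst
      (fun _ : Unit => (MvPowerSeries.X 0 : MvPowerSeries (Fin 2) k)) :=
    MvPowerSeries.hasSubst_of_constantCoeff_zero fun _ => MvPowerSeries.constantCoeff_X 0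
  rw [NZS_W, e_mul hz.cons, e_X hz.cons, Fin.cons_zero]
  congr 1
  have h1 := MvPowerSeries.subst_comp_subst_apply (R := k) hs hz.cons.hs u
  rw [e, h1]
  have h2 : (fun s : Unit => MvPowerSeries.subst (Fin.cons X z : Fin 2 → k⟦X⟧)
      ((fun _ : Unit => (MvPowerSeries.X 0 : MvPowerSeries (Fin 2) k)) s)) =
      (MvPowerSeries.X : Unit → MvPowerSeries Unit k) := by
    funext s
    rw [MvPowerSeries.subst_X hz.cons.hs]
    rfl
  rw [h2, MvPowerSeries.subst_self]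
  rfl

private theorem NZS_sm1 {ζ : k⟦X⟧} (hζ : X ∣ ζ) : Sm (![ζ] : Fin 1 → k⟦X⟧) := by
  intro i
  have : i = 0 := Subsingleton.elim _ _
  rw [this]
  exact hζ

private theorem NZS_sm2 {ζ v : k⟦X⟧} (hζ : X ∣ ζ) (hv : X ∣ v) :
    Sm (![ζ, v] : Fin 2 → k⟦X⟧) := by
  intro i
  fin_cases i
  · exact hζ
  · exact hv

private theorem NZS_fac {σ : Type} (i : σ) (H : MvPowerSeries σ k) (hH : H ≠ 0) :
    ∃ (l : ℕ) (H' : MvPowerSeries σ k), H = MvPowerSeries.X i ^ l * H' ∧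
      ¬ MvPowerSeries.X i ∣ H' := by
  classical
  have hfin : FiniteMultiplicity (MvPowerSeries.X i : MvPowerSeries σ k) H := by
    by_contra hcon
    apply hH
    ext m
    have h1 : (MvPowerSeries.X i : MvPowerSeries σ k) ^ (m i + 1) ∣ H := by
      by_contra h2
      exact hcon ⟨m i, h2⟩
    rw [MvPowerSeries.X_pow_dvd_iff] at h1
    rw [h1 m (Nat.lt_succ_self _), map_zero]
  obtain ⟨c, hc, hc'⟩ := hfin.exists_eq_pow_mul_and_not_dvd
  exact ⟨_, c, hc, hc'⟩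

/-- the value of a series with nonzero constant coefficient -/
private theorem NZS_unit {z : Fin 2 → k⟦X⟧} (hz : Sm z) (U : MvPowerSeries (Fin 2) k)
    (hU : MvPowerSeries.constantCoeff U ≠ 0) : e z U ≠ 0 := by
  intro h0
  have h1 := e_order hz (U - MvPowerSeries.C (MvPowerSeries.constantCoeff U)) 1 (by
    intro d hd
    have hd0 : d = 0 := by
      rw [Nat.lt_one_iff] at hd
      exact (Finsupp.degree_eq_zero_iff d).1 hd
    rw [hd0, MvPowerSeries.coeff_zero_eq_constantCoeff_apply, map_sub,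
      MvPowerSeries.constantCoeff_C, sub_self])
  rw [pow_one, e_sub hz, e_C hz, h0, zero_sub, dvd_neg, X_dvd_iff, constantCoeff_C] at h1
  exact hU h1

private theorem NZS_ne (F : MvPowerSeries (Fin 2) k) (hF : ¬ MvPowerSeries.X 0 ∣ F) (y : k⟦X⟧)
    (hy : X ∣ y) (hy0 : y ≠ 0) : e ![0, y] F ≠ 0 := by
  classical
  rw [MvPowerSeries.X_dvd_iff] at hF
  push Not at hF
  obtain ⟨m, hm, hm0⟩ := hF
  have hsg : ∀ d : Fin 2 →₀ ℕ, d 0 = 0 → d = Finsupp.single 1 (d 1) := by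
    intro d hd
    ext i
    fin_cases i
    · simpa using hd
    · simp
  have hex : ∃ j, MvPowerSeries.coeff (Finsupp.single 1 j) F ≠ 0 :=
    ⟨m 1, by rw [← hsg m hm]; exact hm0⟩
  obtain ⟨j, hj0, hj1⟩ : ∃ j, MvPowerSeries.coeff (Finsupp.single 1 j) F ≠ 0 ∧
      ∀ i < j, MvPowerSeries.coeff (Finsupp.single 1 i) F = 0 :=
    ⟨Nat.find hex, Nat.find_spec hex, fun i hi => not_not.1 (Nat.find_min hex hi)⟩
  obtain ⟨G, hG⟩ : ∃ G : MvPowerSeries (Fin 2) k, ∀ d, MvPowerSeries.coeff d G =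
      if d 0 = 0 then MvPowerSeries.coeff d F else 0 :=
    ⟨fun d => if d 0 = 0 then MvPowerSeries.coeff d F else 0, fun d => rfl⟩
  obtain ⟨A, hA⟩ : MvPowerSeries.X 0 ∣ F - G := by
    rw [MvPowerSeries.X_dvd_iff]
    intro d hd
    rw [map_sub, hG, if_pos hd, sub_self]
  obtain ⟨U, hU⟩ : MvPowerSeries.X 1 ^ j ∣ G := by
    rw [MvPowerSeries.X_pow_dvd_iff]
    intro d hd
    rw [hG]
    split_ifs with h
    · rw [hsg d h]
      exact hj1 _ hd
    · rfl
  have hUc : MvPowerSeries.constantCoeff U ≠ 0 := by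
    intro h0
    have h1 := hG (Finsupp.single 1 j)
    rw [if_pos (by simp), hU, MvPowerSeries.X_pow_eq] at h1
    have h2 := MvPowerSeries.coeff_add_monomial_mul (Finsupp.single (1 : Fin 2) j) 0 U (1 : k)
    rw [add_zero, h1, one_mul, MvPowerSeries.coeff_zero_eq_constantCoeff_apply, h0] at h2
    exact hj0 h2
  have hz : Sm (![0, y] : Fin 2 → k⟦X⟧) := NZS_sm2 (dvd_zero _) hy
  have hF2 : F = MvPowerSeries.X 0 * A + MvPowerSeries.X 1 ^ j * U := by
    rw [← hA, ← hU]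
    ring
  have hval : e ![0, y] F = y ^ j * e ![0, y] U := by
    rw [hF2, e_add hz, e_mul hz, e_mul hz, e_pow hz, e_X hz, e_X hz]
    have h3 : (![0, y] : Fin 2 → k⟦X⟧) 0 = 0 := rfl
    have h4 : (![0, y] : Fin 2 → k⟦X⟧) 1 = y := rfl
    rw [h3, h4, zero_mul, zero_add]
  rw [hval]
  exact mul_ne_zero (pow_ne_zero _ hy0) (NZS_unit hz U hUc)

end

theorem thm_NZS : St_NZS := by
  intro k _ F w y hF hw hy hy0
  obtain ⟨u, hu⟩ := hw
  obtain ⟨v, hv⟩ := hy
  have hy : X ∣ y := ⟨v, hv⟩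
  obtain ⟨G, hG⟩ : ∃ G : Fin 2 → MvPowerSeries (Fin 2) k,
      G = ![NZS_W u + MvPowerSeries.X 1, NZS_W v] := ⟨_, rfl⟩
  have hGc : ∀ i, MvPowerSeries.constantCoeff (G i) = 0 := by
    intro i
    rw [hG]
    fin_cases i
    · show MvPowerSeries.constantCoeff (NZS_W u + MvPowerSeries.X 1) = 0
      rw [map_add, NZS_W_cc, MvPowerSeries.constantCoeff_X, add_zero]
    · exact NZS_W_cc v
  have hval : ∀ z : k⟦X⟧, X ∣ z → ec ![z] (MvPowerSeries.subst G F) = e ![w + z, y] F := by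
    intro z hz
    have hz1 := NZS_sm1 hz
    rw [ec, e_subst hz1.cons G hGc]
    congr 1
    funext i
    rw [hG]
    fin_cases i
    · show e (Fin.cons X ![z]) (NZS_W u + MvPowerSeries.X 1) = w + z
      rw [e_add hz1.cons, NZS_W_e hz1, e_X hz1.cons, hu]
      rfl
    · show e (Fin.cons X ![z]) (NZS_W v) = y
      rw [NZS_W_e hz1, hv]
  refine ⟨MvPowerSeries.subst G F, ?_, hval⟩
  intro h0
  have h1 : ∀ z' : k⟦X⟧, X ∣ z' → e ![z', y] F = 0 := by
    intro z' hz'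
    have hz2 : X ∣ z' - w := dvd_sub hz' ⟨u, hu⟩
    have h2 := hval (z' - w) hz2
    rw [h0, ec, e_zero (NZS_sm1 hz2).cons, add_sub_cancel] at h2
    exact h2.symm
  obtain ⟨l, F', hF', hF'2⟩ := NZS_fac 0 F hF
  have hne := NZS_ne F' hF'2 y hy hy0
  obtain ⟨D, hD⟩ := exists_Od hne
  have hX : (X : k⟦X⟧) ∣ X ^ (D + 1) := dvd_pow_self X (Nat.succ_ne_zero D)
  have hs1 : Sm (![X ^ (D + 1), y] : Fin 2 → k⟦X⟧) := NZS_sm2 hX hy
  have hs0 : Sm (![0, y] : Fin 2 → k⟦X⟧) := NZS_sm2 (dvd_zero _) hy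
  have h3 := e_congr hs1 hs0 F' (D + 1) (by
    intro i
    fin_cases i
    · show X ^ (D + 1) ∣ X ^ (D + 1) - 0
      rw [sub_zero]
    · show X ^ (D + 1) ∣ y - y
      rw [sub_self]
      exact dvd_zero _)
  have h4 := h1 (X ^ (D + 1)) hX
  rw [hF', e_mul hs1, e_pow hs1, e_X hs1] at h4
  have h5 : (![X ^ (D + 1), y] : Fin 2 → k⟦X⟧) 0 = X ^ (D + 1) := rfl
  rw [h5] at h4
  rcases mul_eq_zero.1 h4 with h6 | h6
  · exact pow_ne_zero _ (pow_ne_zero _ X_ne_zero) h6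
  · rw [h6, zero_sub, dvd_neg] at h3
    exact hD.not_dvd (Nat.lt_succ_self D) h3

end ETA
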