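import Pool.Agent.ETA.StC
import Pool.Agent.ETD.FAC

/-!
# ETA, [ONE]: series in one variable over `k⟦t⟧`
-/

set_option autoImplicit false

namespace ETA

open PowerSeries ETD

/-- [ONE] -/
theorem thm_ONE : St_ONE := by
  intro k _ g hg
  obtain ⟨i, g₁, rfl, hg₁⟩ := FAC_fac 1 g hg
  obtain ⟨c, hc⟩ := exists_Od (FAC_ne g₁ hg₁)
  refine ⟨i, c, ?_⟩
  intro δ D hD hcD
  have hδ : (X : k⟦X⟧) ∣ δ := (dvd_pow_self X (by omega)).trans hD.dvd
  have hz := (FAC_sm1 hδ).cons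
  have h0 := (FAC_sm1 (dvd_zero (X : k⟦X⟧))).cons
  have h1 : ec ![δ] (MvPowerSeries.X 1 ^ i * g₁) = δ ^ i * ec ![δ] g₁ := by
    rw [ec, e_mul hz, e_pow hz, e_X hz]
    rfl
  have h2 : (X : k⟦X⟧) ^ D ∣ ec ![δ] g₁ - ec ![0] g₁ := by
    refine e_congr hz h0 g₁ D ?_
    intro j
    fin_cases j
    · show (X : k⟦X⟧) ^ D ∣ X - X
      rw [sub_self]
      exact dvd_zero _
    · show (X : k⟦X⟧) ^ D ∣ δ - 0
      rw [sub_zero]
      exact hD.dvd
  have h3 : Od (ec ![δ] g₁) c := by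
    have h4 := hc.add ((pow_dvd_pow X (by omega : c + 1 ≤ D)).trans h2)
    rwa [add_sub_cancel] at h4
  rw [h1, mul_comm i D]
  exact (hD.pow i).mul h3

end ETA
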