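import Pool.Agent.ETA.StA

/-!
# ETA: basic properties of the additive operators (OPB)
-/

set_option autoImplicit false
set_option linter.unusedVariables false
set_option linter.unusedSectionVars false

namespace ETA

open PowerSeries ETD

variable {k : Type} [Field k]

private theorem OPB_char (p : ℕ) [CharP k p] : CharP k⟦X⟧ p :=
  charP_of_injective_ringHom (f := (C : k →+* k⟦X⟧)) C_injective p

private theorem OPB_f (p : ℕ) (B : Op k) (w : k⟦X⟧) :
    B.f p w = ∑ i ∈ Finset.range B.r, C (B.c i) * w ^ p ^ i := rfl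

/-- the terms with `i < u` vanish -/
private theorem OPB_cases (B : Op k) (P : ℕ → Prop) (h0 : ∀ i, B.c i = 0 → P i)
    (h1 : ∀ i, B.u ≤ i → P i) (i : ℕ) : P i := by
  rcases lt_or_ge i B.u with h | h
  · exact h0 i (B.h0 i h)
  · exact h1 i h

private theorem OPB_exC {q : ℕ} {w : k⟦X⟧} (c : k) (h : Ex q w) : Ex q (C c * w) := by
  obtain ⟨hq, y, hy, rfl⟩ := h
  exact ⟨hq, C c * y, hy.mul_left _, by rw [map_mul, PowerSeries.expand_C]⟩

theorem thm_OPB : St_OPB := by
  intro k _ p _ _ B
  have hp : p.Prime := Fact.out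
  have hch := OPB_char (k := k) p
  have hpp : 1 < p := hp.one_lt
  have hadd : ∀ w w' : k⟦X⟧, B.f p (w + w') = B.f p w + B.f p w' := by
    intro w w'
    rw [OPB_f, OPB_f, OPB_f, ← Finset.sum_add_distrib]
    refine Finset.sum_congr rfl fun i _ => ?_
    rw [add_pow_char_pow, mul_add]
  have hexu : ∀ y : k⟦X⟧, X ∣ y → Ex (p ^ B.u) (B.f p y) := by
    intro y hy
    have h1 : ∀ s : Finset ℕ, Ex (p ^ B.u) (∑ i ∈ s, C (B.c i) * y ^ p ^ i) := by
      intro s
      classical
      induction s using Finset.induction_on with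
      | empty =>
        rw [Finset.sum_empty]
        exact ex_zero (pow_ne_zero _ hp.ne_zero)
      | insert i s hi ih =>
        rw [Finset.sum_insert hi]
        refine Ex.add ?_ ih
        refine OPB_cases B (fun i => Ex (p ^ B.u) (C (B.c i) * y ^ p ^ i)) (fun i h => ?_)
          (fun i h => ?_) i
        · simp only [h, map_zero, zero_mul]
          exact ex_zero (pow_ne_zero _ hp.ne_zero)
        · refine OPB_exC _ ?_
          obtain ⟨j, rfl⟩ := Nat.exists_eq_add_of_le h
          have h2 : y ^ p ^ (B.u + j) = (y ^ p ^ j) ^ p ^ B.u := by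
            rw [← pow_mul, ← pow_add, Nat.add_comm]
          rw [h2]
          exact ex_pow p B.u (dvd_pow hy (pow_ne_zero _ hp.ne_zero))
    exact h1 (Finset.range B.r)
  refine ⟨hadd, ?_, ?_, ?_, ?_, ?_⟩
  · intro c w
    rw [OPB_f, OPB_f, Finset.mul_sum]
    refine Finset.sum_congr rfl fun i _ => ?_
    have h1 : sc k p c ^ p ^ i = sc k p c := by
      unfold sc
      rw [← map_pow, ← map_pow, ZMod.pow_card_pow]
    rw [mul_pow, h1]
    ring
  · intro d w hw
    rw [OPB_f]
    refine Finset.dvd_sum fun i _ => ?_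
    refine OPB_cases B (fun i => X ^ (d * p) ∣ C (B.c i) * w ^ p ^ i) (fun i h => ?_)
      (fun i h => ?_) i
    · simp only [h, map_zero, zero_mul]
      exact dvd_zero _
    · refine Dvd.dvd.mul_left ?_ _
      have h1 : (X : k⟦X⟧) ^ (d * p ^ i) ∣ w ^ p ^ i := by
        rw [pow_mul]
        exact pow_dvd_pow_of_dvd hw _
      have h2 : p ≤ p ^ i := by
        have h3 : 1 ≤ i := B.hu.trans_le h
        calc p = p ^ 1 := (pow_one p).symm
          _ ≤ p ^ i := Nat.pow_le_pow_right hp.pos h3
      exact (pow_dvd_pow _ (Nat.mul_le_mul_left d h2)).trans h1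
  · rintro q _ ⟨hq, y, hy, rfl⟩
    have h1 : B.f p (expand q hq y) = expand q hq (B.f p y) := by
      rw [OPB_f, OPB_f, map_sum]
      refine Finset.sum_congr rfl fun i _ => ?_
      rw [map_mul, PowerSeries.expand_C, map_pow]
    rw [h1]
    obtain ⟨hq', y', hy', h2⟩ := hexu y hy
    refine ⟨mul_ne_zero hq hq', y', hy', ?_⟩
    rw [h2, PowerSeries.expand_mul]
  · intro w d hd hw
    have hu : B.u ∈ Finset.range B.r := Finset.mem_range.2 B.hr
    rw [OPB_f, ← Finset.add_sum_erase _ _ hu]
    refine Od.add ?_ ?_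
    · have h1 := hw.pow (p ^ B.u)
      obtain ⟨η, hη, h2⟩ := h1
      refine ⟨C (B.c B.u) * η, ?_, ?_⟩
      · refine IsUnit.mul ?_ hη
        exact (isUnit_iff_ne_zero.2 B.h1).map (C : k →+* k⟦X⟧)
      · rw [h2]
        ring
    · refine Finset.dvd_sum fun i hi => ?_
      have hne : i ≠ B.u := (Finset.mem_erase.1 hi).1
      refine OPB_cases B (fun i => i ≠ B.u → X ^ (d * p ^ B.u + 1) ∣ C (B.c i) * w ^ p ^ i)
        (fun i h _ => ?_) (fun i h h' => ?_) i hne
      · simp only [h, map_zero, zero_mul]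
        exact dvd_zero _
      · refine Dvd.dvd.mul_left ?_ _
        have h1 : (X : k⟦X⟧) ^ (d * p ^ i) ∣ w ^ p ^ i := by
          rw [pow_mul]
          exact pow_dvd_pow_of_dvd hw.dvd _
        refine (pow_dvd_pow _ ?_).trans h1
        have h2 : B.u < i := lt_of_le_of_ne h (Ne.symm h')
        have h3 : p ^ B.u < p ^ i := Nat.pow_lt_pow_right hpp h2
        have h4 : d * p ^ B.u < d * p ^ i := Nat.mul_lt_mul_of_pos_left h3 hd
        omega
  · intro g y hy
    have hs : PowerSeries.HasSubst y := PowerSeries.HasSubst.of_constantCoeff_zero (X_dvd_iff.1 hy)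
    have h1 : ∀ f : k⟦X⟧, PowerSeries.subst y f = PowerSeries.substAlgHom hs f := fun f => by
      rw [PowerSeries.coe_substAlgHom]
    rw [h1, h1, OPB_f, OPB_f, map_sum]
    refine Finset.sum_congr rfl fun i _ => ?_
    rw [map_mul, map_pow]
    congr 1
    have h2 : (C (B.c i) : k⟦X⟧) = algebraMap k k⟦X⟧ (B.c i) := rfl
    rw [h2, AlgHom.commutes]

end ETA
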