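import Pool.Agent.ETA.StC

/-!
# ETA, module PEA: local zero sets, types `E`, `I`
-/

set_option autoImplicit false
set_option linter.unusedVariables false

namespace ETA

open PowerSeries ETD

private theorem PEA_dvd {p : ℕ} [Fact p.Prime] {x γ : ℤ_[p]} {j J : ℕ} (hγ : IsUnit γ)
    (hx : x = (p : ℤ_[p]) ^ j * γ) (h : (p : ℤ_[p]) ^ J ∣ x) : J ≤ j := by
  rw [hx] at h
  have h1 : (p : ℤ_[p]) ^ J ∣ (p : ℤ_[p]) ^ j := (IsUnit.dvd_mul_right hγ).1 h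
  exact (pow_dvd_pow_iff PadicInt.prime_p.ne_zero PadicInt.prime_p.not_isUnit).1 h1

private theorem PEA_div {k : Type} [Field k] {w ζ : k⟦X⟧} {M D : ℕ} (h : Od w D) (hD : M ≤ D)
    (h1 : X ^ M * ζ = w) : Od ζ (D - M) := by
  obtain ⟨η, hη, rfl⟩ := h
  refine ⟨η, hη, ?_⟩
  have h2 : X ^ M * ζ = X ^ M * (X ^ (D - M) * η) := by
    rw [h1, ← mul_assoc, ← pow_add, Nat.add_sub_cancel' hD]
  exact mul_left_cancel₀ (pow_ne_zero _ X_ne_zero) h2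

private theorem PEA_ex {k : Type} [Field k] {w : k⟦X⟧} {M D : ℕ} (h : Od w D) (hD : M < D) :
    ∃ ζ : k⟦X⟧, X ∣ ζ ∧ X ^ M * ζ = w := by
  obtain ⟨η, hη, rfl⟩ := h
  refine ⟨X ^ (D - M) * η, dvd_mul_of_dvd_left (dvd_pow_self X (by omega)) _, ?_⟩
  rw [← mul_assoc, ← pow_add, Nat.add_sub_cancel' hD.le]

/-- comparable powers have comparable exponents -/
private theorem PEA_cmp {p : ℕ} (hp : 1 < p) {x y K : ℕ} (h : p ^ x ≤ K * p ^ y) : x ≤ y + K := by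
  by_contra h1
  obtain ⟨t, rfl⟩ := Nat.exists_eq_add_of_lt (not_le.1 h1)
  have h2 : p ^ (y + K + t + 1) = p ^ (K + t + 1) * p ^ y := by
    rw [← pow_add]
    congr 1
    omega
  rw [h2] at h
  have h3 : p ^ (K + t + 1) ≤ K := Nat.le_of_mul_le_mul_right h (pow_pos (by omega) _)
  have h4 : K + t + 1 < p ^ (K + t + 1) := Nat.lt_pow_self hp
  omega

/-- [PEA] local zero sets, types `E`, `I` -/
theorem thm_PEA (hPWB : ETD.St_PWB) (hPWP : ETD.St_PWP) (hFRO : ETD.St_FRO) (hACO : St_ACO)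
    (hDGC : St_DGC) (hDGZ : St_DGZ) (hMPR : St_MPR) (hFC2 : St_FC2) (hBLN : St_BLN)
    (hEI4 : St_EI4) (hEI5 : St_EI5) : St_PEA := by
  intro k _ _ p _ _ a ha ha1 B z hz hz0 β M H
  have hp : p.Prime := Fact.out
  have hp1 : 1 < p := hp.one_lt
  obtain ⟨e, he⟩ := exists_Od (sub_ne_zero.2 ha1)
  have he0 : 0 < e := he.pos ha
  obtain ⟨d, hd⟩ := exists_Od hz0
  have hd0 : 0 < d := hd.pos hz
  obtain ⟨hA1, hA2, hA3, hA4⟩ := hACO k p B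
  -- the points
  let w0 : ℕ → k⟦X⟧ := fun n => pw p a ((n : ℤ_[p]) - β) - 1
  let w1 : ℕ → k⟦X⟧ := fun n => (B.f p)^[n] z
  have hdec : ∀ n : ℕ, (n : ℤ_[p]) ≠ β → ∃ (j : ℕ) (γ : ℤ_[p]), IsUnit γ ∧
      (n : ℤ_[p]) - β = (p : ℤ_[p]) ^ j * γ := by
    intro n hn
    have h1 : (n : ℤ_[p]) - β ≠ 0 := sub_ne_zero.2 hn
    refine ⟨((n : ℤ_[p]) - β).valuation, (PadicInt.unitCoeff h1 : ℤ_[p]), Units.isUnit _, ?_⟩
    rw [mul_comm]
    exact PadicInt.unitCoeff_spec h1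
  have ho0 : ∀ (n j : ℕ) (γ : ℤ_[p]), IsUnit γ → (n : ℤ_[p]) - β = (p : ℤ_[p]) ^ j * γ →
      Od (w0 n) (e * p ^ j) := by
    intro n j γ hγ hn
    obtain ⟨η, hη, h1⟩ := he
    obtain ⟨w, hw, h2⟩ := (hPWP k p a ha).2 e η he0 hη h1 j γ hγ
    refine ⟨w, hw, ?_⟩
    show pw p a ((n : ℤ_[p]) - β) - 1 = _
    rw [hn]
    exact h2
  have ho1 : ∀ n : ℕ, Od (w1 n) (d * p ^ (B.u * n)) := by
    intro n
    have h1 := hA3 n 1 z d isUnit_one hd0 hd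
    rw [mul_one, hA1 n z hz] at h1
    exact h1
  have hE0 : ∀ (n j : ℕ) (γ : ℤ_[p]), (n : ℤ_[p]) - β = (p : ℤ_[p]) ^ j * γ →
      Ex (p ^ j) (w0 n) := by
    intro n j γ hn
    have h1 : w0 n = (pw p a γ - 1) ^ p ^ j := by
      show pw p a ((n : ℤ_[p]) - β) - 1 = _
      rw [hn, (hPWP k p a ha).1 j γ]
      have : CharP k⟦X⟧ p := charP_of_injective_algebraMap (algebraMap k k⟦X⟧).injective p
      rw [sub_pow_char_pow, one_pow]
    rw [h1]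
    exact ex_pow p j ((hPWB k p a ha).2.2.1 γ)
  have hE1 : ∀ n : ℕ, Ex (p ^ (B.u * n)) (w1 n) := by
    intro n
    have h1 := hA2 n 1 z hz
    rw [mul_one, hA1 n z hz] at h1
    exact h1
  have hu : 0 < B.u := B.hu
  have hun : ∀ n : ℕ, n ≤ B.u * n := fun n => Nat.le_mul_of_pos_left n hu
  have hpj : ∀ (c j : ℕ), 0 < c → j < c * p ^ j := fun c j hc =>
    lt_of_lt_of_le (Nat.lt_pow_self hp1) (Nat.le_mul_of_pos_left _ hc)
  -- existence of the small points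
  have hex : ∀ C₀ : ℕ, ∃ J₀ : ℕ, ∀ n : ℕ, (p : ℤ_[p]) ^ J₀ ∣ (n : ℤ_[p]) - β →
      (n : ℤ_[p]) ≠ β → ∀ (j : ℕ) (γ : ℤ_[p]), IsUnit γ →
      (n : ℤ_[p]) - β = (p : ℤ_[p]) ^ j * γ → C₀ ≤ j ∧ C₀ ≤ n := by
    intro C₀
    obtain ⟨J₀, hJ₀⟩ := hBLN p β C₀
    refine ⟨max J₀ C₀, fun n hn hn1 j γ hγ hnj => ⟨?_, ?_⟩⟩
    · exact (le_max_right _ _).trans (PEA_dvd hγ hnj hn)
    · exact hJ₀ n ((pow_dvd_pow _ (le_max_left _ _)).trans hn) hn1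
  obtain ⟨J₁, hJ₁⟩ := hex (M + 1)
  have hP1 : ∀ J : ℕ, J₁ ≤ J → ∀ n : ℕ, (p : ℤ_[p]) ^ J ∣ (n : ℤ_[p]) - β →
      (n : ℤ_[p]) ≠ β → ∃ ζ : Fin 2 → k⟦X⟧, Sm ζ ∧
        X ^ M * ζ 0 = pw p a ((n : ℤ_[p]) - β) - 1 ∧ X ^ M * ζ 1 = (B.f p)^[n] z := by
    intro J hJ n hn hn1
    obtain ⟨j, γ, hγ, hnj⟩ := hdec n hn1
    obtain ⟨h1, h2⟩ := hJ₁ n ((pow_dvd_pow _ hJ).trans hn) hn1 j γ hγ hnj
    have h3 : M < e * p ^ j := by
      have := hpj e j he0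
      omega
    have h4 : M < d * p ^ (B.u * n) := by
      have := hpj d (B.u * n) hd0
      have := hun n
      omega
    obtain ⟨ζ0, h5, h6⟩ := PEA_ex (ho0 n j γ hγ hnj) h3
    obtain ⟨ζ1, h7, h8⟩ := PEA_ex (ho1 n) h4
    refine ⟨![ζ0, ζ1], ?_, h6, h8⟩
    intro i
    fin_cases i
    · exact h5
    · exact h7
  by_cases hH : H = 0
  · refine ⟨J₁, hP1 J₁ le_rfl, Or.inl ?_⟩
    intro n ζ _ _ hζ _ _
    rw [hH]
    exact e_zero hζ.cons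
  by_contra hcon
  push Not at hcon
  -- many zeros
  have hz1 : ∀ J : ℕ, ∃ (n : ℕ) (ζ : Fin 2 → k⟦X⟧), (p : ℤ_[p]) ^ J ∣ (n : ℤ_[p]) - β ∧
      (n : ℤ_[p]) ≠ β ∧ Sm ζ ∧ X ^ M * ζ 0 = w0 n ∧ X ^ M * ζ 1 = w1 n ∧ ec ζ H = 0 := by
    intro J
    obtain ⟨_, n, ζ, h1, h2, h3, h4, h5, h6⟩ := hcon (max J J₁) (hP1 _ (le_max_right _ _))
    exact ⟨n, ζ, (pow_dvd_pow _ (le_max_left _ _)).trans h1, h2, h3, h4, h5, h6⟩
  obtain ⟨C, hC⟩ := hFC2 k H hH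
  obtain ⟨q₀, hq₀⟩ := hDGC k 2 M H
  have hdI : ∃ F ∈ dI M H, F ≠ 0 := by
    by_contra h1
    push Not at h1
    exact hH (hDGZ k 2 M H h1)
  obtain ⟨Q, hQfin, hQ1, hQ2⟩ := hMPR k (dI M H) hdI
  obtain ⟨s, hs⟩ := hFRO k p
  obtain ⟨J₂, hJ₂⟩ := hex (M + 1 + C + q₀)
  let N : Set ℕ := {n | (p : ℤ_[p]) ^ J₂ ∣ (n : ℤ_[p]) - β ∧ (n : ℤ_[p]) ≠ β ∧
    ∃ ζ : Fin 2 → k⟦X⟧, Sm ζ ∧ X ^ M * ζ 0 = w0 n ∧ X ^ M * ζ 1 = w1 n ∧ ec ζ H = 0}
  have hNinf : N.Infinite := by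
    intro hfin
    obtain ⟨L, hL⟩ := hfin.bddAbove
    obtain ⟨J₃, hJ₃⟩ := hBLN p β (L + 1)
    obtain ⟨n, ζ, h1, h2, h3, h4, h5, h6⟩ := hz1 (max J₂ J₃)
    have h7 : n ∈ N := ⟨(pow_dvd_pow _ (le_max_left _ _)).trans h1, h2, ζ, h3, h4, h5, h6⟩
    have h8 := hL h7
    have h9 := hJ₃ n ((pow_dvd_pow _ (le_max_right _ _)).trans h1) h2
    omega
  let C₁ : ℕ := C * d + C * e + M
  have hdata : ∀ n : N, ∃ (j : ℕ) (γ : ℤ_[p]), IsUnit γ ∧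
      ((n : ℕ) : ℤ_[p]) - β = (p : ℤ_[p]) ^ j * γ ∧ j ≤ B.u * n + C₁ ∧ B.u * n ≤ j + C₁ ∧
      kr ![w0 n, w1 n] ∈ Q := by
    rintro ⟨n, hn, hn1, ζ, hζ, hζ0, hζ1, hζH⟩
    obtain ⟨j, γ, hγ, hnj⟩ := hdec n hn1
    obtain ⟨h1, h2⟩ := hJ₂ n hn hn1 j γ hγ hnj
    have h3 := hpj e j he0
    have h4 := hpj d (B.u * n) hd0
    have h5 := hun n
    have h6 : Od (ζ 0) (e * p ^ j - M) := PEA_div (ho0 n j γ hγ hnj) (by omega) hζ0
    have h7 : Od (ζ 1) (d * p ^ (B.u * n) - M) := PEA_div (ho1 n) (by omega) hζ1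
    have h8 : ![ζ 0, ζ 1] = ζ := by
      funext i
      fin_cases i <;> rfl
    obtain ⟨h9, h10⟩ := hC (ζ 0) (ζ 1) _ _ h6 h7 (by omega) (by omega) (by rw [h8]; exact hζH)
    refine ⟨j, γ, hγ, hnj, ?_, ?_, ?_⟩
    · -- `p ^ j ≤ (C d + M) p ^ (u n)`
      have h11 : p ^ j ≤ (C * d + M) * p ^ (B.u * n) := by
        have h12 : p ^ j ≤ e * p ^ j := Nat.le_mul_of_pos_left _ he0
        have h13 : C * (d * p ^ (B.u * n) - M) ≤ C * (d * p ^ (B.u * n)) :=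
          Nat.mul_le_mul_left _ (Nat.sub_le _ _)
        have h14 : M ≤ M * p ^ (B.u * n) := Nat.le_mul_of_pos_right _ (pow_pos hp.pos _)
        calc p ^ j ≤ C * (d * p ^ (B.u * n)) + M := by omega
          _ ≤ C * (d * p ^ (B.u * n)) + M * p ^ (B.u * n) := by omega
          _ = (C * d + M) * p ^ (B.u * n) := by ring
      have h15 := PEA_cmp hp1 h11
      show j ≤ B.u * n + (C * d + C * e + M)
      omega
    · have h11 : p ^ (B.u * n) ≤ (C * e + M) * p ^ j := by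
        have h12 : p ^ (B.u * n) ≤ d * p ^ (B.u * n) := Nat.le_mul_of_pos_left _ hd0
        have h13 : C * (e * p ^ j - M) ≤ C * (e * p ^ j) :=
          Nat.mul_le_mul_left _ (Nat.sub_le _ _)
        have h14 : M ≤ M * p ^ j := Nat.le_mul_of_pos_right _ (pow_pos hp.pos _)
        calc p ^ (B.u * n) ≤ C * (e * p ^ j) + M := by omega
          _ ≤ C * (e * p ^ j) + M * p ^ j := by omega
          _ = (C * e + M) * p ^ j := by ring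
      have h15 := PEA_cmp hp1 h11
      show B.u * n ≤ j + (C * d + C * e + M)
      omega
    · have hSm : Sm ![w0 n, w1 n] := by
        intro i
        fin_cases i
        · show X ∣ w0 n
          rw [← hζ0]
          exact (hζ 0).mul_left _
        · show X ∣ w1 n
          rw [← hζ1]
          exact (hζ 1).mul_left _
      rw [← hQ2 ![w0 n, w1 n] hSm ⟨0, (ho0 n j γ hγ hnj).ne_zero⟩]
      have hq : q₀ ≤ p ^ min j (B.u * n) := by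
        have h16 : min j (B.u * n) < p ^ min j (B.u * n) := Nat.lt_pow_self hp1
        omega
      refine (hq₀ _ hq ![w0 n, w1 n] ζ hζ ?_ ?_).1 hζH
      · intro i
        fin_cases i
        · exact hζ0
        · exact hζ1
      · intro i
        fin_cases i
        · show Ex _ (w0 n)
          have h17 := hE0 n j γ hnj
          obtain ⟨t, ht⟩ := Nat.exists_eq_add_of_le (min_le_left j (B.u * n))
          have h18 : p ^ j = p ^ min j (B.u * n) * p ^ t := by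
            rw [← pow_add, ← ht]
          rw [h18] at h17
          exact h17.mono
        · show Ex _ (w1 n)
          have h17 := hE1 n
          obtain ⟨t, ht⟩ := Nat.exists_eq_add_of_le (min_le_right j (B.u * n))
          have h18 : p ^ (B.u * n) = p ^ min j (B.u * n) * p ^ t := by
            rw [← pow_add, ← ht]
          rw [h18] at h17
          exact h17.mono
  choose jj γγ hγu hγe hj1 hj2 hkr using hdata
  -- colours
  have : Infinite N := hNinf.to_subtype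
  have : Finite Q := hQfin.to_subtype
  have : NeZero (p ^ 2) := ⟨pow_ne_zero _ hp.ne_zero⟩
  let col : N → Fin (2 * C₁ + 1) × Q × Fin s × ZMod (p ^ 2) := fun n =>
    (⟨jj n + C₁ - B.u * n, by have := hj1 n; have := hj2 n; omega⟩, ⟨_, hkr n⟩,
      ⟨(n : ℕ) % s, Nat.mod_lt _ hs.1⟩, PadicInt.toZModPow 2 (γγ n))
  obtain ⟨c, hc⟩ := Finite.exists_infinite_fiber col
  have hF : ((fun n : N => (n : ℕ)) '' (col ⁻¹' {c})).Infinite :=
    (Set.infinite_coe_iff.1 hc).image (Subtype.val_injective.injOn)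
  obtain ⟨n₁, hn₁⟩ := hF.nonempty
  obtain ⟨n₂, hn₂, h12⟩ := hF.exists_gt n₁
  obtain ⟨n₃, hn₃, h23⟩ := hF.exists_gt n₂
  obtain ⟨m₁, hm₁, rfl⟩ := hn₁
  obtain ⟨m₂, hm₂, rfl⟩ := hn₂
  obtain ⟨m₃, hm₃, rfl⟩ := hn₃
  have key : ∀ m m' : N, col m = c → col m' = c → (m : ℕ) < (m' : ℕ) →
      γγ m = γγ m' ∧ jj m' = jj m + B.u * ((m' : ℕ) - (m : ℕ)) := by
    intro m m' hm hm' hlt
    have h1 : col m = col m' := hm.trans hm'.symm
    have h2 : jj m + C₁ - B.u * m = jj m' + C₁ - B.u * m' :=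
      congrArg (fun t : Fin (2 * C₁ + 1) × Q × Fin s × ZMod (p ^ 2) => (t.1 : ℕ)) h1
    have h3 : kr ![w0 m, w1 m] = kr ![w0 m', w1 m'] :=
      congrArg (fun t : Fin (2 * C₁ + 1) × Q × Fin s × ZMod (p ^ 2) => (t.2.1 : Set (MvPowerSeries (Fin 2) k))) h1
    have h4 : (m : ℕ) % s = (m' : ℕ) % s :=
      congrArg (fun t : Fin (2 * C₁ + 1) × Q × Fin s × ZMod (p ^ 2) => (t.2.2.1 : ℕ)) h1
    have h5 : PadicInt.toZModPow 2 (γγ m) = PadicInt.toZModPow 2 (γγ m') :=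
      congrArg (fun t : Fin (2 * C₁ + 1) × Q × Fin s × ZMod (p ^ 2) => t.2.2.2) h1
    have h6 := hj2 m
    have h7 := hj2 m'
    have h8 : B.u * ((m' : ℕ) - (m : ℕ)) = B.u * m' - B.u * m := Nat.mul_sub _ _ _
    have h8' : B.u * (m : ℕ) ≤ B.u * m' := Nat.mul_le_mul_left _ hlt.le
    have h9 : jj m' = jj m + B.u * ((m' : ℕ) - (m : ℕ)) := by
      omega
    refine ⟨?_, h9⟩
    have h10 : s ∣ (m' : ℕ) - (m : ℕ) := (Nat.modEq_iff_dvd' hlt.le).1 h4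
    have h11 : (p : ℤ_[p]) ^ 2 ∣ γγ m' - γγ m := by
      have h12 : γγ m' - γγ m ∈ RingHom.ker (PadicInt.toZModPow (p := p) 2) := by
        rw [RingHom.mem_ker, map_sub, h5, sub_self]
      rw [PadicInt.ker_toZModPow, Ideal.mem_span_singleton] at h12
      exact h12
    refine hEI5 k p s hs a ha ha1 B z hz hz0 β (γγ m) (γγ m') m m' (jj m) hlt h10 (hγu m)
      (hγu m') h11 (hγe m) ?_ ?_ ?_
    · rw [← h9]
      exact hγe m'
    · exact hQ1 _ (hkr m)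
    · exact h3.symm
  obtain ⟨k1, k2⟩ := key m₁ m₂ hm₁ hm₂ h12
  obtain ⟨k3, k4⟩ := key m₁ m₃ hm₁ hm₃ (h12.trans h23)
  refine hEI4 p B.u β (γγ m₁) m₁ m₂ m₃ (jj m₁) hu h12 h23 (hγe m₁) ?_ ?_
  · rw [← k2, k1]
    exact hγe m₂
  · rw [← k4, k3]
    exact hγe m₃

end ETA
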