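import Pool.Agent.ETA.StC

/-!
# ETA, module PEI: types `E`, `I`
-/

set_option autoImplicit false
set_option linter.unusedVariables false

namespace ETA

open PowerSeries ETD

private theorem PEI_f0 {k : Type} [Field k] (p : ℕ) [Fact p.Prime] (B : Op k) (n : ℕ) :
    (B.f p)^[n] (0 : k⟦X⟧) = 0 := by
  apply Function.iterate_fixed
  unfold Op.f ad
  apply Finset.sum_eq_zero
  intro i _
  rw [zero_pow (pow_ne_zero _ (Fact.out : p.Prime).ne_zero), mul_zero]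

theorem thm_PEI (hLOC : ETD.St_LOC) (hLOI : St_LOI) (hHHH : ETD.St_HHH) (hPEA : St_PEA)
    (hSUN : ETD.St_SUN) (hCPT : ETD.St_CPT) (hPRE : ETD.St_PRE) (hBLL : St_BLL)
    (hRMV : St_RMV) : St_PEI := by
  intro k _ _ p _ _ x y hx hy h
  obtain ⟨α, a, E, hL, ha1, hxn⟩ := hx
  obtain ⟨B, z, hz, hB⟩ := hLOI k p y hy
  obtain rfl : x = fun n => (ph p α a E)^[n] 0 := funext hxn
  by_cases hz0 : z = 0
  · obtain ⟨ρ, hρ⟩ := hB 0
    have hc : ∀ n, y n = ec ![0] ρ := by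
      intro n
      apply hρ n 0 (dvd_zero _)
      rw [hz0, PEI_f0, mul_zero]
    exact hPRE k⟦X⟧ p (ph p α a E) 0 y 0 1 one_pos (fun n _ => by rw [hc, hc]) h
  apply hCPT
  intro β
  obtain ⟨J', M₀, hM⟩ := hLOC k p α a E hL ha1 0 (dvd_zero _) β
  obtain ⟨ρ0, h0⟩ := hM M₀ le_rfl
  obtain ⟨ρ1, h1⟩ := hB M₀
  obtain ⟨H, hH⟩ := hHHH k ρ0 ρ1 h
  obtain ⟨J, hex, hdich⟩ := hPEA k p a hL.ha ha1 B z hz hz0 β M₀ H
  have hJ : (p : ℤ_[p]) ^ J ∣ (p : ℤ_[p]) ^ max J J' := pow_dvd_pow _ (le_max_left _ _)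
  have hJ' : (p : ℤ_[p]) ^ J' ∣ (p : ℤ_[p]) ^ max J J' := pow_dvd_pow _ (le_max_right _ _)
  -- the value of the polynomial
  have hval : ∀ (n : ℕ) (ζ : Fin 2 → k⟦X⟧), (p : ℤ_[p]) ^ max J J' ∣ (n : ℤ_[p]) - β → Sm ζ →
      X ^ M₀ * ζ 0 = pw p a ((n : ℤ_[p]) - β) - 1 → X ^ M₀ * ζ 1 = (B.f p)^[n] z →
      MvPolynomial.eval ![(ph p α a E)^[n] 0, y n] h = ec ζ H := by
    intro n ζ hn hζ e0 e1
    rw [h0 n (ζ 0) (hJ'.trans hn) (hζ 0) e0, h1 n (ζ 1) (hζ 1) e1]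
    exact hH ζ hζ
  refine ⟨max J J', ?_⟩
  -- the point n = β
  have hfin : {n : ℕ | (n : ℤ_[p]) = β}.Finite := by
    apply Set.Subsingleton.finite
    intro n hn m hm
    have h2 : (n : ℤ_[p]) = (m : ℤ_[p]) := Eq.trans hn (Eq.symm hm)
    exact_mod_cast h2
  rcases hdich with hall | hnone
  · by_cases hb : ∃ b : ℕ, (b : ℤ_[p]) = β ∧
        MvPolynomial.eval ![(ph p α a E)^[b] 0, y b] h ≠ 0
    · obtain ⟨b, hb, hbn⟩ := hb
      have h3 := hRMV p _ b (hBLL p β (max J J'))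
      have h4 : {n : ℕ | n ∈ {n : ℕ | MvPolynomial.eval ![(ph p α a E)^[n] 0, y n] h = 0} ∧
          (p : ℤ_[p]) ^ max J J' ∣ (n : ℤ_[p]) - β} =
          {n : ℕ | (p : ℤ_[p]) ^ max J J' ∣ (n : ℤ_[p]) - β} \ {b} := by
        ext n
        constructor
        · rintro ⟨h5, h6⟩
          refine ⟨h6, ?_⟩
          rintro rfl
          exact hbn h5
        · rintro ⟨h5, h6⟩
          refine ⟨?_, h5⟩
          have h7 : (n : ℤ_[p]) ≠ β := by
            intro h8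
            apply h6
            rw [← hb] at h8
            exact_mod_cast h8
          obtain ⟨ζ, hζ, e0, e1⟩ := hex n (hJ.trans h5) h7
          show MvPolynomial.eval _ h = 0
          rw [hval n ζ h5 hζ e0 e1]
          exact hall n ζ (hJ.trans h5) h7 hζ e0 e1
      rw [h4]
      exact h3
    · push Not at hb
      have h4 : {n : ℕ | n ∈ {n : ℕ | MvPolynomial.eval ![(ph p α a E)^[n] 0, y n] h = 0} ∧
          (p : ℤ_[p]) ^ max J J' ∣ (n : ℤ_[p]) - β} =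
          {n : ℕ | (p : ℤ_[p]) ^ max J J' ∣ (n : ℤ_[p]) - β} := by
        ext n
        constructor
        · rintro ⟨h5, h6⟩
          exact h6
        · intro h5
          refine ⟨?_, h5⟩
          by_cases h7 : (n : ℤ_[p]) = β
          · exact hb n h7
          obtain ⟨ζ, hζ, e0, e1⟩ := hex n (hJ.trans h5) h7
          show MvPolynomial.eval _ h = 0
          rw [hval n ζ h5 hζ e0 e1]
          exact hall n ζ (hJ.trans h5) h7 hζ e0 e1
      rw [h4]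
      exact hBLL p β _
  · apply (hSUN p).1
    refine hfin.subset ?_
    rintro n ⟨h5, h6⟩
    by_contra h7
    obtain ⟨ζ, hζ, e0, e1⟩ := hex n (hJ.trans h6) h7
    have h8 : MvPolynomial.eval ![(ph p α a E)^[n] 0, y n] h = 0 := h5
    rw [hval n ζ h6 hζ e0 e1] at h8
    exact hnone n ζ (hJ.trans h6) h7 hζ e0 e1 h8

end ETA
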