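import Pool.Agent.ETA.StC

/-!
# ETA, module PIA: zero sets, types `I`, `I`
-/

set_option autoImplicit false
set_option linter.unusedVariables false

namespace ETA

open PowerSeries ETD

private theorem pia_union (hSUN : ETD.St_SUN) (p : ℕ) {α : Type} (Q : Set α) (hQ : Q.Finite)
    (Z : α → Set ℕ) (hZ : ∀ P ∈ Q, PSet p (Z P)) : PSet p {n | ∃ P ∈ Q, n ∈ Z P} := by
  obtain ⟨h1, h2, -⟩ := hSUN p
  induction Q, hQ using Set.Finite.induction_on with
  | empty =>
    refine h1 _ ?_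
    have : {n | ∃ P ∈ (∅ : Set α), n ∈ Z P} = ∅ := by
      ext n
      simp
    rw [this]
    exact Set.finite_empty
  | @insert a s ha hs ih =>
    have h3 : {n | ∃ P ∈ insert a s, n ∈ Z P} = Z a ∪ {n | ∃ P ∈ s, n ∈ Z P} := by
      ext n
      simp
    rw [h3]
    exact h2 _ _ (hZ a (Set.mem_insert _ _)) (ih fun P hP => hZ P (Set.mem_insert_of_mem _ hP))

private theorem pia_lt (p : ℕ) [Fact p.Prime] {u : ℕ} (hu : 0 < u) (n : ℕ) : n < p ^ (u * n) := by
  have h1 : n < p ^ n := Nat.lt_pow_self (Fact.out : p.Prime).one_lt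
  have h2 : p ^ n ≤ p ^ (u * n) :=
    Nat.pow_le_pow_right (Fact.out : p.Prime).pos (Nat.le_mul_of_pos_left n hu)
  exact h1.trans_le h2

private theorem pia_cmp (p : ℕ) [Fact p.Prime] {u v : ℕ} (huv : u < v) (c d d' n : ℕ)
    (hd' : 0 < d') (h : d' * p ^ (v * n) ≤ c * (d * p ^ (u * n))) : n < c * d + 1 := by
  have hp : 0 < p := (Fact.out : p.Prime).pos
  obtain ⟨j, rfl⟩ := Nat.exists_eq_add_of_lt huv
  have h1 : (u + j + 1) * n = u * n + (j + 1) * n := by ring
  rw [h1, pow_add] at h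
  have h2 : p ^ (u * n) * (d' * p ^ ((j + 1) * n)) ≤ p ^ (u * n) * (c * d) := by
    calc p ^ (u * n) * (d' * p ^ ((j + 1) * n)) = d' * (p ^ (u * n) * p ^ ((j + 1) * n)) := by ring
      _ ≤ c * (d * p ^ (u * n)) := h
      _ = p ^ (u * n) * (c * d) := by ring
  have h3 := Nat.le_of_mul_le_mul_left h2 (pow_pos hp _)
  have h4 : n < p ^ ((j + 1) * n) := pia_lt p (Nat.succ_pos j) n
  have h5 : p ^ ((j + 1) * n) ≤ d' * p ^ ((j + 1) * n) := Nat.le_mul_of_pos_left _ hd'
  omega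

theorem thm_PIA (hACT : St_ACT) (hACO : St_ACO) (hACS : St_ACS) (hDGC : St_DGC) (hDGZ : St_DGZ)
    (hMPR : St_MPR) (hFC2 : St_FC2) (hEVP : St_EVP) (hSUN : ETD.St_SUN) : St_PIA := by
  intro k _ p _ _ B z hz hz0 H
  have hp1 : 1 < p := (Fact.out : p.Prime).one_lt
  -- the points
  obtain ⟨A, hA⟩ : ∃ A : ℕ → Fin 2 → k⟦X⟧, ∀ n i, A n i = ((B i).f p)^[n] (z i) :=
    ⟨fun n i => ((B i).f p)^[n] (z i), fun n i => rfl⟩
  have hA' : ∀ n, (fun i => ((B i).f p)^[n] (z i)) = A n := fun n => (funext fun i => hA n i).symm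
  simp only [hA']
  have hact : ∀ n i, A n i = act p (B i) (X ^ n) (z i) := fun n i => by
    rw [hA, (hACO k p (B i)).1 n (z i) (hz i)]
  have hSm : ∀ n, Sm (A n) := fun n i => by
    rw [hact]
    exact (hACT k p (B i)).2.2.2.2.2.2.1 _ _ (hz i)
  have hEx : ∀ n i, Ex (p ^ ((B i).u * n)) (A n i) := fun n i => by
    have := (hACO k p (B i)).2.1 n 1 (z i) (hz i)
    rwa [mul_one, ← hact] at this
  have hd : ∃ d : Fin 2 → ℕ, ∀ i, 0 < d i ∧ Od (z i) (d i) := by
    have h1 : ∀ i, ∃ d, 0 < d ∧ Od (z i) d := fun i => by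
      obtain ⟨d, hd⟩ := exists_Od (hz0 i)
      exact ⟨d, hd.pos (hz i), hd⟩
    exact ⟨fun i => (h1 i).choose, fun i => (h1 i).choose_spec⟩
  obtain ⟨d, hd⟩ := hd
  have hOd : ∀ n i, Od (A n i) (d i * p ^ ((B i).u * n)) := fun n i => by
    have := (hACO k p (B i)).2.2.1 n 1 (z i) (d i) isUnit_one (hd i).1 (hd i).2
    rwa [mul_one, ← hact] at this
  have hshift : ∀ m n i, act p (B i) (X ^ m) (A n i) = A (m + n) i := fun m n i => by
    rw [(hACO k p (B i)).1 m _ (hSm n i), hA, hA, Function.iterate_add_apply]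
  by_cases hH : H = 0
  · -- everything
    have h1 : ∀ n, ec (A n) H = 0 := fun n => by
      rw [hH, ec, e_zero (hSm n).cons]
    exact hEVP p _ 0 1 one_pos fun n _ => by
      simp only [Set.mem_ofPred_eq, h1]
  obtain ⟨c, hc⟩ := hFC2 k H hH
  have hvec : ∀ n, ![A n 0, A n 1] = A n := fun n => by
    ext1 i
    fin_cases i <;> rfl
  by_cases hu : (B 0).u = (B 1).u
  swap
  · -- different exponents
    refine (hSUN p).1 _ ((Set.finite_lt_nat (c * (d 0 + d 1) + c + 1)).subset ?_)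
    intro n hn
    rw [Set.mem_ofPred_eq] at hn
    show n < c * (d 0 + d 1) + c + 1
    by_contra hlt
    have hcn : c ≤ n := by
      have : c ≤ c * (d 0 + d 1) + c + 1 := by omega
      omega
    have hge : ∀ i, c ≤ d i * p ^ ((B i).u * n) := fun i => by
      have h1 := pia_lt p (B i).hu n
      have h2 : p ^ ((B i).u * n) ≤ d i * p ^ ((B i).u * n) := Nat.le_mul_of_pos_left _ (hd i).1
      omega
    have h3 := hc (A n 0) (A n 1) _ _ (hOd n 0) (hOd n 1) (hge 0) (hge 1) (by rw [hvec]; exact hn)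
    have h4 : c * (d 0 + d 1) = c * d 0 + c * d 1 := by ring
    rcases lt_or_gt_of_ne hu with h | h
    · have := pia_cmp p h c (d 0) (d 1) n (hd 1).1 h3.2
      omega
    · have := pia_cmp p h c (d 1) (d 0) n (hd 0).1 h3.1
      omega
  · -- equal exponents
    obtain ⟨q₀, hq₀⟩ := hDGC k 2 0 H
    have hF : ∃ F ∈ dI 0 H, F ≠ 0 := by
      by_contra hcon
      push Not at hcon
      exact hH (hDGZ k 2 0 H hcon)
    obtain ⟨𝒬, hfin, -, hQ⟩ := hMPR k (dI 0 H) hF
    have hne : ∀ n i, A n i ≠ 0 := fun n i => (hOd n i).ne_zero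
    have hmain : ∀ n, q₀ ≤ n → (ec (A n) H = 0 ↔ kr (A n) ∈ 𝒬) := fun n hn => by
      rw [hq₀ (p ^ ((B 0).u * n)) (hn.trans (pia_lt p (B 0).hu n).le) (A n) (A n) (hSm n)
        (fun i => by rw [pow_zero, one_mul]) (fun i => ?_)]
      · exact hQ (A n) (hSm n) ⟨0, hne n 0⟩
      · have := hEx n i
        fin_cases i
        · exact this
        · rw [hu]
          exact this
    have hset : {n : ℕ | ec (A n) H = 0} = ({n : ℕ | ec (A n) H = 0} ∩ {n | n < q₀}) ∪
        {n | ∃ P ∈ 𝒬, n ∈ {n | q₀ ≤ n ∧ kr (A n) = P}} := by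
      ext n
      simp only [Set.mem_union, Set.mem_inter_iff, Set.mem_ofPred_eq]
      constructor
      · intro hn
        by_cases hlt : n < q₀
        · exact Or.inl ⟨hn, hlt⟩
        · exact Or.inr ⟨_, (hmain n (not_lt.1 hlt)).1 hn, not_lt.1 hlt, rfl⟩
      · rintro (⟨hn, -⟩ | ⟨P, hP, hn, rfl⟩)
        · exact hn
        · exact (hmain n hn).2 hP
    rw [hset]
    refine (hSUN p).2.1 _ _ ((hSUN p).1 _ ((Set.finite_lt_nat q₀).subset Set.inter_subset_right))
      (pia_union hSUN p 𝒬 hfin _ fun P _ => ?_)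
    by_cases hsub : ({n | q₀ ≤ n ∧ kr (A n) = P} : Set ℕ).Subsingleton
    · exact (hSUN p).1 _ hsub.finite
    · have h2 : ∃ n₁ n₂ : ℕ, n₁ < n₂ ∧ (q₀ ≤ n₁ ∧ kr (A n₁) = P) ∧ kr (A n₂) = P := by
        rw [Set.not_subsingleton_iff] at hsub
        obtain ⟨a, ha, b, hb, hab⟩ := hsub
        rcases lt_or_gt_of_ne hab with h | h
        · exact ⟨a, b, h, ha, hb.2⟩
        · exact ⟨b, a, h, hb, ha.2⟩
      obtain ⟨n₁, n₂, h12, ⟨hn₁, hk₁⟩, hk₂⟩ := h2
      have hper : ∀ m, n₁ ≤ m → kr (A m) = kr (A (m + (n₂ - n₁))) := fun m hm => by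
        obtain ⟨G, hG0, hG⟩ := hACS k p B (fun _ => X ^ (m - n₁))
        have h3 := kr_comp (hSm n₁) (hSm n₂) G hG0 (hk₁.trans hk₂.symm)
        have h4 : (fun i => e (A n₁) (G i)) = A m := by
          ext1 i
          rw [hG _ (hSm n₁), hshift]
          congr 1
          omega
        have h5 : (fun i => e (A n₂) (G i)) = A (m + (n₂ - n₁)) := by
          ext1 i
          rw [hG _ (hSm n₂), hshift]
          congr 1
          omega
        rw [h4, h5] at h3
        exact h3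
      refine hEVP p _ n₁ (n₂ - n₁) (by omega) fun n hn => ?_
      simp only [Set.mem_ofPred_eq]
      rw [← hper n hn]
      constructor
      · rintro ⟨h3, h4⟩
        exact ⟨by omega, h4⟩
      · rintro ⟨h3, h4⟩
        exact ⟨by omega, h4⟩

end ETA
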