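import Pool.Agent.ETA.StC

/-!
# ETA, module PII: types `I`, `I`
-/

set_option autoImplicit false

namespace ETA

open PowerSeries ETD

private theorem PII_zero {k : Type} [Field k] (p : ℕ) [Fact p.Prime] (B : Op k) (n : ℕ) :
    (B.f p)^[n] (0 : k⟦X⟧) = 0 := by
  have h1 : B.f p (0 : k⟦X⟧) = 0 := by
    unfold Op.f ad
    refine Finset.sum_eq_zero fun i _ => ?_
    rw [zero_pow (pow_ne_zero _ (Fact.out : p.Prime).ne_zero), mul_zero]
  induction n with
  | zero => rfl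
  | succ n ih => rw [Function.iterate_succ_apply, h1, ih]

private theorem PII_swap {O : Type} [CommRing O] {p : ℕ} {x y : ℕ → O}
    (H : ∀ h : MvPolynomial (Fin 2) O, PSet p {n : ℕ | MvPolynomial.eval ![x n, y n] h = 0})
    (h : MvPolynomial (Fin 2) O) : PSet p {n : ℕ | MvPolynomial.eval ![y n, x n] h = 0} := by
  have h1 := H (MvPolynomial.rename (Equiv.swap (0 : Fin 2) 1) h)
  have h2 : ∀ n : ℕ, MvPolynomial.eval ![x n, y n] (MvPolynomial.rename (Equiv.swap (0 : Fin 2) 1) h)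
      = MvPolynomial.eval ![y n, x n] h := by
    intro n
    rw [MvPolynomial.eval_rename]
    congr 2
    funext i
    fin_cases i
    · simp
    · simp
  simp only [h2] at h1
  exact h1

/-- one of the two sequences is constant -/
private theorem PII_const (hPRE : ETD.St_PRE) {k : Type} [Field k] (p : ℕ)
    [Fact p.Prime] [CharP k p] (x y : ℕ → k⟦X⟧) (hx : TyI p x) (c : k⟦X⟧) (hy : ∀ n, y n = c)
    (h : MvPolynomial (Fin 2) k⟦X⟧) : PSet p {n : ℕ | MvPolynomial.eval ![x n, y n] h = 0} := by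
  obtain ⟨r, u, c, α, -, -, -, -, -, hxo⟩ := hx
  have := hPRE k⟦X⟧ p (fun w => α + ad p r c w) 0 y 0 1 one_pos
    (fun n _ => by rw [hy, hy]) h
  simp only [hxo]
  exact this

theorem thm_PII (hLOI : St_LOI) (hACT : St_ACT) (hACO : St_ACO) (hHHH : ETD.St_HHH)
    (hPIA : St_PIA) (hPRE : ETD.St_PRE) : St_PII := by
  intro k _ p _ _ x y hx hy h
  obtain ⟨B0, z0, hz0, h0⟩ := hLOI k p x hx
  obtain ⟨B1, z1, hz1, h1⟩ := hLOI k p y hy
  obtain ⟨ρ0, hρ0⟩ := h0 0
  obtain ⟨ρ1, hρ1⟩ := h1 0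
  by_cases hz1' : z1 = 0
  · refine PII_const hPRE p x y hx (ec ![0] ρ1) (fun n => ?_) h
    apply hρ1 n 0 (dvd_zero _)
    rw [hz1', PII_zero, mul_zero]
  by_cases hz0' : z0 = 0
  · refine PII_swap (fun h => PII_const hPRE p y x hy (ec ![0] ρ0) (fun n => ?_) h) h
    apply hρ0 n 0 (dvd_zero _)
    rw [hz0', PII_zero, mul_zero]
  obtain ⟨H, hH⟩ := hHHH k ρ0 ρ1 h
  have hsm : Sm ![z0, z1] := by
    intro i
    fin_cases i
    · exact hz0
    · exact hz1
  have hne : ∀ i, (![z0, z1] : Fin 2 → k⟦X⟧) i ≠ 0 := by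
    intro i
    fin_cases i
    · exact hz0'
    · exact hz1'
  have hJ := hPIA k p ![B0, B1] ![z0, z1] hsm hne H
  have key : ∀ n : ℕ, ec (fun i => ((![B0, B1] i).f p)^[n] (![z0, z1] i)) H =
      MvPolynomial.eval ![x n, y n] h := by
    intro n
    have hs : ∀ (B : Op k) (z : k⟦X⟧), X ∣ z → X ∣ (B.f p)^[n] z := by
      intro B z hz
      rw [← (hACO k p B).1 n z hz]
      exact (hACT k p B).2.2.2.2.2.2.1 _ _ hz
    have hζ : Sm (fun i => ((![B0, B1] i).f p)^[n] (![z0, z1] i)) := by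
      intro i
      fin_cases i
      · exact hs B0 z0 hz0
      · exact hs B1 z1 hz1
    rw [← hH _ hζ]
    have e0 : x n = ec ![(B0.f p)^[n] z0] ρ0 := by
      apply hρ0 n _ (hs B0 z0 hz0)
      rw [pow_zero, one_mul]
    have e1 : y n = ec ![(B1.f p)^[n] z1] ρ1 := by
      apply hρ1 n _ (hs B1 z1 hz1)
      rw [pow_zero, one_mul]
    rw [e0, e1]
    rfl
  simp only [key] at hJ
  exact hJ

end ETA
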