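import Pool.Agent.ETA.StC

/-!
# ETA, module PUI: types `U`, `I`
-/

set_option autoImplicit false

namespace ETA

open PowerSeries ETD

private theorem PUI_glue (hSUN : ETD.St_SUN) (p : ℕ) [Fact p.Prime] (β : ℤ_[p]) (R : Set ℕ) (J : ℕ)
    (h : PSet p {n : ℕ | (p : ℤ_[p]) ^ J ∣ (n : ℤ_[p]) - β ∧ (n : ℤ_[p]) ≠ β ∧ n ∈ R}) :
    PSet p {n : ℕ | n ∈ R ∧ (p : ℤ_[p]) ^ J ∣ (n : ℤ_[p]) - β} := by
  have hf : {n : ℕ | n ∈ R ∧ (p : ℤ_[p]) ^ J ∣ (n : ℤ_[p]) - β ∧ (n : ℤ_[p]) = β}.Finite := by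
    apply Set.Subsingleton.finite
    intro a ha b hb
    exact Nat.cast_injective (R := ℤ_[p]) (ha.2.2.trans hb.2.2.symm)
  have h1 := (hSUN p).2.1 _ _ h ((hSUN p).1 _ hf)
  convert h1 using 1
  ext n
  simp only [Set.mem_ofPred_eq, Set.mem_union]
  tauto

private theorem PUI_zero {k : Type} [Field k] (p : ℕ) [Fact p.Prime] (B : Op k) (n : ℕ) :
    (B.f p)^[n] (0 : k⟦X⟧) = 0 := by
  have h1 : B.f p (0 : k⟦X⟧) = 0 := by
    unfold Op.f ad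
    refine Finset.sum_eq_zero fun i _ => ?_
    rw [zero_pow (pow_ne_zero _ (Fact.out : p.Prime).ne_zero), mul_zero]
  induction n with
  | zero => rfl
  | succ n ih => rw [Function.iterate_succ_apply, h1, ih]

theorem thm_PUI (hLOU : St_LOU) (hLOI : St_LOI) (hACT : St_ACT) (hACO : St_ACO)
    (hHHH : ETD.St_HHH) (hUIA : St_UIA) (hSUN : ETD.St_SUN) (hCPT : ETD.St_CPT)
    (hPRE : ETD.St_PRE) : St_PUI := by
  intro k _ p _ _ x y hx hy h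
  obtain ⟨B0, h0⟩ := hLOU k p x hx
  obtain ⟨B1, z1, hz1, h1⟩ := hLOI k p y hy
  obtain ⟨ρ1, hρ1⟩ := h1 0
  by_cases hz : z1 = 0
  · obtain ⟨r, u, c, α, -, -, -, -, -, -, hxo⟩ := hx
    have hyc : ∀ n, y n = ec ![0] ρ1 := by
      intro n
      apply hρ1 n 0 (dvd_zero _)
      rw [hz, PUI_zero, mul_zero]
    have := hPRE k⟦X⟧ p (fun w => α + w + ad p r c w) 0 y 0 1 one_pos
      (fun n _ => by rw [hyc, hyc]) h
    simp only [hxo]
    exact this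
  refine hCPT p _ fun β => ?_
  obtain ⟨z0, hz0, hz0', r0⟩ := h0 β
  obtain ⟨ρ0, hρ0⟩ := r0 0
  obtain ⟨H, hH⟩ := hHHH k ρ0 ρ1 h
  have hsm : Sm ![z0, z1] := by
    intro i
    fin_cases i
    · exact hz0
    · exact hz1
  have hne : ∀ i, (![z0, z1] : Fin 2 → k⟦X⟧) i ≠ 0 := by
    intro i
    fin_cases i
    · exact hz0'
    · exact hz
  obtain ⟨J, hJ⟩ := hUIA k p ![B0, B1] ![z0, z1] β hsm hne H
  refine ⟨J, PUI_glue hSUN p β _ J ?_⟩
  have key : ∀ n : ℕ, ec ![act p (![B0, B1] 0) (fi p ((n : ℤ_[p]) - β)) (![z0, z1] 0),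
      ((![B0, B1] 1).f p)^[n] (![z0, z1] 1)] H = MvPolynomial.eval ![x n, y n] h := by
    intro n
    show ec ![act p B0 (fi p ((n : ℤ_[p]) - β)) z0, (B1.f p)^[n] z1] H = _
    have hs0 : X ∣ act p B0 (fi p ((n : ℤ_[p]) - β)) z0 := (hACT k p B0).2.2.2.2.2.2.1 _ _ hz0
    have hs1 : X ∣ (B1.f p)^[n] z1 := by
      rw [← (hACO k p B1).1 n z1 hz1]
      exact (hACT k p B1).2.2.2.2.2.2.1 _ _ hz1
    have hζ : Sm ![act p B0 (fi p ((n : ℤ_[p]) - β)) z0, (B1.f p)^[n] z1] := by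
      intro i
      fin_cases i
      · exact hs0
      · exact hs1
    rw [← hH _ hζ]
    have e0 : x n = ec ![act p B0 (fi p ((n : ℤ_[p]) - β)) z0] ρ0 := by
      apply hρ0 n _ hs0
      rw [pow_zero, one_mul]
    have e1 : y n = ec ![(B1.f p)^[n] z1] ρ1 := by
      apply hρ1 n _ hs1
      rw [pow_zero, one_mul]
    rw [e0, e1]
    rfl
  simp only [key] at hJ
  exact hJ

end ETA
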