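import Pool.Agent.ETA.StC

/-!
# ETA, module PUU: types `U`, `U`
-/

set_option autoImplicit false

namespace ETA

open PowerSeries ETD

private theorem PUU_glue (hSUN : ETD.St_SUN) (p : ℕ) [Fact p.Prime] (β : ℤ_[p]) (R : Set ℕ) (J : ℕ)
    (h : PSet p {n : ℕ | (p : ℤ_[p]) ^ J ∣ (n : ℤ_[p]) - β ∧ (n : ℤ_[p]) ≠ β ∧ n ∈ R}) :
    PSet p {n : ℕ | n ∈ R ∧ (p : ℤ_[p]) ^ J ∣ (n : ℤ_[p]) - β} := by
  have hf : {n : ℕ | n ∈ R ∧ (p : ℤ_[p]) ^ J ∣ (n : ℤ_[p]) - β ∧ (n : ℤ_[p]) = β}.Finite := by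
    apply Set.Subsingleton.finite
    intro a ha b hb
    exact Nat.cast_injective (R := ℤ_[p]) (ha.2.2.trans hb.2.2.symm)
  have h1 := (hSUN p).2.1 _ _ h ((hSUN p).1 _ hf)
  convert h1 using 1
  ext n
  simp only [Set.mem_ofPred_eq, Set.mem_union]
  tauto

theorem thm_PUU (hLOU : St_LOU) (hACT : St_ACT) (hHHH : ETD.St_HHH) (hPU2 : St_PU2)
    (hSUN : ETD.St_SUN) (hCPT : ETD.St_CPT) : St_PUU := by
  intro k _ p _ _ x y hx hy h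
  obtain ⟨B0, h0⟩ := hLOU k p x hx
  obtain ⟨B1, h1⟩ := hLOU k p y hy
  refine hCPT p _ fun β => ?_
  obtain ⟨z0, hz0, hz0', r0⟩ := h0 β
  obtain ⟨z1, hz1, hz1', r1⟩ := h1 β
  obtain ⟨ρ0, hρ0⟩ := r0 0
  obtain ⟨ρ1, hρ1⟩ := r1 0
  obtain ⟨H, hH⟩ := hHHH k ρ0 ρ1 h
  have hsm : Sm ![z0, z1] := by
    intro i
    fin_cases i
    · exact hz0
    · exact hz1
  have hne : ∀ i, (![z0, z1] : Fin 2 → k⟦X⟧) i ≠ 0 := by
    intro i
    fin_cases i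
    · exact hz0'
    · exact hz1'
  obtain ⟨J, hJ⟩ := hPU2 k p ![B0, B1] ![z0, z1] β hsm hne H
  refine ⟨J, PUU_glue hSUN p β _ J ?_⟩
  have key : ∀ n : ℕ, ec (pa p ![B0, B1] ![z0, z1] (fi p ((n : ℤ_[p]) - β))) H =
      MvPolynomial.eval ![x n, y n] h := by
    intro n
    have hζ : Sm (pa p ![B0, B1] ![z0, z1] (fi p ((n : ℤ_[p]) - β))) := by
      intro i
      fin_cases i
      · exact (hACT k p B0).2.2.2.2.2.2.1 _ _ hz0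
      · exact (hACT k p B1).2.2.2.2.2.2.1 _ _ hz1
    rw [← hH _ hζ]
    have e0 : x n = ec ![pa p ![B0, B1] ![z0, z1] (fi p ((n : ℤ_[p]) - β)) 0] ρ0 := by
      apply hρ0 n _ (hζ 0)
      rw [pow_zero, one_mul]
      rfl
    have e1 : y n = ec ![pa p ![B0, B1] ![z0, z1] (fi p ((n : ℤ_[p]) - β)) 1] ρ1 := by
      apply hρ1 n _ (hζ 1)
      rw [pow_zero, one_mul]
      rfl
    rw [← e0, ← e1]
  simp only [key] at hJ
  exact hJ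

end ETA
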