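import Pool.Agent.ETA.StA

/-!
# ETA: powers of powers (PWM)
-/

set_option autoImplicit false
set_option linter.unusedVariables false

namespace ETA

open PowerSeries ETD

private theorem PWM_eq_zero {k : Type} [Field k] (p : ℕ) [Fact p.Prime] {z : k⟦X⟧}
    (h : ∀ J : ℕ, X ^ (p ^ J) ∣ z) : z = 0 := by
  ext i
  have hp : 1 < p := (Fact.out : p.Prime).one_lt
  simpa using (X_pow_dvd_iff.1 (h i)) i (Nat.lt_pow_self hp)

theorem thm_PWM (h : ETD.St_PWB) : St_PWM := by
  intro k _ p _ _ a β γ ha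
  obtain ⟨hn, hadd, hX, hap⟩ := h k p a ha
  have h0 : pw p a (0 : ℤ_[p]) = 1 := by
    have := hn 0
    rwa [Nat.cast_zero, pow_zero] at this
  have hmul : ∀ n : ℕ, pw p a (β * (n : ℤ_[p])) = pw p a β ^ n := by
    intro n
    induction n with
    | zero => rw [Nat.cast_zero, mul_zero, h0, pow_zero]
    | succ n ih => rw [Nat.cast_succ, mul_add, mul_one, hadd, ih, pow_succ]
  obtain ⟨hn', hadd', hX', hap'⟩ := h k p (pw p a β) (hX β)
  rw [← sub_eq_zero]
  refine PWM_eq_zero p fun J => ?_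
  have hγ : (p : ℤ_[p]) ^ J ∣ γ - (γ.appr J : ℤ_[p]) :=
    Ideal.mem_span_singleton.1 (PadicInt.appr_spec J γ)
  have h1 := hap' 1 J γ (γ.appr J) (by simpa using hX β) hγ
  have h2 := hap 1 J (β * γ) (β * (γ.appr J : ℤ_[p])) (by simpa using ha) (by
    rw [← mul_sub]
    exact hγ.mul_left _)
  rw [hn', one_mul] at h1
  rw [hmul, one_mul] at h2
  have h3 := dvd_sub h1 h2
  rwa [sub_sub_sub_cancel_right] at h3

end ETA
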