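import Pool.Agent.ETA.StA

/-!
# ETA: powers as substitutions (PWS)
-/

set_option autoImplicit false
set_option linter.unusedVariables false

namespace ETA

open PowerSeries ETD

private theorem PWS_eq_zero {k : Type} [Field k] (p : ℕ) [Fact p.Prime] {z : k⟦X⟧}
    (h : ∀ J : ℕ, X ^ (p ^ J) ∣ z) : z = 0 := by
  ext i
  have hp : 1 < p := (Fact.out : p.Prime).one_lt
  simpa using (X_pow_dvd_iff.1 (h i)) i (Nat.lt_pow_self hp)

private theorem PWS_approx (h : ETD.St_PWB) {k : Type} [Field k] (p : ℕ) [Fact p.Prime] [CharP k p]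
    (a : k⟦X⟧) (ha : X ∣ a - 1) (β : ℤ_[p]) (J : ℕ) :
    X ^ (p ^ J) ∣ pw p a β - a ^ β.appr J := by
  have hβ : (p : ℤ_[p]) ^ J ∣ β - (β.appr J : ℤ_[p]) :=
    Ideal.mem_span_singleton.1 (PadicInt.appr_spec J β)
  have h1 := (h k p a ha).2.2.2 1 J β (β.appr J) (by simpa using ha) hβ
  rwa [(h k p a ha).1, one_mul] at h1

theorem thm_PWS (h : ETD.St_PWB) : St_PWS := by
  intro k _ p _ _ a δ ha
  have hs : PowerSeries.HasSubst (a - 1) :=
    PowerSeries.HasSubst.of_constantCoeff_zero (X_dvd_iff.1 ha)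
  have h0 : ∀ f : k⟦X⟧, PowerSeries.subst (a - 1) f = PowerSeries.substAlgHom hs f := fun f => by
    rw [PowerSeries.coe_substAlgHom]
  have hX : PowerSeries.substAlgHom hs (X : k⟦X⟧) = a - 1 := by
    rw [← h0, PowerSeries.subst_X hs]
  rw [← sub_eq_zero, h0]
  refine PWS_eq_zero p fun J => ?_
  have h1 := PWS_approx h p a ha δ J
  have h2 := PWS_approx h p (1 + X : k⟦X⟧) (by simp) δ J
  obtain ⟨w, hw⟩ := h2
  have h3 : PowerSeries.substAlgHom hs (pw p (1 + X : k⟦X⟧) δ) - a ^ δ.appr J =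
      (a - 1) ^ p ^ J * PowerSeries.substAlgHom hs w := by
    have h4 := congrArg (PowerSeries.substAlgHom hs) hw
    rw [map_sub, map_pow, map_add, map_one, hX, map_mul, map_pow, hX] at h4
    rw [← h4]
    congr 2
    ring
  have h5 : (X : k⟦X⟧) ^ p ^ J ∣ PowerSeries.substAlgHom hs (pw p (1 + X : k⟦X⟧) δ) -
      a ^ δ.appr J := by
    rw [h3]
    exact (pow_dvd_pow_of_dvd ha _).mul_right _
  have h6 := dvd_sub h1 h5
  rwa [sub_sub_sub_cancel_right] at h6

end ETA
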