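import Pool.Agent.ETA.StD

/-!
# ETA, module RE2: the theorem over `k⟦t⟧`, `k` finite
-/

set_option autoImplicit false
set_option linter.unusedVariables false

namespace ETA

open PowerSeries ETD

private theorem RE2_bind {R : Type} [CommRing R] (A b A' b' u v : R) (h : MvPolynomial (Fin 2) R) :
    MvPolynomial.eval ![u, v] (MvPolynomial.bind₁
      ![MvPolynomial.C A + MvPolynomial.C b * MvPolynomial.X 0,
        MvPolynomial.C A' + MvPolynomial.C b' * MvPolynomial.X 1] h) =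
      MvPolynomial.eval ![A + b * u, A' + b' * v] h := by
  have h1 := MvPolynomial.eval₂Hom_bind₁ (RingHom.id R) ![u, v]
    ![MvPolynomial.C A + MvPolynomial.C b * MvPolynomial.X 0,
        MvPolynomial.C A' + MvPolynomial.C b' * MvPolynomial.X 1] h
  have h2 : (fun i => MvPolynomial.eval₂Hom (RingHom.id R) ![u, v]
      ((![MvPolynomial.C A + MvPolynomial.C b * MvPolynomial.X 0,
        MvPolynomial.C A' + MvPolynomial.C b' * MvPolynomial.X 1] :
          Fin 2 → MvPolynomial (Fin 2) R) i)) = ![A + b * u, A' + b' * v] := by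
    funext i
    fin_cases i <;> simp
  rw [h2] at h1
  exact h1

theorem thm_RE2 (hD : St_DSK) (hT : St_TYP) (hA : ETD.St_SAF) (hU : ETD.St_SUN) : St_RE2 := by
  intro k _ _ p _ _ F G x y h hF hG
  obtain ⟨hfin, hun, -⟩ := hU p
  obtain ⟨n₁, N₁, hN₁, H₁⟩ := hD k p F x hF
  obtain ⟨n₂, N₂, hN₂, H₂⟩ := hD k p G y hG
  have hN : 0 < N₁ * N₂ := Nat.mul_pos hN₁ hN₂
  have key : ∀ r ≥ max n₁ n₂, PSet p {m : ℕ | MvPolynomial.eval
      ![F^[r + N₁ * N₂ * m] x, G^[r + N₁ * N₂ * m] y] h = 0} := by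
    intro r hr
    obtain ⟨A, b, x', hx', hx⟩ := H₁ (N₁ * N₂) hN (dvd_mul_right _ _) r
      (le_trans (le_max_left _ _) hr)
    obtain ⟨A', b', y', hy', hy⟩ := H₂ (N₁ * N₂) hN (dvd_mul_left _ _) r
      (le_trans (le_max_right _ _) hr)
    have h1 := hT k p x' y' hx' hy' (MvPolynomial.bind₁
      ![MvPolynomial.C A + MvPolynomial.C b * MvPolynomial.X 0,
        MvPolynomial.C A' + MvPolynomial.C b' * MvPolynomial.X 1] h)
    have h2 : {m : ℕ | MvPolynomial.eval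
        ![F^[r + N₁ * N₂ * m] x, G^[r + N₁ * N₂ * m] y] h = 0} =
        {n : ℕ | MvPolynomial.eval ![x' n, y' n] (MvPolynomial.bind₁
      ![MvPolynomial.C A + MvPolynomial.C b * MvPolynomial.X 0,
        MvPolynomial.C A' + MvPolynomial.C b' * MvPolynomial.X 1] h) = 0} := by
      ext n
      simp only [Set.mem_ofPred_eq]
      rw [RE2_bind, hx, hy]
    rw [h2]
    exact h1
  have main : ∀ M : ℕ, PSet p {n : ℕ | MvPolynomial.eval ![F^[n] x, G^[n] y] h = 0 ∧
      (n < max n₁ n₂ ∨ ∃ r < M, ∃ m : ℕ, n = (max n₁ n₂ + r) + N₁ * N₂ * m)} := by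
    intro M
    induction M with
    | zero =>
      refine hfin _ ((Set.finite_Iio (max n₁ n₂)).subset ?_)
      rintro n ⟨-, hn | ⟨r, hr, -⟩⟩
      · exact hn
      · exact absurd hr (Nat.not_lt_zero _)
    | succ M ih =>
      have h1 := hA p _ (key (max n₁ n₂ + M) (Nat.le_add_right _ _)) (N₁ * N₂)
        (max n₁ n₂ + M) hN
      have h2 := hun _ _ ih h1
      have h3 : {n : ℕ | MvPolynomial.eval ![F^[n] x, G^[n] y] h = 0 ∧
          (n < max n₁ n₂ ∨ ∃ r < M + 1, ∃ m : ℕ, n = (max n₁ n₂ + r) + N₁ * N₂ * m)} =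
          {n : ℕ | MvPolynomial.eval ![F^[n] x, G^[n] y] h = 0 ∧
          (n < max n₁ n₂ ∨ ∃ r < M, ∃ m : ℕ, n = (max n₁ n₂ + r) + N₁ * N₂ * m)} ∪
          (fun m => max n₁ n₂ + M + N₁ * N₂ * m) '' {m : ℕ | MvPolynomial.eval
            ![F^[max n₁ n₂ + M + N₁ * N₂ * m] x, G^[max n₁ n₂ + M + N₁ * N₂ * m] y] h = 0} := by
        ext n
        simp only [Set.mem_ofPred_eq, Set.mem_union, Set.mem_image]
        constructor
        · rintro ⟨h0, hn | ⟨r, hr, m, hm⟩⟩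
          · exact Or.inl ⟨h0, Or.inl hn⟩
          · rcases Nat.lt_succ_iff_lt_or_eq.1 hr with hr | rfl
            · exact Or.inl ⟨h0, Or.inr ⟨r, hr, m, hm⟩⟩
            · refine Or.inr ⟨m, ?_, hm.symm⟩
              rw [← hm]
              exact h0
        · rintro (⟨h0, hn | ⟨r, hr, m, hm⟩⟩ | ⟨m, h0, hm⟩)
          · exact ⟨h0, Or.inl hn⟩
          · exact ⟨h0, Or.inr ⟨r, Nat.lt_succ_of_lt hr, m, hm⟩⟩
          · refine ⟨?_, Or.inr ⟨M, Nat.lt_succ_self _, m, hm.symm⟩⟩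
            rw [← hm]
            exact h0
      rw [h3]
      exact h2
  have h1 := main (N₁ * N₂)
  have h2 : {n : ℕ | MvPolynomial.eval ![F^[n] x, G^[n] y] h = 0} =
      {n : ℕ | MvPolynomial.eval ![F^[n] x, G^[n] y] h = 0 ∧
      (n < max n₁ n₂ ∨ ∃ r < N₁ * N₂, ∃ m : ℕ, n = (max n₁ n₂ + r) + N₁ * N₂ * m)} := by
    ext n
    simp only [Set.mem_ofPred_eq]
    constructor
    · intro h0
      refine ⟨h0, ?_⟩
      by_cases hn : n < max n₁ n₂
      · exact Or.inl hn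
      · refine Or.inr ⟨(n - max n₁ n₂) % (N₁ * N₂), Nat.mod_lt _ hN, (n - max n₁ n₂) / (N₁ * N₂), ?_⟩
        have h3 := Nat.mod_add_div (n - max n₁ n₂) (N₁ * N₂)
        omega
    · exact fun h0 => h0.1
  rw [h2]
  exact h1

end ETA
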