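import Pool.Agent.ETA.StD

/-!
# ETA, module RE3: the theorem for the class `Cl` over a field
-/

set_option autoImplicit false
set_option linter.unusedVariables false

namespace ETA

open PowerSeries ETD

private theorem RE3_eval {R S : Type} [CommRing R] [CommRing S] (φ : R →+* S)
    (hφ : Function.Injective φ) (u v : R) (h : MvPolynomial (Fin 2) R) :
    MvPolynomial.eval ![φ u, φ v] (MvPolynomial.map φ h) = 0 ↔
      MvPolynomial.eval ![u, v] h = 0 := by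
  have h1 : (![φ u, φ v] : Fin 2 → S) = φ ∘ ![u, v] := by
    funext i
    fin_cases i <;> rfl
  rw [h1, MvPolynomial.eval_map, ← MvPolynomial.eval₂_comp, map_eq_zero_iff φ hφ]

theorem thm_RE3 (hE : ETD.St_EMB) (hT : St_TRO) (hR : St_RE2) : St_RE3 := by
  intro K _ p _ _ F G x y h hF hG
  classical
  obtain ⟨s₁, h₁⟩ := hT K p F hF
  obtain ⟨s₂, h₂⟩ := hT K p G hG
  obtain ⟨k, _, _, _, A, ι, hι, hs⟩ := hE K p (s₁ ∪ s₂ ∪ h.coeffs ∪ {x, y})
  obtain ⟨FA, F', hF', hFA, hFι⟩ := h₁ A k⟦X⟧ ι hι (fun z hz => hs z (by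
    simp only [Finset.mem_union]
    exact Or.inl (Or.inl (Or.inl hz))))
  obtain ⟨GA, G', hG', hGA, hGι⟩ := h₂ A k⟦X⟧ ι hι (fun z hz => hs z (by
    simp only [Finset.mem_union]
    exact Or.inl (Or.inl (Or.inr hz))))
  have hhA : (h.coeffs : Set K) ⊆ A := fun z hz => hs z (by
    simp only [Finset.mem_union]
    exact Or.inl (Or.inr hz))
  have hx : x ∈ A := hs _ (by simp)
  have hy : y ∈ A := hs _ (by simp)
  obtain ⟨hA, hhA2⟩ : h ∈ Set.range (MvPolynomial.map (σ := Fin 2) A.subtype) := by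
    rw [MvPolynomial.mem_range_map_iff_coeffs_subset]
    intro z hz
    exact ⟨⟨z, hhA hz⟩, rfl⟩
  have hsub : Function.Injective A.subtype := Subtype.val_injective
  have c1 : Function.Semiconj A.subtype FA F := hFA
  have c2 : Function.Semiconj A.subtype GA G := hGA
  have c3 : Function.Semiconj ι FA F' := hFι
  have c4 : Function.Semiconj ι GA G' := hGι
  have hset : {n : ℕ | MvPolynomial.eval ![F^[n] x, G^[n] y] h = 0} =
      {n : ℕ | MvPolynomial.eval ![F'^[n] (ι ⟨x, hx⟩), G'^[n] (ι ⟨y, hy⟩)]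
        (MvPolynomial.map ι hA) = 0} := by
    ext n
    have i1 : A.subtype (FA^[n] ⟨x, hx⟩) = F^[n] x := (c1.iterate_right n).eq ⟨x, hx⟩
    have i2 : A.subtype (GA^[n] ⟨y, hy⟩) = G^[n] y := (c2.iterate_right n).eq ⟨y, hy⟩
    have i3 : ι (FA^[n] ⟨x, hx⟩) = F'^[n] (ι ⟨x, hx⟩) := (c3.iterate_right n).eq ⟨x, hx⟩
    have i4 : ι (GA^[n] ⟨y, hy⟩) = G'^[n] (ι ⟨y, hy⟩) := (c4.iterate_right n).eq ⟨y, hy⟩
    simp only [Set.mem_ofPred_eq]
    rw [← i3, ← i4, RE3_eval ι hι, ← i1, ← i2, ← hhA2, RE3_eval A.subtype hsub]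
  rw [hset]
  exact hR k p F' G' _ _ _ hF' hG'

end ETA
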