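import Pool.Agent.ETA.StA

/-!
# ETA, module RMV: removing a point
-/

set_option autoImplicit false
set_option linter.unusedVariables false

namespace ETA

open ETD

private theorem rmv_core (hSUN : ETD.St_SUN) (p : ℕ) (g : ℕ → ℕ) (b : ℕ)
    (hg : ∀ j, PSet p (Set.range fun k => g (j + k))) (hinj : Function.Injective g) :
    PSet p (Set.range g \ {b}) := by
  by_cases hb : b ∈ Set.range g
  · obtain ⟨k0, rfl⟩ := hb
    have h1 : Set.range g \ {g k0} = (g '' {k | k < k0}) ∪ Set.range fun k => g (k0 + 1 + k) := by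
      ext n
      constructor
      · rintro ⟨⟨k, rfl⟩, hk⟩
        rcases lt_trichotomy k k0 with h | h | h
        · exact Or.inl ⟨k, h, rfl⟩
        · exact absurd (by rw [h]; rfl) hk
        · exact Or.inr ⟨k - (k0 + 1), by simp only; congr 1; omega⟩
      · rintro (⟨k, hk, rfl⟩ | ⟨k, rfl⟩)
        · refine ⟨⟨k, rfl⟩, fun h => ?_⟩
          have := hinj h
          have h2 : k < k0 := hk
          omega
        · refine ⟨⟨_, rfl⟩, fun h => ?_⟩
          have := hinj h
          omega
    rw [h1]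
    exact (hSUN p).2.1 _ _ ((hSUN p).1 _ ((Set.finite_lt_nat k0).image g)) (hg (k0 + 1))
  · rw [Set.sdiff_singleton_eq_self hb]
    have := hg 0
    simpa using this

private theorem rmv_union (hSUN : ETD.St_SUN) (p : ℕ) {ι : Type} (s : Finset ι)
    (f : ι → Set ℕ) (h : ∀ i ∈ s, PSet p (f i)) : PSet p (⋃ i ∈ s, f i) := by
  classical
  induction s using Finset.induction_on with
  | empty => simpa using (hSUN p).1 ∅ Set.finite_empty
  | insert a s ha ih =>
    rw [Finset.set_biUnion_insert]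
    exact (hSUN p).2.1 _ _ (h a (Finset.mem_insert_self _ _))
      (ih fun i hi => h i (Finset.mem_insert_of_mem hi))

theorem thm_RMV (hSUN : ETD.St_SUN) : St_RMV := by
  intro p hp R b hR
  obtain ⟨S, T, hS, hT, rfl⟩ := hR
  have h1 : {n : ℕ | (∃ q ∈ S, ∃ k : ℕ, n = q.1 * k + q.2) ∨
      (∃ t ∈ T, ∃ k : ℕ, (n : ℚ) = t.1 * (p : ℚ) ^ (t.2.2 * k) + t.2.1)} \ {b} =
      (⋃ q ∈ S, ({n : ℕ | ∃ k : ℕ, n = q.1 * k + q.2} \ {b})) ∪
      (⋃ t ∈ T, ({n : ℕ | ∃ k : ℕ, (n : ℚ) = t.1 * (p : ℚ) ^ (t.2.2 * k) + t.2.1} \ {b})) := by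
    ext n
    simp only [Set.mem_sdiff, Set.mem_ofPred_eq, Set.mem_union, Set.mem_iUnion, Set.mem_singleton_iff,
      exists_prop]
    constructor
    · rintro ⟨⟨q, hq, k, hk⟩ | ⟨t, ht, k, hk⟩, hb⟩
      · exact Or.inl ⟨q, hq, ⟨k, hk⟩, hb⟩
      · exact Or.inr ⟨t, ht, ⟨k, hk⟩, hb⟩
    · rintro (⟨q, hq, ⟨k, hk⟩, hb⟩ | ⟨t, ht, ⟨k, hk⟩, hb⟩)
      · exact ⟨Or.inl ⟨q, hq, k, hk⟩, hb⟩
      · exact ⟨Or.inr ⟨t, ht, k, hk⟩, hb⟩
  rw [h1]
  refine (hSUN p).2.1 _ _ (rmv_union hSUN p S _ fun q hq => ?_)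
    (rmv_union hSUN p T _ fun t ht => ?_)
  · have h2 : {n : ℕ | ∃ k : ℕ, n = q.1 * k + q.2} = Set.range fun k => q.1 * k + q.2 := by
      ext n
      exact ⟨fun ⟨k, hk⟩ => ⟨k, hk.symm⟩, fun ⟨k, hk⟩ => ⟨k, hk.symm⟩⟩
    rw [h2]
    refine rmv_core hSUN p (fun k => q.1 * k + q.2) b (fun j => ?_) ?_
    · have h3 : (Set.range fun k => (fun k => q.1 * k + q.2) (j + k)) =
          {n : ℕ | ∃ k : ℕ, n = q.1 * k + (q.1 * j + q.2)} := by
        ext n
        constructor
        · rintro ⟨k, rfl⟩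
          exact ⟨k, by simp only; ring⟩
        · rintro ⟨k, rfl⟩
          exact ⟨k, by simp only; ring⟩
      rw [h3]
      exact (hSUN p).2.2 _ _ (hS q hq)
    · intro k k' h
      have h3 : q.1 * k = q.1 * k' := Nat.add_right_cancel h
      exact Nat.eq_of_mul_eq_mul_left (hS q hq) h3
  · obtain ⟨a, b', r⟩ := t
    have hT' := hT _ ht
    simp only at hT' ⊢
    choose g hg using hT'
    have h2 : {n : ℕ | ∃ k : ℕ, (n : ℚ) = a * (p : ℚ) ^ (r * k) + b'} = Set.range g := by
      ext n
      constructor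
      · rintro ⟨k, hk⟩
        refine ⟨k, ?_⟩
        have h3 : (g k : ℚ) = (n : ℚ) := by rw [hg, hk]
        exact_mod_cast h3
      · rintro ⟨k, rfl⟩
        exact ⟨k, hg k⟩
    rw [h2]
    by_cases h0 : a = 0 ∨ r = 0
    · have h3 : (Set.range g).Finite := by
        refine (Set.finite_singleton (g 0)).subset ?_
        rintro _ ⟨k, rfl⟩
        rw [Set.mem_singleton_iff]
        have h4 : (g k : ℚ) = (g 0 : ℚ) := by
          rw [hg, hg]
          rcases h0 with h0 | h0
          · rw [h0]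
            ring
          · rw [h0]
            simp
        exact_mod_cast h4
      exact (hSUN p).1 _ (h3.subset Set.sdiff_subset)
    · push Not at h0
      refine rmv_core hSUN p g b (fun j => ?_) ?_
      · refine ⟨∅, {(a * (p : ℚ) ^ (r * j), b', r)}, by simp, ?_, ?_⟩
        · intro t ht k
          rw [Finset.mem_singleton.1 ht]
          refine ⟨g (j + k), ?_⟩
          simp only
          rw [hg, mul_add, pow_add]
          ring
        · ext n
          simp only [Set.mem_range, Set.mem_ofPred_eq]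
          constructor
          · rintro ⟨k, rfl⟩
            refine Or.inr ⟨_, Finset.mem_singleton_self _, k, ?_⟩
            simp only
            rw [hg, mul_add, pow_add]
            ring
          · rintro (⟨q, hq, -⟩ | ⟨t, ht, k, hk⟩)
            · exact absurd hq (Finset.notMem_empty _)
            · rw [Finset.mem_singleton.1 ht] at hk
              refine ⟨k, ?_⟩
              have h4 : (g (j + k) : ℚ) = (n : ℚ) := by
                rw [hg, hk, mul_add, pow_add]
                ring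
              exact_mod_cast h4
      · intro k k' h
        have h4 : (g k : ℚ) = (g k' : ℚ) := by rw [h]
        rw [hg, hg] at h4
        have h5 : (p : ℚ) ^ (r * k) = (p : ℚ) ^ (r * k') := by
          have h6 : a * (p : ℚ) ^ (r * k) = a * (p : ℚ) ^ (r * k') := add_right_cancel h4
          exact mul_left_cancel₀ h0.1 h6
        have h6 : p ^ (r * k) = p ^ (r * k') := by exact_mod_cast h5
        have h7 := Nat.pow_right_injective hp.out.two_le h6
        exact Nat.eq_of_mul_eq_mul_left (Nat.pos_of_ne_zero h0.2) h7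

end ETA
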