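import Pool.Agent.ETA.StC

/-!
# ETA, module SPR: the properties of the set of the `φ` with `kr (φ z) = P` (helper31)
-/

set_option autoImplicit false
set_option linter.unusedVariables false

namespace ETA

open PowerSeries ETD

/-- divisible by all powers of `X` -/
private theorem SPR_zero {k : Type} [Field k] {w : k⟦X⟧} (h : ∀ N : ℕ, X ^ N ∣ w) : w = 0 := by
  refine PowerSeries.ext fun j => ?_
  rw [map_zero]
  exact X_pow_dvd_iff.1 (h (j + 1)) j (Nat.lt_succ_self j)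

/-- a solution of `η ^ (p - 1) = 1` is a constant -/
private theorem SPR_const (p : ℕ) [Fact p.Prime] (η : (ZMod p)⟦X⟧) (h : η ^ (p - 1) = 1) :
    ∃ c : ZMod p, η = C c := by
  have hp : p.Prime := Fact.out
  have hch : CharP (ZMod p)⟦X⟧ p := charP_of_injective_ringHom (C_injective (R := ZMod p)) p
  refine ⟨constantCoeff η, ?_⟩
  obtain ⟨c, hc⟩ : ∃ c, c = constantCoeff η := ⟨_, rfl⟩
  obtain ⟨ε, hε⟩ : ∃ ε, ε = η - C c := ⟨_, rfl⟩
  have h1 : X ∣ ε := by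
    rw [X_dvd_iff, hε, map_sub, constantCoeff_C, hc, sub_self]
  have h2 : η ^ p = η := by
    have h3 : η ^ (p - 1 + 1) = η := by rw [pow_succ, h, one_mul]
    rwa [Nat.sub_add_cancel hp.one_le] at h3
  have h3 : ε ^ p = ε := by
    rw [hε, sub_pow_char, h2, ← map_pow, ZMod.pow_card]
  by_contra hcon
  have h4 : ε ≠ 0 := by
    intro h5
    rw [h5] at hε
    rw [← hc] at hcon
    exact hcon (sub_eq_zero.1 hε.symm)
  have h5 : ε ^ (p - 1) = 1 := by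
    have h6 : ε ^ (p - 1) * ε = 1 * ε := by
      rw [← pow_succ, Nat.sub_add_cancel hp.one_le, h3, one_mul]
    exact mul_right_cancel₀ h4 h6
  have h6 : (X : (ZMod p)⟦X⟧) ∣ 1 := by
    rw [← h5]
    exact h1.trans (dvd_pow_self ε (by have := hp.two_le; omega))
  rw [X_dvd_iff, map_one] at h6
  exact one_ne_zero h6

theorem thm_SPR (hACT : St_ACT) (hACO : St_ACO) (hACS : St_ACS) (hHTS : St_HTS) (hADC : St_ADC) :
    St_SPR := by
  intro k _ p _ _ B z hu hz hz0 P hP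
  have hp : p.Prime := Fact.out
  have hch : CharP (ZMod p)⟦X⟧ p := charP_of_injective_ringHom (C_injective (R := ZMod p)) p
  have hsm : ∀ φ, Sm (pa p B z φ) := fun φ i => (hACT k p (B i)).2.2.2.2.2.2.1 φ (z i) (hz i)
  have hne : ∀ φ, φ ≠ 0 → ∀ i, pa p B z φ i ≠ 0 := fun φ hφ i =>
    (hACO k p (B i)).2.2.2 φ (z i) hφ (hz i) (hz0 i)
  have H1 : ∀ φ ∈ {φ : (ZMod p)⟦X⟧ | φ ≠ 0 ∧ kr (pa p B z φ) = P},
      ∀ φ' ∈ {φ : (ZMod p)⟦X⟧ | φ ≠ 0 ∧ kr (pa p B z φ) = P}, ∀ χ : (ZMod p)⟦X⟧,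
      χ * φ ∈ {φ : (ZMod p)⟦X⟧ | φ ≠ 0 ∧ kr (pa p B z φ) = P} →
      χ * φ' ∈ {φ : (ZMod p)⟦X⟧ | φ ≠ 0 ∧ kr (pa p B z φ) = P} := by
    rintro φ ⟨hφ0, hφ⟩ φ' ⟨hφ'0, hφ'⟩ χ ⟨hχ0, hχ⟩
    refine ⟨mul_ne_zero (left_ne_zero_of_mul hχ0) hφ'0, ?_⟩
    obtain ⟨G, hG, hGe⟩ := hACS k p B (fun _ => χ)
    have h1 : ∀ ψ, pa p B z (χ * ψ) = fun i => e (pa p B z ψ) (G i) := by
      intro ψ
      funext i
      rw [hGe _ (hsm ψ) i]
      exact (hACT k p (B i)).2.2.2.2.1 χ ψ (z i) (hz i)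
    rw [h1] at hχ ⊢
    rw [← hχ]
    exact kr_comp (hsm φ') (hsm φ) G hG (hφ'.trans hφ.symm)
  refine ⟨fun h => h.1 rfl, H1, ?_, ?_⟩
  · intro φ hφ h
    refine ⟨hφ, ?_⟩
    have hsub : P ⊆ kr (pa p B z φ) := by
      intro F hF
      rw [mem_kr]
      refine SPR_zero fun N => ?_
      obtain ⟨φ', ⟨hφ'0, hφ'⟩, hN⟩ := h N
      have h1 := e_congr (hsm φ) (hsm φ') F N fun i =>
        (hACT k p (B i)).2.2.2.2.2.1 φ φ' (z i) N (hz i) hN
      have h2 : e (pa p B z φ') F = 0 := by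
        rw [← mem_kr, hφ']
        exact hF
      rwa [h2, sub_zero] at h1
    obtain ⟨φ', ⟨hφ'0, hφ'⟩, -⟩ := h 0
    rw [← hφ'] at hsub hP ⊢
    exact (hHTS k _ _ (hsm φ') (hsm φ) ⟨0, hne φ hφ 0⟩ hP hsub).symm
  · intro η φ hη hηc hφ hηφ φ₁ hφ₁ φ₂ hφ₂
    by_cases hsum : φ₁ + φ₂ = 0
    · exact Or.inr hsum
    left
    refine ⟨hsum, ?_⟩
    have hpow : ∀ j : ℕ, η ^ j * φ₁ ∈ {φ : (ZMod p)⟦X⟧ | φ ≠ 0 ∧ kr (pa p B z φ) = P} := by
      intro j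
      induction j with
      | zero => rw [pow_zero, one_mul]; exact hφ₁
      | succ j ih =>
        rw [pow_succ', mul_assoc]
        exact H1 φ hφ _ ih η hηφ
    have hη1 : X ∣ η ^ (p - 1) - 1 := by
      rw [X_dvd_iff, map_sub, map_pow, map_one, ZMod.pow_card_sub_one_eq_one, sub_self]
      rw [isUnit_iff_constantCoeff] at hη
      exact hη.ne_zero
    have hη2 : η ^ (p - 1) ≠ 1 := by
      intro h
      obtain ⟨c, hc⟩ := SPR_const p η h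
      exact hηc c hc
    rw [← hφ₁.2]
    refine hADC k p B z hu hz hz0 φ₁ hφ₁.1 (by rw [hφ₁.2]; exact hP) (fun N => ?_) φ₂ hφ₂.1
      (hφ₂.2.trans hφ₁.2.symm) hsum
    refine ⟨η ^ ((p - 1) * p ^ N) * φ₁, ?_, ?_, (hpow _).2.trans hφ₁.2.symm⟩
    · intro h
      have h1 : η ^ ((p - 1) * p ^ N) - 1 = 0 := by
        have h2 : (η ^ ((p - 1) * p ^ N) - 1) * φ₁ = 0 := by
          rw [sub_mul, h, one_mul, sub_self]
        exact (mul_eq_zero.1 h2).resolve_right hφ₁.1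
      have h3 : (η ^ (p - 1) - 1) ^ p ^ N = 0 := by
        rw [sub_pow_char_pow, one_pow, ← pow_mul, h1]
      exact hη2 (sub_eq_zero.1 (pow_eq_zero_iff (pow_ne_zero _ hp.ne_zero) |>.1 h3))
    · have h1 : φ₁ - η ^ ((p - 1) * p ^ N) * φ₁ = -(η ^ (p - 1) - 1) ^ p ^ N * φ₁ := by
        rw [sub_pow_char_pow, one_pow, ← pow_mul]
        ring
      rw [h1, neg_mul, dvd_neg]
      refine Dvd.dvd.mul_right ?_ _
      refine (pow_dvd_pow X (Nat.lt_pow_self hp.one_lt).le).trans ?_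
      exact pow_dvd_pow_of_dvd hη1 _

end ETA
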