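import Pool.Agent.ETA.StA

/-!
# ETA, module SRS: the series `∑ c i Y ^ p ^ i`
-/

set_option autoImplicit false
set_option linter.unusedVariables false

namespace ETA

open PowerSeries ETD

theorem SRS_hs (k : Type) [Field k] :
    PowerSeries.HasSubst (MvPowerSeries.X 0 : MvPowerSeries (Fin 2) k) :=
  PowerSeries.HasSubst.X 0

/-- a series in `t` as a series in two variables -/
noncomputable def SRS_i (k : Type) [Field k] : k⟦X⟧ →+* MvPowerSeries (Fin 2) k :=
  (PowerSeries.substAlgHom (SRS_hs k)).toRingHom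

theorem SRS_i_apply {k : Type} [Field k] (b : k⟦X⟧) :
    SRS_i k b = PowerSeries.subst (MvPowerSeries.X 0 : MvPowerSeries (Fin 2) k) b := by
  show PowerSeries.substAlgHom (SRS_hs k) b = _
  rw [PowerSeries.coe_substAlgHom]

theorem SRS_e_i {k : Type} [Field k] {z : Fin 2 → k⟦X⟧} (hz : Sm z) (h0 : z 0 = X) (b : k⟦X⟧) :
    e z (SRS_i k b) = b := by
  rw [SRS_i_apply, e, PowerSeries.subst,
    MvPowerSeries.subst_comp_subst_apply (PowerSeries.HasSubst.const (SRS_hs k)) hz.hs]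
  have h1 : (fun _ : Unit => MvPowerSeries.subst z (MvPowerSeries.X 0 : MvPowerSeries (Fin 2) k)) =
      (MvPowerSeries.X : Unit → MvPowerSeries Unit k) := by
    funext s
    rw [MvPowerSeries.subst_X hz.hs, h0]
    rfl
  rw [h1, MvPowerSeries.subst_self]
  rfl

/-- the finite sums -/
noncomputable def SRS_Q {k : Type} [Field k] (p : ℕ) (c : ℕ → k⟦X⟧) (N : ℕ) :
    MvPowerSeries (Fin 2) k :=
  ∑ i ∈ Finset.range N, SRS_i k (c i) * MvPowerSeries.X 1 ^ p ^ i

theorem SRS_coeff {k : Type} [Field k] {p : ℕ} (hp : p.Prime) (c : ℕ → k⟦X⟧) (d : Fin 2 →₀ ℕ)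
    (N M : ℕ) (hN : d.degree < N) (h : N ≤ M) :
    MvPowerSeries.coeff d (SRS_Q p c M) = MvPowerSeries.coeff d (SRS_Q p c N) := by
  induction M, h using Nat.le_induction with
  | base => rfl
  | succ M hM ih =>
    have h1 : d 1 < p ^ M := by
      have h2 : d 1 ≤ d.degree := Finsupp.le_degree 1 d
      have h3 : M < p ^ M := Nat.lt_pow_self hp.one_lt
      omega
    unfold SRS_Q at ih ⊢
    rw [Finset.sum_range_succ, map_add, ih,
      (MvPowerSeries.X_pow_dvd_iff.1 (dvd_mul_left (MvPowerSeries.X (1 : Fin 2) ^ p ^ M)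
        (SRS_i k (c M)))) d h1, add_zero]

/-- the series -/
noncomputable def SRS_psi {k : Type} [Field k] (p : ℕ) (c : ℕ → k⟦X⟧) :
    MvPowerSeries (Fin 2) k :=
  fun d => MvPowerSeries.coeff d (SRS_Q p c (d.degree + 1))

theorem SRS_psi_coeff {k : Type} [Field k] (p : ℕ) (c : ℕ → k⟦X⟧) (d : Fin 2 →₀ ℕ) :
    MvPowerSeries.coeff d (SRS_psi p c) = MvPowerSeries.coeff d (SRS_Q p c (d.degree + 1)) := rfl

theorem SRS_sm {k : Type} [Field k] {y : k⟦X⟧} (hy : X ∣ y) :
    Sm (Fin.cons X ![y] : Fin 2 → k⟦X⟧) := by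
  apply Sm.cons
  intro i
  have : i = 0 := Subsingleton.elim _ _
  rw [this]
  exact hy

theorem thm_SRS : St_SRS := by
  intro k _ p hp c
  refine ⟨SRS_psi p c, ?_⟩
  intro y hy N
  have hz := SRS_sm hy
  have h1 : ec ![y] (SRS_Q p c N) = ∑ i ∈ Finset.range N, c i * y ^ p ^ i := by
    unfold SRS_Q
    rw [ec, e_sum _ hz]
    refine Finset.sum_congr rfl fun i _ => ?_
    rw [e_mul hz, e_pow hz, e_X hz, SRS_e_i hz rfl]
    rfl
  rw [← h1]
  unfold ec
  rw [← e_sub hz]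
  apply e_order hz
  intro d hd
  rw [map_sub, sub_eq_zero, SRS_psi_coeff]
  exact (SRS_coeff hp c d (d.degree + 1) N (Nat.lt_succ_self _) hd).symm

end ETA
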