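import Pool.Agent.ETA.StC

/-!
# ETA, [TRA]: translations
-/

set_option autoImplicit false

namespace ETA

open PowerSeries ETD

section

variable {k : Type} [Field k] {n : ℕ}

/-- the series in the variable with number `0` -/
private noncomputable def TRA_W (u : k⟦X⟧) : MvPowerSeries (Fin (n + 1)) k :=
  MvPowerSeries.X 0 * MvPowerSeries.subst
    (fun _ : Unit => (MvPowerSeries.X 0 : MvPowerSeries (Fin (n + 1)) k)) u

private theorem TRA_W_cc (u : k⟦X⟧) :
    MvPowerSeries.constantCoeff (TRA_W u : MvPowerSeries (Fin (n + 1)) k) = 0 := by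
  rw [TRA_W, map_mul, MvPowerSeries.constantCoeff_X, zero_mul]

private theorem TRA_hs0 : MvPowerSeries.HasSubst
    (fun _ : Unit => (MvPowerSeries.X 0 : MvPowerSeries (Fin (n + 1)) k)) :=
  MvPowerSeries.hasSubst_of_constantCoeff_zero fun _ => MvPowerSeries.constantCoeff_X 0

private theorem TRA_W_e {z : Fin n → k⟦X⟧} (hz : Sm z) (u : k⟦X⟧) :
    e (Fin.cons X z : Fin (n + 1) → k⟦X⟧) (TRA_W u) = X * u := by
  rw [TRA_W, e_mul hz.cons, e_X hz.cons, Fin.cons_zero]
  congr 1
  have h1 := MvPowerSeries.subst_comp_subst_apply (R := k) (TRA_hs0 (k := k) (n := n)) hz.cons.hs u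
  rw [e, h1]
  have h2 : (fun s : Unit => MvPowerSeries.subst (Fin.cons X z : Fin (n + 1) → k⟦X⟧)
      ((fun _ : Unit => (MvPowerSeries.X 0 : MvPowerSeries (Fin (n + 1)) k)) s)) =
      (MvPowerSeries.X : Unit → MvPowerSeries Unit k) := by
    funext s
    rw [MvPowerSeries.subst_X hz.cons.hs]
    rfl
  rw [h2, MvPowerSeries.subst_self]
  rfl

/-- the coordinates of the translated point -/
private noncomputable def TRA_G (u : Fin n → k⟦X⟧) (i : Fin n) : MvPowerSeries (Fin (n + 1)) k :=
  TRA_W (u i) + MvPowerSeries.X i.succ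

private theorem TRA_G_cc (u : Fin n → k⟦X⟧) (i : Fin n) :
    MvPowerSeries.constantCoeff (TRA_G u i) = 0 := by
  rw [TRA_G, map_add, TRA_W_cc, MvPowerSeries.constantCoeff_X, add_zero]

/-- put `t = 0` -/
private noncomputable def TRA_L : Fin (n + 1) → MvPowerSeries (Fin n) k :=
  Fin.cons 0 MvPowerSeries.X

private theorem TRA_L_cc (i : Fin (n + 1)) :
    MvPowerSeries.constantCoeff (TRA_L i : MvPowerSeries (Fin n) k) = 0 := by
  refine Fin.cases ?_ (fun j => ?_) i
  · rw [TRA_L, Fin.cons_zero, map_zero]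
  · rw [TRA_L, Fin.cons_succ, MvPowerSeries.constantCoeff_X]

private theorem TRA_L_hs : MvPowerSeries.HasSubst (TRA_L : Fin (n + 1) → MvPowerSeries (Fin n) k) :=
  MvPowerSeries.hasSubst_of_constantCoeff_zero TRA_L_cc

private theorem TRA_L_G (u : Fin n → k⟦X⟧) (i : Fin n) :
    MvPowerSeries.subst (TRA_L : Fin (n + 1) → MvPowerSeries (Fin n) k) (TRA_G u i) =
      MvPowerSeries.X i := by
  have h1 : ∀ F : MvPowerSeries (Fin (n + 1)) k, MvPowerSeries.subst
      (TRA_L : Fin (n + 1) → MvPowerSeries (Fin n) k) F =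
      MvPowerSeries.substAlgHom (R := k) TRA_L_hs F := fun F => by
    rw [MvPowerSeries.substAlgHom_apply]
  have h2 : ∀ j : Fin (n + 1), MvPowerSeries.substAlgHom (R := k) TRA_L_hs
      (MvPowerSeries.X j : MvPowerSeries (Fin (n + 1)) k) =
      (TRA_L : Fin (n + 1) → MvPowerSeries (Fin n) k) j := fun j => by
    rw [MvPowerSeries.substAlgHom_X]
  have h3 : (TRA_L : Fin (n + 1) → MvPowerSeries (Fin n) k) 0 = 0 := rfl
  have h4 : (TRA_L : Fin (n + 1) → MvPowerSeries (Fin n) k) i.succ = MvPowerSeries.X i := rfl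
  rw [h1, TRA_G, TRA_W, map_add, map_mul, h2, h2, h3, h4, zero_mul, zero_add]

private theorem TRA_L_coeff (H : MvPowerSeries (Fin (n + 1)) k) (i : Fin n →₀ ℕ) :
    MvPowerSeries.coeff i (MvPowerSeries.subst
      (TRA_L : Fin (n + 1) → MvPowerSeries (Fin n) k) H) =
      MvPowerSeries.coeff (Finsupp.cons 0 i) H := by
  classical
  rw [MvPowerSeries.coeff_subst TRA_L_hs]
  have hprod : ∀ d : Fin (n + 1) →₀ ℕ, (d.prod fun s j =>
      (TRA_L s : MvPowerSeries (Fin n) k) ^ j) =
      if d 0 = 0 then MvPowerSeries.monomial d.tail (1 : k) else 0 := by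
    intro d
    rw [Finsupp.prod_fintype _ _ (fun s => pow_zero _), Fin.prod_univ_succ, TRA_L, Fin.cons_zero]
    have h1 : ∏ j : Fin n, ((Fin.cons 0 MvPowerSeries.X : Fin (n + 1) → MvPowerSeries (Fin n) k)
        j.succ) ^ d j.succ = MvPowerSeries.monomial d.tail (1 : k) := by
      rw [MvPowerSeries.monomial_one_eq, Finsupp.prod_fintype _ _ (fun s => pow_zero _)]
      refine Finset.prod_congr rfl fun j _ => ?_
      rw [Fin.cons_succ, Finsupp.tail_apply]
    rw [h1]
    split_ifs with h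
    · rw [h, pow_zero, one_mul]
    · rw [zero_pow h, zero_mul]
  rw [finsum_eq_single _ (Finsupp.cons 0 i)]
  · rw [hprod, if_pos (Finsupp.cons_zero _ _), Finsupp.tail_cons, MvPowerSeries.coeff_monomial_same,
      smul_eq_mul, mul_one]
  · intro d hd
    rw [hprod]
    split_ifs with h
    · rw [MvPowerSeries.coeff_monomial, if_neg, smul_zero]
      intro h1
      apply hd
      rw [h1, ← h, Finsupp.cons_tail]
    · rw [map_zero, smul_zero]

end

/-- [TRA] -/
theorem thm_TRA : St_TRA := by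
  intro k _ n w hw F
  choose u hu using hw
  refine ⟨MvPowerSeries.subst (TRA_G u) F, ?_, ?_⟩
  · have h1 : MvPowerSeries.subst (TRA_L : Fin (n + 1) → MvPowerSeries (Fin n) k)
        (MvPowerSeries.subst (TRA_G u) F) = F := by
      rw [MvPowerSeries.subst_comp_subst_apply
        (MvPowerSeries.hasSubst_of_constantCoeff_zero (TRA_G_cc u)) TRA_L_hs]
      have h2 : (fun i => MvPowerSeries.subst (TRA_L : Fin (n + 1) → MvPowerSeries (Fin n) k)
          (TRA_G u i)) = MvPowerSeries.X := by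
        funext i
        exact TRA_L_G u i
      rw [h2, MvPowerSeries.subst_self]
      rfl
    ext i
    have h3 : MvPowerSeries.coeff i (dig 0 (MvPowerSeries.subst (TRA_G u) F) 0) =
        MvPowerSeries.coeff (Finsupp.cons 0 i) (MvPowerSeries.subst (TRA_G u) F) := by
      show dig 0 (MvPowerSeries.subst (TRA_G u) F) 0 i = _
      unfold dig
      simp
    rw [h3, ← TRA_L_coeff, h1]
  · intro z hz
    rw [ec, e_subst hz.cons _ (TRA_G_cc u)]
    congr 1
    funext i
    rw [TRA_G, e_add hz.cons, TRA_W_e hz, e_X hz.cons, Fin.cons_succ, hu i]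

end ETA
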