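import Pool.Agent.ETA.StD

/-!
# ETA, module TRO: maps of the class `Cl` descend to finitely generated subrings (helper31)
-/

set_option autoImplicit false
set_option linter.unusedVariables false

namespace ETA

open PowerSeries ETD

private theorem TRO_fm {R S : Type} [CommRing R] [CommRing S] (φ : R →+* S) (p : ℕ) (a : R)
    (G : Polynomial R) (x : R) : φ (fm p a G x) = fm p (φ a) (G.map φ) (φ x) := by
  unfold fm
  rw [map_add, map_mul, ← map_pow, Polynomial.eval_map_apply]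

private theorem TRO_ad {R S : Type} [CommRing R] [CommRing S] (φ : R →+* S) (p r : ℕ) (c : ℕ → R)
    (w : R) : φ (ad p r c w) = ad p r (fun i => φ (c i)) (φ w) := by
  unfold ad
  rw [map_sum]
  refine Finset.sum_congr rfl fun i _ => ?_
  rw [map_mul, map_pow]

private theorem TRO_c {K : Type} [Field K] (p : ℕ) (A : Subring K) (r u : ℕ) (c : ℕ → K)
    (hur : u < r) (h0 : ∀ i < u, c i = 0) (hu : IsUnit (c u)) (hA : ∀ i < r, c i ∈ A)
    (hA' : (c u)⁻¹ ∈ A) : ∃ cA : ℕ → A, (∀ w : A, ((ad p r cA w : A) : K) = ad p r c w) ∧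
      (∀ i < u, cA i = 0) ∧ IsUnit (cA u) := by
  obtain ⟨cA, hcA⟩ : ∃ cA : ℕ → A, ∀ i < r, ((cA i : A) : K) = c i :=
    ⟨fun i => if h : i < r then ⟨c i, hA i h⟩ else 0, fun i hi => by
      show ((if h : i < r then (⟨c i, hA i h⟩ : A) else 0 : A) : K) = c i
      rw [dif_pos hi]⟩
  refine ⟨cA, fun w => ?_, fun i hi => ?_, ?_⟩
  · have h1 := TRO_ad A.subtype p r cA w
    refine h1.trans ?_
    unfold ad
    refine Finset.sum_congr rfl fun i hi => ?_
    have h2 : A.subtype (cA i) = c i := hcA i (Finset.mem_range.1 hi)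
    show A.subtype (cA i) * (A.subtype w) ^ p ^ i = c i * (w : K) ^ p ^ i
    rw [h2]
    rfl
  · apply Subtype.ext
    rw [hcA i (hi.trans hur), h0 i hi]
    rfl
  · refine IsUnit.of_mul_eq_one ⟨(c u)⁻¹, hA'⟩ ?_
    apply Subtype.ext
    show ((cA u : A) : K) * (c u)⁻¹ = 1
    rw [hcA u hur, mul_inv_cancel₀ hu.ne_zero]

theorem thm_TRO : St_TRO := by
  classical
  intro K _ p _ _ F hF
  rcases hF with ⟨a, G, ha, hroot, hFG⟩ | ⟨r, u, c, b, hu0, hur, h0, hcu, hFc⟩ |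
    ⟨r, u, c, b, hu0, hur, h0, hcu, hFc⟩ | ⟨b, hFb⟩ | ⟨b, hFb⟩
  · refine ⟨G.coeffs ∪ {a, a⁻¹}, ?_⟩
    intro A R _ ι hι hs
    have hGA : (↑G.coeffs : Set K) ⊆ A := fun x hx => hs x (Finset.mem_union_left _ hx)
    have haA : a ∈ A := hs _ (by simp)
    have haA' : a⁻¹ ∈ A := hs _ (by simp)
    have e1 : (G.toSubring A hGA).map A.subtype = G := Polynomial.map_toSubring G A hGA
    refine ⟨fm p ⟨a, haA⟩ (G.toSubring A hGA), fm p (ι ⟨a, haA⟩) ((G.toSubring A hGA).map ι),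
      Or.inl ⟨_, _, ?_, ?_, rfl⟩, fun w => ?_, fun w => TRO_fm ι p _ _ w⟩
    · refine IsUnit.map ι (IsUnit.of_mul_eq_one ⟨a⁻¹, haA'⟩ ?_)
      exact Subtype.ext (mul_inv_cancel₀ ha.ne_zero)
    · intro m hm h1
      rw [← map_pow] at h1
      have h2 := hι (h1.trans (map_one ι).symm)
      apply hroot m hm
      have h3 := congrArg A.subtype h2
      rw [map_pow, map_one] at h3
      exact h3
    · have h1 := TRO_fm A.subtype p ⟨a, haA⟩ (G.toSubring A hGA) w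
      rw [e1] at h1
      rw [hFG]
      exact h1
  · refine ⟨(Finset.range r).image c ∪ {(c u)⁻¹, b}, ?_⟩
    intro A R _ ι hι hs
    have hA : ∀ i < r, c i ∈ A := fun i hi => hs _ (Finset.mem_union_left _
      (Finset.mem_image_of_mem c (Finset.mem_range.2 hi)))
    have hA' : (c u)⁻¹ ∈ A := hs _ (by simp)
    have hbA : b ∈ A := hs _ (by simp)
    obtain ⟨cA, h1, h2, h3⟩ := TRO_c p A r u c hur h0 hcu hA hA'
    refine ⟨fun w => ⟨b, hbA⟩ + ad p r cA w, fun w => ι ⟨b, hbA⟩ + ad p r (fun i => ι (cA i)) w,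
      Or.inr (Or.inl ⟨r, u, fun i => ι (cA i), ι ⟨b, hbA⟩, hu0, hur, fun i hi => ?_, h3.map ι,
        rfl⟩), fun w => ?_, fun w => ?_⟩
    · show ι (cA i) = 0
      rw [h2 i hi, map_zero]
    · rw [hFc]
      show b + ((ad p r cA w : A) : K) = _
      rw [h1]
    · show ι (⟨b, hbA⟩ + ad p r cA w) = _
      rw [map_add, TRO_ad]
  · refine ⟨(Finset.range r).image c ∪ {(c u)⁻¹, b}, ?_⟩
    intro A R _ ι hι hs
    have hA : ∀ i < r, c i ∈ A := fun i hi => hs _ (Finset.mem_union_left _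
      (Finset.mem_image_of_mem c (Finset.mem_range.2 hi)))
    have hA' : (c u)⁻¹ ∈ A := hs _ (by simp)
    have hbA : b ∈ A := hs _ (by simp)
    obtain ⟨cA, h1, h2, h3⟩ := TRO_c p A r u c hur h0 hcu hA hA'
    refine ⟨fun w => ⟨b, hbA⟩ + w + ad p r cA w,
      fun w => ι ⟨b, hbA⟩ + w + ad p r (fun i => ι (cA i)) w,
      Or.inr (Or.inr (Or.inl ⟨r, u, fun i => ι (cA i), ι ⟨b, hbA⟩, hu0, hur, fun i hi => ?_,
        h3.map ι, rfl⟩)), fun w => ?_, fun w => ?_⟩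
    · show ι (cA i) = 0
      rw [h2 i hi, map_zero]
    · rw [hFc]
      show b + (w : K) + ((ad p r cA w : A) : K) = _
      rw [h1]
    · show ι (⟨b, hbA⟩ + w + ad p r cA w) = _
      rw [map_add, map_add, TRO_ad]
  · refine ⟨{b}, ?_⟩
    intro A R _ ι hι hs
    have hbA : b ∈ A := hs _ (by simp)
    refine ⟨fun w => ⟨b, hbA⟩ + w, fun w => ι ⟨b, hbA⟩ + w,
      Or.inr (Or.inr (Or.inr (Or.inl ⟨_, rfl⟩))), fun w => ?_, fun w => map_add ι _ _⟩
    rw [hFb]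
    rfl
  · refine ⟨{b}, ?_⟩
    intro A R _ ι hι hs
    have hbA : b ∈ A := hs _ (by simp)
    refine ⟨fun w => ⟨b, hbA⟩, fun w => ι ⟨b, hbA⟩,
      Or.inr (Or.inr (Or.inr (Or.inr ⟨_, rfl⟩))), fun w => ?_, fun w => rfl⟩
    rw [hFb]

end ETA
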