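import Pool.Agent.ETA.StD

/-!
# ETA, module TYP: all pairs of types
-/

set_option autoImplicit false

namespace ETA

open PowerSeries ETD

private theorem TYP_swap {O : Type} [CommRing O] {p : ℕ} {x y : ℕ → O}
    (H : ∀ h : MvPolynomial (Fin 2) O, PSet p {n : ℕ | MvPolynomial.eval ![x n, y n] h = 0})
    (h : MvPolynomial (Fin 2) O) : PSet p {n : ℕ | MvPolynomial.eval ![y n, x n] h = 0} := by
  have h1 := H (MvPolynomial.rename (Equiv.swap (0 : Fin 2) 1) h)
  have h2 : ∀ n : ℕ, MvPolynomial.eval ![x n, y n] (MvPolynomial.rename (Equiv.swap (0 : Fin 2) 1) h)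
      = MvPolynomial.eval ![y n, x n] h := by
    intro n
    rw [MvPolynomial.eval_rename]
    congr 2
    funext i
    fin_cases i
    · simp
    · simp
  simp only [h2] at h1
  exact h1

private theorem TYP_iter {R : Type} {x : ℕ → R} {n₀ N : ℕ} (h : ∀ n ≥ n₀, x (n + N) = x n)
    (j n : ℕ) (hn : n₀ ≤ n) : x (n + N * j) = x n := by
  induction j with
  | zero => simp
  | succ j ih =>
    rw [Nat.mul_succ, ← add_assoc, h _ (by omega), ih]

theorem thm_TYP (hNNN : ETD.St_NNN) (hNUU : ETD.St_NUU) (hPRE : ETD.St_PRE) (hEVP : St_EVP)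
    (hUPH : St_UPH) (hPUU : St_PUU) (hPUI : St_PUI) (hPII : St_PII) (hPEI : St_PEI) : St_TYP := by
  intro k _ _ p _ _ x y hx hy
  -- orbit and periodic
  have hOP : ∀ (x y : ℕ → k⟦X⟧) (F : k⟦X⟧ → k⟦X⟧), (∀ n, x n = F^[n] 0) → TyP y →
      ∀ h : MvPolynomial (Fin 2) k⟦X⟧, PSet p {n : ℕ | MvPolynomial.eval ![x n, y n] h = 0} := by
    intro x y F hF hy h
    obtain ⟨n₀, N, hN, hP⟩ := hy
    have := hPRE k⟦X⟧ p F 0 y n₀ N hN hP h
    simp only [hF]
    exact this
  have oE : ∀ x : ℕ → k⟦X⟧, TyE p x → ∃ F : k⟦X⟧ → k⟦X⟧, ∀ n, x n = F^[n] 0 := by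
    rintro x ⟨α, a, E, -, -, h⟩
    exact ⟨_, h⟩
  have oU : ∀ x : ℕ → k⟦X⟧, TyU p x → ∃ F : k⟦X⟧ → k⟦X⟧, ∀ n, x n = F^[n] 0 := by
    rintro x ⟨r, u, c, α, -, -, -, -, -, -, h⟩
    exact ⟨_, h⟩
  have oI : ∀ x : ℕ → k⟦X⟧, TyI p x → ∃ F : k⟦X⟧ → k⟦X⟧, ∀ n, x n = F^[n] 0 := by
    rintro x ⟨r, u, c, α, -, -, -, -, -, h⟩
    exact ⟨_, h⟩
  have hOP' : ∀ x y : ℕ → k⟦X⟧, (TyE p x ∨ TyU p x ∨ TyI p x) → TyP y →
      ∀ h : MvPolynomial (Fin 2) k⟦X⟧, PSet p {n : ℕ | MvPolynomial.eval ![x n, y n] h = 0} := by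
    intro x y hx hy
    obtain ⟨F, hF⟩ : ∃ F : k⟦X⟧ → k⟦X⟧, ∀ n, x n = F^[n] 0 := by
      rcases hx with hx | hx | hx
      · exact oE x hx
      · exact oU x hx
      · exact oI x hx
    exact hOP x y F hF hy
  have hEE : ∀ x y : ℕ → k⟦X⟧, TyE p x → TyE p y →
      ∀ h : MvPolynomial (Fin 2) k⟦X⟧, PSet p {n : ℕ | MvPolynomial.eval ![x n, y n] h = 0} := by
    rintro x y ⟨α, a, E, hL, ha, hx⟩ ⟨α', a', E', hL', ha', hy⟩ h
    have := hNNN k p ![α, α'] ![a, a'] ![E, E'] (by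
      intro j
      fin_cases j
      · exact hL
      · exact hL') (by
      intro j
      fin_cases j
      · exact ha
      · exact ha') h
    simp only [hx, hy]
    exact this
  have hEU : ∀ x y : ℕ → k⟦X⟧, TyE p x → TyU p y →
      ∀ h : MvPolynomial (Fin 2) k⟦X⟧, PSet p {n : ℕ | MvPolynomial.eval ![x n, y n] h = 0} := by
    rintro x y ⟨α, a, E, hL, ha, hx⟩ hy h
    obtain ⟨α', E', hL', hy'⟩ := hUPH k p y hy
    have h1 := hNUU k p α a α' E E' hL ha hL'
      (MvPolynomial.bind₁ ![MvPolynomial.X 0, MvPolynomial.C (X : k⟦X⟧) * MvPolynomial.X 1] h)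
    have h2 : ∀ v w : k⟦X⟧, MvPolynomial.eval ![v, w]
        (MvPolynomial.bind₁ ![MvPolynomial.X 0, MvPolynomial.C (X : k⟦X⟧) * MvPolynomial.X 1] h)
        = MvPolynomial.eval ![v, X * w] h := by
      intro v w
      rw [← MvPolynomial.coe_aeval_eq_eval, ← MvPolynomial.coe_aeval_eq_eval]
      show MvPolynomial.aeval ![v, w] (MvPolynomial.bind₁ _ h) = MvPolynomial.aeval ![v, X * w] h
      rw [MvPolynomial.aeval_bind₁]
      congr 2
      funext i
      fin_cases i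
      · simp
      · simp
    simp only [h2] at h1
    simp only [hx, hy']
    exact h1
  rcases hx with hx | hx | hx | hx
  · rcases hy with hy | hy | hy | hy
    · exact hEE x y hx hy
    · exact hEU x y hx hy
    · exact hPEI k p x y hx hy
    · exact hOP' x y (Or.inl hx) hy
  · rcases hy with hy | hy | hy | hy
    · exact TYP_swap (hEU y x hy hx)
    · exact hPUU k p x y hx hy
    · exact hPUI k p x y hx hy
    · exact hOP' x y (Or.inr (Or.inl hx)) hy
  · rcases hy with hy | hy | hy | hy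
    · exact TYP_swap (hPEI k p y x hy hx)
    · exact TYP_swap (hPUI k p y x hy hx)
    · exact hPII k p x y hx hy
    · exact hOP' x y (Or.inr (Or.inr hx)) hy
  · rcases hy with hy | hy | hy | hy
    · exact TYP_swap (hOP' y x (Or.inl hy) hx)
    · exact TYP_swap (hOP' y x (Or.inr (Or.inl hy)) hx)
    · exact TYP_swap (hOP' y x (Or.inr (Or.inr hy)) hx)
    · intro h
      obtain ⟨n₀, N, hN, hP⟩ := hx
      obtain ⟨n₁, M, hM, hQ⟩ := hy
      refine hEVP p _ (max n₀ n₁) (N * M) (Nat.mul_pos hN hM) fun n hn => ?_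
      have h3 : x (n + N * M) = x n := TYP_iter hP M n (le_trans (le_max_left _ _) hn)
      have h4 : y (n + N * M) = y n := by
        rw [Nat.mul_comm N M]
        exact TYP_iter hQ N n (le_trans (le_max_right _ _) hn)
      show MvPolynomial.eval ![x n, y n] h = 0 ↔
        MvPolynomial.eval ![x (n + N * M), y (n + N * M)] h = 0
      rw [h3, h4]

end ETA
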