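import Pool.Agent.ETA.StC

/-!
# ETA, [UIA]: local zero sets, types `U`, `I`
-/

set_option autoImplicit false
set_option linter.unusedVariables false

namespace ETA

open PowerSeries ETD

private theorem UIA_pow (p : ℕ) (hp : 1 < p) (x y w : ℕ) (h : p ^ x ≤ y * p ^ w) :
    x ≤ y + w := by
  by_contra h1
  have h2 : p ^ (y + w) ≤ p ^ x := Nat.pow_le_pow_right (by omega) (by omega)
  have h3 : y * p ^ w < p ^ y * p ^ w :=
    Nat.mul_lt_mul_of_pos_right (Nat.lt_pow_self hp) (pow_pos (by omega) _)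
  rw [← pow_add] at h3
  omega

private theorem UIA_val (p : ℕ) [Fact p.Prime] (x : ℤ_[p]) (hx : x ≠ 0) :
    ∃ (j : ℕ) (γ : ℤ_[p]), IsUnit γ ∧ x = (p : ℤ_[p]) ^ j * γ :=
  ⟨x.valuation, (PadicInt.unitCoeff hx : ℤ_[p]), Units.isUnit _, by
    rw [mul_comm]
    exact PadicInt.unitCoeff_spec hx⟩

private theorem UIA_le (p : ℕ) [Fact p.Prime] (J j : ℕ) (γ : ℤ_[p]) (hγ : IsUnit γ)
    (h : (p : ℤ_[p]) ^ J ∣ (p : ℤ_[p]) ^ j * γ) : J ≤ j := by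
  by_contra h1
  obtain ⟨i, hi⟩ := Nat.exists_eq_add_of_lt (not_le.1 h1)
  have hp : (p : ℤ_[p]) ≠ 0 := by
    have := (Fact.out : p.Prime).ne_zero
    exact_mod_cast this
  rw [hi, show j + i + 1 = j + (i + 1) by ring, pow_add] at h
  have h2 := (mul_dvd_mul_iff_left (pow_ne_zero j hp)).1 h
  have h3 : IsUnit (p : ℤ_[p]) :=
    isUnit_of_dvd_unit ((dvd_pow_self _ (Nat.succ_ne_zero i)).trans h2) hγ
  exact PadicInt.prime_p.not_unit h3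

private theorem UIA_union (p : ℕ) (h : ETD.St_SUN) {α : Type} (𝒬 : Set α) (hQ : 𝒬.Finite)
    (Z : α → Set ℕ) (hZ : ∀ P ∈ 𝒬, PSet p (Z P)) : PSet p {n | ∃ P ∈ 𝒬, n ∈ Z P} := by
  induction 𝒬, hQ using Set.Finite.induction_on with
  | empty =>
    have h1 : {n | ∃ P ∈ (∅ : Set α), n ∈ Z P} = (∅ : Set ℕ) := by
      ext n
      simp
    rw [h1]
    exact (h p).1 _ Set.finite_empty
  | @insert a s _ _ ih =>
    have h1 : {n | ∃ P ∈ insert a s, n ∈ Z P} = Z a ∪ {n | ∃ P ∈ s, n ∈ Z P} := by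
      ext n
      constructor
      · rintro ⟨P, hP, hn⟩
        rcases Set.mem_insert_iff.1 hP with rfl | hP
        · exact Or.inl hn
        · exact Or.inr ⟨P, hP, hn⟩
      · rintro (hn | ⟨P, hP, hn⟩)
        · exact ⟨a, Set.mem_insert _ _, hn⟩
        · exact ⟨P, Set.mem_insert_of_mem _ hP, hn⟩
    rw [h1]
    exact (h p).2.1 _ _ (hZ a (Set.mem_insert _ _)) (ih fun P hP =>
      hZ P (Set.mem_insert_of_mem _ hP))

theorem thm_UIA (h1 : St_ACT) (h2 : St_ACO) (h3 : St_FIP) (h4 : St_DGC) (h5 : St_DGZ)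
    (h6 : St_MPR) (h7 : St_FC2) (h8 : St_UIC) (h9 : St_UIP) (h10 : ETD.St_SUN) (h11 : St_BLL)
    (h12 : St_RMV) (h13 : St_BLN) : St_UIA := by
  classical
  intro k _ p _ _ B z β hz hz0 H
  have hp : 1 < p := (Fact.out : p.Prime).one_lt
  obtain ⟨A, hA⟩ : ∃ A : ℕ → Fin 2 → k⟦X⟧, A = fun (n : ℕ) =>
    ![act p (B 0) (fi p ((n : ℤ_[p]) - β)) (z 0), ((B 1).f p)^[n] (z 1)] := ⟨_, rfl⟩
  have hAn : ∀ n : ℕ, ![act p (B 0) (fi p ((n : ℤ_[p]) - β)) (z 0), ((B 1).f p)^[n] (z 1)] =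
    A n := fun n => by rw [hA]
  simp only [hAn]
  have hA0 : ∀ n : ℕ, A n 0 = act p (B 0) (fi p ((n : ℤ_[p]) - β)) (z 0) := fun n => by
    rw [hA]
    rfl
  have hA1 : ∀ n : ℕ, A n 1 = act p (B 1) (X ^ n * 1) (z 1) := fun n => by
    rw [hA, mul_one, (h2 k p (B 1)).1 n (z 1) (hz 1)]
    rfl
  have hsm : ∀ n, Sm (A n) := by
    intro n i
    fin_cases i
    · change X ∣ A n 0
      rw [hA0]
      exact (h1 k p (B 0)).2.2.2.2.2.2.1 _ _ (hz 0)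
    · change X ∣ A n 1
      rw [hA1]
      exact (h1 k p (B 1)).2.2.2.2.2.2.1 _ _ (hz 1)
  by_cases hH : H = 0
  · refine ⟨0, ?_⟩
    subst hH
    have e1 : {n : ℕ | (p : ℤ_[p]) ^ 0 ∣ (n : ℤ_[p]) - β ∧ (n : ℤ_[p]) ≠ β ∧ ec (A n) 0 = 0} =
        {n : ℕ | (p : ℤ_[p]) ^ 0 ∣ (n : ℤ_[p]) - β ∧ (n : ℤ_[p]) ≠ β} := by
      ext n
      have h14 : ec (A n) 0 = 0 := e_zero (hsm n).cons
      simp only [Set.mem_setOf_eq, h14, and_true]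
    rw [e1]
    by_cases hβ : ∃ b : ℕ, (b : ℤ_[p]) = β
    · obtain ⟨b, hb⟩ := hβ
      have e2 : {n : ℕ | (p : ℤ_[p]) ^ 0 ∣ (n : ℤ_[p]) - β ∧ (n : ℤ_[p]) ≠ β} =
          {n : ℕ | (p : ℤ_[p]) ^ 0 ∣ (n : ℤ_[p]) - β} \ {b} := by
        ext n
        simp only [Set.mem_setOf_eq, Set.mem_diff, Set.mem_singleton_iff, ← hb, ne_eq,
          Nat.cast_inj]
      rw [e2]
      exact h12 p _ b (h11 p β 0)
    · push Not at hβ
      have e2 : {n : ℕ | (p : ℤ_[p]) ^ 0 ∣ (n : ℤ_[p]) - β ∧ (n : ℤ_[p]) ≠ β} =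
          {n : ℕ | (p : ℤ_[p]) ^ 0 ∣ (n : ℤ_[p]) - β} := by
        ext n
        simp only [Set.mem_setOf_eq, and_iff_left_iff_imp]
        intro _
        exact hβ n
      rw [e2]
      exact h11 p β 0
  -- the data
  obtain ⟨C, hC⟩ := h7 k H hH
  obtain ⟨d0, hd0⟩ := exists_Od (hz0 0)
  obtain ⟨d1, hd1⟩ := exists_Od (hz0 1)
  have hd0p := hd0.pos (hz 0)
  have hd1p := hd1.pos (hz 1)
  obtain ⟨u, hu⟩ : ∃ u, u = (B 0).u := ⟨_, rfl⟩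
  obtain ⟨u', hu'⟩ : ∃ u', u' = (B 1).u := ⟨_, rfl⟩
  have hup : 0 < u := by rw [hu]; exact (B 0).hu
  have hup' : 0 < u' := by rw [hu']; exact (B 1).hu
  obtain ⟨J₁, hJ₁⟩ := h8 p u u' (C * d0 + C * d1 + u) β
  obtain ⟨q₀, hq₀⟩ := h4 k 2 0 H
  obtain ⟨J₂, hJ₂⟩ := h13 p β (C + q₀)
  obtain ⟨𝒬, hQf, hQ0, hQ⟩ := h6 k (dI 0 H) (by
    by_contra hn
    push Not at hn
    exact hH (h5 k 2 0 H hn))
  obtain ⟨J, hJ⟩ : ∃ J, J = J₁ + J₂ + (C + q₀) := ⟨_, rfl⟩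
  -- orders
  have hord : ∀ (n j : ℕ) (γ : ℤ_[p]), IsUnit γ → (n : ℤ_[p]) - β = (p : ℤ_[p]) ^ j * γ →
      Od (A n 0) (d0 * p ^ (u * (p ^ j - 1))) ∧ Od (A n 1) (d1 * p ^ (u' * n)) ∧
        Ex (p ^ (u * (p ^ j - 1))) (A n 0) ∧ Ex (p ^ (u' * n)) (A n 1) := by
    intro n j γ hγ hn
    obtain ⟨η, hη, hη'⟩ := (h3 p).2.2.2.2.2.1 j γ hγ
    rw [← hn] at hη'
    rw [hA0, hA1, hη', hu, hu']
    exact ⟨(h2 k p (B 0)).2.2.1 _ η (z 0) d0 hη hd0p hd0,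
      (h2 k p (B 1)).2.2.1 n 1 (z 1) d1 isUnit_one hd1p hd1,
      (h2 k p (B 0)).2.1 _ η (z 0) (hz 0), (h2 k p (B 1)).2.1 n 1 (z 1) (hz 1)⟩
  have hball : ∀ n : ℕ, (p : ℤ_[p]) ^ J ∣ (n : ℤ_[p]) - β → (n : ℤ_[p]) ≠ β →
      ∀ (j : ℕ) (γ : ℤ_[p]), IsUnit γ → (n : ℤ_[p]) - β = (p : ℤ_[p]) ^ j * γ →
        J ≤ j ∧ C + q₀ ≤ n ∧ C + q₀ ≤ p ^ j - 1 := by
    intro n hn hnβ j γ hγ hj
    have h14 : J ≤ j := UIA_le p J j γ hγ (by rw [← hj]; exact hn)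
    refine ⟨h14, hJ₂ n ((pow_dvd_pow _ (by omega)).trans hn) hnβ, ?_⟩
    have h15 : j < p ^ j := Nat.lt_pow_self hp
    omega
  -- the zeros
  have hzero : ∀ n : ℕ, (p : ℤ_[p]) ^ J ∣ (n : ℤ_[p]) - β → (n : ℤ_[p]) ≠ β →
      ec (A n) H = 0 → ∀ (j : ℕ) (γ : ℤ_[p]), IsUnit γ →
        (n : ℤ_[p]) - β = (p : ℤ_[p]) ^ j * γ →
        (u' : ℤ_[p]) * ((n : ℤ_[p]) - β) = u * (p : ℤ_[p]) ^ j := by
    intro n hn hnβ hec j γ hγ hj
    obtain ⟨o0, o1, -, -⟩ := hord n j γ hγ hj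
    obtain ⟨b1, b2, b3⟩ := hball n hn hnβ j γ hγ hj
    have hlt : ∀ a : ℕ, a < p ^ a := fun a => Nat.lt_pow_self hp
    have c0 : C ≤ d0 * p ^ (u * (p ^ j - 1)) := by
      have e1 : p ^ j - 1 ≤ u * (p ^ j - 1) := Nat.le_mul_of_pos_left _ hup
      have e2 := hlt (u * (p ^ j - 1))
      have e3 : p ^ (u * (p ^ j - 1)) ≤ d0 * p ^ (u * (p ^ j - 1)) :=
        Nat.le_mul_of_pos_left _ hd0p
      omega
    have c1 : C ≤ d1 * p ^ (u' * n) := by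
      have e1 : n ≤ u' * n := Nat.le_mul_of_pos_left _ hup'
      have e2 := hlt (u' * n)
      have e3 : p ^ (u' * n) ≤ d1 * p ^ (u' * n) := Nat.le_mul_of_pos_left _ hd1p
      omega
    have hAA : A n = ![A n 0, A n 1] := by
      funext i
      fin_cases i <;> rfl
    rw [hAA] at hec
    obtain ⟨l1, l2⟩ := hC _ _ _ _ o0 o1 c0 c1 hec
    have m1 : u * (p ^ j - 1) ≤ C * d1 + u' * n := by
      refine UIA_pow p hp _ _ _ ?_
      have e3 : p ^ (u * (p ^ j - 1)) ≤ d0 * p ^ (u * (p ^ j - 1)) :=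
        Nat.le_mul_of_pos_left _ hd0p
      rw [mul_assoc]
      omega
    have m2 : u' * n ≤ C * d0 + u * (p ^ j - 1) := by
      refine UIA_pow p hp _ _ _ ?_
      have e3 : p ^ (u' * n) ≤ d1 * p ^ (u' * n) := Nat.le_mul_of_pos_left _ hd1p
      rw [mul_assoc]
      omega
    refine hJ₁ n j (by omega) ?_ ?_
    · rw [hj]
      exact dvd_mul_right _ _
    · have e4 : 1 ≤ p ^ j := Nat.one_le_pow _ _ (by omega)
      have e5 : u * (p ^ j - 1) = u * p ^ j - u := by rw [Nat.mul_sub, mul_one]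
      have e6 : u ≤ u * p ^ j := Nat.le_mul_of_pos_right _ (by omega)
      rw [e5] at m1 m2
      have e7 : ((u' * n : ℕ) : ℤ) ≤ ((C * d0 + (u * p ^ j - u) : ℕ) : ℤ) := by exact_mod_cast m2
      have e8 : ((u * p ^ j - u : ℕ) : ℤ) ≤ ((C * d1 + u' * n : ℕ) : ℤ) := by exact_mod_cast m1
      have e9 : ((u * p ^ j - u : ℕ) : ℤ) = (u : ℤ) * (p : ℤ) ^ j - u := by
        rw [Nat.cast_sub e6]
        push_cast
        ring
      rw [Nat.cast_add, e9] at e7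
      rw [e9] at e8
      push_cast at e7 e8 ⊢
      rw [abs_le]
      have e10 : (0 : ℤ) ≤ (C : ℤ) * d0 := by positivity
      have e11 : (0 : ℤ) ≤ (C : ℤ) * d1 := by positivity
      have e12 : (0 : ℤ) ≤ (u : ℤ) := by positivity
      constructor <;> linarith
  have hkr : ∀ n : ℕ, (p : ℤ_[p]) ^ J ∣ (n : ℤ_[p]) - β → (n : ℤ_[p]) ≠ β →
      (ec (A n) H = 0 ↔ kr (A n) ∈ 𝒬) := by
    intro n hn hnβ
    obtain ⟨j, γ, hγ, hj⟩ := UIA_val p _ (sub_ne_zero.2 hnβ)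
    obtain ⟨o0, o1, x0, x1⟩ := hord n j γ hγ hj
    obtain ⟨b1, b2, b3⟩ := hball n hn hnβ j γ hγ hj
    obtain ⟨s, hs⟩ : ∃ s, s = min (u * (p ^ j - 1)) (u' * n) := ⟨_, rfl⟩
    have hs0 : s ≤ u * (p ^ j - 1) := by rw [hs]; exact min_le_left _ _
    have hs1 : s ≤ u' * n := by rw [hs]; exact min_le_right _ _
    have hsq : q₀ ≤ p ^ s := by
      have e1 : p ^ j - 1 ≤ u * (p ^ j - 1) := Nat.le_mul_of_pos_left _ hup
      have e2 : n ≤ u' * n := Nat.le_mul_of_pos_left _ hup'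
      have e3 : q₀ ≤ s := by
        rw [hs]
        exact le_min (by omega) (by omega)
      exact e3.trans (Nat.lt_pow_self hp).le
    have hmono : ∀ (t : ℕ) (w : k⟦X⟧), s ≤ t → Ex (p ^ t) w → Ex (p ^ s) w := by
      intro t w hst hw
      obtain ⟨r, rfl⟩ := Nat.exists_eq_add_of_le hst
      rw [pow_add] at hw
      exact hw.mono
    rw [hq₀ (p ^ s) hsq (A n) (A n) (hsm n) (fun i => by rw [pow_zero, one_mul]) (by
      intro i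
      fin_cases i
      · exact hmono _ _ hs0 x0
      · exact hmono _ _ hs1 x1)]
    exact hQ (A n) (hsm n) ⟨0, o0.ne_zero⟩
  refine ⟨J, ?_⟩
  have hset : {n : ℕ | (p : ℤ_[p]) ^ J ∣ (n : ℤ_[p]) - β ∧ (n : ℤ_[p]) ≠ β ∧ ec (A n) H = 0} =
      {n : ℕ | ∃ P ∈ 𝒬, n ∈ {n : ℕ | (p : ℤ_[p]) ^ J ∣ (n : ℤ_[p]) - β ∧ (n : ℤ_[p]) ≠ β ∧
        kr (A n) = P}} := by
    ext n
    constructor
    · rintro ⟨a1, a2, a3⟩
      exact ⟨kr (A n), (hkr n a1 a2).1 a3, a1, a2, rfl⟩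
    · rintro ⟨P, hP, a1, a2, a3⟩
      exact ⟨a1, a2, (hkr n a1 a2).2 (by rw [a3]; exact hP)⟩
  rw [hset]
  refine UIA_union p h10 𝒬 hQf _ fun P hP => ?_
  by_cases hne : ∃ n : ℕ, (p : ℤ_[p]) ^ J ∣ (n : ℤ_[p]) - β ∧ (n : ℤ_[p]) ≠ β ∧ kr (A n) = P
  · obtain ⟨n₁, ⟨a1, a2, a3⟩, hmin⟩ : ∃ n₁ : ℕ, ((p : ℤ_[p]) ^ J ∣ (n₁ : ℤ_[p]) - β ∧
        (n₁ : ℤ_[p]) ≠ β ∧ kr (A n₁) = P) ∧ ∀ n : ℕ, ((p : ℤ_[p]) ^ J ∣ (n : ℤ_[p]) - β ∧
        (n : ℤ_[p]) ≠ β ∧ kr (A n) = P) → n₁ ≤ n :=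
      ⟨Nat.find hne, Nat.find_spec hne, fun n hn => Nat.find_min' hne hn⟩
    obtain ⟨j₁, γ₁, hγ₁, hj₁⟩ := UIA_val p _ (sub_ne_zero.2 a2)
    have z1 := hzero n₁ a1 a2 ((hkr n₁ a1 a2).2 (by rw [a3]; exact hP)) j₁ γ₁ hγ₁ hj₁
    have hfin := h9 k p B z β ((n₁ : ℤ_[p]) - β) n₁ u' (u * p ^ j₁) hz hup' (by ring) (by
      rw [z1]
      push_cast
      ring)
    have hset2 : {n : ℕ | (p : ℤ_[p]) ^ J ∣ (n : ℤ_[p]) - β ∧ (n : ℤ_[p]) ≠ β ∧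
        kr (A n) = P} = {n : ℕ | (∃ i : ℕ, (n : ℤ_[p]) = β + (p : ℤ_[p]) ^ i *
          ((n₁ : ℤ_[p]) - β)) ∧
    kr ![act p (B 0) (fi p ((n : ℤ_[p]) - β)) (z 0), ((B 1).f p)^[n] (z 1)] =
      kr ![act p (B 0) (fi p ((n₁ : ℤ_[p]) - β)) (z 0), ((B 1).f p)^[n₁] (z 1)]} := by
      ext n
      simp only [Set.mem_setOf_eq, hAn]
      constructor
      · rintro ⟨b1, b2, b3⟩
        refine ⟨?_, by rw [b3, a3]⟩
        obtain ⟨j, γ, hγ, hj⟩ := UIA_val p _ (sub_ne_zero.2 b2)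
        have z2 := hzero n b1 b2 ((hkr n b1 b2).2 (by rw [b3]; exact hP)) j γ hγ hj
        have e1 : u' * n + u * p ^ j₁ = u' * n₁ + u * p ^ j := by
          have e2 : ((u' * n + u * p ^ j₁ : ℕ) : ℤ_[p]) = ((u' * n₁ + u * p ^ j : ℕ) : ℤ_[p]) := by
            push_cast
            linear_combination z2 - z1
          exact_mod_cast e2
        have e3 : u' * n₁ ≤ u' * n := Nat.mul_le_mul_left _ (hmin n ⟨b1, b2, b3⟩)
        have e4 : p ^ j₁ ≤ p ^ j := Nat.le_of_mul_le_mul_left (by omega) hup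
        have e5 : j₁ ≤ j := (Nat.pow_le_pow_iff_right hp).1 e4
        refine ⟨j - j₁, ?_⟩
        have e6 : (u' : ℤ_[p]) ≠ 0 := by exact_mod_cast hup'.ne'
        have e7 : (n : ℤ_[p]) - β = (p : ℤ_[p]) ^ (j - j₁) * ((n₁ : ℤ_[p]) - β) := by
          refine mul_left_cancel₀ e6 ?_
          have e8 : (p : ℤ_[p]) ^ j = (p : ℤ_[p]) ^ (j - j₁) * (p : ℤ_[p]) ^ j₁ := by
            rw [← pow_add, Nat.sub_add_cancel e5]
          rw [z2, e8]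
          linear_combination -(p : ℤ_[p]) ^ (j - j₁) * z1
        rw [← e7]
        ring
      · rintro ⟨⟨i, hi⟩, b3⟩
        have e1 : (n : ℤ_[p]) - β = (p : ℤ_[p]) ^ i * ((n₁ : ℤ_[p]) - β) := by
          rw [hi]
          ring
        refine ⟨?_, ?_, by rw [b3, a3]⟩
        · rw [e1]
          exact a1.mul_left _
        · rw [← sub_ne_zero, e1]
          refine mul_ne_zero (pow_ne_zero _ ?_) (sub_ne_zero.2 a2)
          have := (Fact.out : p.Prime).ne_zero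
          exact_mod_cast this
    rw [hset2]
    exact hfin
  · have hset2 : {n : ℕ | (p : ℤ_[p]) ^ J ∣ (n : ℤ_[p]) - β ∧ (n : ℤ_[p]) ≠ β ∧
        kr (A n) = P} = ∅ := by
      ext n
      simp only [Set.mem_setOf_eq, Set.mem_empty_iff_false, iff_false]
      exact fun h14 => hne ⟨n, h14⟩
    rw [hset2]
    exact (h10 p).1 _ Set.finite_empty

end ETA
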