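import Pool.Agent.ETA.StC

/-!
# ETA: comparable scales
-/

set_option autoImplicit false
set_option linter.unusedVariables false

namespace ETA

open PowerSeries ETD

/-- [UIC] Comparable scales. -/
theorem thm_UIC : St_UIC := by
  intro p _ u u' C₁ β
  have hp : p.Prime := Fact.out
  have hJ : ∀ c : ℤ, ∃ J : ℕ, (c : ℤ_[p]) - u' * β ≠ 0 → ¬ (p : ℤ_[p]) ^ J ∣ (c : ℤ_[p]) - u' * β := by
    intro c
    by_cases h : (c : ℤ_[p]) - u' * β = 0
    · exact ⟨0, fun h' => absurd h h'⟩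
    · have hfin : FiniteMultiplicity (p : ℤ_[p]) ((c : ℤ_[p]) - u' * β) :=
        FiniteMultiplicity.of_not_isUnit PadicInt.prime_p.not_isUnit h
      obtain ⟨n, hn⟩ := hfin
      exact ⟨n + 1, fun _ => hn⟩
  choose J hJ using hJ
  refine ⟨(Finset.Icc (-(C₁ : ℤ)) C₁).sup J, fun n j hj hd hc => ?_⟩
  set c : ℤ := u' * n - u * (p : ℤ) ^ j with hcdef
  have h1 : J c ≤ j := by
    refine le_trans (Finset.le_sup (f := J) ?_) hj
    rw [Finset.mem_Icc]
    exact abs_le.1 hc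
  have h2 : (c : ℤ_[p]) - u' * β = u' * ((n : ℤ_[p]) - β) - u * (p : ℤ_[p]) ^ j := by
    rw [hcdef]
    push_cast
    ring
  have h3 : (p : ℤ_[p]) ^ J c ∣ (c : ℤ_[p]) - u' * β := by
    refine (pow_dvd_pow _ h1).trans ?_
    rw [h2]
    exact dvd_sub (hd.mul_left _) (dvd_mul_left _ _)
  have h4 : (c : ℤ_[p]) - u' * β = 0 := by
    by_contra h
    exact hJ c h h3
  rw [h2] at h4
  exact sub_eq_zero.1 h4

end ETA
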