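import Pool.Agent.ETA.StC

/-!
# ETA, module UIP: periodicity, types `U`, `I` (helper31)
-/

set_option autoImplicit false
set_option linter.unusedVariables false

namespace ETA

open PowerSeries ETD

/-- sets of naturals closed under sums and differences -/
private theorem UIP_sub (Δ : Set ℕ) (h0 : 0 ∈ Δ) (h1 : ∀ m ∈ Δ, ∀ m' ∈ Δ, m + m' ∈ Δ)
    (h2 : ∀ m ∈ Δ, ∀ m', m + m' ∈ Δ → m' ∈ Δ) : ∃ D : ℕ, ∀ m, m ∈ Δ ↔ D ∣ m := by
  classical
  by_cases hex : ∃ m, 0 < m ∧ m ∈ Δ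
  · obtain ⟨D, ⟨hD0, hD⟩, hmin⟩ : ∃ D, (0 < D ∧ D ∈ Δ) ∧ ∀ m, 0 < m → m ∈ Δ → D ≤ m :=
      ⟨Nat.find hex, Nat.find_spec hex, fun m a b => Nat.find_min' hex ⟨a, b⟩⟩
    have hmul : ∀ q : ℕ, D * q ∈ Δ := by
      intro q
      induction q with
      | zero => exact h0
      | succ q ih =>
        rw [Nat.mul_succ]
        exact h1 _ ih _ hD
    refine ⟨D, fun m => ⟨fun hm => ?_, ?_⟩⟩
    · rw [← Nat.div_add_mod m D] at hm
      have h3 := h2 _ (hmul _) _ hm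
      rcases Nat.eq_zero_or_pos (m % D) with h4 | h4
      · exact Nat.dvd_of_mod_eq_zero h4
      · exact absurd (hmin _ h4 h3) (not_le.2 (Nat.mod_lt m hD0))
    · rintro ⟨q, rfl⟩
      exact hmul q
  · refine ⟨0, fun m => ⟨fun hm => ?_, fun hm => ?_⟩⟩
    · rw [zero_dvd_iff]
      by_contra hm0
      exact hex ⟨m, Nat.pos_of_ne_zero hm0, hm⟩
    · rw [zero_dvd_iff] at hm
      rw [hm]
      exact h0

theorem thm_UIP (hACT : St_ACT) (hACO : St_ACO) (hACS : St_ACS) (hFIP : St_FIP)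
    (hAPJ : St_APJ) : St_UIP := by
  intro k _ p _ _ B z β ν₁ n₁ a b hz ha hn₁ hab
  have hp : p.Prime := Fact.out
  have hch : CharP (ZMod p)⟦X⟧ p := charP_of_injective_ringHom (C_injective (R := ZMod p)) p
  obtain ⟨F1, F2, -, F4, -, -, -⟩ := hFIP p
  -- the powers
  have hpw_add : ∀ β γ : ℤ_[p], pw p (1 + X : (ZMod p)⟦X⟧) (β + γ) =
      pw p (1 + X : (ZMod p)⟦X⟧) β * pw p (1 + X : (ZMod p)⟦X⟧) γ := by
    intro β γ
    have h1 := F1 (β + γ)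
    rw [F2, mul_add, F1, mul_left_comm, F1] at h1
    linear_combination -h1
  have hpw_zero : pw p (1 + X : (ZMod p)⟦X⟧) 0 = 1 := by
    have h1 := F1 0
    rw [F4, mul_zero] at h1
    exact (sub_eq_zero.1 h1.symm)
  have hpw_nat : ∀ (m : ℕ) (ν : ℤ_[p]), pw p (1 + X : (ZMod p)⟦X⟧) ((m : ℤ_[p]) * ν) =
      pw p (1 + X : (ZMod p)⟦X⟧) ν ^ m := by
    intro m ν
    induction m with
    | zero => rw [Nat.cast_zero, zero_mul, hpw_zero, pow_zero]
    | succ m ih => rw [Nat.cast_succ, add_mul, one_mul, hpw_add, ih, pow_succ]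
  obtain ⟨y, hy⟩ : ∃ y, y = X * fi p ν₁ := ⟨_, rfl⟩
  have hfi : ∀ i : ℕ, fi p ((p : ℤ_[p]) ^ i * ν₁) = fi p ν₁ * y ^ (p ^ i - 1) := by
    intro i
    have h1 : X * fi p ((p : ℤ_[p]) ^ i * ν₁) = y ^ p ^ i := by
      have h2 : ((p : ℤ_[p]) ^ i) = ((p ^ i : ℕ) : ℤ_[p]) := by push_cast; rfl
      rw [F1, h2, hpw_nat, hy, F1, sub_pow_char_pow, one_pow]
    have h3 : y ^ p ^ i = y ^ (p ^ i - 1) * y := by
      rw [← pow_succ, Nat.sub_add_cancel (Nat.one_le_pow _ _ hp.pos)]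
    apply mul_left_cancel₀ (X_ne_zero (R := ZMod p))
    rw [h1, h3, hy]
    ring
  -- the points
  obtain ⟨Am, hAm⟩ : ∃ Am : ℕ → ℕ → Fin 2 → k⟦X⟧, ∀ m l, Am m l =
      ![act p (B 0) (fi p ν₁ * y ^ m) (z 0), ((B 1).f p)^[n₁ + l] (z 1)] := ⟨_, fun _ _ => rfl⟩
  have hAm1 : ∀ m l, Am m l 1 = act p (B 1) (X ^ (n₁ + l)) (z 1) := by
    intro m l
    rw [hAm, (hACO k p (B 1)).1 (n₁ + l) (z 1) (hz 1)]
    rfl
  have hAm0 : ∀ m l, Am m l 0 = act p (B 0) (fi p ν₁ * y ^ m) (z 0) := by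
    intro m l
    rw [hAm]
    rfl
  have hsm : ∀ m l, Sm (Am m l) := by
    intro m l i
    fin_cases i
    · show X ∣ Am m l 0
      rw [hAm0]
      exact (hACT k p (B 0)).2.2.2.2.2.2.1 _ _ (hz 0)
    · show X ∣ Am m l 1
      rw [hAm1]
      exact (hACT k p (B 1)).2.2.2.2.2.2.1 _ _ (hz 1)
  have hstar : ∀ m l m₁ l₁, kr (Am m l) = kr (Am m₁ l₁) → ∀ m' l',
      kr (Am (m + m') (l + l')) = kr (Am (m₁ + m') (l₁ + l')) := by
    intro m l m₁ l₁ h m' l'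
    obtain ⟨G, hG, hGe⟩ := hACS k p B ![y ^ m', X ^ l']
    have h1 : ∀ m l, Am (m + m') (l + l') = fun i => e (Am m l) (G i) := by
      intro m l
      funext i
      rw [hGe _ (hsm m l) i]
      fin_cases i
      · show Am (m + m') (l + l') 0 = act p (B 0) (y ^ m') (Am m l 0)
        rw [hAm0, hAm0, ← (hACT k p (B 0)).2.2.2.2.1 _ _ _ (hz 0)]
        congr 1
        rw [pow_add]
        ring
      · show Am (m + m') (l + l') 1 = act p (B 1) (X ^ l') (Am m l 1)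
        rw [hAm1, hAm1, ← (hACT k p (B 1)).2.2.2.2.1 _ _ _ (hz 1)]
        congr 1
        rw [← pow_add]
        congr 1
        omega
    rw [h1, h1]
    exact kr_comp (hsm _ _) (hsm _ _) G hG h
  obtain ⟨D, hD⟩ := UIP_sub {m : ℕ | ∃ l : ℕ, a * l = b * m ∧ kr (Am m l) = kr (Am 0 0)}
    ⟨0, by rw [mul_zero, mul_zero], rfl⟩
    (by
      rintro m ⟨l, hl, hk⟩ m' ⟨l', hl', hk'⟩
      refine ⟨l + l', by rw [mul_add, mul_add, hl, hl'], ?_⟩
      have h1 := hstar m l 0 0 hk m' l'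
      rw [zero_add, zero_add] at h1
      exact h1.trans hk')
    (by
      rintro m ⟨l, hl, hk⟩ m' ⟨l'', hl'', hk''⟩
      have h1 : l ≤ l'' := by
        have h2 : a * l ≤ a * l'' := by
          rw [hl, hl'']
          exact Nat.mul_le_mul_left b (Nat.le_add_right m m')
        exact Nat.le_of_mul_le_mul_left h2 ha
      obtain ⟨l', rfl⟩ := Nat.exists_eq_add_of_le h1
      refine ⟨l', ?_, ?_⟩
      · rw [mul_add, mul_add, hl] at hl''
        exact Nat.add_left_cancel hl''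
      · have h2 := hstar m l 0 0 hk m' l'
        rw [zero_add, zero_add] at h2
        exact h2.symm.trans hk'')
  -- the exponents
  have hexp : ∀ (n i : ℕ), (n : ℤ_[p]) = β + (p : ℤ_[p]) ^ i * ν₁ →
      ∃ l, n = n₁ + l ∧ a * l = b * (p ^ i - 1) := by
    intro n i hn
    have h1 : a * n = a * n₁ + b * (p ^ i - 1) := by
      have h2 : (((a * n : ℕ)) : ℤ_[p]) = ((a * n₁ + b * (p ^ i - 1) : ℕ) : ℤ_[p]) := by
        rw [Nat.cast_mul, Nat.cast_add, Nat.cast_mul, Nat.cast_mul,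
          Nat.cast_sub (Nat.one_le_pow _ _ hp.pos), Nat.cast_pow, Nat.cast_one, hn, hn₁, ← hab]
        ring
      exact_mod_cast h2
    have h3 : n₁ ≤ n := by
      have h4 : a * n₁ ≤ a * n := by
        rw [h1]
        exact Nat.le_add_right _ _
      exact Nat.le_of_mul_le_mul_left h4 ha
    obtain ⟨l, rfl⟩ := Nat.exists_eq_add_of_le h3
    refine ⟨l, rfl, ?_⟩
    rw [mul_add] at h1
    exact Nat.add_left_cancel h1
  have hset : {n : ℕ | (∃ i : ℕ, (n : ℤ_[p]) = β + (p : ℤ_[p]) ^ i * ν₁) ∧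
      kr ![act p (B 0) (fi p ((n : ℤ_[p]) - β)) (z 0), ((B 1).f p)^[n] (z 1)] =
      kr ![act p (B 0) (fi p ν₁) (z 0), ((B 1).f p)^[n₁] (z 1)]} =
      {n : ℕ | ∃ i : ℕ, (n : ℤ_[p]) = β + (p : ℤ_[p]) ^ i * ν₁ ∧ D ∣ p ^ 0 * (p ^ i - 1)} := by
    have h00 : Am 0 0 = ![act p (B 0) (fi p ν₁) (z 0), ((B 1).f p)^[n₁] (z 1)] := by
      rw [hAm, pow_zero, mul_one, add_zero]
    have hpt : ∀ (n i l : ℕ), (n : ℤ_[p]) = β + (p : ℤ_[p]) ^ i * ν₁ → n = n₁ + l →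
        ![act p (B 0) (fi p ((n : ℤ_[p]) - β)) (z 0), ((B 1).f p)^[n] (z 1)] =
          Am (p ^ i - 1) l := by
      intro n i l hn hl
      have h1 : (n : ℤ_[p]) - β = (p : ℤ_[p]) ^ i * ν₁ := by rw [hn, add_sub_cancel_left]
      rw [hAm, h1, hfi, hl]
    ext n
    constructor
    · rintro ⟨⟨i, hi⟩, hk⟩
      refine ⟨i, hi, ?_⟩
      rw [pow_zero, one_mul]
      obtain ⟨l, hl, hl2⟩ := hexp n i hi
      rw [hpt n i l hi hl, ← h00] at hk
      exact (hD _).1 ⟨l, hl2, hk⟩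
    · rintro ⟨i, hi, hd⟩
      refine ⟨⟨i, hi⟩, ?_⟩
      rw [pow_zero, one_mul] at hd
      obtain ⟨l', hl', hk⟩ := (hD _).2 hd
      obtain ⟨l, hl, hl2⟩ := hexp n i hi
      have h1 : l = l' := Nat.eq_of_mul_eq_mul_left ha (hl2.trans hl'.symm)
      rw [hpt n i l hi hl, ← h00, h1]
      exact hk
  rw [hset]
  exact hAPJ p β ν₁ D 0

end ETA
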