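import Pool.Agent.ETD.All
import Pool.Agent.ETA.OPB
import Pool.Agent.ETA.ACT
import Pool.Agent.ETA.ACO
import Pool.Agent.ETA.ACS
import Pool.Agent.ETA.FIP
import Pool.Agent.ETA.PWS
import Pool.Agent.ETA.PWM
import Pool.Agent.ETA.FIM
import Pool.Agent.ETA.SRS
import Pool.Agent.ETA.NFC
import Pool.Agent.ETA.NRS
import Pool.Agent.ETA.NRA
import Pool.Agent.ETA.LOU
import Pool.Agent.ETA.LOI
import Pool.Agent.ETA.DGC
import Pool.Agent.ETA.DGZ
import Pool.Agent.ETA.HTS
import Pool.Agent.ETA.MPR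
import Pool.Agent.ETA.FC2
import Pool.Agent.ETA.EVP
import Pool.Agent.ETA.RMV
import Pool.Agent.ETA.BLL
import Pool.Agent.ETA.BLN
import Pool.Agent.ETA.APJ
import Pool.Agent.ETA.LUC
import Pool.Agent.ETA.ALS
import Pool.Agent.ETA.ALT
import Pool.Agent.ETA.ALA
import Pool.Agent.ETA.ALR
import Pool.Agent.ETA.ALD
import Pool.Agent.ETA.ALI
import Pool.Agent.ETA.ALB
import Pool.Agent.ETA.ALG
import Pool.Agent.ETA.TRA
import Pool.Agent.ETA.ADC
import Pool.Agent.ETA.SPR
import Pool.Agent.ETA.PU2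
import Pool.Agent.ETA.PUU
import Pool.Agent.ETA.UIC
import Pool.Agent.ETA.UIP
import Pool.Agent.ETA.UIA
import Pool.Agent.ETA.PUI
import Pool.Agent.ETA.PIA
import Pool.Agent.ETA.PII
import Pool.Agent.ETA.ONE
import Pool.Agent.ETA.NZS
import Pool.Agent.ETA.EI1
import Pool.Agent.ETA.EIK
import Pool.Agent.ETA.EIV
import Pool.Agent.ETA.EI2
import Pool.Agent.ETA.EI3
import Pool.Agent.ETA.EI4
import Pool.Agent.ETA.EI5
import Pool.Agent.ETA.PEA
import Pool.Agent.ETA.PEI
import Pool.Agent.ETA.UPH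
import Pool.Agent.ETA.TYP
import Pool.Agent.ETA.ADM
import Pool.Agent.ETA.CLI
import Pool.Agent.ETA.CLJ
import Pool.Agent.ETA.DSK
import Pool.Agent.ETA.RE2
import Pool.Agent.ETA.TRO
import Pool.Agent.ETA.RE3
import Pool.Agent.ETA.KCL
import Pool.Agent.ETA.FI2

/-!
# ETA: all modules
-/

set_option autoImplicit false

namespace ETA

theorem all_OPB : St_OPB := thm_OPB

theorem all_ACT : St_ACT := thm_ACT all_OPB

theorem all_ACO : St_ACO := thm_ACO all_OPB all_ACT

theorem all_ACS : St_ACS := thm_ACS all_OPB all_ACT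

theorem all_FIP : St_FIP := thm_FIP ETD.all_PWB ETD.all_PWP

theorem all_PWS : St_PWS := thm_PWS ETD.all_PWB

theorem all_PWM : St_PWM := thm_PWM ETD.all_PWB

theorem all_FIM : St_FIM := thm_FIM all_FIP all_PWS all_PWM

theorem all_SRS : St_SRS := thm_SRS

theorem all_NFC : St_NFC := thm_NFC ETD.all_HEN

theorem all_NRS : St_NRS := thm_NRS

theorem all_NRA : St_NRA := thm_NRA all_SRS all_NFC all_NRS

theorem all_LOU : St_LOU := thm_LOU all_ACT all_ACO all_FIP all_NRA ETD.all_TAY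

theorem all_LOI : St_LOI := thm_LOI all_NRA ETD.all_HEN ETD.all_TAY

theorem all_DGC : St_DGC := thm_DGC ETD.all_DIG

theorem all_DGZ : St_DGZ := thm_DGZ

theorem all_HTS : St_HTS := thm_HTS ETD.all_HTL

theorem all_MPR : St_MPR := thm_MPR ETD.all_HTL

theorem all_FC2 : St_FC2 := thm_FC2 ETD.all_FAC

theorem all_EVP : St_EVP := thm_EVP ETD.all_SUN

theorem all_RMV : St_RMV := thm_RMV ETD.all_SUN

theorem all_BLL : St_BLL := thm_BLL ETD.all_SUN

theorem all_BLN : St_BLN := thm_BLN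

theorem all_APJ : St_APJ := thm_APJ ETD.all_SUN ETD.all_SPQ

theorem all_LUC : St_LUC := thm_LUC ETD.all_PWB ETD.all_PWP

theorem all_ALS : St_ALS := thm_ALS all_FIP all_FIM

theorem all_ALT : St_ALT := thm_ALT all_FIP all_ALS all_APJ

theorem all_ALA : St_ALA := thm_ALA all_LUC all_FIP all_FIM all_ALS

theorem all_ALR : St_ALR := thm_ALR all_ALS

theorem all_ALD : St_ALD := thm_ALD all_FIP all_FIM all_ALS all_ALR

theorem all_ALI : St_ALI := thm_ALI

theorem all_ALB : St_ALB := thm_ALB all_LUC all_FIP all_ALS all_ALR all_ALD all_ALI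

theorem all_ALG : St_ALG := thm_ALG all_ALT all_ALA all_ALB ETD.all_SUN all_BLL all_RMV

theorem all_TRA : St_TRA := thm_TRA

theorem all_ADC : St_ADC := thm_ADC ETD.all_DIG all_DGC all_ACT all_ACO all_HTS all_TRA

theorem all_SPR : St_SPR := thm_SPR all_ACT all_ACO all_ACS all_HTS all_ADC

theorem all_PU2 : St_PU2 := thm_PU2 all_ACO all_FIP all_DGC all_DGZ all_MPR all_FC2 all_SPR all_ALG ETD.all_SUN all_BLL all_RMV

theorem all_PUU : St_PUU := thm_PUU all_LOU all_ACT ETD.all_HHH all_PU2 ETD.all_SUN ETD.all_CPT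

theorem all_UIC : St_UIC := thm_UIC

theorem all_UIP : St_UIP := thm_UIP all_ACT all_ACO all_ACS all_FIP all_APJ

theorem all_UIA : St_UIA := thm_UIA all_ACT all_ACO all_FIP all_DGC all_DGZ all_MPR all_FC2 all_UIC all_UIP ETD.all_SUN all_BLL all_RMV all_BLN

theorem all_PUI : St_PUI := thm_PUI all_LOU all_LOI all_ACT all_ACO ETD.all_HHH all_UIA ETD.all_SUN ETD.all_CPT ETD.all_PRE

theorem all_PIA : St_PIA := thm_PIA all_ACT all_ACO all_ACS all_DGC all_DGZ all_MPR all_FC2 all_EVP ETD.all_SUN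

theorem all_PII : St_PII := thm_PII all_LOI all_ACT all_ACO ETD.all_HHH all_PIA ETD.all_PRE

theorem all_ONE : St_ONE := thm_ONE

theorem all_NZS : St_NZS := thm_NZS

theorem all_EI1 : St_EI1 := thm_EI1

theorem all_EIK : St_EIK := thm_EIK

theorem all_EIV : St_EIV := thm_EIV

theorem all_EI2 : St_EI2 := thm_EI2 ETD.all_PWB ETD.all_PWP all_PWS all_PWM all_ONE all_NZS all_EIK all_EIV

theorem all_EI3 : St_EI3 := thm_EI3

theorem all_EI4 : St_EI4 := thm_EI4

theorem all_EI5 : St_EI5 := thm_EI5 ETD.all_PWP all_EI1 all_EI2 all_EI3 all_ACO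

theorem all_PEA : St_PEA := thm_PEA ETD.all_PWB ETD.all_PWP ETD.all_FRO all_ACO all_DGC all_DGZ all_MPR all_FC2 all_BLN all_EI4 all_EI5

theorem all_PEI : St_PEI := thm_PEI ETD.all_LOC all_LOI ETD.all_HHH all_PEA ETD.all_SUN ETD.all_CPT ETD.all_PRE all_BLL all_RMV

theorem all_UPH : St_UPH := thm_UPH

theorem all_TYP : St_TYP := thm_TYP ETD.all_NNN ETD.all_NUU ETD.all_PRE all_EVP all_UPH all_PUU all_PUI all_PII all_PEI

theorem all_ADM : St_ADM := thm_ADM

theorem all_CLI : St_CLI := thm_CLI all_ADM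

theorem all_CLJ : St_CLJ := thm_CLJ ETD.all_DSC all_CLI

theorem all_DSK : St_DSK := thm_DSK ETD.all_DSC ETD.all_PMD all_CLI

theorem all_RE2 : St_RE2 := thm_RE2 all_DSK all_TYP ETD.all_SAF ETD.all_SUN

theorem all_TRO : St_TRO := thm_TRO

theorem all_RE3 : St_RE3 := thm_RE3 ETD.all_EMB all_TRO all_RE2

theorem all_KCL : St_KCL := thm_KCL all_ADM

theorem all_FI2 : St_FI2 := thm_FI2 all_KCL all_CLJ all_RE3 ETD.all_SAF ETD.all_SUN

end ETA
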