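import Pool.Agent.ETD.StC

/-!
# ETA: return sets of pairs of additive polynomials in characteristic `p`, definitions

Continuation of `Pool/Agent/ETD`. `k⟦X⟧` is the ring `k⟦t⟧`, `t = X`. `T` denotes the variable of
`(ZMod p)⟦X⟧`; the power series in `T` act on the small elements of `k⟦t⟧`, `T` as an additive
polynomial with coefficients in `k`.
-/

set_option autoImplicit false
set_option linter.unusedVariables false

namespace ETA

open PowerSeries ETD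

/-- the additive polynomial with the coefficients `c 0, ..., c (r - 1)` -/
noncomputable def ad {R : Type} [CommRing R] (p r : ℕ) (c : ℕ → R) (w : R) : R :=
  ∑ i ∈ Finset.range r, c i * w ^ p ^ i

/-- the data of an additive polynomial `c u * Y ^ p ^ u + ... + c (r - 1) * Y ^ p ^ (r - 1)` with
coefficients in `k`, `0 < u`, `c u ≠ 0` -/
structure Op (k : Type) [Field k] where
  r : ℕ
  u : ℕ
  c : ℕ → k
  hu : 0 < u
  hr : u < r
  h0 : ∀ i, i < u → c i = 0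
  h1 : c u ≠ 0

/-- the map of `k⟦t⟧` -/
noncomputable def Op.f {k : Type} [Field k] (p : ℕ) (B : Op k) (w : k⟦X⟧) : k⟦X⟧ :=
  ad p B.r (fun i => C (B.c i)) w

/-- the scalar of `k⟦t⟧` given by an element of the prime field -/
noncomputable def sc (k : Type) [Field k] (p : ℕ) [CharP k p] (c : ZMod p) : k⟦X⟧ :=
  C (ZMod.castHom (dvd_refl p) k c)

/-- the action of the power series `φ = ∑ φ i T ^ i` on small elements: `∑ φ i B ^ i w` -/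
noncomputable def act {k : Type} [Field k] (p : ℕ) [CharP k p] (B : Op k) (φ : (ZMod p)⟦X⟧)
    (w : k⟦X⟧) : k⟦X⟧ :=
  PowerSeries.mk fun m => coeff m (∑ i ∈ Finset.range (m + 1), sc k p (coeff i φ) * (B.f p)^[i] w)

/-- the power series `((1 + T) ^ β - 1) / T` -/
noncomputable def fi (p : ℕ) [Fact p.Prime] (β : ℤ_[p]) : (ZMod p)⟦X⟧ :=
  PowerSeries.mk fun m => coeff (m + 1) (pw p (1 + X : (ZMod p)⟦X⟧) β)

/-- the action on pairs -/
noncomputable def pa {k : Type} [Field k] (p : ℕ) [CharP k p] (B : Fin 2 → Op k)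
    (z : Fin 2 → k⟦X⟧) (φ : (ZMod p)⟦X⟧) : Fin 2 → k⟦X⟧ := fun i => act p (B i) φ (z i)

/-- `w` is a small series in `t ^ q` -/
def Ex {k : Type} [Field k] (q : ℕ) (w : k⟦X⟧) : Prop :=
  ∃ (hq : q ≠ 0) (y : k⟦X⟧), X ∣ y ∧ w = expand q hq y

/-- the series vanishing at `z` -/
def kr {k : Type} [Field k] {n : ℕ} (z : Fin n → k⟦X⟧) : Set (MvPowerSeries (Fin n) k) :=
  {F | e z F = 0}

/-- the order of `w` is `d` -/
def Od {k : Type} [Field k] (w : k⟦X⟧) (d : ℕ) : Prop := ∃ η : k⟦X⟧, IsUnit η ∧ w = X ^ d * η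

/-! ## Sequences in residue discs -/

/-- orbit of an étale map whose derivative is not a root of unity -/
def TyE {k : Type} [Field k] (p : ℕ) (x : ℕ → k⟦X⟧) : Prop :=
  ∃ (α a : k⟦X⟧) (E : Polynomial k⟦X⟧), Lc α a E ∧ a ≠ 1 ∧ ∀ n, x n = (ph p α a E)^[n] 0

/-- orbit of `w ↦ α + w + c u * w ^ p ^ u + ...` -/
def TyU {k : Type} [Field k] (p : ℕ) (x : ℕ → k⟦X⟧) : Prop :=
  ∃ (r u : ℕ) (c : ℕ → k⟦X⟧) (α : k⟦X⟧), 0 < u ∧ u < r ∧ (∀ i < u, c i = 0) ∧ IsUnit (c u) ∧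
    X ^ 2 ∣ α ∧ α ≠ 0 ∧ ∀ n, x n = (fun w => α + w + ad p r c w)^[n] 0

/-- orbit of `w ↦ α + c u * w ^ p ^ u + ...` -/
def TyI {k : Type} [Field k] (p : ℕ) (x : ℕ → k⟦X⟧) : Prop :=
  ∃ (r u : ℕ) (c : ℕ → k⟦X⟧) (α : k⟦X⟧), 0 < u ∧ u < r ∧ (∀ i < u, c i = 0) ∧ IsUnit (c u) ∧
    X ∣ α ∧ ∀ n, x n = (fun w => α + ad p r c w)^[n] 0

/-- eventually periodic sequence -/
def TyP {R : Type} (x : ℕ → R) : Prop := ∃ n₀ N : ℕ, 0 < N ∧ ∀ n ≥ n₀, x (n + N) = x n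

/-- the maps considered: étale with a derivative which is not a root of unity; inseparable additive
plus a constant; additive with derivative `1` plus a constant; translations; constants -/
def Cl {R : Type} [CommRing R] (p : ℕ) (F : R → R) : Prop :=
  (∃ (a : R) (G : Polynomial R), IsUnit a ∧ (∀ m : ℕ, 0 < m → a ^ m ≠ 1) ∧ F = fm p a G) ∨
  (∃ (r u : ℕ) (c : ℕ → R) (b : R), 0 < u ∧ u < r ∧ (∀ i < u, c i = 0) ∧ IsUnit (c u) ∧
    F = fun w => b + ad p r c w) ∨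
  (∃ (r u : ℕ) (c : ℕ → R) (b : R), 0 < u ∧ u < r ∧ (∀ i < u, c i = 0) ∧ IsUnit (c u) ∧
    F = fun w => b + w + ad p r c w) ∨
  (∃ b : R, F = fun w => b + w) ∨ ∃ b : R, F = fun _ => b

/-! ## The properties of the sets of power series of the algebraic part -/

/-- the properties of the set of the `φ` such that the point `φ z` lies on a given curve -/
structure Sp (p : ℕ) (S : Set (ZMod p)⟦X⟧) : Prop where
  h0 : (0 : (ZMod p)⟦X⟧) ∉ S
  h1 : ∀ φ ∈ S, ∀ φ' ∈ S, ∀ χ : (ZMod p)⟦X⟧, χ * φ ∈ S → χ * φ' ∈ S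
  h2 : ∀ φ : (ZMod p)⟦X⟧, φ ≠ 0 → (∀ N : ℕ, ∃ φ' ∈ S, X ^ N ∣ φ - φ') → φ ∈ S
  h3 : ∀ η φ : (ZMod p)⟦X⟧, IsUnit η → (∀ c : ZMod p, η ≠ C c) → φ ∈ S → η * φ ∈ S →
    ∀ φ₁ ∈ S, ∀ φ₂ ∈ S, φ₁ + φ₂ ∈ S ∨ φ₁ + φ₂ = 0

/-- the multipliers of `S`, with `0` -/
def Mu {p : ℕ} (S : Set (ZMod p)⟦X⟧) : Set (ZMod p)⟦X⟧ := {χ | χ = 0 ∨ ∃ φ ∈ S, χ * φ ∈ S}

/-- the exponents `ν` with `fi ν ∈ S` -/
def So {p : ℕ} [Fact p.Prime] (S : Set (ZMod p)⟦X⟧) : Set ℤ_[p] := {ν | ν ≠ 0 ∧ fi p ν ∈ S}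

end ETA
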