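import Pool.Agent.ETA.StA

/-!
# ETA, module MPR: the common zeros of an ideal
-/

set_option autoImplicit false
set_option linter.unusedVariables false

namespace ETA

open PowerSeries ETD

theorem thm_MPR (hHTL : ETD.St_HTL) : St_MPR := by
  intro k _ I hI
  obtain ⟨F0, hF0, hne⟩ := hI
  have hfin := Ideal.finite_minimalPrimes_of_isNoetherianRing (MvPowerSeries (Fin 2) k) I
  refine ⟨(fun 𝔮 : Ideal (MvPowerSeries (Fin 2) k) => (𝔮 : Set (MvPowerSeries (Fin 2) k))) ''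
    I.minimalPrimes, hfin.image _, ?_, ?_⟩
  · rintro P ⟨𝔮, h𝔮, rfl⟩
    exact ⟨F0, h𝔮.1.2 hF0, hne⟩
  · intro z hz hz0
    constructor
    · intro h
      have := ker_isPrime hz
      have hle : I ≤ ker hz := fun F hF => (mem_ker hz F).2 (h F hF)
      obtain ⟨𝔮, h𝔮, h1⟩ := Ideal.exists_minimalPrimes_le hle
      have h2 : 𝔮 ≠ ⊥ := by
        rintro rfl
        exact hne ((Submodule.mem_bot _).1 (h𝔮.1.2 hF0))
      have h3 := hHTL k z hz hz0 𝔮 h𝔮.1.1 h2 h1
      refine ⟨𝔮, h𝔮, ?_⟩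
      ext F
      simp only
      rw [h3, SetLike.mem_coe, mem_ker]
      exact Iff.rfl
    · rintro ⟨𝔮, h𝔮, h1⟩ F hF
      have h2 : F ∈ kr z := by
        rw [← h1]
        exact h𝔮.1.2 hF
      exact h2

end ETA
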