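import Pool.Agent.ETA.StC

/-!
# ETA, module PU2: local zero sets, types `U`, `U` (helper31)
-/

set_option autoImplicit false
set_option linter.unusedVariables false

namespace ETA

open PowerSeries ETD

/-- a large power -/
private theorem PU2_big (p : ℕ) (hp : p.Prime) (j : ℕ) : j < p ^ (p ^ j - 1) := by
  have h1 : j ≤ p ^ j - 1 := Nat.le_sub_one_of_lt (Nat.lt_pow_self hp.one_lt)
  exact (Nat.lt_pow_self hp.one_lt).trans_le (Nat.pow_le_pow_right hp.pos h1)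

/-- finite unions -/
private theorem PU2_union (hSUN : ETD.St_SUN) (p : ℕ) {α : Type} (s : Finset α)
    (R : α → Set ℕ) (h : ∀ a ∈ s, PSet p (R a)) : PSet p {n | ∃ a ∈ s, n ∈ R a} := by
  classical
  induction s using Finset.induction_on with
  | empty =>
    have h1 : {n : ℕ | ∃ a ∈ (∅ : Finset α), n ∈ R a} = ∅ := by
      refine Set.eq_empty_of_forall_notMem fun n hn => ?_
      obtain ⟨a, ha, -⟩ := hn
      exact absurd ha (Finset.notMem_empty a)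
    rw [h1]
    exact (hSUN p).1 _ Set.finite_empty
  | insert a s ha ih =>
    have h1 : {n : ℕ | ∃ b ∈ insert a s, n ∈ R b} = R a ∪ {n | ∃ b ∈ s, n ∈ R b} := by
      ext n
      constructor
      · rintro ⟨b, hb, hn⟩
        rcases Finset.mem_insert.1 hb with rfl | hb
        · exact Or.inl hn
        · exact Or.inr ⟨b, hb, hn⟩
      · rintro (hn | ⟨b, hb, hn⟩)
        · exact ⟨a, Finset.mem_insert_self _ _, hn⟩
        · exact ⟨b, Finset.mem_insert_of_mem hb, hn⟩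
    rw [h1]
    exact (hSUN p).2.1 _ _ (h a (Finset.mem_insert_self _ _))
      (ih fun b hb => h b (Finset.mem_insert_of_mem hb))

theorem thm_PU2 (hACO : St_ACO) (hFIP : St_FIP) (hDGC : St_DGC) (hDGZ : St_DGZ) (hMPR : St_MPR)
    (hFC2 : St_FC2) (hSPR : St_SPR) (hALG : St_ALG) (hSUN : ETD.St_SUN) (hBLL : St_BLL)
    (hRMV : St_RMV) : St_PU2 := by
  intro k _ p _ _ B z β hz hz0 H
  have hp : p.Prime := Fact.out
  -- the values
  choose d hd using fun i => exists_Od (hz0 i)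
  have hdpos : ∀ i, 0 < d i := fun i => (hd i).pos (hz i)
  have hval : ∀ (n J : ℕ), (p : ℤ_[p]) ^ J ∣ (n : ℤ_[p]) - β → (n : ℤ_[p]) ≠ β →
      ∃ j, J ≤ j ∧ ∀ i, Od (pa p B z (fi p ((n : ℤ_[p]) - β)) i)
        (d i * p ^ ((B i).u * (p ^ j - 1))) ∧
        Ex (p ^ ((B i).u * (p ^ j - 1))) (pa p B z (fi p ((n : ℤ_[p]) - β)) i) := by
    intro n J hJ hn
    have hν0 : (n : ℤ_[p]) - β ≠ 0 := sub_ne_zero.2 hn
    obtain ⟨j, w, hjw⟩ : ∃ (v : ℕ) (w : ℤ_[p]ˣ), (n : ℤ_[p]) - β = w * (p : ℤ_[p]) ^ v :=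
      ⟨_, _, PadicInt.unitCoeff_spec hν0⟩
    refine ⟨j, ?_, fun i => ?_⟩
    · rw [hjw] at hJ
      have h1 : (p : ℤ_[p]) ^ J ∣ (p : ℤ_[p]) ^ j := by
        have h2 := hJ.mul_left ((w⁻¹ : ℤ_[p]ˣ) : ℤ_[p])
        rwa [← mul_assoc, Units.inv_mul, one_mul] at h2
      exact (pow_dvd_pow_iff PadicInt.prime_p.ne_zero PadicInt.prime_p.not_isUnit).1 h1
    · have h1 := (hFIP p).2.2.2.2.2.1 j w (Units.isUnit w)
      rw [mul_comm, ← hjw] at h1
      obtain ⟨η, hη, hη2⟩ := h1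
      rw [hη2]
      exact ⟨(hACO k p (B i)).2.2.1 _ η (z i) (d i) hη (hdpos i) (hd i),
        (hACO k p (B i)).2.1 _ η (z i) (hz i)⟩
  have hq1 : ∀ (i : Fin 2) (j : ℕ), j < p ^ ((B i).u * (p ^ j - 1)) := fun i j =>
    (PU2_big p hp j).trans_le (Nat.pow_le_pow_right hp.pos
      (Nat.le_mul_of_pos_left _ (B i).hu))
  have hsm : ∀ n : ℕ, (n : ℤ_[p]) ≠ β → Sm (pa p B z (fi p ((n : ℤ_[p]) - β))) := by
    intro n hn i
    obtain ⟨j, -, hj⟩ := hval n 0 (by rw [pow_zero]; exact one_dvd _) hn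
    exact (dvd_pow_self X (pow_ne_zero _ hp.ne_zero)).trans (hj i).2.small
  by_cases hH : H = 0
  · -- everything except the centre
    refine ⟨0, ?_⟩
    have h1 : ∀ n : ℕ, n ∈ {n : ℕ | (p : ℤ_[p]) ^ 0 ∣ (n : ℤ_[p]) - β ∧ (n : ℤ_[p]) ≠ β ∧
        ec (pa p B z (fi p ((n : ℤ_[p]) - β))) H = 0} ↔
        (p : ℤ_[p]) ^ 0 ∣ (n : ℤ_[p]) - β ∧ (n : ℤ_[p]) ≠ β := by
      intro n
      refine ⟨fun h => ⟨h.1, h.2.1⟩, fun h => ⟨h.1, h.2, ?_⟩⟩
      rw [hH, ec]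
      exact e_zero (hsm n h.2).cons
    by_cases hb : ∃ b : ℕ, (b : ℤ_[p]) = β
    · obtain ⟨b, hb⟩ := hb
      have h2 : {n : ℕ | (p : ℤ_[p]) ^ 0 ∣ (n : ℤ_[p]) - β ∧ (n : ℤ_[p]) ≠ β ∧
          ec (pa p B z (fi p ((n : ℤ_[p]) - β))) H = 0} =
          {n : ℕ | (p : ℤ_[p]) ^ 0 ∣ (n : ℤ_[p]) - β} \ {b} := by
        ext n
        rw [h1]
        refine and_congr_right fun _ => ?_
        rw [← hb]
        exact not_congr Nat.cast_inj
      rw [h2]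
      exact hRMV p _ b (hBLL p β 0)
    · have h2 : {n : ℕ | (p : ℤ_[p]) ^ 0 ∣ (n : ℤ_[p]) - β ∧ (n : ℤ_[p]) ≠ β ∧
          ec (pa p B z (fi p ((n : ℤ_[p]) - β))) H = 0} =
          {n : ℕ | (p : ℤ_[p]) ^ 0 ∣ (n : ℤ_[p]) - β} := by
        ext n
        rw [h1]
        exact ⟨fun h => h.1, fun h => ⟨h, fun h' => hb ⟨n, h'⟩⟩⟩
      rw [h2]
      exact hBLL p β 0
  by_cases hu : (B 0).u = (B 1).u
  · -- the same exponents
    obtain ⟨q₀, hq₀⟩ := hDGC k 2 0 H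
    have hI : ∃ F ∈ dI 0 H, F ≠ 0 := by
      by_contra hcon
      push Not at hcon
      exact hH (hDGZ k 2 0 H hcon)
    obtain ⟨Q, hQfin, hQne, hQ⟩ := hMPR k (dI 0 H) hI
    have hsets : ∀ P : Set (MvPowerSeries (Fin 2) k), P ∈ Q → ∃ J₀ : ℕ, ∀ J ≥ J₀,
        PSet p {n : ℕ | (p : ℤ_[p]) ^ J ∣ (n : ℤ_[p]) - β ∧
          (n : ℤ_[p]) - β ∈ So {φ : (ZMod p)⟦X⟧ | φ ≠ 0 ∧ kr (pa p B z φ) = P}} := fun P hP =>
      hALG p _ β (hSPR k p B z hu hz hz0 P (hQne P hP))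
    have hsets' : ∀ P : Set (MvPowerSeries (Fin 2) k), ∃ J₀ : ℕ, P ∈ Q → ∀ J ≥ J₀,
        PSet p {n : ℕ | (p : ℤ_[p]) ^ J ∣ (n : ℤ_[p]) - β ∧
          (n : ℤ_[p]) - β ∈ So {φ : (ZMod p)⟦X⟧ | φ ≠ 0 ∧ kr (pa p B z φ) = P}} := by
      intro P
      by_cases hP : P ∈ Q
      · obtain ⟨J₀, hJ₀⟩ := hsets P hP
        exact ⟨J₀, fun _ => hJ₀⟩
      · exact ⟨0, fun h => absurd h hP⟩
    choose J₀ hJ₀ using hsets'
    obtain ⟨s, hs⟩ : ∃ s : Finset (Set (MvPowerSeries (Fin 2) k)), ∀ P, P ∈ s ↔ P ∈ Q :=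
      ⟨hQfin.toFinset, fun P => hQfin.mem_toFinset⟩
    refine ⟨max q₀ (s.sup J₀), ?_⟩
    obtain ⟨J, hJ⟩ : ∃ J, J = max q₀ (s.sup J₀) := ⟨_, rfl⟩
    rw [← hJ]
    have hset : {n : ℕ | (p : ℤ_[p]) ^ J ∣ (n : ℤ_[p]) - β ∧ (n : ℤ_[p]) ≠ β ∧
        ec (pa p B z (fi p ((n : ℤ_[p]) - β))) H = 0} =
        {n : ℕ | ∃ P ∈ s, n ∈ {n : ℕ | (p : ℤ_[p]) ^ J ∣ (n : ℤ_[p]) - β ∧
          (n : ℤ_[p]) - β ∈ So {φ : (ZMod p)⟦X⟧ | φ ≠ 0 ∧ kr (pa p B z φ) = P}}} := by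
      ext n
      have hiff : (p : ℤ_[p]) ^ J ∣ (n : ℤ_[p]) - β → (n : ℤ_[p]) ≠ β →
          (ec (pa p B z (fi p ((n : ℤ_[p]) - β))) H = 0 ↔
            kr (pa p B z (fi p ((n : ℤ_[p]) - β))) ∈ Q) := by
        intro h1 h2
        obtain ⟨j, hj1, hj2⟩ := hval n J h1 h2
        have hsmn := hsm n h2
        rw [hq₀ (p ^ ((B 0).u * (p ^ j - 1))) ?_ (pa p B z (fi p ((n : ℤ_[p]) - β)))
          (pa p B z (fi p ((n : ℤ_[p]) - β))) hsmn (fun i => by rw [pow_zero, one_mul]) ?_]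
        · exact hQ _ hsmn ⟨0, (hj2 0).1.ne_zero⟩
        · have h3 : q₀ ≤ J := by
            rw [hJ]
            exact le_max_left _ _
          exact (h3.trans hj1).trans (hq1 0 j).le
        · intro i
          fin_cases i
          · exact (hj2 0).2
          · have h3 := (hj2 1).2
            rw [← hu] at h3
            exact h3
      constructor
      · rintro ⟨h1, h2, h3⟩
        refine ⟨kr (pa p B z (fi p ((n : ℤ_[p]) - β))), (hs _).2 ((hiff h1 h2).1 h3), h1,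
          sub_ne_zero.2 h2, (hFIP p).2.2.2.2.2.2 _ (sub_ne_zero.2 h2), rfl⟩
      · rintro ⟨P, hP, h1, h2, h3, h4⟩
        refine ⟨h1, sub_ne_zero.1 h2, (hiff h1 (sub_ne_zero.1 h2)).2 ?_⟩
        rw [h4]
        exact (hs P).1 hP
    rw [hset]
    refine PU2_union hSUN p s _ fun P hP => hJ₀ P ((hs P).1 hP) J ?_
    rw [hJ]
    exact (Finset.le_sup hP).trans (le_max_right _ _)
  · -- different exponents
    obtain ⟨C', hC'⟩ := hFC2 k H hH
    refine ⟨C' * (d 0 + d 1) + C', ?_⟩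
    obtain ⟨J, hJ⟩ : ∃ J, J = C' * (d 0 + d 1) + C' := ⟨_, rfl⟩
    rw [← hJ]
    have hempty : {n : ℕ | (p : ℤ_[p]) ^ J ∣ (n : ℤ_[p]) - β ∧ (n : ℤ_[p]) ≠ β ∧
        ec (pa p B z (fi p ((n : ℤ_[p]) - β))) H = 0} = ∅ := by
      refine Set.eq_empty_of_forall_notMem fun n hn => ?_
      obtain ⟨h1, h2, h3⟩ := hn
      obtain ⟨j, hj1, hj2⟩ := hval n J h1 h2
      have hv : pa p B z (fi p ((n : ℤ_[p]) - β)) = ![pa p B z (fi p ((n : ℤ_[p]) - β)) 0,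
          pa p B z (fi p ((n : ℤ_[p]) - β)) 1] := by
        funext i
        fin_cases i <;> rfl
      rw [hv] at h3
      have hCle : ∀ i, C' ≤ d i * p ^ ((B i).u * (p ^ j - 1)) := by
        intro i
        have h4 : C' ≤ p ^ ((B i).u * (p ^ j - 1)) := by
          have h5 : C' ≤ J := by
            rw [hJ]
            exact Nat.le_add_left _ _
          exact (h5.trans hj1).trans (hq1 i j).le
        exact h4.trans (Nat.le_mul_of_pos_left _ (hdpos i))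
      obtain ⟨h4, h5⟩ := hC' _ _ _ _ (hj2 0).1 (hj2 1).1 (hCle 0) (hCle 1) h3
      -- the comparison
      have hcmp : ∀ a b u v : ℕ, 0 < b → u < v →
          b * p ^ (v * (p ^ j - 1)) ≤ C' * (a * p ^ (u * (p ^ j - 1))) → j < C' * a := by
        intro a b u v hb huv h6
        have h7 : p ^ (v * (p ^ j - 1)) = p ^ (u * (p ^ j - 1)) * p ^ ((v - u) * (p ^ j - 1)) := by
          rw [← pow_add, ← add_mul, Nat.add_sub_cancel' huv.le]
        have h8 : p ^ (u * (p ^ j - 1)) * p ^ ((v - u) * (p ^ j - 1)) ≤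
            p ^ (u * (p ^ j - 1)) * (C' * a) := by
          calc p ^ (u * (p ^ j - 1)) * p ^ ((v - u) * (p ^ j - 1)) = p ^ (v * (p ^ j - 1)) := h7.symm
            _ ≤ b * p ^ (v * (p ^ j - 1)) := Nat.le_mul_of_pos_left _ hb
            _ ≤ C' * (a * p ^ (u * (p ^ j - 1))) := h6
            _ = p ^ (u * (p ^ j - 1)) * (C' * a) := by ring
        have h9 : p ^ ((v - u) * (p ^ j - 1)) ≤ C' * a :=
          Nat.le_of_mul_le_mul_left h8 (pow_pos hp.pos _)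
        refine lt_of_lt_of_le ((PU2_big p hp j).trans_le (Nat.pow_le_pow_right hp.pos
          (Nat.le_mul_of_pos_left _ (Nat.sub_pos_of_lt huv)))) h9
      have hJ2 : C' * (d 0 + d 1) ≤ j := by
        refine le_trans ?_ hj1
        rw [hJ]
        exact Nat.le_add_right _ _
      rw [mul_add] at hJ2
      rcases lt_or_gt_of_ne hu with h6 | h6
      · have h7 := hcmp (d 0) (d 1) _ _ (hdpos 1) h6 h5
        omega
      · have h7 := hcmp (d 1) (d 0) _ _ (hdpos 0) h6 h4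
        omega
    rw [hempty]
    exact (hSUN p).1 _ Set.finite_empty

end ETA
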