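import Pool.Agent.ETA.Semi
import Pool.Agent.ETD.All

/-!
# Return sets of pairs which are semiconjugate to additive or étale polynomials
-/

set_option autoImplicit false

namespace Pool.Agent.ETA

open Polynomial

/-- the class of the pairs -/
def Pair (p : ℕ) {L : Type} [Field L] (F G : Polynomial L) : Prop :=
  (Cls p F ∧ Cls p G) ∨
  ∃ a b : L, Polynomial.derivative F = Polynomial.C a ∧ Polynomial.derivative G = Polynomial.C b ∧
    a ≠ 0 ∧ b ≠ 0 ∧ ((∀ m : ℕ, 0 < m → a ^ m ≠ 1) ∨ ∀ m : ℕ, 0 < m → b ^ m ≠ 1)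

theorem Pair.map {p : ℕ} {L M : Type} [Field L] [Field M] (φ : L →+* M) {F G : Polynomial L}
    (h : Pair p F G) : Pair p (F.map φ) (G.map φ) := by
  rcases h with ⟨h1, h2⟩ | ⟨a, b, h1, h2, h3, h4, h5⟩
  · exact Or.inl ⟨Cls.map φ h1, Cls.map φ h2⟩
  · have h0 : ∀ c : L, c ≠ 0 → φ c ≠ 0 := fun c hc h0 => hc (φ.injective (by rw [h0, map_zero]))
    have hr : ∀ c : L, (∀ m : ℕ, 0 < m → c ^ m ≠ 1) → ∀ m : ℕ, 0 < m → φ c ^ m ≠ 1 := by
      intro c hc m hm h0
      refine hc m hm (φ.injective ?_)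
      rw [map_pow, h0, map_one]
    refine Or.inr ⟨φ a, φ b, ?_, ?_, h0 a h3, h0 b h4, h5.imp (hr a) (hr b)⟩
    · rw [Polynomial.derivative_map, h1, Polynomial.map_C]
    · rw [Polynomial.derivative_map, h2, Polynomial.map_C]

theorem Pair.ret (Ω : Type) [Field Ω] (p : ℕ) (hp : p.Prime) (hc : CharP Ω p)
    (F G : Polynomial Ω) (hFG : Pair p F G) (γ : Ω × Ω) (h : MvPolynomial (Fin 2) Ω) :
    ∃ (S : Finset (ℕ × ℕ)) (T : Finset (ℚ × ℚ × ℕ)),
      (∀ q ∈ S, 0 < q.1) ∧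
      (∀ t ∈ T, ∀ k : ℕ, ∃ n : ℕ, (n : ℚ) = t.1 * (p : ℚ) ^ (t.2.2 * k) + t.2.1) ∧
      {n : ℕ | MvPolynomial.eval
          ![(fun x => Polynomial.eval x F)^[n] γ.1,
            (fun y => Polynomial.eval y G)^[n] γ.2] h = 0} =
      {n : ℕ | (∃ q ∈ S, ∃ k : ℕ, n = q.1 * k + q.2) ∨
               (∃ t ∈ T, ∃ k : ℕ, (n : ℚ) = t.1 * (p : ℚ) ^ (t.2.2 * k) + t.2.1)} := by
  rcases hFG with ⟨h1, h2⟩ | ⟨a, b, h1, h2, h3, h4, h5⟩
  · exact ETA.all_FI2 Ω p hp hc F G h1 h2 γ h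
  · exact ETD.all_FIN Ω p hp hc F G a b h1 h2 h3 h4 h5 γ h

theorem semi2 (K L : Type) [Field K] [Field L] [Algebra K L] (p : ℕ) (hp : p.Prime)
    (hc : CharP K p) (f g : Polynomial K) (P Q F G : Polynomial L) (hP : 0 < P.natDegree)
    (hQ : 0 < Q.natDegree) (hf : (f.map (algebraMap K L)).comp P = P.comp F)
    (hg : (g.map (algebraMap K L)).comp Q = Q.comp G) (hFG : Pair p F G)
    (γ : K × K) (h : MvPolynomial (Fin 2) K) :
    ∃ (S : Finset (ℕ × ℕ)) (T : Finset (ℚ × ℚ × ℕ)),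
      (∀ q ∈ S, 0 < q.1) ∧
      (∀ t ∈ T, ∀ k : ℕ, ∃ n : ℕ, (n : ℚ) = t.1 * (p : ℚ) ^ (t.2.2 * k) + t.2.1) ∧
      {n : ℕ | MvPolynomial.eval
          ![(fun x => Polynomial.eval x f)^[n] γ.1,
            (fun y => Polynomial.eval y g)^[n] γ.2] h = 0} =
      {n : ℕ | (∃ q ∈ S, ∃ k : ℕ, n = q.1 * k + q.2) ∨
               (∃ t ∈ T, ∃ k : ℕ, (n : ℚ) = t.1 * (p : ℚ) ^ (t.2.2 * k) + t.2.1)} := by
  let Ω := AlgebraicClosure L
  let ψ : L →+* Ω := algebraMap L Ω
  let φ : K →+* Ω := ψ.comp (algebraMap K L)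
  have hcΩ : CharP Ω p := (RingHom.charP_iff φ φ.injective p).mp hc
  have hroot : ∀ (R : Polynomial L), 0 < R.natDegree → ∀ y : Ω, ∃ u : Ω,
      Polynomial.eval u (R.map ψ) = y := by
    intro R hR y
    have h1 : (R.map ψ - Polynomial.C y).degree ≠ 0 := by
      have h2 : (R.map ψ - Polynomial.C y).natDegree = R.natDegree := by
        rw [Polynomial.natDegree_sub_C, Polynomial.natDegree_map]
      intro h3
      have h4 := Polynomial.natDegree_eq_of_degree_eq_some (h3.trans Nat.cast_zero.symm)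
      omega
    obtain ⟨u, hu⟩ := IsAlgClosed.exists_root _ h1
    refine ⟨u, ?_⟩
    rw [Polynomial.IsRoot.def, Polynomial.eval_sub, Polynomial.eval_C] at hu
    exact sub_eq_zero.mp hu
  obtain ⟨u, hu⟩ := hroot P hP (φ γ.1)
  obtain ⟨v, hv⟩ := hroot Q hQ (φ γ.2)
  have hmm : ∀ f : Polynomial K, (f.map (algebraMap K L)).map ψ = f.map φ := fun f =>
    Polynomial.map_map _ _ _
  have hf' : (f.map φ).comp (P.map ψ) = (P.map ψ).comp (F.map ψ) := by
    rw [← Polynomial.map_comp, ← hf, Polynomial.map_comp, hmm]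
  have hg' : (g.map φ).comp (Q.map ψ) = (Q.map ψ).comp (G.map ψ) := by
    rw [← Polynomial.map_comp, ← hg, Polynomial.map_comp, hmm]
  let h' : MvPolynomial (Fin 2) Ω := MvPolynomial.eval₂ (MvPolynomial.C.comp φ)
    ![Polynomial.eval₂ MvPolynomial.C (MvPolynomial.X 0) (P.map ψ),
      Polynomial.eval₂ MvPolynomial.C (MvPolynomial.X 1) (Q.map ψ)] h
  obtain ⟨S, T, h1, h2, h3⟩ := Pair.ret Ω p hp hcΩ (F.map ψ) (G.map ψ) (hFG.map ψ) (u, v) h'
  refine ⟨S, T, h1, h2, ?_⟩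
  rw [← h3]
  ext n
  rw [Set.mem_setOf_eq, Set.mem_setOf_eq]
  have key : MvPolynomial.eval ![(fun x => Polynomial.eval x (F.map ψ))^[n] u,
      (fun y => Polynomial.eval y (G.map ψ))^[n] v] h' =
      φ (MvPolynomial.eval ![(fun x => Polynomial.eval x f)^[n] γ.1,
            (fun y => Polynomial.eval y g)^[n] γ.2] h) := by
    have e0 : ∀ (x : Fin 2 → Ω), MvPolynomial.eval x h' =
        MvPolynomial.eval₂ φ ![Polynomial.eval (x 0) (P.map ψ), Polynomial.eval (x 1) (Q.map ψ)] h := by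
      intro x
      have e1 : (MvPolynomial.eval x).comp (MvPolynomial.C.comp φ) = φ := by
        ext a
        exact MvPolynomial.eval_C _
      have e2 : ∀ (R : Polynomial Ω) (i : Fin 2), MvPolynomial.eval x
          (Polynomial.eval₂ MvPolynomial.C (MvPolynomial.X i) R) = Polynomial.eval (x i) R := by
        intro R i
        have e3 : (MvPolynomial.eval x).comp MvPolynomial.C = RingHom.id Ω := by
          ext a
          exact MvPolynomial.eval_C _
        rw [Polynomial.hom_eval₂, e3, MvPolynomial.eval_X]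
        rfl
      show MvPolynomial.eval x (MvPolynomial.eval₂ _ _ h) = _
      rw [MvPolynomial.hom_eval₂, e1]
      congr 1
      funext i
      fin_cases i
      · exact e2 _ 0
      · exact e2 _ 1
    rw [e0]
    show MvPolynomial.eval₂ φ ![Polynomial.eval ((fun x => Polynomial.eval x (F.map ψ))^[n] u) (P.map ψ),
      Polynomial.eval ((fun y => Polynomial.eval y (G.map ψ))^[n] v) (Q.map ψ)] h = _
    rw [← semi_iter hf', ← semi_iter hg', hu, hv, ← map_iter, ← map_iter]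
    have e5 : (![φ ((fun x => Polynomial.eval x f)^[n] γ.1),
        φ ((fun y => Polynomial.eval y g)^[n] γ.2)] : Fin 2 → Ω) =
        fun i => φ (![(fun x => Polynomial.eval x f)^[n] γ.1,
          (fun y => Polynomial.eval y g)^[n] γ.2] i) := by
      funext i
      fin_cases i <;> rfl
    rw [e5, MvPolynomial.eval, MvPolynomial.coe_eval₂Hom, MvPolynomial.hom_eval₂]
    rfl
  rw [key]
  constructor
  · intro h4
    rw [h4, map_zero]
  · intro h4
    exact φ.injective (by rw [h4, map_zero])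

end Pool.Agent.ETA
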