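import Pool.Agent.ETA.Bas

/-!
# ETA, statements A: the action, normal form, local forms, digits, sets of naturals

Every module proves `thm_XXX : St_XXX` in `Pool/Agent/ETA/XXX.lean` (imports: the file of its
statement and Mathlib files); statements used are taken as hypotheses in the order of the docstring,
e.g. `theorem thm_ACT (h : St_OPB) : St_ACT`. Definitions are in `ETA/Defs.lean`, basic lemmas in
`ETA/Bas.lean` (orders `Od w d`, series in `t ^ q` `Ex q w`, kernels `kr z`) and `ETD/Bas.lean`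
(evaluation `e z F`). Statements `ETD.St_...` are in `ETD/StA.lean`, `StB.lean`, `StC.lean`; they are
proved, take them as hypotheses. `X` is the variable `t` of `k⟦X⟧ = k⟦t⟧`, and of `(ZMod p)⟦X⟧`.
-/

set_option autoImplicit false
set_option linter.unusedVariables false

namespace ETA

open PowerSeries ETD

/-! ## The action -/

/-- [OPB] (0.7 h; no other module) Basic properties of `B : w ↦ ∑ C (c i) w ^ p ^ i`.

Proof. (1) `add_pow_char_pow`. (2) `sc c ^ p ^ i = sc c` (`ZMod.pow_card_pow` or `frobenius`), also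
`mul_pow`. (3) Only `i ≥ u ≥ 1` occur and `X ^ (d p ^ i)` divides `w ^ p ^ i`, `d p ≤ d p ^ i`.
(4) `w = expand q y`: `B w = expand q (B y)` (`expand` is a homomorphism and fixes the constants,
`expand_C`), and `B y` is `Ex (p ^ u)`: it is the sum of the `C (c i) * (y ^ p ^ (i - u)) ^ p ^ u`,
`i ≥ u` (`ex_pow`, `Ex.add`, and `Ex q w → Ex q (C c * w)`). So `B y = expand (p ^ u) y'`, `X ∣ y'`, and
`B w = expand (q * p ^ u) y'` (`PowerSeries.expand_mul`). (5) The term `i = u` has the order `d p ^ u`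
(`Od.pow`, `C (c u)` is a unit), the others are divisible by `X ^ (d p ^ u + 1)` as
`d p ^ i ≥ 2 d p ^ u` (`Od.add`). (6) The substitution of `y` is a homomorphism fixing the constants
(`PowerSeries.substAlgHom`, `HasSubst.of_constantCoeff_zero`). -/
def St_OPB : Prop := ∀ (k : Type) [Field k] (p : ℕ) [Fact p.Prime] [CharP k p] (B : Op k),
  (∀ w w' : k⟦X⟧, B.f p (w + w') = B.f p w + B.f p w') ∧
  (∀ (c : ZMod p) (w : k⟦X⟧), B.f p (sc k p c * w) = sc k p c * B.f p w) ∧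
  (∀ (d : ℕ) (w : k⟦X⟧), X ^ d ∣ w → X ^ (d * p) ∣ B.f p w) ∧
  (∀ (q : ℕ) (w : k⟦X⟧), Ex q w → Ex (q * p ^ B.u) (B.f p w)) ∧
  (∀ (w : k⟦X⟧) (d : ℕ), 0 < d → Od w d → Od (B.f p w) (d * p ^ B.u)) ∧
  (∀ g y : k⟦X⟧, X ∣ y → B.f p (PowerSeries.subst y g) = PowerSeries.subst y (B.f p g))

/-- [ACT] (1 h; uses `St_OPB`) Properties of the action `act p B φ w = ∑ φ_i B ^ i w`.

Proof. `B ^ i w` (`X ∣ w`) is divisible by `X ^ (p ^ i)` (`St_OPB` (3), induction), `p ^ i ≥ i + 1`.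
(1) The coefficients with numbers `m < N`: that of `act` is a sum over `i ≤ m`, and the terms
`m < i < N` do not contribute. (2), (3) coefficients. (4) By (1) (or coefficients: `coeff i 1`,
`coeff i X` are `0` except for one `i`). (5) Modulo `X ^ N`, by (1), (3) of `St_OPB`:
`act φ (act φ' w) ≡ ∑ i < N, φ_i B ^ i (∑ j < N, φ'_j B ^ j w) = ∑ i, j < N, φ_i φ'_j B ^ (i + j) w`
and the terms with `i + j ≥ N` are divisible by `X ^ N`; so this is
`∑ l < N, (coeff l (φ φ')) B ^ l w` (`coeff_mul`). (6) `act φ w - act φ' w = act (φ - φ') w` by (2), and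
if `φ_i = 0` for `i < N` the terms `i ≥ N` are divisible by `X ^ (p ^ i)`. (7) all `B ^ i w` are
divisible by `X`. (8) by (3) the difference is `act φ (w - w')`, and `B ^ i (w - w')` is divisible by
`X ^ N`. -/
def St_ACT : Prop := ∀ (k : Type) [Field k] (p : ℕ) [Fact p.Prime] [CharP k p] (B : Op k),
  (∀ (φ : (ZMod p)⟦X⟧) (w : k⟦X⟧) (N : ℕ), X ∣ w →
    X ^ N ∣ act p B φ w - ∑ i ∈ Finset.range N, sc k p (coeff i φ) * (B.f p)^[i] w) ∧
  (∀ (φ φ' : (ZMod p)⟦X⟧) (w : k⟦X⟧), act p B (φ + φ') w = act p B φ w + act p B φ' w) ∧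
  (∀ (φ : (ZMod p)⟦X⟧) (w w' : k⟦X⟧), act p B φ (w + w') = act p B φ w + act p B φ w') ∧
  (∀ w : k⟦X⟧, X ∣ w → act p B 1 w = w ∧ act p B X w = B.f p w) ∧
  (∀ (φ φ' : (ZMod p)⟦X⟧) (w : k⟦X⟧), X ∣ w →
    act p B (φ * φ') w = act p B φ (act p B φ' w)) ∧
  (∀ (φ φ' : (ZMod p)⟦X⟧) (w : k⟦X⟧) (N : ℕ), X ∣ w → X ^ N ∣ φ - φ' →
    X ^ N ∣ act p B φ w - act p B φ' w) ∧
  (∀ (φ : (ZMod p)⟦X⟧) (w : k⟦X⟧), X ∣ w → X ∣ act p B φ w) ∧
  (∀ (φ : (ZMod p)⟦X⟧) (w w' : k⟦X⟧) (N : ℕ), X ^ N ∣ w - w' →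
    X ^ N ∣ act p B φ w - act p B φ w')

/-- [ACO] (0.6 h; uses `St_OPB`, `St_ACT`) Orders of the values of the action.

Proof. (1) Induction with (4), (5) of `St_ACT`. (2) `act (X ^ m * φ) w = B ^ m (act φ w)` by (1) and
(5) of `St_ACT`, `act φ w` is small, i.e. `Ex 1` (`ex_one`), and `St_OPB` (4). (3) `act η w` has the
order `d`: by `St_ACT` (1) with `N = d + 1` it is `sc η_0 * w` plus multiples of `B ^ i w`, `i ≥ 1`,
divisible by `X ^ (d p)`, plus a multiple of `X ^ (d + 1)`, and `η_0 ≠ 0`. Then `St_OPB` (5) `m` times.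
(4) `φ = X ^ m η`, `η` a unit (`exists_Od` in `(ZMod p)⟦X⟧`), `w` has an order `d > 0`; (3). -/
def St_ACO : Prop := ∀ (k : Type) [Field k] (p : ℕ) [Fact p.Prime] [CharP k p] (B : Op k),
  (∀ (m : ℕ) (w : k⟦X⟧), X ∣ w → act p B (X ^ m) w = (B.f p)^[m] w) ∧
  (∀ (m : ℕ) (φ : (ZMod p)⟦X⟧) (w : k⟦X⟧), X ∣ w →
    Ex (p ^ (B.u * m)) (act p B (X ^ m * φ) w)) ∧
  (∀ (m : ℕ) (η : (ZMod p)⟦X⟧) (w : k⟦X⟧) (d : ℕ), IsUnit η → 0 < d → Od w d →
    Od (act p B (X ^ m * η) w) (d * p ^ (B.u * m))) ∧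
  (∀ (φ : (ZMod p)⟦X⟧) (w : k⟦X⟧), φ ≠ 0 → X ∣ w → w ≠ 0 → act p B φ w ≠ 0)

/-- [ACS] (0.7 h; uses `St_OPB`, `St_ACT`) The action is given by power series over `k`.

Proof. `g i := act p (B i) (φ i) X`, divisible by `X`. `G i := PowerSeries.subst (MvPowerSeries.X i)
(g i)`. `e z (G i) = PowerSeries.subst (z i) (g i)` (substitution twice, `z` small:
`MvPowerSeries.subst_comp_subst_apply`; `PowerSeries.subst` is a case of `MvPowerSeries.subst`). And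
`PowerSeries.subst y (act φ X) = act φ y` for `X ∣ y`: modulo `X ^ N` both are
`∑ i < N, sc φ_i * B ^ i y` (`St_ACT` (1) for `w = X` and `w = y`; `St_OPB` (6) gives
`PowerSeries.subst y (B ^ i X) = B ^ i y`; the substitution of a multiple of `X ^ N` is a multiple of
`y ^ N`). -/
def St_ACS : Prop := ∀ (k : Type) [Field k] (p : ℕ) [Fact p.Prime] [CharP k p]
  (B : Fin 2 → Op k) (φ : Fin 2 → (ZMod p)⟦X⟧), ∃ G : Fin 2 → MvPowerSeries (Fin 2) k,
    (∀ i, MvPowerSeries.constantCoeff (G i) = 0) ∧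
    ∀ z : Fin 2 → k⟦X⟧, Sm z → ∀ i, e z (G i) = act p (B i) (φ i) (z i)

/-- [FIP] (0.7 h; uses `ETD.St_PWB`, `ETD.St_PWP`) Properties of `fi p β = ((1 + T) ^ β - 1) / T`.

Proof. (1) `pw p (1 + X) β - 1` is divisible by `X` (`St_PWB` for the field `ZMod p`, `a = 1 + X`), so
its coefficients are those of `X * fi p β`. (2) Multiply by `X` (cancel, domain) and use
`pw (β + γ) = pw β * pw γ`. (3) (2) for `β = 1`, `γ = n`: `pw 1 = 1 + X`, `fi 1 = 1`. (4) (1) with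
`pw 0 = 1`. (5) its constant coefficient is `1` by (1). (6) `St_PWP` (2) for `d = 1`, `u = 1`:
`pw (p ^ j γ) - 1 = X ^ (p ^ j) w`. (7) `β = p ^ j γ` with a unit `γ` (`PadicInt.unitCoeff_spec`),
(6). -/
def St_FIP : Prop := ∀ (p : ℕ) [Fact p.Prime],
  (∀ β : ℤ_[p], X * fi p β = pw p (1 + X : (ZMod p)⟦X⟧) β - 1) ∧
  (∀ β γ : ℤ_[p], fi p (β + γ) = fi p β + pw p (1 + X : (ZMod p)⟦X⟧) β * fi p γ) ∧
  (∀ n : ℕ, fi p ((n : ℤ_[p]) + 1) = 1 + (1 + X) * fi p (n : ℤ_[p])) ∧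
  fi p 0 = 0 ∧
  (∀ β : ℤ_[p], IsUnit (pw p (1 + X : (ZMod p)⟦X⟧) β)) ∧
  (∀ (j : ℕ) (γ : ℤ_[p]), IsUnit γ → Od (fi p ((p : ℤ_[p]) ^ j * γ)) (p ^ j - 1)) ∧
  (∀ β : ℤ_[p], β ≠ 0 → fi p β ≠ 0)

/-- [PWS] (0.5 h; uses `ETD.St_PWB`) Powers as substitutions.

Proof. For `J` let `n := δ.appr J`. Modulo `X ^ (p ^ J)`: `pw p a δ ≡ a ^ n` and
`pw p (1 + X) δ ≡ (1 + X) ^ n` (`St_PWB`, last claim, `d = 1`, and first claim); the substitution of
`a - 1` maps `(1 + X) ^ n` to `a ^ n` and multiples of `X ^ (p ^ J)` to multiples of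
`(a - 1) ^ (p ^ J)`. So the difference is divisible by all `X ^ (p ^ J)`. -/
def St_PWS : Prop := ∀ (k : Type) [Field k] (p : ℕ) [Fact p.Prime] [CharP k p] (a : k⟦X⟧)
  (δ : ℤ_[p]), X ∣ a - 1 → pw p a δ = PowerSeries.subst (a - 1) (pw p (1 + X : k⟦X⟧) δ)

/-- [PWM] (0.4 h; uses `ETD.St_PWB`) Powers of powers.

Proof. For natural `n` in the place of `γ`: `pw p a (β n) = (pw p a β) ^ n` (induction, `St_PWB`), and
`pw p b n = b ^ n`. In general approximate `γ` by `n = γ.appr J`: both sides change by multiples of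
`X ^ (p ^ J)` (`p ^ J` divides `β γ - β n`). -/
def St_PWM : Prop := ∀ (k : Type) [Field k] (p : ℕ) [Fact p.Prime] [CharP k p] (a : k⟦X⟧)
  (β γ : ℤ_[p]), X ∣ a - 1 → pw p (pw p a β) γ = pw p a (β * γ)

/-- [FIM] (0.4 h; uses `St_FIP`, `St_PWS`, `St_PWM`) Multiplicativity of `fi`.

Proof. `y := X * fi p ν = pw p (1 + X) ν - 1`. `X * fi p (ν δ) = pw (1 + X) (ν δ) - 1 =
pw (pw (1 + X) ν) δ - 1 = subst y (pw (1 + X) δ) - 1 = subst y (X * fi p δ) = y * subst y (fi p δ)`;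
cancel `X`. -/
def St_FIM : Prop := ∀ (p : ℕ) [Fact p.Prime] (ν δ : ℤ_[p]),
  fi p (ν * δ) = fi p ν * PowerSeries.subst (X * fi p ν) (fi p δ)

/-! ## Normal form of inseparable additive maps -/

/-- [SRS] (0.7 h; no other module) The series `∑ c i Y ^ p ^ i`.

Proof. `ψ` has at `d : Fin 2 →₀ ℕ` the coefficient `coeff (d 0) (c i)` if `d 1 = p ^ i` (`i` is
unique), and `0` if `d 1` is no power of `p`. For `N` let
`Q := ∑ i < N, PowerSeries.subst (MvPowerSeries.X 0) (c i) * MvPowerSeries.X 1 ^ p ^ i`. All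
coefficients of `ψ - Q` at `d` with `d.degree < N` vanish (`p ^ i > i ≥ N` for the other `i`), so
`X ^ N` divides `ec ![y] ψ - ec ![y] Q` (`e_order`, `e_sub`), and `ec ![y] Q = ∑ i < N, c i * y ^ p ^ i`
(`e_sum`, `e_mul`, `e_pow`, `e_X`, and `e (Fin.cons X ![y]) (PowerSeries.subst (X 0) b) = b`). -/
def St_SRS : Prop := ∀ (k : Type) [Field k] (p : ℕ), p.Prime → ∀ c : ℕ → k⟦X⟧,
  ∃ ψ : MvPowerSeries (Fin 2) k, ∀ y : k⟦X⟧, X ∣ y → ∀ N : ℕ,
    X ^ N ∣ ec ![y] ψ - ∑ i ∈ Finset.range N, c i * y ^ p ^ i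

/-- [NFC] (1.2 h; uses `ETD.St_HEN`) The coefficients of the normal form.

Proof. Write `ν l := C (constantCoeff (c l))`; `X ∣ c l - ν l`. The equation with number `i` reads
`ν u ^ p ^ i * ψ i - c u * ψ i ^ p ^ u = R i`, `R i := ∑ m < i, (c (u + i - m) * ψ m ^ p ^ (u + i - m)
- ψ m * ν (u + i - m) ^ p ^ m)`. `i = 0`: `P := C (ν u) * Y - C (c u) * Y ^ p ^ u` is at `1` equal to
`ν u - c u`, divisible by `X`, and `P' = C (ν u)` (`p` divides `p ^ u`, `u > 0`) is a unit; `St_HEN` with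
`c = 1`. `i > 0`: if `X ∣ ψ 0 - 1`, `X ∣ ψ m` for `0 < m < i` and the previous equations hold, then
`X ∣ R i`: the terms `m > 0` are divisible by `X`, and the term `m = 0` is
`≡ c (u + i) - ν (u + i) ≡ 0`; so `P := C (ν u ^ p ^ i) * Y - C (c u) * Y ^ p ^ u - C (R i)` has a
root `ψ i` divisible by `X` by `St_HEN` with `c = 0`. Construct the sequence by strong recursion: take
for `ψ i` a solution with the wanted divisibility if there is one (`Classical.epsilon` or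
`if h : ∃ .. then choose h else 0`), and prove all properties by strong induction. -/
def St_NFC : Prop := ∀ (k : Type) [Field k] (p : ℕ) [Fact p.Prime] [CharP k p] (u : ℕ), 0 < u →
  ∀ c : ℕ → k⟦X⟧, IsUnit (c u) →
  ∃ ψ : ℕ → k⟦X⟧, X ∣ ψ 0 - 1 ∧ (∀ i, X ∣ ψ (i + 1)) ∧
    ∀ i : ℕ, ∑ m ∈ Finset.range (i + 1), c (u + i - m) * ψ m ^ p ^ (u + i - m) =
      ∑ m ∈ Finset.range (i + 1), ψ m * C (constantCoeff (c (u + i - m))) ^ p ^ m

/-- [NRS] (0.6 h; no other module) Surjectivity.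

Proof. `D y := Ψ y - y`. If `X ^ N ∣ y - y'` (`y, y'` small) then `X ^ (N + 1) ∣ D y - D y'`: modulo
`X ^ (N + 1)` it is `(c 0 - 1) (y - y') + ∑ 0 < i < N + 1, c i (y ^ p ^ i - y' ^ p ^ i)`, all terms are
divisible by `X ^ (N + 1)`. And `X ∣ D y`. Let `y_0 := 0`, `y_(j+1) := w - D y_j`: small, and
`X ^ j ∣ y_(j+1) - y_j`. Let `y` have the coefficient `coeff m y_(m+1)` at `m`: `X ^ j ∣ y - y_j`, so
`X ^ j ∣ y + D y - w` for all `j`. -/
def St_NRS : Prop := ∀ (k : Type) [Field k] (p : ℕ) [Fact p.Prime] [CharP k p] (c : ℕ → k⟦X⟧),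
  X ∣ c 0 - 1 → (∀ i, X ∣ c (i + 1)) → ∀ Ψ : k⟦X⟧ → k⟦X⟧,
  (∀ y : k⟦X⟧, X ∣ y → ∀ N : ℕ, X ^ N ∣ Ψ y - ∑ i ∈ Finset.range N, c i * y ^ p ^ i) →
  ∀ w : k⟦X⟧, X ∣ w → ∃ y : k⟦X⟧, X ∣ y ∧ Ψ y = w

/-- [NRA] (1 h; uses `St_SRS`, `St_NFC`, `St_NRS`) Normal form: an additive polynomial with lowest
coefficient a unit at `Y ^ p ^ u`, `u > 0`, is conjugate to its reduction modulo `t`.

Proof. `c' i := c i` for `i < r` and `0` otherwise; `ψ i` of `St_NFC` for `c'`; `ψ` of `St_SRS` for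
this sequence; `B.c i := constantCoeff (c i)`, `B.r = r`, `B.u = u`. Additivity: modulo `X ^ N` for all
`N` (`add_pow_char_pow`). `X ∣ ec ![y] ψ`: `N = 1`. Relation: let `y` be small. Modulo `X ^ N`:
`ad p r c (ec ![y] ψ) ≡ ∑ l < r, c l (∑ m < N, ψ m y ^ p ^ m) ^ p ^ l =
∑ l < r, ∑ m < N, c l * ψ m ^ p ^ l * y ^ p ^ (l + m)`, and
`ec ![B y] ψ ≡ ∑ m < N, ψ m (∑ l < r, ν l y ^ p ^ l) ^ p ^ m =
∑ m < N, ∑ l < r, ψ m * ν l ^ p ^ m * y ^ p ^ (l + m)`. In both sums the terms with `l < u` vanish and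
those with `l + m ≥ u + N` are divisible by `X ^ N`. For `l + m = u + i`, `i < N`, all pairs with
`m ≤ i` occur (with `c' l = 0` for `l ≥ r`), and the sums of the coefficients agree by the equation
`i` of `St_NFC`. The last claim: `St_NRS`. -/
def St_NRA : Prop := ∀ (k : Type) [Field k] (p : ℕ) [Fact p.Prime] [CharP k p] (r u : ℕ)
  (c : ℕ → k⟦X⟧), 0 < u → u < r → (∀ i < u, c i = 0) → IsUnit (c u) →
  ∃ (B : Op k) (ψ : MvPowerSeries (Fin 2) k),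
    (∀ y y' : k⟦X⟧, X ∣ y → X ∣ y' → ec ![y + y'] ψ = ec ![y] ψ + ec ![y'] ψ) ∧
    (∀ y : k⟦X⟧, X ∣ y → X ∣ ec ![y] ψ ∧ ad p r c (ec ![y] ψ) = ec ![B.f p y] ψ) ∧
    (∀ w : k⟦X⟧, X ∣ w → ∃ y : k⟦X⟧, X ∣ y ∧ ec ![y] ψ = w)

/-! ## Local form of the orbits -/

/-- [LOU] (0.9 h; uses `St_ACT`, `St_ACO`, `St_FIP`, `St_NRA`, `ETD.St_TAY`) Type `U`.

Proof. `B`, `ψ` of `St_NRA`, `Ψ y := ec ![y] ψ` for small `y`, `α = Ψ z₀`, `z₀` small; `z₀ ≠ 0` as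
`Ψ 0 = 0` (additivity). By induction `x n = Ψ (act p B (fi p n) z₀)`: `x (n + 1) = α + x n +
ad p r c (x n) = Ψ (z₀ + act (fi n) z₀ + B (act (fi n) z₀)) = Ψ (act (1 + (1 + X) fi n) z₀)`
(`St_ACT` (2), (4), (5)), `St_FIP` (3), (4). Let `β` be given, `π := pw p (1 + X) β` (a unit),
`z := act p B π z₀ ≠ 0` (`St_ACO` (4)), `V := Ψ (act p B (fi p β) z₀)`. `n = β + (n - β)`, so
`fi n = fi β + π * fi (n - β)` and `x n = V + Ψ (act p B (fi p (n - β)) z)` (`π * fi = fi * π`).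
So `x n = V + 1 * ec ![0 + X ^ M * ζ] ψ = ec ![ζ] ρ` with `ρ` of `St_TAY` (`A = V`, `B = 1`,
`c = X ^ M`, `y₀ = 0`). -/
def St_LOU : Prop := ∀ (k : Type) [Field k] (p : ℕ) [Fact p.Prime] [CharP k p] (x : ℕ → k⟦X⟧),
  TyU p x → ∃ B : Op k, ∀ β : ℤ_[p], ∃ z : k⟦X⟧, X ∣ z ∧ z ≠ 0 ∧
    ∀ M : ℕ, ∃ ρ : MvPowerSeries (Fin 2) k, ∀ (n : ℕ) (ζ : k⟦X⟧), X ∣ ζ →
      X ^ M * ζ = act p B (fi p ((n : ℤ_[p]) - β)) z → x n = ec ![ζ] ρ

/-- [LOI] (0.8 h; uses `St_NRA`, `ETD.St_HEN`, `ETD.St_TAY`) Type `I`.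

Proof. Fixed point: the polynomial `P := C α + (∑ i < r, C (c i) * Y ^ p ^ i) - Y` has at `0` the value
`α` (`c 0 = 0` as `0 < u`; `0 ^ p ^ i = 0`), divisible by `X`, and the derivative `-1`
(`Polynomial.derivative (Y ^ p ^ i) = 0` for `i > 0` in characteristic `p`, `c 0 = 0`). `St_HEN` with
`c = 0`: `V` small with `V = α + ad p r c V`. `ad p r c` is additive (`add_pow_char_pow`), so
`x n = V + (ad p r c)^[n] (-V)` by induction. `B`, `ψ` of `St_NRA`, `-V = ec ![z] ψ`, and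
`(ad p r c)^[n] (ec ![z] ψ) = ec ![(B.f p)^[n] z] ψ` by induction (`B.f p` maps small elements to small
elements, see the definition). Then `St_TAY` (`A = V`, `B = 1`, `c = X ^ M`, `y₀ = 0`). -/
def St_LOI : Prop := ∀ (k : Type) [Field k] (p : ℕ) [Fact p.Prime] [CharP k p] (x : ℕ → k⟦X⟧),
  TyI p x → ∃ (B : Op k) (z : k⟦X⟧), X ∣ z ∧
    ∀ M : ℕ, ∃ ρ : MvPowerSeries (Fin 2) k, ∀ (n : ℕ) (ζ : k⟦X⟧), X ∣ ζ →
      X ^ M * ζ = (B.f p)^[n] z → x n = ec ![ζ] ρ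

/-! ## Digits and kernels -/

/-- [DGC] (0.4 h; uses `ETD.St_DIG`) The digit lemma in terms of `A i = t ^ M ζ i`.

Proof. `q₀ := max (q₀ of St_DIG) (M + 1)`. `A i = expand q (y i)` with small `y i`. Both parts of
`St_DIG` for `z = y`, and `e A F = expand q (e y F)` (`e_expand`) vanishes if and only if `e y F` does
(injectivity of `expand`, see `kr_expand`). -/
def St_DGC : Prop := ∀ (k : Type) [Field k] (n M : ℕ) (H : MvPowerSeries (Fin (n + 1)) k),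
  ∃ q₀ : ℕ, ∀ q : ℕ, q₀ ≤ q → ∀ A ζ : Fin n → k⟦X⟧, Sm ζ → (∀ i, X ^ M * ζ i = A i) →
    (∀ i, Ex q (A i)) → (ec ζ H = 0 ↔ ∀ F ∈ dI M H, e A F = 0)

/-- [DGZ] (0.4 h; no other module) If all digits vanish then `H = 0`.

Proof. Let `d : Fin (n + 1) →₀ ℕ`, `l := d 0`, `i := Finsupp.tail d`, `r := l - M * i.degree` (integer).
The coefficient of `dig M H r` at `i` is that of `H` at `Finsupp.cons l i = d`
(`Finsupp.cons_tail`). -/
def St_DGZ : Prop := ∀ (k : Type) [Field k] (n M : ℕ) (H : MvPowerSeries (Fin (n + 1)) k),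
  (∀ F ∈ dI M H, F = 0) → H = 0

/-- [HTS] (0.3 h; uses `ETD.St_HTL`) Inclusions of nonzero kernels are equalities.

Proof. `St_HTL` for `z'` and the prime ideal `ker` of the evaluation at `z` (`mem_ker`,
`ker_isPrime` of `ETD/Bas.lean`). -/
def St_HTS : Prop := ∀ (k : Type) [Field k] (z z' : Fin 2 → k⟦X⟧), Sm z → Sm z' →
  (∃ i, z' i ≠ 0) → (∃ F ∈ kr z, F ≠ 0) → kr z ⊆ kr z' → kr z = kr z'

/-- [MPR] (0.5 h; uses `ETD.St_HTL`) The common zeros of an ideal.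

Proof. `𝒬` := the set of the carriers of the minimal primes of `I`
(`Ideal.finite_minimalPrimes_of_isNoetherianRing`; `MvPowerSeries (Fin 2) k` is Noetherian, instance).
They contain `I`, hence a nonzero element. If `I` is contained in the kernel of the evaluation at `z`,
there is a minimal prime `𝔮` of `I` with `𝔮 ≤ ker` (`Ideal.exists_minimalPrimes_le`), `𝔮 ≠ ⊥`, and
`𝔮 = ker` by `St_HTL`. Conversely minimal primes contain `I`. -/
def St_MPR : Prop := ∀ (k : Type) [Field k] (I : Ideal (MvPowerSeries (Fin 2) k)),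
  (∃ F ∈ I, F ≠ 0) → ∃ 𝒬 : Set (Set (MvPowerSeries (Fin 2) k)), 𝒬.Finite ∧
    (∀ P ∈ 𝒬, ∃ F ∈ P, F ≠ 0) ∧
    ∀ z : Fin 2 → k⟦X⟧, Sm z → (∃ i, z i ≠ 0) → ((∀ F ∈ I, e z F = 0) ↔ kr z ∈ 𝒬)

/-- [FC2] (0.5 h; uses `ETD.St_FAC`) The orders of the coordinates of zeros are comparable.

Proof. `l, m, c` of `St_FAC` for `H`: if `c < d` and `ec ![ζ, v] H = 0` then `d' ≤ m d + c ≤ (m + 1) d`
(`N = d'`). The same for `H' := MvPowerSeries.subst ![X 0, X 2, X 1] H`, for which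
`ec ![v, ζ] H' = ec ![ζ, v] H` (`e_subst`); `H' ≠ 0` (substitute twice: `H'' = H`). `C` := a number
larger than `m + 1`, `c + 1` for both. -/
def St_FC2 : Prop := ∀ (k : Type) [Field k] (H : MvPowerSeries (Fin 3) k), H ≠ 0 →
  ∃ C : ℕ, ∀ (ζ v : k⟦X⟧) (d d' : ℕ), Od ζ d → Od v d' → C ≤ d → C ≤ d' → ec ![ζ, v] H = 0 →
    d ≤ C * d' ∧ d' ≤ C * d

/-! ## Sets of naturals -/

/-- [EVP] (0.5 h; uses `ETD.St_SUN`) Eventually periodic sets.

Proof. `R` is the union of `R ∩ [0, n₀)` and of the progressions `{N k + m | k}` for the `m ∈ R` with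
`n₀ ≤ m < n₀ + N`. -/
def St_EVP : Prop := ∀ (p : ℕ) (R : Set ℕ) (n₀ N : ℕ), 0 < N →
  (∀ n ≥ n₀, n ∈ R ↔ n + N ∈ R) → PSet p R

/-- [RMV] (0.7 h; uses `ETD.St_SUN`) Removing a point.

Proof. By `PSet` and `St_SUN` it is enough (finite unions; induction over the finsets `S`, `T`) to
treat a progression and a `p`-set `{a p ^ (r k) + b}`, all of whose values are natural. Progression
`{c k + d}`, `b₀ = c k₀ + d`: union of the finite set of the members with `k < k₀` and of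
`{c k + (c (k₀ + 1) + d)}`. `p`-set: if `a = 0` or `r = 0` it has one element. Otherwise
`k ↦ a p ^ (r k) + b` is injective (`p ≥ 2`), and if `b₀` is the member with number `k₀`, take the
finite set of the members with `k < k₀` and the `p`-set of `(a p ^ (r (k₀ + 1)), b, r)`. -/
def St_RMV : Prop := ∀ (p : ℕ) [Fact p.Prime] (R : Set ℕ) (b : ℕ), PSet p R → PSet p (R \ {b})

/-- [BLL] (0.3 h; uses `ETD.St_SUN`) Balls.

Proof. The set is `{p ^ J k + β.appr J}` (`PadicInt.appr_spec`, `PadicInt.appr_lt`: `n ≡ β` if and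
only if `n ≡ β.appr J mod p ^ J`). -/
def St_BLL : Prop := ∀ (p : ℕ) [Fact p.Prime] (β : ℤ_[p]) (J : ℕ),
  PSet p {n : ℕ | (p : ℤ_[p]) ^ J ∣ (n : ℤ_[p]) - β}

/-- [BLN] (0.3 h; no other module) Small balls contain no small natural number except the centre.

Proof. For every `n < L` with `n ≠ β` in `ℤ_p` there is a `J n` such that `p ^ J n` does not divide
`n - β`; take the maximum. -/
def St_BLN : Prop := ∀ (p : ℕ) [Fact p.Prime] (β : ℤ_[p]) (L : ℕ), ∃ J : ℕ, ∀ n : ℕ,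
  (p : ℤ_[p]) ^ J ∣ (n : ℤ_[p]) - β → (n : ℤ_[p]) ≠ β → L ≤ n

/-- [APJ] (0.6 h; uses `ETD.St_SUN`, `ETD.St_SPQ`) Geometric progressions.

Proof. If `D = 0` then `p ^ i = 1`, `i = 0`: at most one element. Let `D > 0`, `D = p ^ b D₁`, `D₁`
prime to `p` (`Nat.exists_eq_pow_mul_and_not_dvd`). If `b > j₀` only `i = 0` is possible (`p ^ i - 1`
is prime to `p` for `i > 0`, natural subtraction): at most one element. Otherwise the condition is
`D₁ ∣ p ^ i - 1`, i.e. `s ∣ i` for the order `s > 0` of `p` modulo `D₁` (`s > 0` with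
`p ^ i ≡ 1 mod D₁ ↔ s ∣ i`: `orderOf` in `(ZMod D₁)ˣ`), and the set is that of `St_SPQ`
(`p ^ (s j) = (p ^ s) ^ j`). -/
def St_APJ : Prop := ∀ (p : ℕ) [Fact p.Prime] (β ν₀ : ℤ_[p]) (D j₀ : ℕ),
  PSet p {n : ℕ | ∃ i : ℕ, (n : ℤ_[p]) = β + (p : ℤ_[p]) ^ i * ν₀ ∧ D ∣ p ^ j₀ * (p ^ i - 1)}

end ETA
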