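import Pool.Agent.ETA.StA

/-!
# ETA, statements B: the algebraic part (power series over the prime field)

`y := X * fi p ν = (1 + X) ^ ν - 1`. `So S` is the set of the `ν ≠ 0` with `fi p ν ∈ S`, `Mu S` the set
of the multipliers `χ` (`χ φ ∈ S` for some, equivalently all, `φ ∈ S`) together with `0`.
-/

set_option autoImplicit false
set_option linter.unusedVariables false

namespace ETA

open PowerSeries ETD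

/-- [LUC] (1 h; uses `ETD.St_PWB`, `ETD.St_PWP`) Exponents with few nonvanishing binomials.

Proof. Write `δ = p ^ a γ` with a unit `γ` (`PadicInt.unitCoeff_spec`). `pw (1 + X) δ =
(pw (1 + X) γ) ^ p ^ a` (`St_PWP` (1)), and over `ZMod p` this is `expand (p ^ a)` of
`f := pw (1 + X) γ` (`Fr`-type identity: `g ^ p ^ a = expand (p ^ a) g` for series over `ZMod p`,
`MvPowerSeries.map_iterateFrobenius_expand` with `iterateFrobenius = id`). So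
`coeff (p ^ a l) (pw (1 + X) δ) = coeff l f`. Write `γ = g₀ + p γ'` with a natural `g₀`,
`1 ≤ g₀ < p`: `f = (1 + X) ^ g₀ * h ^ p`, `h ^ p = expand p h`, `h` of constant coefficient `1`
(`h = pw (1 + X) γ'`). `coeff 1 f = g₀ ≠ 0` in `ZMod p`, so by hypothesis `p ^ a ≡ 1 mod D`.
If `g₀ ≥ 2` then `p > 2` and `coeff 2 f = g₀ (g₀ - 1) / 2 ≠ 0`, so `2 p ^ a ≡ 1`, `p ^ a ≡ 0`, `1 ≡ 0 mod D`,
`D = 1`, a contradiction. So `g₀ = 1`. Suppose `γ ≠ 1`: `γ = 1 + p ^ b ε`, `b ≥ 1`, `ε` a unit,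
`f = (1 + X) * expand (p ^ b) (pw (1 + X) ε)`, and with `ε₀ ≠ 0` the residue of `ε`, the coefficients of
`f` at `p ^ b` and at `p ^ b + 1` are `ε₀` (`2 p ^ b > p ^ b + 1`). So `p ^ (a + b) ≡ 1` and
`p ^ a (p ^ b + 1) ≡ 1`, so `p ^ a ≡ 0 mod D`, a contradiction as before. So `γ = 1`. -/
def St_LUC : Prop := ∀ (p : ℕ) [Fact p.Prime] (δ : ℤ_[p]) (D : ℕ), δ ≠ 0 → D ≠ 1 →
  (∀ l : ℕ, 1 ≤ l → ¬ l ≡ 1 [MOD D] → coeff l (pw p (1 + X : (ZMod p)⟦X⟧) δ) = 0) →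
  ∃ a : ℕ, δ = (p : ℤ_[p]) ^ a ∧ p ^ a ≡ 1 [MOD D]

/-- [ALS] (0.8 h; uses `St_FIP`, `St_FIM`) Multipliers.

Proof. (1) `Sp.h1`. (2) if `χ₁, χ₂ ≠ 0`: `χ₂ φ ∈ S`, `χ₁ (χ₂ φ) ∈ S` by (1). (3) `χ = 0` if `χ₁ χ = 0`;
otherwise `χ (χ₁ φ) ∈ S` and `χ₁ φ ∈ S`. (4) `χ = 0` is clear; if `χ ≠ 0` then for large `N` the `χ'` is
`≠ 0`, `χ' φ ∈ S` and `X ^ N ∣ χ φ - χ' φ`, so `χ φ ∈ S` by `Sp.h2`. (5) `1 φ = φ`. (6)
`fi (ν δ) = fi ν * subst (X * fi ν) (fi δ)` by `St_FIM`, this is `≠ 0` by `St_FIP` (7) (`ν δ ≠ 0`), and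
(1). -/
def St_ALS : Prop := ∀ (p : ℕ) [Fact p.Prime] (S : Set (ZMod p)⟦X⟧), Sp p S →
  (∀ χ ∈ Mu S, χ ≠ 0 → ∀ φ ∈ S, χ * φ ∈ S) ∧
  (∀ χ₁ ∈ Mu S, ∀ χ₂ ∈ Mu S, χ₁ * χ₂ ∈ Mu S) ∧
  (∀ χ₁ ∈ Mu S, ∀ χ : (ZMod p)⟦X⟧, χ₁ ≠ 0 → χ₁ * χ ∈ Mu S → χ ∈ Mu S) ∧
  (∀ χ : (ZMod p)⟦X⟧, (∀ N : ℕ, ∃ χ' ∈ Mu S, X ^ N ∣ χ - χ') → χ ∈ Mu S) ∧
  (S.Nonempty → (1 : (ZMod p)⟦X⟧) ∈ Mu S) ∧
  (∀ ν ∈ So S, ∀ δ : ℤ_[p], δ ≠ 0 →
    (ν * δ ∈ So S ↔ PowerSeries.subst (X * fi p ν) (fi p δ) ∈ Mu S))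

/-- [ALT] (1 h; uses `St_FIP`, `St_ALS`, `St_APJ`) The solutions are the `p ^ a ν₀`.

Proof. `y := X * fi ν₀`. `X * fi (p ^ a ν₀) = y ^ p ^ a` (`St_FIP` (1) and `St_FIM`-free:
`pw (1 + X) (p ^ a ν₀) = (pw (1 + X) ν₀) ^ p ^ a`, which follows from the additivity of `pw` in the
exponent, i.e. `St_FIP` (1), (2), by induction; then `sub_pow_char_pow`), so
`fi (p ^ a ν₀) = fi ν₀ * y ^ (p ^ a - 1)`. So `p ^ a ν₀ ∈ So S` if and only if `y ^ (p ^ a - 1) ∈ Mu S`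
(`St_ALS` (1) and the definition). `Δ := {m | y ^ m ∈ Mu S}` contains `0` and is closed under
addition and under differences (`St_ALS` (2), (3)), so `Δ = {m | D ∣ m}` for some `D`. Hence the set of
the statement is `{n | ∃ a, n = β + p ^ a ν₀ ∧ D ∣ p ^ 0 * (p ^ a - 1)}`: if `p ^ J ∣ n - β ∈ So S` then
`ν₀ ∣ n - β`, so `n - β = p ^ a ν₀`; conversely `p ^ J` divides `p ^ a ν₀`. `St_APJ` with `j₀ = 0`. -/
def St_ALT : Prop := ∀ (p : ℕ) [Fact p.Prime] (S : Set (ZMod p)⟦X⟧) (β ν₀ : ℤ_[p]), Sp p S →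
  ν₀ ∈ So S → (∀ ν ∈ So S, ν₀ ∣ ν → ∃ a : ℕ, ν = (p : ℤ_[p]) ^ a * ν₀) →
  ∀ J : ℕ, (∀ ν ∈ So S, (p : ℤ_[p]) ^ J ∣ ν → ν₀ ∣ ν) → (p : ℤ_[p]) ^ J ∣ ν₀ →
  PSet p {n : ℕ | (p : ℤ_[p]) ^ J ∣ (n : ℤ_[p]) - β ∧ (n : ℤ_[p]) - β ∈ So S}

/-- [ALA] (1.3 h; uses `St_LUC`, `St_FIP`, `St_FIM`, `St_ALS`) The case without nonconstant units among the multipliers.

Proof. Write `y_i := X * fi ν_i` for `ν_i ∈ So S`, `ν_i = p ^ j_i γ_i` with units `γ_i`.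
`y_i = X ^ p ^ j_i * g_i` with `g_i` a unit, and `g_i ≡ const mod X ^ (p ^ j_i)`: `y_i = θ ^ p ^ j_i` for
`θ = X * fi γ_i = X * θ'`, `θ'` a unit, so `g_i = θ' ^ p ^ j_i` and `g ^ p ^ j ≡ g(0)` modulo
`X ^ (p ^ j)`. If `ν_1 ∣ ν_2` then `y_2 / y_1 := subst y_1 (fi (ν_2 / ν_1)) ∈ Mu S` (`St_ALS` (6), `fi ν_2 =
fi ν_1 * ..`). (a) Constants: if `fi δ` (or `subst y (fi δ)` for some `y ≠ 0`, `X ∣ y`, equivalently) is a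
constant, then `coeff l (pw (1 + X) δ) = coeff (l - 1) (fi δ) = 0` for `l ≥ 2`, so `δ = 1` by `St_LUC` with
`D = 0` (`p ^ a ≡ 1 mod 0` means `p ^ a = 1`). [If `subst y g = C c` and `y = X ^ m * unit`, `m > 0`, then
`g = C c`.] (b) Let `ν = ν_1`, `ν' = ν_2`, `ν_1 ∣ ν_2`, `j_1 ≤ j_2`. If `j_1 = j_2`: `χ := y_2 / y_1` is a unit in
`Mu S`, so a constant, so `ν_2 = ν_1` by (a). (c) Let `j_1 < j_2`. For every `J > j_2` there is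
`ν_3 ∈ So S` with `j_3 ≥ J`. `χ_2 := y_2 / y_1`, `χ_3 := y_3 / y_1`, `d_i := p ^ j_i - p ^ j_1`,
`χ_2 ^ d_3`, `χ_3 ^ d_2 ∈ Mu S` have the same order `d_2 d_3`, so their quotient is a unit in `Mu S`
(`St_ALS` (3)), a constant `c`. So `(g_2 / g_1) ^ d_3 = c (g_3 / g_1) ^ d_2`; multiplying by
`g_1 ^ (d_2 + d_3) (g_1 g_2) ^ p ^ j_1` we get
`g_2 ^ p ^ j_3 * g_1 ^ p ^ j_2 = c * g_3 ^ d_2 * g_1 ^ p ^ j_3 * g_2 ^ p ^ j_1`. Modulo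
`X ^ (p ^ j_3)` the factors `g_2 ^ p ^ j_3`, `g_1 ^ p ^ j_3`, `g_3 ^ d_2` are nonzero constants, so
`g_1 ^ p ^ j_2 ≡ c' g_2 ^ p ^ j_1` with `c' = g_1(0) / g_2(0)` (compare the constant coefficients,
`x ^ p = x` in `ZMod p`), for arbitrarily large `j_3`, so `g_1 ^ p ^ j_2 = c' g_2 ^ p ^ j_1` and
`y_1 ^ p ^ j_2 = c' y_2 ^ p ^ j_1`, i.e. `X * fi (p ^ j_2 ν_1) = c' (X * fi (p ^ j_1 ν_2))` (as in `St_ALT`:
`X * fi (p ^ a ν) = (X * fi ν) ^ p ^ a`). With `μ := p ^ j_2 ν_1`, `p ^ j_1 ν_2 = μ δ` (`δ` a unit, both have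
the valuation `j_1 + j_2`): `fi (μ δ) = fi μ * subst (X * fi μ) (fi δ)` (`St_FIM`), so
`subst (X * fi μ) (fi δ)` is a constant, `δ = 1` by (a), and `ν_2 = p ^ (j_2 - j_1) ν_1`. -/
def St_ALA : Prop := ∀ (p : ℕ) [Fact p.Prime] (S : Set (ZMod p)⟦X⟧), Sp p S →
  (∀ η : (ZMod p)⟦X⟧, IsUnit η → η ∈ Mu S → ∃ c : ZMod p, η = C c) →
  (∀ J : ℕ, ∃ ν ∈ So S, (p : ℤ_[p]) ^ J ∣ ν) →
  ∀ ν ∈ So S, ∀ ν' ∈ So S, ν ∣ ν' → ∃ a : ℕ, ν' = (p : ℤ_[p]) ^ a * ν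

/-- [ALR] (0.4 h; uses `St_ALS`) If there is a nonconstant unit, the multipliers are a ring.

Proof. `η φ ∈ S` for `φ ∈ S` by `St_ALS` (1) (`η ≠ 0`), so `Sp.h3` gives: sums of elements of `S` are in
`S` or `0`. If `χ₁, χ₂ ≠ 0` then `χ₁ φ + χ₂ φ ∈ S` or `= 0`, so `χ₁ + χ₂ ∈ Mu S`. `1 ∈ Mu S`, so all
`C c`, `c` a natural number, are (`C` of an element of `ZMod p` is a sum of ones). -/
def St_ALR : Prop := ∀ (p : ℕ) [Fact p.Prime] (S : Set (ZMod p)⟦X⟧) (η : (ZMod p)⟦X⟧), Sp p S →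
  S.Nonempty → IsUnit η → η ∈ Mu S → (∀ c : ZMod p, η ≠ C c) →
  (∀ χ₁ ∈ Mu S, ∀ χ₂ ∈ Mu S, χ₁ + χ₂ ∈ Mu S) ∧ ∀ c : ZMod p, C c ∈ Mu S

/-- [ALD] (1.3 h; uses `St_FIP`, `St_FIM`, `St_ALS`, `St_ALR`) The exponents of the powers of `y` which are multipliers.

Proof. `R := Mu S`; a subring (`St_ALR`, `St_ALS` (2), (5)), closed in the `X`-adic topology
(`St_ALS` (4)), with exact division (`St_ALS` (3)). Choose `ν_1, ν_2 ∈ So S` with `v(ν_2) > v(ν_1)`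
(accumulation); `χ = subst y_1 (fi (ν_2 / ν_1)) ∈ R` has the order `p ^ j_2 - p ^ j_1 > 0` (`fi ν_2 =
fi ν_1 * χ`, orders by `St_FIP` (6)). Let `κ ∈ R`, `κ ≠ 0`, have the least positive order `e`. `e = D' p ^ m'`,
`D'` prime to `p`. Choose `ν₀ ∈ So S`, `ν₀ = p ^ j γ`, `j ≥ m'`, `y := X * fi ν₀`. Claim: `y ^ D' ∈ R`.
For `ν_3 ∈ So S`, `ν_3 = p ^ l γ_3` with large `l > j`, `y_3 := X * fi ν_3`, `χ_3 := y_3 / y ∈ R`. With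
`θ := X * fi γ_3` (order `1`) `y_3 = θ ^ p ^ l`, `θ ^ e = κ * w_3` with a unit `w_3` (same order), so
`y_3 ^ D' = (θ ^ e) ^ p ^ (l - m') = κ ^ p ^ (l - m') * w_3 ^ p ^ (l - m')`, and similarly
`y ^ D' = κ ^ p ^ (j - m') * w_0 ^ p ^ (j - m')`, `w_0` a unit. So
`χ_3 ^ D' * w_0 ^ p ^ (j - m') = κ ^ (p ^ (l - m') - p ^ (j - m')) * w_3 ^ p ^ (l - m')`. Let
`V := (w_0 ^ p ^ (j - m'))⁻¹`. `χ_3 ^ D' = κ ^ (..) * (w_3 ^ p ^ (l - m') * V)`, so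
`w_3 ^ p ^ (l - m') * V ∈ R` by exact division; `w_3 ^ p ^ (l - m') ≡ c` modulo `X ^ p ^ (l - m')`,
`c ≠ 0` a constant; multiply by `C c⁻¹ ∈ R`: an element of `R` congruent to `V` modulo
`X ^ p ^ (l - m')`. As `l` is arbitrarily large, `V ∈ R`; `V * w_0 ^ .. = 1 ∈ R`, so
`w_0 ^ p ^ (j - m') ∈ R` by exact division, and `y ^ D' ∈ R`. Finally `{m | y ^ m ∈ R}` contains `0`, `D'`
and is closed under sums and differences, so it is `{m | D ∣ m}`, `D ∣ D'`. -/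
def St_ALD : Prop := ∀ (p : ℕ) [Fact p.Prime] (S : Set (ZMod p)⟦X⟧) (η : (ZMod p)⟦X⟧), Sp p S →
  IsUnit η → η ∈ Mu S → (∀ c : ZMod p, η ≠ C c) →
  (∀ J : ℕ, ∃ ν ∈ So S, (p : ℤ_[p]) ^ J ∣ ν) →
  ∃ ν₀ ∈ So S, ∃ D : ℕ, 0 < D ∧ Nat.Coprime D p ∧
    ∀ m : ℕ, (X * fi p ν₀) ^ m ∈ Mu S ↔ D ∣ m

/-- [ALI] (1 h; no other module) Linear independence of the powers of `y`.

Proof. Suppose not all `b r`, `r < D`, are `0`. Let `N` be the minimum of the orders of the nonzero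
`y ^ r * b r`. There are two different `r < r'` (both `< D`) such that `y ^ r * b r`, `y ^ r' * b r'` have the
order `N`: otherwise the sum has the order `N` (`Od.add`). `m := r' - r`, `0 < m < D`.
`y ^ m * b r' = b r * w` with a unit `w` (same orders, cancel `y ^ r`). `D`-th powers:
`y ^ (m D) * b r' ^ D = b r ^ D * w ^ D`; the left side is in `R`, so `w ^ D ∈ R` (division by
`b r ^ D ∈ R`, `≠ 0`). `w = C c * w'` with `w'` of constant coefficient `1`, `C c⁻¹ ∈ R`, so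
`w' ^ D ∈ R`. For every `N'` there is a natural `i` with `D i ≡ 1 mod p ^ N'` (`D` prime to `p`), and
`w' ^ (D i) ≡ w' mod X ^ (p ^ N')` (`w' ^ p ^ N' ≡ 1`, `sub_pow_char_pow`). So `w' ∈ R` by
closedness, `w ∈ R`, `y ^ m * b r' ∈ R`, and `y ^ m ∈ R` by division by `b r' ≠ 0`; so `D ∣ m`, a
contradiction. -/
def St_ALI : Prop := ∀ (p : ℕ) [Fact p.Prime] (R : Set (ZMod p)⟦X⟧) (y : (ZMod p)⟦X⟧) (D : ℕ),
  (∀ χ₁ ∈ R, ∀ χ₂ ∈ R, χ₁ * χ₂ ∈ R) → (∀ c : ZMod p, C c ∈ R) →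
  (∀ χ₁ ∈ R, ∀ χ : (ZMod p)⟦X⟧, χ₁ ≠ 0 → χ₁ * χ ∈ R → χ ∈ R) →
  (∀ χ : (ZMod p)⟦X⟧, (∀ N : ℕ, ∃ χ' ∈ R, X ^ N ∣ χ - χ') → χ ∈ R) →
  X ∣ y → y ≠ 0 → Nat.Coprime D p → (∀ m : ℕ, y ^ m ∈ R ↔ D ∣ m) →
  ∀ b : ℕ → (ZMod p)⟦X⟧, (∀ r < D, b r ∈ R) → ∑ r ∈ Finset.range D, y ^ r * b r = 0 →
  ∀ r < D, b r = 0

/-- [ALB] (1.2 h; uses `St_LUC`, `St_FIP`, `St_ALS`, `St_ALR`, `St_ALD`, `St_ALI`) The case with a nonconstant unit among the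
multipliers.

Proof. `R := Mu S`, `ν₀`, `D`, `y` of `St_ALD`. For a power series `g` over `ZMod p`, `subst (y ^ D) g ∈ R`:
it is the limit of polynomials in `y ^ D ∈ R` with constant coefficients (`St_ALR`, `St_ALS` (2),
(4)). Case `D = 1`: for `δ ≠ 0`, `subst y (fi δ) ∈ R`, so `ν₀ δ ∈ So S` (`St_ALS` (6)). Case
`D ≠ 1`: let `ν = ν₀ δ ∈ So S`; `χ := subst y (fi δ) ∈ R` by `St_ALS` (6). Let `g_r`, `r < D`, be the series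
with `coeff i g_r = coeff (D i + r) (fi δ)`: `fi δ = ∑ r < D, X ^ r * subst (X ^ D) g_r`, so
`χ = ∑ r < D, y ^ r * a_r`, `a_r := subst (y ^ D) g_r ∈ R`. `St_ALI` for `b 0 := a_0 - χ`, `b r := a_r`: all
`a_r = 0`, `0 < r < D`, so `g_r = 0` (`y ^ D ≠ 0` is a positive power of `X` times a unit). So
`coeff l (fi δ) = 0` unless `D ∣ l`, i.e. `coeff l (pw (1 + X) δ) = 0` for `l ≥ 1` unless `l ≡ 1 mod D`
(`St_FIP` (1)). `St_LUC`: `δ = p ^ a`. -/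
def St_ALB : Prop := ∀ (p : ℕ) [Fact p.Prime] (S : Set (ZMod p)⟦X⟧) (η : (ZMod p)⟦X⟧), Sp p S →
  IsUnit η → η ∈ Mu S → (∀ c : ZMod p, η ≠ C c) →
  (∀ J : ℕ, ∃ ν ∈ So S, (p : ℤ_[p]) ^ J ∣ ν) →
  ∃ ν₀ ∈ So S, (∀ δ : ℤ_[p], δ ≠ 0 → ν₀ * δ ∈ So S) ∨
    ∀ ν ∈ So S, ν₀ ∣ ν → ∃ a : ℕ, ν = (p : ℤ_[p]) ^ a * ν₀

/-- [ALG] (0.8 h; uses `St_ALT`, `St_ALA`, `St_ALB`, `ETD.St_SUN`, `St_BLL`, `St_RMV`) The algebraic theorem.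

Proof. If for some `J₀` no `ν ∈ So S` is divisible by `p ^ J₀`, the sets are empty for `J ≥ J₀`.
Otherwise `So S` accumulates at `0`. By `St_ALA` or `St_ALB` (according to whether there is a
nonconstant unit in `Mu S`) there is `ν₀ ∈ So S` such that all `ν₀ δ ∈ So S`, `δ ≠ 0`, or every
`ν ∈ So S` divisible by `ν₀` is `p ^ a ν₀`. `J₀ := v(ν₀)`, so `p ^ J ∣ ν`, `J ≥ J₀`, implies `ν₀ ∣ ν`. In the
first case the set is `{n | p ^ J ∣ n - β, n ≠ β}`: `St_BLL`, and `St_RMV` if `β` is natural. In the second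
case let `J ≥ J₀` and let `ν₁ = p ^ a ν₀ ∈ So S` be divisible by `p ^ J` with minimal `a` (exists by
accumulation): every `ν ∈ So S` divisible by `p ^ J` is `p ^ b ν₀`, `b ≥ a`, so it is divisible by
`ν₁` and equal to `p ^ (b - a) ν₁`; `St_ALT` for `ν₁`. -/
def St_ALG : Prop := ∀ (p : ℕ) [Fact p.Prime] (S : Set (ZMod p)⟦X⟧) (β : ℤ_[p]), Sp p S →
  ∃ J₀ : ℕ, ∀ J ≥ J₀,
    PSet p {n : ℕ | (p : ℤ_[p]) ^ J ∣ (n : ℤ_[p]) - β ∧ (n : ℤ_[p]) - β ∈ So S}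

end ETA
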