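import Pool.Agent.ETA.StB

/-!
# ETA, statements C: pairs of orbits in residue discs
-/

set_option autoImplicit false
set_option linter.unusedVariables false

namespace ETA

open PowerSeries ETD

/-! ## Type `U`, type `U` -/

/-- [TRA] (0.6 h; no other module) The translation of a series by a small point and its digit `0`.

Proof. `w' i := PowerSeries.subst (MvPowerSeries.X 0) (w i) : MvPowerSeries (Fin (n + 1)) k`,
`G i := w' i + MvPowerSeries.X i.succ` (constant coefficient `0`), `H := MvPowerSeries.subst G F`. By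
`e_subst` (with `hz.cons`) `ec z H = e (fun i => e (Fin.cons X z) (G i)) F`, and
`e (Fin.cons X z) (w' i) = w i` (substitution twice), `e (Fin.cons X z) (MvPowerSeries.X i.succ) = z i`.
Digit `0` for `M = 0`: the coefficient at `i` is `coeff (Finsupp.cons 0 i) H`. Let
`L := MvPowerSeries.subst (Fin.cons 0 MvPowerSeries.X)` (put `t = 0`). `L (G i) = MvPowerSeries.X i`,
so `L H = F`, and `coeff i (L H) = coeff (Finsupp.cons 0 i) H` (`MvPowerSeries.coeff_subst`; the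
monomials with `t` go to `0`). See the similar `Pool/Agent/ETD/TRD.lean`. -/
def St_TRA : Prop := ∀ (k : Type) [Field k] (n : ℕ) (w : Fin n → k⟦X⟧), Sm w →
  ∀ F : MvPowerSeries (Fin n) k, ∃ H : MvPowerSeries (Fin (n + 1)) k, dig 0 H 0 = F ∧
    ∀ z : Fin n → k⟦X⟧, Sm z → ec z H = e (fun i => w i + z i) F

/-- [ADC] (1.2 h; uses `ETD.St_DIG`, `St_DGC`, `St_ACT`, `St_ACO`, `St_HTS`, `St_TRA`) Additive closedness at an accumulation point.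

Proof. `w := pa p B z φ₀` (small). `kr w` is the carrier of the ideal `ker` of the evaluation at `w`;
let `F_1, .., F_r` generate it (Noetherian). `H_j` := series of `St_TRA` for `w`, `F_j`. `q₀` := the
maximum of the numbers of `St_DGC` for `M = 0` and the `H_j`. Let `N` be such that
`p ^ (u N) ≥ q₀` (`u` the common `(B i).u > 0`) and take the `φ'` for this `N`: `φ' = φ₀ + X ^ m * η`
with a unit `η`, `m ≥ N` (`exists_Od` for `φ' - φ₀ ≠ 0`, `Od.le`). `A := pa p B z (X ^ m * η)`: both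
coordinates are `Ex (p ^ (u m))` (`St_ACO` (2)), and `pa p B z φ' = w + A` (`St_ACT` (2)). So
`ec A H_j = e (w + A) F_j = e (pa p B z φ') F_j = 0`, as `F_j ∈ kr (pa φ₀) = kr (pa φ')`. By `St_DGC`
(`ζ = A`) all elements of `dI 0 H_j` vanish at `A`. `F_j = dig 0 H_j 0 ∈ dI 0 H_j`, so all `F_j`, hence
all elements of `kr w`, vanish at `A`; `A i ≠ 0` (`St_ACO` (4)), so `kr w = kr A` by `St_HTS`. So
`dI 0 H_j ⊆ kr w` for all `j`. Now let `kr (pa φ) = kr w`. All elements of `dI 0 H_j` vanish at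
`pa φ`, so `ec (pa φ) H_j = 0` by the first part of `ETD.St_DIG` (`q = 1`, `M = 0`, `expand_one`), i.e.
`e (w + pa φ) F_j = 0`, `w + pa φ = pa (φ₀ + φ)`. So `kr w ⊆ kr (pa (φ₀ + φ))`, and equality holds by
`St_HTS` (`φ₀ + φ ≠ 0`, `St_ACO` (4)). -/
def St_ADC : Prop := ∀ (k : Type) [Field k] (p : ℕ) [Fact p.Prime] [CharP k p]
  (B : Fin 2 → Op k) (z : Fin 2 → k⟦X⟧), (B 0).u = (B 1).u → Sm z → (∀ i, z i ≠ 0) →
  ∀ φ₀ : (ZMod p)⟦X⟧, φ₀ ≠ 0 → (∃ F ∈ kr (pa p B z φ₀), F ≠ 0) →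
  (∀ N : ℕ, ∃ φ' : (ZMod p)⟦X⟧, φ' ≠ φ₀ ∧ X ^ N ∣ φ₀ - φ' ∧
    kr (pa p B z φ') = kr (pa p B z φ₀)) →
  ∀ φ : (ZMod p)⟦X⟧, φ ≠ 0 → kr (pa p B z φ) = kr (pa p B z φ₀) → φ₀ + φ ≠ 0 →
    kr (pa p B z (φ₀ + φ)) = kr (pa p B z φ₀)

/-- [SPR] (1.2 h; uses `St_ACT`, `St_ACO`, `St_ACS`, `St_HTS`, `St_ADC`) The properties of the set of the `φ` with
`kr (φ z) = P`.

Proof. `S := {φ | φ ≠ 0 ∧ kr (pa p B z φ) = P}`. `h0` clear. `h1`: `χ φ ≠ 0`, so `χ ≠ 0`, `χ φ' ≠ 0`;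
`pa (χ φ) i = act χ (pa φ i) = e (pa φ) (G i)` with `G` of `St_ACS` for `φ = fun _ => χ`
(`St_ACT` (5)), so `kr (pa (χ φ')) = kr (pa (χ φ)) = P` by `kr_comp`. `h2`: let `F ∈ P`, `N` be given;
`φ' ∈ S`, `X ^ N ∣ φ - φ'`, so `X ^ N ∣ pa φ i - pa φ' i` (`St_ACT` (6)) and `X ^ N ∣ e (pa φ) F` by
`e_congr`; all `N`: `e (pa φ) F = 0`. So `P ⊆ kr (pa φ)`, `P = kr (pa φ')` for some `φ' ∈ S`;
`St_HTS`. `h3`: let `η φ ∈ S`, `φ ∈ S`, `η` a nonconstant unit. By `h1`, `η ^ j φ ∈ S` for all `j`, and then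
`η ^ j φ₁ ∈ S` for all `φ₁ ∈ S`. `η₁ := η ^ (p - 1)` has the constant coefficient `1`
(`ZMod.pow_card_sub_one_eq_one`) and `η₁ ≠ 1`: `η = C c (1 + ε)`, `ε ≠ 0`, `X ∣ ε`, and
`(1 + ε) ^ (p - 1) = 1` would give `1 + ε ^ p = 1 + ε`. So
`θ_m := η₁ ^ p ^ m = 1 + (η₁ - 1) ^ p ^ m ≠ 1`, `X ^ (p ^ m) ∣ θ_m - 1`, and `φ' := θ_m φ₁ ∈ S` are
different from `φ₁` and converge to it. So `St_ADC` for `φ₀ = φ₁`, `φ = φ₂` gives `φ₁ + φ₂ ∈ S` or `= 0`.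
-/
def St_SPR : Prop := ∀ (k : Type) [Field k] (p : ℕ) [Fact p.Prime] [CharP k p]
  (B : Fin 2 → Op k) (z : Fin 2 → k⟦X⟧), (B 0).u = (B 1).u → Sm z → (∀ i, z i ≠ 0) →
  ∀ P : Set (MvPowerSeries (Fin 2) k), (∃ F ∈ P, F ≠ 0) →
    Sp p {φ : (ZMod p)⟦X⟧ | φ ≠ 0 ∧ kr (pa p B z φ) = P}

/-- [PU2] (1.2 h; uses `St_ACO`, `St_FIP`, `St_DGC`, `St_DGZ`, `St_MPR`, `St_FC2`, `St_SPR`, `St_ALG`, `ETD.St_SUN`, `St_BLL`,
`St_RMV`) Local zero sets, types `U`, `U`.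

Proof. `ν := n - β = p ^ j γ`, `γ` a unit, for `n ≠ β`. `fi ν = X ^ (p ^ j - 1) * unit` (`St_FIP` (6)),
so with `d i` the order of `z i`, `pa p B z (fi ν) i` has the order `d i * p ^ (u i (p ^ j - 1))`
(`St_ACO` (3)) and is `Ex (p ^ (u i (p ^ j - 1)))` (`St_ACO` (2)). If `H = 0`: `J = 0`, `St_BLL` and, if
`β` is natural, `St_RMV`. Let `H ≠ 0`. Case `u 0 ≠ u 1`: `C` of `St_FC2`; for `j ≥ J` (large) both orders
are `≥ C` and they are not comparable with the factor `C` (the quotient is at least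
`p ^ (p ^ j - 1) / (d 0 + d 1)`), so the set is empty. Case `u 0 = u 1`: `M = 0`, `q₀` of `St_DGC`
(`ζ = A = pa ..`); for `j ≥ J` the value vanishes if and only if all `F ∈ dI 0 H` vanish at
`pa p B z (fi ν)`. By `St_DGZ` `dI 0 H` has a nonzero element; `𝒬` of `St_MPR`. So for `J` large the set
is the union over `P ∈ 𝒬` of `{n | p ^ J ∣ n - β, n - β ∈ So S_P}`, `S_P` the set of `St_SPR`
(`fi ν ≠ 0`); for `J` at least all the `J₀` of `St_ALG` these are `PSet`s (`St_SUN`, finite unions). -/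
def St_PU2 : Prop := ∀ (k : Type) [Field k] (p : ℕ) [Fact p.Prime] [CharP k p]
  (B : Fin 2 → Op k) (z : Fin 2 → k⟦X⟧) (β : ℤ_[p]), Sm z → (∀ i, z i ≠ 0) →
  ∀ H : MvPowerSeries (Fin 3) k, ∃ J : ℕ,
    PSet p {n : ℕ | (p : ℤ_[p]) ^ J ∣ (n : ℤ_[p]) - β ∧ (n : ℤ_[p]) ≠ β ∧
      ec (pa p B z (fi p ((n : ℤ_[p]) - β))) H = 0}

/-- [PUU] (0.6 h; uses `St_LOU`, `St_ACT`, `ETD.St_HHH`, `St_PU2`, `ETD.St_SUN`, `ETD.St_CPT`) Types `U`, `U`.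

Proof. `B i` from `St_LOU`. For every `β`: `z i`, and `ρ i` for `M = 0`; `H` of `St_HHH`; with
`ζ := pa p B z (fi (n - β))` (small, `St_ACT` (7)) the value of `h` is `ec ζ H`. `J` of `St_PU2`; the set of
`St_CPT` is the union of the set of `St_PU2` and a set with at most one element (`n = β`). -/
def St_PUU : Prop := ∀ (k : Type) [Field k] (p : ℕ) [Fact p.Prime] [CharP k p]
  (x y : ℕ → k⟦X⟧), TyU p x → TyU p y → ∀ h : MvPolynomial (Fin 2) k⟦X⟧,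
    PSet p {n : ℕ | MvPolynomial.eval ![x n, y n] h = 0}

/-! ## Type `U`, type `I` -/

/-- [UIC] (0.5 h; no other module) Comparable scales.

Proof. For every integer `c` with `|c| ≤ C₁` and `c ≠ u' β` in `ℤ_p` there is `J c` such that `p ^ J c` does
not divide `c - u' β`; `J := ` the maximum. If `u' n = u p ^ j + c` and `j ≥ J`, then
`u' (n - β) = u p ^ j + (c - u' β)`, so `p ^ j ∣ c - u' β`, hence `c = u' β`. -/
def St_UIC : Prop := ∀ (p : ℕ) [Fact p.Prime] (u u' C₁ : ℕ) (β : ℤ_[p]), ∃ J : ℕ, ∀ n j : ℕ,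
  J ≤ j → (p : ℤ_[p]) ^ j ∣ (n : ℤ_[p]) - β →
  |(u' * n : ℤ) - u * (p : ℤ) ^ j| ≤ C₁ →
    (u' : ℤ_[p]) * ((n : ℤ_[p]) - β) = u * (p : ℤ_[p]) ^ j

/-- [UIP] (1.1 h; uses `St_ACT`, `St_ACO`, `St_ACS`, `St_FIP`, `St_APJ`) Periodicity, types `U`, `I`.

Proof. `y := X * fi ν₁`, `X * fi (p ^ i ν₁) = y ^ p ^ i` (see `St_ALT`), so
`fi (p ^ i ν₁) = fi ν₁ * y ^ (p ^ i - 1)`. If `n = β + p ^ i ν₁` is natural, then
`a (n - n₁) = a (p ^ i - 1) ν₁ = (p ^ i - 1) b` in `ℤ_p`, hence in the integers: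
`a (n - n₁) = b (p ^ i - 1)`, so `n ≥ n₁`. For `m, l` natural let
`A(m, l) := ![act (B 0) (fi ν₁ * y ^ m) (z 0), (B 1)^[n₁ + l] (z 1)]`, `P := kr A(0, 0)`. With `G` of
`St_ACS` for `φ = ![y ^ m', X ^ l']`: `A(m + m', l + l') i = e A(m, l) (G i)` (`St_ACT` (5),
`St_ACO` (1), iterates), so by `kr_comp`: (*) `kr A(m, l) = kr A(m₁, l₁)` implies
`kr A(m + m', l + l') = kr A(m₁ + m', l₁ + l')`. Let `Δ := {m | ∃ l, a l = b m ∧ kr A(m, l) = P}`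
(`l` is determined by `m`). `0 ∈ Δ`; `Δ` is closed under addition and differences by (*). So
`Δ = {m | D ∣ m}` for some `D`. The set is `{n | ∃ i, n = β + p ^ i ν₁ ∧ D ∣ p ^ 0 * (p ^ i - 1)}`: if
`D ∣ p ^ i - 1` then `p ^ i - 1 ∈ Δ`, with `l`. `St_APJ` with `j₀ = 0`. -/
def St_UIP : Prop := ∀ (k : Type) [Field k] (p : ℕ) [Fact p.Prime] [CharP k p]
  (B : Fin 2 → Op k) (z : Fin 2 → k⟦X⟧) (β ν₁ : ℤ_[p]) (n₁ a b : ℕ), Sm z → 0 < a →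
  (n₁ : ℤ_[p]) = β + ν₁ → (a : ℤ_[p]) * ν₁ = b →
  PSet p {n : ℕ | (∃ i : ℕ, (n : ℤ_[p]) = β + (p : ℤ_[p]) ^ i * ν₁) ∧
    kr ![act p (B 0) (fi p ((n : ℤ_[p]) - β)) (z 0), ((B 1).f p)^[n] (z 1)] =
      kr ![act p (B 0) (fi p ν₁) (z 0), ((B 1).f p)^[n₁] (z 1)]}

/-- [UIA] (1.3 h; uses `St_ACT`, `St_ACO`, `St_FIP`, `St_DGC`, `St_DGZ`, `St_MPR`, `St_FC2`, `St_UIC`, `St_UIP`, `ETD.St_SUN`,
`St_BLL`, `St_RMV`, `St_BLN`) Local zero sets, types `U`, `I`.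

Proof. `u := (B 0).u`, `u' := (B 1).u`, `d i` the order of `z i`; `A_n := ![act (B 0) (fi (n - β)) (z 0),
(B 1)^[n] (z 1)]`. For `n - β = p ^ j γ`, `γ` a unit, the orders are `d 0 * p ^ (u (p ^ j - 1))` and
`d 1 * p ^ (u' n)`, and the coordinates are `Ex (p ^ (u (p ^ j - 1)))`, `Ex (p ^ (u' n))`
(`St_ACO`, `St_FIP` (6)), so both are `Ex` of the power of `p` with the smaller exponent (`Ex.mono`).
`H = 0`: `J = 0`, `St_BLL`, `St_RMV`. `H ≠ 0`: `C` of `St_FC2`; in a small ball (`St_BLN`: `n` large, `j`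
large) a zero has comparable orders, so `|u' n - u p ^ j| ≤ C₁ := C (d 0 + d 1) + u` (`p ^ x ≤ y`
implies `x ≤ y`). By `St_UIC` `u' (n - β) = u p ^ j` (`J` large). If there is no zero in the ball we are
done (`PSet` of the empty set). By `St_DGC` (`M = 0`), `St_DGZ`, `St_MPR` for `J` large and all `n` in
the ball, `n ≠ β`: the value vanishes if and only if `kr A_n ∈ 𝒬`, a finite set. So the set is the union
over `P ∈ 𝒬` of `Z_P := {n in the ball, n ≠ β, kr A_n = P}`, and all its elements satisfy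
`u' (n - β) = u p ^ j`. If `Z_P` is not empty, let `n₁` be its least element, `ν₁ := n₁ - β`,
`v(ν₁) = j₁`. For `n ∈ Z_P`, `v(n - β) = j`: `j ≥ j₁` (`u' (n - n₁) = u (p ^ j - p ^ j₁)` in the
integers) and `n - β = p ^ (j - j₁) ν₁` (cancel `u'`). So `Z_P` is the set of `St_UIP` with `a = u'`,
`b = u p ^ j₁` (elements of the latter are in the ball and `≠ β`). -/
def St_UIA : Prop := ∀ (k : Type) [Field k] (p : ℕ) [Fact p.Prime] [CharP k p]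
  (B : Fin 2 → Op k) (z : Fin 2 → k⟦X⟧) (β : ℤ_[p]), Sm z → (∀ i, z i ≠ 0) →
  ∀ H : MvPowerSeries (Fin 3) k, ∃ J : ℕ,
    PSet p {n : ℕ | (p : ℤ_[p]) ^ J ∣ (n : ℤ_[p]) - β ∧ (n : ℤ_[p]) ≠ β ∧
      ec ![act p (B 0) (fi p ((n : ℤ_[p]) - β)) (z 0), ((B 1).f p)^[n] (z 1)] H = 0}

/-- [PUI] (0.6 h; uses `St_LOU`, `St_LOI`, `St_ACT`, `St_ACO`, `ETD.St_HHH`, `St_UIA`, `ETD.St_SUN`, `ETD.St_CPT`, `ETD.St_PRE`) Types
`U`, `I`.

Proof. `B 0` of `St_LOU`, `B 1`, `z 1` of `St_LOI`. If `z 1 = 0`, then `y n = ec ![0] ρ` for all `n`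
(`M = 0`, `ζ = 0`; `(B 1).f p 0 = 0`) is constant, and `St_PRE` applies (`x` is an orbit). Otherwise for
every `β`: `z 0`, `ρ 0`, `ρ 1` for `M = 0`, `H` of `St_HHH`; the value of `h` is `ec ζ H`,
`ζ = ![act .., (B 1)^[n] (z 1)]` (small). `J` of `St_UIA`, and `St_CPT` as in `St_PUU`. -/
def St_PUI : Prop := ∀ (k : Type) [Field k] (p : ℕ) [Fact p.Prime] [CharP k p]
  (x y : ℕ → k⟦X⟧), TyU p x → TyI p y → ∀ h : MvPolynomial (Fin 2) k⟦X⟧,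
    PSet p {n : ℕ | MvPolynomial.eval ![x n, y n] h = 0}

/-! ## Type `I`, type `I` -/

/-- [PIA] (1.1 h; uses `St_ACT`, `St_ACO`, `St_ACS`, `St_DGC`, `St_DGZ`, `St_MPR`, `St_FC2`, `St_EVP`, `ETD.St_SUN`) Zero sets, types
`I`, `I`.

Proof. `A_n := fun i => ((B i).f p)^[n] (z i)`, of orders `d i * p ^ (u i n)`, coordinates
`Ex (p ^ (u i n))` (`St_ACO` with `φ = X ^ n`, `η = 1`). `H = 0`: everything (`St_EVP`, `N = 1`).
`H ≠ 0`, `u 0 ≠ u 1`: by `St_FC2` there is no zero for large `n`; the set is finite. `u 0 = u 1`: for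
`n ≥ n₀` the value vanishes if and only if `kr A_n ∈ 𝒬` (`St_DGC` with `M = 0`, `St_DGZ`, `St_MPR`).
For `P ∈ 𝒬` let `Z_P := {n ≥ n₀ | kr A_n = P}`. If it has at most one element it is finite. If
`n₁ < n₂` are in `Z_P`, `d := n₂ - n₁`, then `kr A_m = kr A_(m + d)` for all `m ≥ n₁` (`kr_comp` with
`G` of `St_ACS` for `φ = fun _ => X ^ (m - n₁)`, `St_ACO` (1)), so `Z_P` is eventually periodic
(`St_EVP`). Finite union, and the finite part below `n₀` (`St_SUN`). -/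
def St_PIA : Prop := ∀ (k : Type) [Field k] (p : ℕ) [Fact p.Prime] [CharP k p]
  (B : Fin 2 → Op k) (z : Fin 2 → k⟦X⟧), Sm z → (∀ i, z i ≠ 0) →
  ∀ H : MvPowerSeries (Fin 3) k,
    PSet p {n : ℕ | ec (fun i => ((B i).f p)^[n] (z i)) H = 0}

/-- [PII] (0.5 h; uses `St_LOI`, `St_ACT`, `St_ACO`, `ETD.St_HHH`, `St_PIA`, `ETD.St_PRE`) Types `I`, `I`.

Proof. `B i`, `z i` of `St_LOI`. If `z 1 = 0` then `y` is constant (see `St_PUI`): `St_PRE`. If `z 0 = 0`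
then `x` is constant: `St_PRE` with the variables of `h` exchanged (`MvPolynomial.rename (Equiv.swap 0 1)`
or `MvPolynomial.eval_rename`). Otherwise `St_PIA` with `H` of `St_HHH` for `ρ 0`, `ρ 1` (`M = 0`). -/
def St_PII : Prop := ∀ (k : Type) [Field k] (p : ℕ) [Fact p.Prime] [CharP k p]
  (x y : ℕ → k⟦X⟧), TyI p x → TyI p y → ∀ h : MvPolynomial (Fin 2) k⟦X⟧,
    PSet p {n : ℕ | MvPolynomial.eval ![x n, y n] h = 0}

/-! ## Type `E`, type `I` -/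

/-- [ONE] (0.4 h; no other module) Series in one variable over `k⟦t⟧`.

Proof. Write `Z = MvPowerSeries.X 1`. `g = Z ^ i * g₁` with `¬ Z ∣ g₁` (largest power of `Z` dividing
`g ≠ 0`, see `Pool/Agent/ETD/FAC.lean`). `ec ![0] g₁ ≠ 0` (the series `g₁(t, 0)`) has an order `c`, and
`ec ![δ] g₁ ≡ ec ![0] g₁ mod X ^ D`, `D ≥ c + 1` (`e_congr`), so `ec ![δ] g₁` has the order `c`
(`Od.add`), and `ec ![δ] g = δ ^ i * ec ![δ] g₁`. -/
def St_ONE : Prop := ∀ (k : Type) [Field k] (g : MvPowerSeries (Fin 2) k), g ≠ 0 →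
  ∃ i c : ℕ, ∀ (δ : k⟦X⟧) (D : ℕ), Od δ D → c < D → Od (ec ![δ] g) (i * D + c)

/-- [NZS] (0.7 h; no other module) `F(w + z, y)` as a nonzero series in `z`.

Proof. `w' := PowerSeries.subst (MvPowerSeries.X 0) w`, `y'` similarly, in `MvPowerSeries (Fin 2) k`.
`g := MvPowerSeries.subst ![w' + MvPowerSeries.X 1, y'] F`; the formula by `e_subst`. Suppose `g = 0`.
Apply `MvPowerSeries.subst ![X 0, X 1 - w']`: `MvPowerSeries.subst ![X 1, y'] F = 0`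
(`MvPowerSeries.subst_comp_subst_apply`). The coefficient of `X 1 ^ i` (all coefficients at `d` with
`d 1 = i`) is the series `F_i(y)`, `F_i := ∑ j, coeff (i, j) F * Z ^ j` in one variable, so
`PowerSeries.subst y F_i = 0` for all `i`. If `F_i ≠ 0`, `F_i = Z ^ m * unit` and
`subst y F_i = y ^ m * unit ≠ 0`. So all `F_i = 0`, `F = 0`, a contradiction. (Instead of comparing
coefficients: if `F ≠ 0`, let `i` be the least number such that some coefficient `(i, j)` of `F` is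
`≠ 0`; `F = X 0 ^ i * F'`, `F'(0, Z) ≠ 0`; then for small `z'` of large order `e ![z', y] F' ≠ 0`.) -/
def St_NZS : Prop := ∀ (k : Type) [Field k] (F : MvPowerSeries (Fin 2) k) (w y : k⟦X⟧), F ≠ 0 →
  X ∣ w → X ∣ y → y ≠ 0 → ∃ g : MvPowerSeries (Fin 2) k, g ≠ 0 ∧ ∀ z : k⟦X⟧, X ∣ z →
    ec ![z] g = e ![w + z, y] F

/-- [EI1] (0.8 h; no other module) The iterates of `B` whose exponent is divisible by `s`.

Proof. By induction `(B.f p)^[d] w = ∑ i < r', C (b i) * w ^ p ^ (u d + i)` with `b 0 ≠ 0`, `r' > 0`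
(`u = B.u`; write `B.f p w = ∑ i < r - u, C (c (u + i)) * w ^ p ^ (u + i)`; composition of additive
polynomials: `C a * (C b * w ^ p ^ i) ^ p ^ j = C (a * b ^ p ^ j) * w ^ p ^ (i + j)`; the lowest
coefficient of the composition is a product of powers of nonzero elements). `q := p ^ (u d)` is a power
of `p ^ s`, `q = (p ^ s) ^ i`, so `x ^ q = x` for `x ∈ k` (`Fr` for `C x`: `C x ^ q = expand q (C x) =
C x`). So `C (b i) * w ^ p ^ (u d + i) = (C (b i) * w ^ p ^ i) ^ q`, and the sum is the `q`-th power of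
`ad p r' (fun i => C (b i)) w` (`add_pow_char_pow`, `sum_pow_char_pow`). -/
def St_EI1 : Prop := ∀ (k : Type) [Field k] (p : ℕ) [Fact p.Prime] [CharP k p] (s : ℕ),
  Fr k p s → ∀ (B : Op k) (d : ℕ), s ∣ B.u * d → ∃ (r' : ℕ) (κ : ℕ → k), 0 < r' ∧ κ 0 ≠ 0 ∧
    ∀ w : k⟦X⟧, (B.f p)^[d] w = ad p r' (fun i => C (κ i)) w ^ p ^ (B.u * d)

/-- [EIK] (0.9 h; no other module) Superexponential convergence of the iterates of an additive map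
with constant coefficients.

Proof. Let `q := Nat.card k`, `K w := ad p r' (fun i => C (κ i)) w`, an additive map. By induction
`K^[m] w = C (κ 0 ^ m) * w + N_m w`, where `N_m` is additive and `X ^ (a p) ∣ N_m w` if `X ^ a ∣ w`.
`κ 0 ^ (q - 1) = 1` (`FiniteField.pow_card_sub_one_eq_one` with `Nat.card`), so `K^[q - 1] = 1 + N` with
`N := N_(q-1)`. In the ring of the additive endomorphisms of `k⟦X⟧` (`AddMonoid.End`, characteristic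
`p`; `K^[m]` is the power): `K ^ ((q - 1) p ^ l) = (1 + N) ^ p ^ l = 1 + N ^ p ^ l`
(`add_pow_char_pow_of_commute`, or prove `(1 + N)^[p]` formula via `Commute.add_pow_prime_pow_eq`), and
`X ^ (p ^ m) ∣ N^[m] y` if `X ∣ y`. So `X ^ (p ^ (p ^ l))` divides `K^[(q - 1) p ^ l] y - y`. -/
def St_EIK : Prop := ∀ (k : Type) [Field k] [Finite k] (p : ℕ) [Fact p.Prime] [CharP k p] (r' : ℕ)
  (κ : ℕ → k), 0 < r' → κ 0 ≠ 0 → ∀ (y : k⟦X⟧) (l : ℕ), X ∣ y →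
  X ^ p ^ p ^ l ∣ (ad p r' fun i => C (κ i))^[(Nat.card k - 1) * p ^ l] y - y

/-- [EIV] (0.7 h; no other module) Valuations of `λ ^ m - 1`.

Proof. `μ := λ ^ (q - 1)`, `q` a power of `p`: `p ∣ μ - 1` (`p - 1 ∣ q - 1`; Fermat in the residue
field `ZMod p`). If `p ^ b ∣ μ' - 1` exactly (`μ' = 1 + p ^ b x`, `x` a unit) and `b ≥ 2`, or `b ≥ 1` and `p`
odd, then `μ' ^ p = 1 + p ^ (b + 1) x'` with a unit `x'` (binomial formula). `μ ^ p ≠ 1`,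
`μ ^ p = 1 + p ^ b x` with some `b ≥ 2` and a unit `x` (valuation of the nonzero `μ ^ p - 1`; it is
divisible by `p ^ 2`: `μ = 1 + p m`, `μ ^ p ≡ 1 mod p ^ 2`). So for `l ≥ 1`, `μ ^ p ^ l - 1 =
p ^ (b + l - 1) * unit`; `c := b`. -/
def St_EIV : Prop := ∀ (p : ℕ) [Fact p.Prime] (f : ℕ) (μ : ℤ_[p]), 0 < f → IsUnit μ →
  (∀ M : ℕ, 0 < M → μ ^ M ≠ 1) → ∃ c : ℕ, ∀ l : ℕ, ∃ (v : ℕ) (x : ℤ_[p]), v ≤ l + c ∧ l ≤ v ∧
    IsUnit x ∧ μ ^ ((p ^ f - 1) * p ^ l) - 1 = (p : ℤ_[p]) ^ v * x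

/-- [EI2] (1.3 h; uses `ETD.St_PWB`, `ETD.St_PWP`, `St_PWS`, `St_PWM`, `St_ONE`, `St_NZS`, `St_EIK`, `St_EIV`) A stabiliser
argument.

Proof. `A(μ) := pw p a (μ ν) - 1`, `K w := ad p r' (fun i => C (κ i)) w`. Suppose no positive power of
`lam` is `1`. (i) Let `G := ![subst (X 0) (pw p (1 + X) lam) - 1, ∑ i < r', C (κ i) * X 1 ^ p ^ i]`
(`MvPowerSeries (Fin 2) k`, constant coefficients `0`). By `St_PWM`, `St_PWS`:
`e ![A(μ), w] (G 0) = A(lam μ)`, and `e ![A(μ), w] (G 1) = K w`. So by `kr_comp` and induction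
`kr ![A(1), y] = kr ![A(lam ^ m), K^[m] y]` for all `m`. (ii) `q := Nat.card k = p ^ f`,
`m_l := (q - 1) p ^ l`, `y_l := K^[m_l] y`: `X ^ p ^ p ^ l ∣ y_l - y` (`St_EIK`).
`δ_l := A(lam ^ m_l) - A(1) = pw a ν * (pw a (ν (lam ^ m_l - 1)) - 1)`; by `St_EIV` and `St_PWP` (2) its
order is `D_l = e p ^ (v(ν) + v_l)`, where `a - 1` has the order `e > 0`, `l ≤ v_l ≤ l + c`. (iii) Let
`F ≠ 0` be in `kr ![A(1), y]`. `g` of `St_NZS` for `w = A(1)`: `ec ![δ_l] g = e ![A(lam ^ m_l), y] F`,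
whose order is `i D_l + c'` for large `l` by `St_ONE` (`D_l → ∞`). But it is congruent to
`e ![A(lam ^ m_l), y_l] F = 0` modulo `X ^ p ^ p ^ l` (`e_congr`), so
`p ^ p ^ l ≤ i e p ^ (v(ν) + l + c) + c'` for all large `l`, false. -/
def St_EI2 : Prop := ∀ (k : Type) [Field k] [Finite k] (p : ℕ) [Fact p.Prime] [CharP k p]
  (a : k⟦X⟧), X ∣ a - 1 → a ≠ 1 → ∀ (ν lam : ℤ_[p]), ν ≠ 0 → IsUnit lam →
  ∀ (r' : ℕ) (κ : ℕ → k), 0 < r' → κ 0 ≠ 0 → ∀ y : k⟦X⟧, X ∣ y → y ≠ 0 →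
  (∃ F ∈ kr ![pw p a ν - 1, y], F ≠ 0) →
  kr ![pw p a ν - 1, y] = kr ![pw p a (lam * ν) - 1, ad p r' (fun i => C (κ i)) y] →
  ∃ M : ℕ, 0 < M ∧ lam ^ M = 1

/-- [EI3] (0.5 h; no other module) Roots of unity in `1 + p ^ 2 ℤ_p`.

Proof. If `lam ≠ 1`, `lam = 1 + p ^ b x`, `x` a unit, `b ≥ 2`. `M = p ^ c M'`, `M'` prime to `p`:
`lam ^ M' = 1 + p ^ b x'` with a unit `x'` (`≡ M' x`), and `(1 + p ^ b x') ^ p = 1 + p ^ (b + 1) x''` with a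
unit `x''` (`b ≥ 2`; binomial formula). So `lam ^ M ≠ 1`. -/
def St_EI3 : Prop := ∀ (p : ℕ) [Fact p.Prime] (lam : ℤ_[p]), (p : ℤ_[p]) ^ 2 ∣ lam - 1 →
  ∀ M : ℕ, 0 < M → lam ^ M = 1 → lam = 1

/-- [EI4] (0.5 h; no other module) Three times in geometric position.

Proof. With `b₂ := n₂ - n₁ < b₃ := n₃ - n₁`, `Q := p ^ u ≥ 2`: subtracting, `b₂ = p ^ j₁ (Q ^ b₂ - 1) γ` and
`b₃ = p ^ j₁ (Q ^ b₃ - 1) γ` in `ℤ_p`, so `b₂ (Q ^ b₃ - 1) = b₃ (Q ^ b₂ - 1)`, an equation between naturals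
(cast injective). But `b₂ (Q ^ b₃ - 1) > b₃ (Q ^ b₂ - 1)` for `1 ≤ b₂ < b₃`: induction on `b₃`, starting
from `b₃ = b₂ + 1`: `b₂ (Q ^ (b₂ + 1) - 1) - (b₂ + 1) (Q ^ b₂ - 1) ≥ (b₂ - 1) Q ^ b₂ + 1 > 0` for `Q ≥ 2`,
and the step `b₃ → b₃ + 1` adds `b₂ (Q - 1) Q ^ b₃ ≥ Q ^ b₂` to the left side and `Q ^ b₂ - 1` to the
right side. -/
def St_EI4 : Prop := ∀ (p : ℕ) [Fact p.Prime] (u : ℕ) (β γ : ℤ_[p]) (n₁ n₂ n₃ j₁ : ℕ), 0 < u →
  n₁ < n₂ → n₂ < n₃ → (n₁ : ℤ_[p]) - β = (p : ℤ_[p]) ^ j₁ * γ →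
  (n₂ : ℤ_[p]) - β = (p : ℤ_[p]) ^ (j₁ + u * (n₂ - n₁)) * γ →
  (n₃ : ℤ_[p]) - β = (p : ℤ_[p]) ^ (j₁ + u * (n₃ - n₁)) * γ → False

/-- [EI5] (0.8 h; uses `ETD.St_PWP`, `St_EI1`, `St_EI2`, `St_EI3`, `St_ACO`) Two times in the same class.

Proof. `d := n' - n`, `q := p ^ (u d)`, a power of `p ^ s`; `y := (B.f p)^[n] z ≠ 0` (`St_ACO` (1), (4)),
`ν := n - β = p ^ j γ`, `lam := γ' / γ`, `ν' := n' - β = q lam ν`. By `St_EI1`
`(B.f p)^[n'] z = (B.f p)^[d] y = (K y) ^ q`, `K = ad p r' κ`, and `pw a ν' - 1 = (pw a (lam ν)) ^ q - 1 =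
(pw a (lam ν) - 1) ^ q` (`St_PWP` (1), `sub_pow_char_pow`). For all `w`: `w ^ q = expand q w` (`Fr`), so
`kr ![pw a ν' - 1, (B.f p)^[n'] z] = kr ![pw a (lam ν) - 1, K y]` (`kr_expand`). `St_EI2`: `lam ^ M = 1`;
`p ^ 2 ∣ lam - 1`, `St_EI3`: `lam = 1`. -/
def St_EI5 : Prop := ∀ (k : Type) [Field k] [Finite k] (p : ℕ) [Fact p.Prime] [CharP k p] (s : ℕ),
  Fr k p s → ∀ a : k⟦X⟧, X ∣ a - 1 → a ≠ 1 → ∀ (B : Op k) (z : k⟦X⟧), X ∣ z → z ≠ 0 →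
  ∀ (β γ γ' : ℤ_[p]) (n n' j : ℕ), n < n' → s ∣ n' - n → IsUnit γ → IsUnit γ' →
  (p : ℤ_[p]) ^ 2 ∣ γ' - γ → (n : ℤ_[p]) - β = (p : ℤ_[p]) ^ j * γ →
  (n' : ℤ_[p]) - β = (p : ℤ_[p]) ^ (j + B.u * (n' - n)) * γ' →
  (∃ F ∈ kr ![pw p a ((n : ℤ_[p]) - β) - 1, (B.f p)^[n] z], F ≠ 0) →
  kr ![pw p a ((n' : ℤ_[p]) - β) - 1, (B.f p)^[n'] z] =
    kr ![pw p a ((n : ℤ_[p]) - β) - 1, (B.f p)^[n] z] → γ = γ'

/-- [PEA] (1.4 h; uses `ETD.St_PWB`, `ETD.St_PWP`, `ETD.St_FRO`, `St_ACO`, `St_DGC`, `St_DGZ`, `St_MPR`, `St_FC2`, `St_BLN`,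
`St_EI4`, `St_EI5`) Local zero sets, types `E`, `I`.

Proof. `a - 1` has the order `e > 0`, `z` the order `d > 0`, `u := B.u`. For `n - β = p ^ j γ`, `γ` a unit:
`pw a (n - β) - 1` has the order `e p ^ j` (`St_PWP` (2)) and `(B.f p)^[n] z` the order `d p ^ (u n)`
(`St_ACO`), so in a small ball (`St_BLN`) both are `≥ M + 1 + C` (any constant), and `ζ` exists. If
`H = 0` the first alternative holds. Let `H ≠ 0` and suppose that for every `J` there are `n`, `ζ` as in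
the statement with `ec ζ H = 0`: an infinite set `𝒩` of `n ≠ β`, `n → β`. By `St_FC2` the orders
`e p ^ j - M`, `d p ^ (u n) - M` of the coordinates of `ζ` are comparable with a constant factor, so
`|j - u n| ≤ C₁` for the large `n ∈ 𝒩`. `A_n := ![pw a (n - β) - 1, (B.f p)^[n] z]`. Its coordinates are
`Ex (p ^ j)` (`(pw a γ - 1) ^ p ^ j`, `St_PWP` (1), `ex_pow`) and `Ex (p ^ (u n))` (`St_ACO` (2)), so both are
`Ex (p ^ min j (u n))` (`Ex.mono`), and for large `n` by `St_DGC` all `F ∈ dI M H` vanish at `A_n`, so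
`kr A_n ∈ 𝒬`, a finite set (`St_DGZ`, `St_MPR`). `s` with `Fr k p s` (`St_FRO`). Colour the large `n ∈ 𝒩` by
the integer `j - u n` (in a finite interval), by `kr A_n`, by `n mod s` and by `γ mod p ^ 2`
(`PadicInt.toZModPow 2`): finitely many colours, so infinitely many `n` have the same colour; take
three of them, `n₁ < n₂ < n₃`. `j₂ = j₁ + u (n₂ - n₁)`, etc. By `St_EI5` `γ₁ = γ₂` and `γ₁ = γ₃`, which
contradicts `St_EI4`. So for some `J` the second alternative holds. -/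
def St_PEA : Prop := ∀ (k : Type) [Field k] [Finite k] (p : ℕ) [Fact p.Prime] [CharP k p]
  (a : k⟦X⟧), X ∣ a - 1 → a ≠ 1 → ∀ (B : Op k) (z : k⟦X⟧), X ∣ z → z ≠ 0 →
  ∀ (β : ℤ_[p]) (M : ℕ) (H : MvPowerSeries (Fin 3) k), ∃ J : ℕ,
    (∀ n : ℕ, (p : ℤ_[p]) ^ J ∣ (n : ℤ_[p]) - β → (n : ℤ_[p]) ≠ β →
      ∃ ζ : Fin 2 → k⟦X⟧, Sm ζ ∧ X ^ M * ζ 0 = pw p a ((n : ℤ_[p]) - β) - 1 ∧
        X ^ M * ζ 1 = (B.f p)^[n] z) ∧
    ((∀ (n : ℕ) (ζ : Fin 2 → k⟦X⟧), (p : ℤ_[p]) ^ J ∣ (n : ℤ_[p]) - β → (n : ℤ_[p]) ≠ β →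
      Sm ζ → X ^ M * ζ 0 = pw p a ((n : ℤ_[p]) - β) - 1 → X ^ M * ζ 1 = (B.f p)^[n] z →
      ec ζ H = 0) ∨
    (∀ (n : ℕ) (ζ : Fin 2 → k⟦X⟧), (p : ℤ_[p]) ^ J ∣ (n : ℤ_[p]) - β → (n : ℤ_[p]) ≠ β →
      Sm ζ → X ^ M * ζ 0 = pw p a ((n : ℤ_[p]) - β) - 1 → X ^ M * ζ 1 = (B.f p)^[n] z →
      ec ζ H ≠ 0))

/-- [PEI] (0.8 h; uses `ETD.St_LOC`, `St_LOI`, `ETD.St_HHH`, `St_PEA`, `ETD.St_SUN`, `ETD.St_CPT`, `ETD.St_PRE`, `St_BLL`, `St_RMV`)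
Types `E`, `I`.

Proof. `B`, `z` of `St_LOI` for `y`; if `z = 0` then `y` is constant: `St_PRE`. Let `z ≠ 0` and `β` be
given. `J'`, `M₀` of `St_LOC` for `x` (`W = 0`), `M := M₀`, `ρ 0`; `ρ 1` of `St_LOI` for `M`; `H` of `St_HHH`.
`J` of `St_PEA`, `J'' := max J J'`. For `n ≠ β` in the ball of `J''` the value of `h` is `ec ζ H` for the
`ζ` of `St_PEA`, so it vanishes for all these `n` or for none. So the set of `St_CPT` is, up to the one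
element `n = β`, the ball without `β` (`St_BLL`, `St_RMV`) or empty. -/
def St_PEI : Prop := ∀ (k : Type) [Field k] [Finite k] (p : ℕ) [Fact p.Prime] [CharP k p]
  (x y : ℕ → k⟦X⟧), TyE p x → TyI p y → ∀ h : MvPolynomial (Fin 2) k⟦X⟧,
    PSet p {n : ℕ | MvPolynomial.eval ![x n, y n] h = 0}

end ETA
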