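import Pool.Agent.ETA.StC

/-!
# ETA, statements D: residue discs, reduction to `k⟦t⟧`, main theorem
-/

set_option autoImplicit false
set_option linter.unusedVariables false

namespace ETA

open PowerSeries ETD

/-! ## All pairs of types -/

/-- [UPH] (0.5 h; no other module) Type `U` as orbit of a map `ph` with `a = 1`.

Proof. `α = X ^ 2 * α₂`, `α' := X * α₂`, `E' := ∑ 1 ≤ i < r, C (c i * X ^ (p ^ i - 1)) * Y ^ p ^ (i - 1)`;
`C X` divides `E'` as `p ^ i - 1 ≥ 1`. With `w = X W`: `α + X W + ad p r c (X W) = X (α' + W +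
∑ c i X ^ (p ^ i - 1) (W ^ p) ^ p ^ (i - 1)) = X * ph p α' 1 E' W` (`c 0 = 0`). Induction on `n`. -/
def St_UPH : Prop := ∀ (k : Type) [Field k] (p : ℕ) [Fact p.Prime] [CharP k p] (x : ℕ → k⟦X⟧),
  TyU p x → ∃ (α : k⟦X⟧) (E : Polynomial k⟦X⟧), Lc α 1 E ∧ ∀ n, x n = X * (ph p α 1 E)^[n] 0

/-- [TYP] (0.9 h; uses `ETD.St_NNN`, `ETD.St_NUU`, `ETD.St_PRE`, `St_EVP`, `St_UPH`, `St_PUU`, `St_PUI`, `St_PII`, `St_PEI`) All
pairs of types.

Proof. The set for `(y, x)` and `h` is that for `(x, y)` and the polynomial with exchanged variables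
(`MvPolynomial.rename (Equiv.swap 0 1) h`), so one order of each pair is enough. `E, E`: `St_NNN`.
`E, U`: `St_UPH`, `St_NUU` for the polynomial `h(X₀, X * X₁)` (`MvPolynomial.bind₁` or `aeval`).
`E, I`: `St_PEI`. `U, U`, `U, I`, `I, I`: `St_PUU`, `St_PUI`, `St_PII`. One of them `TyP`, the other one
`E`, `U` or `I`, i.e. an orbit `F^[n] 0`: `St_PRE`. Both `TyP` with periods `N`, `N'`: the set is eventually
periodic with the period `N N'` (`St_EVP`). -/
def St_TYP : Prop := ∀ (k : Type) [Field k] [Finite k] (p : ℕ) [Fact p.Prime] [CharP k p]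
  (x y : ℕ → k⟦X⟧), (TyE p x ∨ TyU p x ∨ TyI p x ∨ TyP x) →
  (TyE p y ∨ TyU p y ∨ TyI p y ∨ TyP y) → ∀ h : MvPolynomial (Fin 2) k⟦X⟧,
    PSet p {n : ℕ | MvPolynomial.eval ![x n, y n] h = 0}

/-! ## Iterates -/

/-- [ADM] (0.7 h; no other module) Composition of additive polynomials.

Proof. Replace `c i` by `0` for `i ≥ r`, `c' j` by `0` for `j ≥ r'`; `r'' := r + r'`,
`c'' l := ∑ i ∈ range (l + 1), c i * c' (l - i) ^ p ^ i`. `ad p r c (ad p r' c' w) =
∑ i, c i * (∑ j, c' j * w ^ p ^ j) ^ p ^ i = ∑ i, j, c i * c' j ^ p ^ i * w ^ p ^ (i + j)`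
(`sum_pow_char_pow`). The lowest terms: for `l < u + u'` one of `i < u`, `l - i < u'` holds; for
`l = u + u'` only `i = u` contributes. -/
def St_ADM : Prop := ∀ (R : Type) [CommRing R] (p : ℕ) [Fact p.Prime] [CharP R p] (r r' : ℕ)
  (c c' : ℕ → R), ∃ (r'' : ℕ) (c'' : ℕ → R),
    (∀ w : R, ad p r c (ad p r' c' w) = ad p r'' c'' w) ∧
    (0 < r → 0 < r' → 0 < r'' ∧ c'' 0 = c 0 * c' 0) ∧
    ∀ u u' : ℕ, u < r → u' < r' → (∀ i < u, c i = 0) → (∀ i < u', c' i = 0) → IsUnit (c u) →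
      IsUnit (c' u') → u + u' < r'' ∧ (∀ i < u + u', c'' i = 0) ∧ IsUnit (c'' (u + u'))

/-- [CLI] (1.2 h; uses `St_ADM`) Iterates of the maps of the second and third kind.

Proof. (1) Induction on `N` (`N = 1` clear): `F^[N + 1] w = F (b' + A' w) = b + A b' + A (A' w)`
(`A` additive), `St_ADM`; `u'' = u + u'`. (2) `A := ad p r c`, `D w := w + A w`, both additive.
`F^[N] w = F^[N] 0 + D^[N] w` (induction). Write `N = p ^ e * N'`, `N'` prime to `p`. In the ring of the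
additive endomorphisms of `R` (`AddMonoid.End R`, of characteristic `p`; if `R` is trivial everything
is trivial): `D ^ p ^ e = 1 + A ^ p ^ e`, and `A ^ p ^ e` is `ad` with lowest index `u p ^ e` and unit
coefficient (as in (1)), call it `A'`, index `u'`. `(1 + A') ^ N' = 1 + A' * Q`,
`Q := ∑ i < N', (N'.choose (i + 1)) A' ^ i`, which is `ad` with the coefficient `N'` at the index `0`
(sums of `ad`s are `ad`s, `A' ^ i` has the lowest index `i u' > 0` for `i > 0`); `N'` is a unit of `R`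
(`N' m = 1 + p l`, so `N' m = 1` in `R`). So `A' * Q` is `ad` with lowest index `u' + 0` and a unit
coefficient by `St_ADM`. -/
def St_CLI : Prop := ∀ (R : Type) [CommRing R] (p : ℕ) [Fact p.Prime] [CharP R p] (r u : ℕ)
  (c : ℕ → R) (b : R) (N : ℕ), 0 < N → 0 < u → u < r → (∀ i < u, c i = 0) → IsUnit (c u) →
  (∃ (r' u' : ℕ) (c' : ℕ → R) (b' : R), 0 < u' ∧ u' < r' ∧ (∀ i < u', c' i = 0) ∧
    IsUnit (c' u') ∧ (fun w => b + ad p r c w)^[N] = fun w => b' + ad p r' c' w) ∧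
  (∃ (r' u' : ℕ) (c' : ℕ → R) (b' : R), 0 < u' ∧ u' < r' ∧ (∀ i < u', c' i = 0) ∧
    IsUnit (c' u') ∧ (fun w => b + w + ad p r c w)^[N] = fun w => b' + w + ad p r' c' w)

/-- [CLJ] (0.4 h; uses `ETD.St_DSC`, `St_CLI`) The class `Cl` is closed under iteration.

Proof. First kind: first claim of `St_DSC`: `(fm p a G)^[N] = fm p (a ^ N) G'`, and
`(a ^ N) ^ m = a ^ (N m) ≠ 1`. Second and third kind: `St_CLI`. Translations: `b + w ↦ N b + w`.
Constants: clear as `N > 0`. -/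
def St_CLJ : Prop := ∀ (R : Type) [CommRing R] (p : ℕ) [Fact p.Prime] [CharP R p] (F : R → R),
  Cl p F → ∀ N : ℕ, 0 < N → Cl p (F^[N])

/-- [DSK] (1.2 h; uses `ETD.St_DSC`, `ETD.St_PMD`, `St_CLI`) Residue discs.

Proof. `x_r := F^[r] x`. All maps of the first three kinds are of the form `fm p a G` (second and third
kind: `a = 0`, `a = 1`, `G = C b + ∑ 1 ≤ i < r, C (c i) * Y ^ p ^ (i - 1)`, as `c 0 = 0`), so by `St_PMD`
there are `n₀`, `N₁` with `X ^ 2 ∣ F^[r + N₁ m] x - F^[r] x` for `r ≥ n₀`. First kind: `N₂` of `St_PMD` with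
`X ∣ a ^ (N₂ m) - 1`, `N := N₁ N₂`. Let `N ∣ N'`, `r ≥ n₀`: `F^[N'] = fm p (a ^ N') G'` (`St_DSC` (1)), and
`St_DSC` (2) for `x_r` gives `α`, `E` with `F^[N'] (x_r + X W) = x_r + X * ph p α (a ^ N') E W`; so
`F^[r + N' m] x = x_r + X * (ph ..)^[m] 0`, `TyE` (`a ^ N' ≠ 1`). Second kind: `N := N₁`,
`F^[N'] = b' + A'`, `A' = ad p r' c'` (`St_CLI` (1)), `F^[N'] (x_r + w) = x_r + (α + A' w)` with
`α := F^[N'] x_r - x_r`, `X ^ 2 ∣ α`: `F^[r + N' m] x = x_r + w_m`, `TyI`. Third kind: the same with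
`F^[N'] (x_r + w) = x_r + (α + w + A' w)`: `TyU` if `α ≠ 0`, and `w_m = 0` for all `m` (`TyP`) if `α = 0`.
Translations: `p b = 0`, so `m ↦ F^[r + N' m] x` has the period `p`: `TyP` with `A = 0`, coefficient `1`.
Constants: `TyP`. -/
def St_DSK : Prop := ∀ (k : Type) [Field k] [Finite k] (p : ℕ) [Fact p.Prime] [CharP k p]
  (F : k⟦X⟧ → k⟦X⟧) (x : k⟦X⟧), Cl p F → ∃ n₀ N : ℕ, 0 < N ∧ ∀ N' : ℕ, 0 < N' → N ∣ N' →
    ∀ r ≥ n₀, ∃ (A b : k⟦X⟧) (x' : ℕ → k⟦X⟧), (TyE p x' ∨ TyU p x' ∨ TyI p x' ∨ TyP x') ∧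
      ∀ m : ℕ, F^[r + N' * m] x = A + b * x' m

/-- [RE2] (0.8 h; uses `St_DSK`, `St_TYP`, `ETD.St_SAF`, `ETD.St_SUN`) The theorem over `k⟦t⟧`, `k` finite.

Proof. `n₀` := the maximum of the two numbers of `St_DSK`, `N` := the product of the two periods. For
`n₀ ≤ r < n₀ + N`: `F^[r + N m] x = A + b x'_m`, `G^[r + N m] y = A' + b' y'_m`, and
`h_r(X₀, X₁) := h(A + b X₀, A' + b' X₁)` (`MvPolynomial.bind₁`/`aeval`); `St_TYP` for `h_r`. The set is the
union of its part below `n₀` and of the images `r + N * {m | ..}` (`St_SAF`, `St_SUN`). -/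
def St_RE2 : Prop := ∀ (k : Type) [Field k] [Finite k] (p : ℕ) [Fact p.Prime] [CharP k p]
  (F G : k⟦X⟧ → k⟦X⟧) (x y : k⟦X⟧) (h : MvPolynomial (Fin 2) k⟦X⟧), Cl p F → Cl p G →
    PSet p {n : ℕ | MvPolynomial.eval ![F^[n] x, G^[n] y] h = 0}

/-! ## Reduction to `k⟦t⟧` -/

/-- [TRO] (0.9 h; no other module) Maps of the class `Cl` descend to finitely generated subrings.

Proof. `s` contains the coefficients of the map (first kind: `a`, `a⁻¹` and the coefficients of `G`;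
second and third kind: `c i`, `i < r`, `(c u)⁻¹` and `b`; `b` otherwise). `F_A` := the map of `A` given by
the same formula with the coefficients in `A` (for a polynomial `G` with coefficients in `A` there is
`G_A` with `G_A.map A.subtype = G`, e.g. `Polynomial.toSubring`; `c_A i := ⟨c i, _⟩` for `i < r`, and `0`
otherwise), `F'` := the same formula with the images under `ι`. `A.subtype` and `ι` commute with the
formulas (`Polynomial.eval_map`-type lemmas, `map_sum`, `map_pow`). `F'` is in `Cl`: `ι (c u)` is a unit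
as `c u` is a unit of `A`; `ι a` is no root of unity as `ι` is injective. -/
def St_TRO : Prop := ∀ (K : Type) [Field K] (p : ℕ) [Fact p.Prime] [CharP K p] (F : K → K),
  Cl p F → ∃ s : Finset K, ∀ (A : Subring K) (R : Type) [CommRing R] (ι : A →+* R),
    Function.Injective ι → (∀ x ∈ s, x ∈ A) → ∃ (FA : A → A) (F' : R → R), Cl p F' ∧
      (∀ w : A, ((FA w : A) : K) = F w) ∧ ∀ w : A, ι (FA w) = F' (ι w)

/-- [RE3] (0.7 h; uses `ETD.St_EMB`, `St_TRO`, `St_RE2`) The theorem for the class `Cl` over a field.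

Proof. `s` := the union of the finsets of `St_TRO` for `F`, `G`, of the coefficients of `h` and of
`{x, y}`. `k`, `A`, `ι` of `St_EMB`. `F_A`, `F'`, `G_A`, `G'` of `St_TRO`, `x_A`, `y_A`, `h_A`
(`h = MvPolynomial.map A.subtype h_A`, e.g. by `MvPolynomial.mem_range_map_iff_coeffs_subset` or as in
`Pool/Agent/ETD/FIN.lean`), `x' := ι x_A`, etc. By induction `F^[n] x` is the image of `F_A^[n] x_A`, and
`ι (F_A^[n] x_A) = F'^[n] x'`. As `ι` and `A.subtype` are injective, the set is that of `St_RE2` for the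
images. -/
def St_RE3 : Prop := ∀ (K : Type) [Field K] (p : ℕ) [Fact p.Prime] [CharP K p] (F G : K → K)
  (x y : K) (h : MvPolynomial (Fin 2) K), Cl p F → Cl p G →
    PSet p {n : ℕ | MvPolynomial.eval ![F^[n] x, G^[n] y] h = 0}

/-- [KCL] (1.1 h; uses `St_ADM`) Some iterate of the maps of the theorem is in the class `Cl`.

Proof. Second case of the hypothesis: `f - C a * X` has derivative `0`, so it is
`Polynomial.expand K p G` (`Polynomial.expand_contract`), and `f.eval x = fm p a G x`; `N = 1`. First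
case: `f.eval x = b + ad p r c x` with `b = f.coeff 0`, `c i = f.coeff (p ^ i)`, `r` with
`f.natDegree < p ^ r` (`Polynomial.eval_eq_sum_range`, `i ↦ p ^ i` is injective). If all `c i = 0`,
`i < r`: a constant, `N = 1`. Otherwise let `u` be the least index with `c u ≠ 0`. `u > 0`: second
kind, `N = 1`. `u = 0`, `c 0` not a root of unity: `f.eval x = fm p (c 0) G x` with
`G = C b + ∑ 1 ≤ i < r, C (c i) * Y ^ p ^ (i - 1)`. `c 0 ^ m = 1`, `m > 0`: `D := ad p r c`,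
`(f.eval)^[m] w = b' + D^[m] w`, and `D^[m] = ad p r' c'`, `r' > 0`, `c' 0 = c 0 ^ m = 1` by induction on
`m ≥ 1` with `St_ADM`. So `(f.eval)^[m] w = b' + w + ad p r' c'' w`, `c'' 0 = 0`, `c'' i = c' i` for
`i > 0`: if all `c'' i = 0`, `i < r'`, a translation, otherwise the third kind with the least `u'` such
that `c'' u' ≠ 0`. -/
def St_KCL : Prop := ∀ (K : Type) [Field K] (p : ℕ) [Fact p.Prime] [CharP K p]
  (f : Polynomial K), ((∀ i : ℕ, i ≠ 0 → f.coeff i ≠ 0 → ∃ j : ℕ, i = p ^ j) ∨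
    ∃ a : K, Polynomial.derivative f = Polynomial.C a ∧ a ≠ 0 ∧ ∀ m : ℕ, 0 < m → a ^ m ≠ 1) →
  ∃ N : ℕ, 0 < N ∧ Cl p ((fun x => Polynomial.eval x f)^[N])

/-- [FI2] (0.6 h; uses `St_KCL`, `St_CLJ`, `St_RE3`, `ETD.St_SAF`, `ETD.St_SUN`) The main theorem.

Proof. `N_f`, `N_g` of `St_KCL`, `N := N_f N_g`; the `N`-th iterates `F`, `G` of the two maps are in `Cl`
(`St_CLJ`, `Function.iterate_mul`). For `r < N` the set of the `m` with
`h (f^[r + N m] γ.1, g^[r + N m] γ.2) = 0` is that of `St_RE3` for `F`, `G` and the points `f^[r] γ.1`,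
`g^[r] γ.2`. The set is the union of the images `r + N * ..` (`St_SAF`, `St_SUN`). -/
def St_FI2 : Prop := ∀ (K : Type) [Field K] (p : ℕ), p.Prime → CharP K p →
  ∀ f g : Polynomial K,
    ((∀ i : ℕ, i ≠ 0 → f.coeff i ≠ 0 → ∃ j : ℕ, i = p ^ j) ∨
      ∃ a : K, Polynomial.derivative f = Polynomial.C a ∧ a ≠ 0 ∧ ∀ m : ℕ, 0 < m → a ^ m ≠ 1) →
    ((∀ i : ℕ, i ≠ 0 → g.coeff i ≠ 0 → ∃ j : ℕ, i = p ^ j) ∨
      ∃ b : K, Polynomial.derivative g = Polynomial.C b ∧ b ≠ 0 ∧ ∀ m : ℕ, 0 < m → b ^ m ≠ 1) →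
    ∀ (γ : K × K) (h : MvPolynomial (Fin 2) K),
      PSet p {n : ℕ | MvPolynomial.eval
        ![(fun x => Polynomial.eval x f)^[n] γ.1, (fun y => Polynomial.eval y g)^[n] γ.2] h = 0}

end ETA
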