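import Pool.Agent.ETA.StD

/-!
# ETA, [UPH]: type `U` as orbit of a map `ph` with `a = 1`
-/

set_option autoImplicit false

namespace ETA

open PowerSeries ETD

/-- [UPH] -/
theorem thm_UPH : St_UPH := by
  intro k _ p hp _ x hx
  obtain ⟨r, u, c, α, hu, hur, hc0, -, ⟨α₂, rfl⟩, -, hx⟩ := hx
  obtain ⟨r', rfl⟩ : ∃ r', r = r' + 1 := ⟨r - 1, by omega⟩
  have hp1 : 1 < p := hp.out.one_lt
  set E : Polynomial k⟦X⟧ := ∑ j ∈ Finset.range r',
    Polynomial.C (c (j + 1) * X ^ (p ^ (j + 1) - 1)) * Polynomial.X ^ p ^ j with hE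
  have key : ∀ W : k⟦X⟧, X ^ 2 * α₂ + X * W + ad p (r' + 1) c (X * W) =
      X * ph p (X * α₂) 1 E W := by
    intro W
    rw [ph, hE, Polynomial.eval_finsetSum, ad, Finset.sum_range_succ', hc0 0 hu, zero_mul, add_zero,
      mul_add, mul_add, one_mul, Finset.mul_sum]
    congr 1
    · ring
    · refine Finset.sum_congr rfl fun j _ => ?_
      rw [Polynomial.eval_mul, Polynomial.eval_C, Polynomial.eval_pow, Polynomial.eval_X, mul_pow,
        ← pow_mul W, ← pow_succ' p j]
      have h1 : (X : k⟦X⟧) ^ p ^ (j + 1) = X * X ^ (p ^ (j + 1) - 1) := by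
        rw [← pow_succ', Nat.sub_add_cancel (Nat.one_le_pow _ _ (by omega))]
      rw [h1]
      ring
  refine ⟨X * α₂, E, ⟨dvd_mul_right _ _, ?_, ?_⟩, ?_⟩
  · rw [sub_self]
    exact dvd_zero _
  · rw [hE]
    refine Finset.dvd_sum fun j _ => ?_
    refine Dvd.dvd.mul_right ?_ _
    rw [map_mul]
    refine Dvd.dvd.mul_left ?_ _
    rw [map_pow]
    refine dvd_pow_self _ ?_
    have h1 : p ≤ p ^ (j + 1) := Nat.le_self_pow (by omega) p
    omega
  · intro n
    rw [hx]
    induction n with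
    | zero => simp
    | succ n ih =>
      rw [Function.iterate_succ_apply', Function.iterate_succ_apply', ih]
      exact key _

end ETA
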